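import Pool.Agent.Lib.MP_0bc52e_nt.N7.Defs
import Pool.Agent.Lib.MP_0bc52e_nt.E16.RegF

/-!
# The leaf check (MP_0bc52e_nt)

A region is a list of forms; the first six are `x - lo1, hi1 - x, y - lo2, hi2 - y, z - lo3, hi3 - z`. The datum of a region is a
modulus `q ∈ {3, 5}` with a residue vector, or a frame that carries the integer points of the region to one of the three lists `l16`.
`ckLs_sound`: then no polytope that satisfies the side condition `NG7` has all its integer points in the region.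
-/

open scoped Pointwise

namespace Pool.Agent.Lib.MP_0bc52e_nt.N7

open Pool.Agent.Lib.MP_0bc52e_nt.LC Pool.Agent.Lib.MP_0bc52e_nt.T Pool.Agent.Lib.MP_0bc52e_nt.R
  Pool.Agent.Lib.MP_0bc52e_nt.K Pool.Agent.Lib.MP_0bc52e_nt.G

deriving instance DecidableEq for F4

/-- The datum of a region. -/
inductive Lf
  | c (q : ℕ) (o : ℤ × ℤ × ℤ)
  | e (k : Fin 3) (t a b c : ℤ × ℤ × ℤ)

/-- The constant coefficient of a form. -/
def dC : F4 → ℤ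
  | .mk _ _ _ d => d

/-- The value of a form at an integer point. -/
def evC : F4 → ℤ → ℤ → ℤ → ℤ
  | .mk a b c d, x, y, z => a * x + b * y + c * z + d

/-- The constant coefficient of the `i`-th form. -/
def dN (F : List F4) (i : ℕ) : ℤ := dC (F.getD i (.mk 0 0 0 0))

/-- The forms of the box are in the list. -/
def ckB (F : List F4) (l1 h1 l2 h2 l3 h3 : ℤ) : Bool :=
  decide (F4.mk 1 0 0 (-l1) ∈ F ∧ F4.mk (-1) 0 0 h1 ∈ F ∧ F4.mk 0 1 0 (-l2) ∈ F ∧ F4.mk 0 (-1) 0 h2 ∈ F ∧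
    F4.mk 0 0 1 (-l3) ∈ F ∧ F4.mk 0 0 (-1) h3 ∈ F)

/-- The forms as inequalities. -/
def toH (F : List F4) : List (ℤ × ℤ × ℤ × ℤ) :=
  F.map fun f => match f with | .mk a b c d => (-a, -b, -c, d)

/-- The integers from `lo` to `hi`. -/
def rg (lo hi : ℤ) : List ℤ := (List.range (hi - lo + 1).toNat).map fun k : ℕ => lo + (k : ℤ)

/-- The enumeration for a frame. -/
def ckF (F : List F4) (L : List (ℤ × ℤ × ℤ)) (l1 h1 l2 h2 l3 h3 : ℤ) (t a b c : ℤ × ℤ × ℤ) : Bool :=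
  (rg l1 h1).all fun x => (rg l2 h2).all fun y => (rg l3 h3).all fun z =>
    !(F.all fun f => decide (0 ≤ evC f x y z)) ||
      L.any fun v => decide (t.1 + v.1 * a.1 + v.2.1 * b.1 + v.2.2 * c.1 = x ∧
        t.2.1 + v.1 * a.2.1 + v.2.1 * b.2.1 + v.2.2 * c.2.1 = y ∧
        t.2.2 + v.1 * a.2.2 + v.2.1 * b.2.2 + v.2.2 * c.2.2 = z)

/-- The check for one region. -/
def ckLf (F : List F4) : Lf → Bool
  | .c q o => (q == 3 || q == 5) && ckB F (-dN F 0) (dN F 1) (-dN F 2) (dN F 3) (-dN F 4) (dN F 5) &&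
      ckC q o (-dN F 0, -dN F 2, -dN F 4) (dN F 1, dN F 3, dN F 5) (toH F)
  | .e k t a b c => decide (det3 a b c = 1 ∨ det3 a b c = -1) &&
      ckB F (-dN F 0) (dN F 1) (-dN F 2) (dN F 3) (-dN F 4) (dN F 5) &&
      ckF F (l16 k) (-dN F 0) (dN F 1) (-dN F 2) (dN F 3) (-dN F 4) (dN F 5) t a b c

/-- The check for a table of regions. -/
def ckLs : List (List F4) → List Lf → Bool
  | [], _ => true
  | F :: Fs, l :: ls => ckLf F l && ckLs Fs ls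
  | _ :: _, [] => false

private lemma ev_eq (f : F4) (x : ℤ × ℤ × ℤ) : f.ev x 1 = evC f x.1 x.2.1 x.2.2 := by
  obtain ⟨a, b, c, d⟩ := f
  show a * x.1 + b * x.2.1 + c * x.2.2 + d * 1 = a * x.1 + b * x.2.1 + c * x.2.2 + d
  ring

private lemma ckB_sound {F : List F4} {l1 h1 l2 h2 l3 h3 : ℤ} (h : ckB F l1 h1 l2 h2 l3 h3 = true)
    {x : ℤ × ℤ × ℤ} (hx : ∀ f ∈ F, 0 ≤ f.ev x 1) :
    (l1 ≤ x.1 ∧ x.1 ≤ h1) ∧ (l2 ≤ x.2.1 ∧ x.2.1 ≤ h2) ∧ (l3 ≤ x.2.2 ∧ x.2.2 ≤ h3) := by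
  unfold ckB at h
  obtain ⟨a1, a2, a3, a4, a5, a6⟩ := of_decide_eq_true h
  have b1 := hx _ a1
  have b2 := hx _ a2
  have b3 := hx _ a3
  have b4 := hx _ a4
  have b5 := hx _ a5
  have b6 := hx _ a6
  rw [ev_eq] at b1 b2 b3 b4 b5 b6
  simp only [evC] at b1 b2 b3 b4 b5 b6
  refine ⟨⟨?_, ?_⟩, ⟨?_, ?_⟩, ⟨?_, ?_⟩⟩ <;> linarith

private lemma inHs_of {F : List F4} {x : ℤ × ℤ × ℤ} (hx : ∀ f ∈ F, 0 ≤ f.ev x 1) :
    inHs (toH F) 1 x.1 x.2.1 x.2.2 = true := by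
  unfold inHs toH
  rw [List.all_eq_true]
  intro t ht
  rw [List.mem_map] at ht
  obtain ⟨f, hf, rfl⟩ := ht
  have h1 := hx f hf
  rw [ev_eq] at h1
  obtain ⟨a, b, c, d⟩ := f
  simp only [evC] at h1
  rw [decide_eq_true_eq]
  show -a * x.1 + -b * x.2.1 + -c * x.2.2 ≤ 1 * d
  linarith

private lemma mem_rg {lo hi x : ℤ} (h1 : lo ≤ x) (h2 : x ≤ hi) : x ∈ rg lo hi := by
  unfold rg
  rw [List.mem_map]
  refine ⟨(x - lo).toNat, List.mem_range.2 (by omega), ?_⟩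
  rw [Int.toNat_of_nonneg (by omega)]
  ring

private lemma ckF_sound {F : List F4} {L : List (ℤ × ℤ × ℤ)} {l1 h1 l2 h2 l3 h3 : ℤ} {t a b c : ℤ × ℤ × ℤ}
    (h : ckF F L l1 h1 l2 h2 l3 h3 t a b c = true) {x : ℤ × ℤ × ℤ} (hx : ∀ f ∈ F, 0 ≤ f.ev x 1)
    (hb : (l1 ≤ x.1 ∧ x.1 ≤ h1) ∧ (l2 ≤ x.2.1 ∧ x.2.1 ≤ h2) ∧ (l3 ≤ x.2.2 ∧ x.2.2 ≤ h3)) :
    ∃ v ∈ L, fr t a b c (ip v) = ip x := by
  unfold ckF at h
  have a1 := List.all_eq_true.1 h x.1 (mem_rg hb.1.1 hb.1.2)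
  have a2 := List.all_eq_true.1 a1 x.2.1 (mem_rg hb.2.1.1 hb.2.1.2)
  have a3 := List.all_eq_true.1 a2 x.2.2 (mem_rg hb.2.2.1 hb.2.2.2)
  have a4 : (F.all fun f => decide (0 ≤ evC f x.1 x.2.1 x.2.2)) = true := by
    rw [List.all_eq_true]
    intro f hf
    rw [decide_eq_true_eq, ← ev_eq]
    exact hx f hf
  rw [a4, Bool.not_true, Bool.false_or, List.any_eq_true] at a3
  obtain ⟨v, hv, hd⟩ := a3
  obtain ⟨e1, e2, e3⟩ := of_decide_eq_true hd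
  refine ⟨v, hv, ?_⟩
  unfold fr ip
  refine Prod.ext ?_ (Prod.ext ?_ ?_)
  · show (((t.1 : ℤ) : ℝ) + (v.1 : ℝ) * (a.1 : ℝ) + (v.2.1 : ℝ) * (b.1 : ℝ) + (v.2.2 : ℝ) * (c.1 : ℝ)) = (x.1 : ℝ)
    rw [← e1]
    push_cast
    ring
  · show (((t.2.1 : ℤ) : ℝ) + (v.1 : ℝ) * (a.2.1 : ℝ) + (v.2.1 : ℝ) * (b.2.1 : ℝ) + (v.2.2 : ℝ) * (c.2.1 : ℝ)) =
      (x.2.1 : ℝ)
    rw [← e2]
    push_cast
    ring
  · show (((t.2.2 : ℤ) : ℝ) + (v.1 : ℝ) * (a.2.2 : ℝ) + (v.2.1 : ℝ) * (b.2.2 : ℝ) + (v.2.2 : ℝ) * (c.2.2 : ℝ)) =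
      (x.2.2 : ℝ)
    rw [← e3]
    push_cast
    ring

lemma ckLf_sound {F : List F4} {l : Lf} (h : ckLf F l = true) {Q : Set (ℝ × ℝ × ℝ)} (hQ : PP0 Q)
    (hN : NG7 Q) : ∃ x : ℤ × ℤ × ℤ, ip x ∈ Q ∧ ¬ ∀ g ∈ F, 0 ≤ g.ev x 1 := by
  by_contra hcon
  push Not at hcon
  obtain ⟨hP, hpc, -⟩ := hQ
  obtain ⟨n1, n2, n3, n4⟩ := hN
  cases l with
  | c q o =>
    have h' : ((q == 3 || q == 5) && ckB F (-dN F 0) (dN F 1) (-dN F 2) (dN F 3) (-dN F 4) (dN F 5) &&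
      ckC q o (-dN F 0, -dN F 2, -dN F 4) (dN F 1, dN F 3, dN F 5) (toH F)) = true := h
    rw [Bool.and_eq_true, Bool.and_eq_true, Bool.or_eq_true, beq_iff_eq, beq_iff_eq] at h'
    obtain ⟨⟨hq, hb⟩, hc⟩ := h'
    have hcr : Cr Q q := ckC_sound hc hP (fun x hx => ⟨inHs_of (hcon x hx), ckB_sound hb (hcon x hx)⟩)
    rcases hq with rfl | rfl
    · exact n2 hcr
    · exact n3 hcr
  | e k t a b c =>
    have h' : (decide (det3 a b c = 1 ∨ det3 a b c = -1) &&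
      ckB F (-dN F 0) (dN F 1) (-dN F 2) (dN F 3) (-dN F 4) (dN F 5) &&
      ckF F (l16 k) (-dN F 0) (dN F 1) (-dN F 2) (dN F 3) (-dN F 4) (dN F 5) t a b c) = true := h
    rw [Bool.and_eq_true, Bool.and_eq_true, decide_eq_true_eq] at h'
    obtain ⟨⟨hd, hb⟩, hc⟩ := h'
    have hfr : IsFr (fr t a b c) := ⟨t, a, b, c, hd, fun _ => rfl⟩
    have := reg16 T.p_fr1 (T.p_fr2 T.p_fr1) hP hpc n1 (fr t a b c) hfr k (fun x hx =>
      ckF_sound hc (hcon x hx) (ckB_sound hb (hcon x hx)))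
    rcases this with h | h | h
    · exact n2 h
    · exact n3 h
    · exact n4 h

theorem ckLs_sound : ∀ {regs : List (List F4)} {ls : List Lf}, ckLs regs ls = true →
    RegOK (Sc NG7 PP0) regs := by
  intro regs
  induction regs with
  | nil =>
    intro ls _ F hF
    exact absurd hF List.not_mem_nil
  | cons F0 Fs ih =>
    intro ls h F hF Q hQ
    cases ls with
    | nil =>
      have h' : false = true := h
      exact absurd h' (by decide)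
    | cons l ls =>
      have h' : (ckLf F0 l && ckLs Fs ls) = true := h
      rw [Bool.and_eq_true] at h'
      rcases List.mem_cons.1 hF with rfl | hF
      · exact ckLf_sound h'.1 hQ.1 hQ.2
      · exact ih h'.2 F hF Q hQ

lemma regOK_mono {PP PP' : Set (ℝ × ℝ × ℝ) → Prop} {regs : List (List F4)} (h : ∀ Q, PP' Q → PP Q)
    (hR : RegOK PP regs) : RegOK PP' regs := fun F hF Q hQ => hR F hF Q (h Q hQ)

lemma regOK1 {regs : List (List F4)} (hR : RegOK (Sc NG7 PP0) regs) : RegOK (Sc NG7 PP1) regs :=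
  regOK_mono (fun _ h => ⟨h.1.1, h.2⟩) hR

lemma regOKh {regs : List (List F4)} (hR : RegOK (Sc NG7 PP0) regs) (b : Fin 3) :
    RegOK (Sc NG7 (PPh b)) regs := regOK_mono (fun _ h => ⟨h.1.1, h.2⟩) hR

/-- In an append of two tables. -/
lemma regOK_append {PP : Set (ℝ × ℝ × ℝ) → Prop} {r s : List (List F4)} (h1 : RegOK PP r) (h2 : RegOK PP s) :
    RegOK PP (r ++ s) := by
  intro F hF Q hQ
  rcases List.mem_append.1 hF with h | h
  · exact h1 F h Q hQ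
  · exact h2 F h Q hQ

end Pool.Agent.Lib.MP_0bc52e_nt.N7
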