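import Pool.Agent.Lib.MP_0bc52e_nt.N7.Stm
import Pool.Agent.Lib.MP_0bc52e_nt.K.All

/-!
Soundness of the checker `N7/Chk.lean` (MP_0bc52e_nt).
-/

set_option autoImplicit false

namespace Pool.Agent.Lib.MP_0bc52e_nt.N7

open Pool.Agent.Lib.MP_0bc52e_nt.LC Pool.Agent.Lib.MP_0bc52e_nt.T Pool.Agent.Lib.MP_0bc52e_nt.R Pool.Agent.Lib.MP_0bc52e_nt.K

private lemma ev_df (x : ℤ × ℤ × ℤ) : (F4.mk 0 0 0 (-1)).ev x 1 = -1 := by
  show 0 * x.1 + 0 * x.2.1 + 0 * x.2.2 + -1 * 1 = (-1 : ℤ)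
  ring

private lemma rgn_lt {regs : List (List F4)} {n : ℕ} (h : n < 2) : rgn regs n = [F4.mk 0 0 0 (-1)] := by
  have hc : n = 0 ∨ n = 1 := by omega
  rcases hc with rfl | rfl <;> rfl

private lemma rgn_ge {regs : List (List F4)} {n : ℕ} (h : 2 ≤ n) :
    rgn regs n = nth [F4.mk 0 0 0 (-1)] regs (Nat.sub n 2) := by
  obtain ⟨k, rfl⟩ : ∃ k, n = k + 2 := ⟨n - 2, by omega⟩
  cases k with
  | zero => rfl
  | succ k => rfl

theorem p_rgn : S_rgn := by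
  intro PP regs hC hR
  have h1 : ∀ (f : Fam) (x : P3), fdim f < 2 → ¬ InR regs f x := by
    intro f x hf hx
    unfold InR at hx
    rw [rgn_lt hf] at hx
    have := hx _ (List.mem_singleton.2 rfl)
    rw [ev_df] at this
    omega
  refine ⟨h1, ?_⟩
  intro f Q hQ
  by_cases hf : fdim f < 2
  · exact ⟨(0, 0, 0), (hC Q hQ).2.2, h1 f _ hf⟩
  · rcases K.q_nth (List F4) [F4.mk 0 0 0 (-1)] regs (Nat.sub (fdim f) 2) with h | h
    · obtain ⟨x, hx, hn⟩ := hR _ h Q hQ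
      refine ⟨x, hx, ?_⟩
      unfold InR
      rw [rgn_ge (by omega)]
      exact hn
    · refine ⟨(0, 0, 0), (hC Q hQ).2.2, ?_⟩
      unfold InR
      rw [rgn_ge (by omega), h]
      intro hx
      have := hx _ (List.mem_singleton.2 rfl)
      rw [ev_df] at this
      omega

private theorem p_pushF_b0 {κ L h M : ℤ} (hL : 0 ≤ L) (hh : 0 < h) (hM : M = h * (L + 1))
    (hκ : L + 1 ≤ κ) : Bt κ 0 h M := by
  subst hM
  exact ⟨by rw [zero_mul]; positivity, mul_le_mul_of_nonneg_left hκ hh.le⟩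

private theorem p_pushF_bp {κ M m : ℤ} (hm : m = κ) : Bt κ M M (M * m) := by
  subst hm
  exact ⟨le_rfl, le_rfl⟩

private theorem p_pushF_bn {κ M m : ℤ} (hm : m = -κ) : Bt κ (-M) (-M) (M * m) := by
  subst hm
  unfold Bt
  constructor
  · exact (by ring : -M * κ = M * -κ).le
  · exact (by ring : M * -κ = -M * κ).le

private theorem p_pushF_bb {κ M m : ℤ} (hM : 0 ≤ M) (h1 : -κ ≤ m) (h2 : m ≤ κ) :
    Bt κ (-M) M (M * m) := by
  constructor
  · have := mul_le_mul_of_nonneg_left h1 hM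
    linarith [(by ring : -M * κ = M * -κ)]
  · exact mul_le_mul_of_nonneg_left h2 hM

private theorem p_pushF_bz {κ M m : ℤ} (hm : m = 0) : Bt κ 0 0 (M * m) := by
  subst hm
  unfold Bt
  simp

private theorem p_pushF_one {L m : ℤ} (h1 : -L ≤ m) (h2 : m ≤ L) : Bt 1 (-L) L (1 * m) := by
  unfold Bt
  constructor <;> linarith

theorem p_pushF7 : S_pushF7 := by
  obtain ⟨-, -, -, -, hng, -, -⟩ := K.q_op1
  intro PP p D regs V0 V u1 u2 u3 L M h l f hL hh hM hA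
  have hM0 : 0 < M := by rw [hM]; positivity
  have h11 : Bt 1 1 1 1 := ⟨le_rfl, le_rfl⟩
  cases f with
  | mk t1 t2 t3 b1 b2 b3 dim =>
  cases dim with
  | zero =>
    obtain ⟨g0, g1, g2, g3, g4, hl⟩ := hA
    simp only [hng] at g0 g1 g2 g3 g4
    refine ⟨fun m1 m2 m3 hok => ?_, hl⟩
    have hm3 : m3 = 0 := hok rfl
    by_cases hn : (-L ≤ m1 ∧ m1 ≤ L) ∧ (-L ≤ m2 ∧ m2 ≤ L)
    · exact g0 m1 m2 m3 1 1 one_pos one_pos (Or.inr ⟨rfl, rfl, rfl⟩) h11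
        (p_pushF_one hn.1.1 hn.1.2) (p_pushF_one hn.2.1 hn.2.2) (p_pushF_bz hm3)
    · rcases le_total m2.natAbs m1.natAbs with ha | ha
      · rcases le_total 0 m1 with hs | hs
        · exact g1 m1 m2 m3 m1 M (by omega) hM0 (Or.inl rfl) (p_pushF_b0 hL hh hM (by omega))
            (p_pushF_bp rfl) (p_pushF_bb hM0.le (by omega) (by omega)) (p_pushF_bz hm3)
        · exact g2 m1 m2 m3 (-m1) M (by omega) hM0 (Or.inl rfl)
            (p_pushF_b0 hL hh hM (by omega)) (p_pushF_bn (by omega))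
            (p_pushF_bb hM0.le (by omega) (by omega)) (p_pushF_bz hm3)
      · rcases le_total 0 m2 with hs | hs
        · exact g3 m1 m2 m3 m2 M (by omega) hM0 (Or.inl rfl) (p_pushF_b0 hL hh hM (by omega))
            (p_pushF_bb hM0.le (by omega) (by omega)) (p_pushF_bp rfl) (p_pushF_bz hm3)
        · exact g4 m1 m2 m3 (-m2) M (by omega) hM0 (Or.inl rfl)
            (p_pushF_b0 hL hh hM (by omega)) (p_pushF_bb hM0.le (by omega) (by omega))
            (p_pushF_bn (by omega)) (p_pushF_bz hm3)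
  | succ dim =>
    obtain ⟨g0, g1, g2, g3, g4, g5, g6, hl⟩ := hA
    simp only [hng] at g0 g1 g2 g3 g4 g5 g6
    refine ⟨fun m1 m2 m3 _ => ?_, hl⟩
    by_cases hn : (-L ≤ m1 ∧ m1 ≤ L) ∧ (-L ≤ m2 ∧ m2 ≤ L) ∧ (-L ≤ m3 ∧ m3 ≤ L)
    · exact g0 m1 m2 m3 1 1 one_pos one_pos (Or.inr ⟨rfl, rfl, rfl⟩) h11
        (p_pushF_one hn.1.1 hn.1.2) (p_pushF_one hn.2.1.1 hn.2.1.2)
        (p_pushF_one hn.2.2.1 hn.2.2.2)
    · have hcase : (m2.natAbs ≤ m1.natAbs ∧ m3.natAbs ≤ m1.natAbs) ∨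
          (m1.natAbs ≤ m2.natAbs ∧ m3.natAbs ≤ m2.natAbs) ∨
          (m1.natAbs ≤ m3.natAbs ∧ m2.natAbs ≤ m3.natAbs) := by
        rcases le_total m1.natAbs m2.natAbs with h1 | h1 <;>
        rcases le_total m2.natAbs m3.natAbs with h2 | h2 <;>
        rcases le_total m1.natAbs m3.natAbs with h3 | h3
        · exact Or.inr (Or.inr ⟨h3, h2⟩)
        · exact Or.inr (Or.inr ⟨h1.trans h2, h2⟩)
        · exact Or.inr (Or.inl ⟨h1, h2⟩)
        · exact Or.inr (Or.inl ⟨h1, h2⟩)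
        · exact Or.inr (Or.inr ⟨h3, h2⟩)
        · exact Or.inl ⟨h1, h3⟩
        · exact Or.inl ⟨h1, h2.trans h1⟩
        · exact Or.inl ⟨h1, h3⟩
      rcases hcase with ⟨ha, hb⟩ | ⟨ha, hb⟩ | ⟨ha, hb⟩
      · rcases le_total 0 m1 with hs | hs
        · exact g1 m1 m2 m3 m1 M (by omega) hM0 (Or.inl rfl) (p_pushF_b0 hL hh hM (by omega))
            (p_pushF_bp rfl) (p_pushF_bb hM0.le (by omega) (by omega))
            (p_pushF_bb hM0.le (by omega) (by omega))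
        · exact g2 m1 m2 m3 (-m1) M (by omega) hM0 (Or.inl rfl)
            (p_pushF_b0 hL hh hM (by omega)) (p_pushF_bn (by omega))
            (p_pushF_bb hM0.le (by omega) (by omega)) (p_pushF_bb hM0.le (by omega) (by omega))
      · rcases le_total 0 m2 with hs | hs
        · exact g3 m1 m2 m3 m2 M (by omega) hM0 (Or.inl rfl) (p_pushF_b0 hL hh hM (by omega))
            (p_pushF_bb hM0.le (by omega) (by omega)) (p_pushF_bp rfl)
            (p_pushF_bb hM0.le (by omega) (by omega))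
        · exact g4 m1 m2 m3 (-m2) M (by omega) hM0 (Or.inl rfl)
            (p_pushF_b0 hL hh hM (by omega)) (p_pushF_bb hM0.le (by omega) (by omega))
            (p_pushF_bn (by omega)) (p_pushF_bb hM0.le (by omega) (by omega))
      · rcases le_total 0 m3 with hs | hs
        · exact g5 m1 m2 m3 m3 M (by omega) hM0 (Or.inl rfl) (p_pushF_b0 hL hh hM (by omega))
            (p_pushF_bb hM0.le (by omega) (by omega)) (p_pushF_bb hM0.le (by omega) (by omega))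
            (p_pushF_bp rfl)
        · exact g6 m1 m2 m3 (-m3) M (by omega) hM0 (Or.inl rfl)
            (p_pushF_b0 hL hh hM (by omega)) (p_pushF_bb hM0.le (by omega) (by omega))
            (p_pushF_bb hM0.le (by omega) (by omega)) (p_pushF_bn (by omega))

theorem p_pushL7 : S_pushL7 := by
  intro PP p D regs V0 V u1 u2 u3 L M h l fs hL hh hM hall
  cases fs with
  | nil =>
    have h1 : False := hall
    exact h1.elim
  | cons f0 fs' =>
    have key : ∀ gs : List Fam,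
        All7 PP p D regs V0 (List.rec (motive := fun _ => G) l
          (fun f _ ih => pushF V u1 u2 u3 L M h ih f) gs) →
        (∀ f ∈ gs, ∀ m1 m2 m3 : ℤ, f.ok m3 →
          InR regs f (f.pt m1 m2 m3) ∨ Dd PP p (f.pt m1 m2 m3 :: V) (u1, u2, u3)) ∧
          All7 PP p D regs V0 l := by
      intro gs
      induction gs with
      | nil =>
        intro hg
        refine ⟨?_, hg⟩
        intro f hf
        exact absurd hf List.not_mem_nil
      | cons g gs ih =>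
        intro hg
        have h1 : All7 PP p D regs V0 (pushF V u1 u2 u3 L M h
          (List.rec (motive := fun _ => G) l (fun f _ ih => pushF V u1 u2 u3 L M h ih f) gs) g) :=
          hg
        obtain ⟨h2, h3⟩ := p_pushF7 PP p D regs V0 V u1 u2 u3 L M h _ g hL hh hM h1
        obtain ⟨h4, h5⟩ := ih h3
        refine ⟨?_, h5⟩
        intro f hf
        rcases List.mem_cons.1 hf with rfl | hf
        · exact h2
        · exact h4 f hf
    obtain ⟨h1, h2⟩ := key (f0 :: fs') hall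
    exact ⟨List.cons_ne_nil _ _, h1, h2⟩

private theorem p_spO_bad {PP : Set (ℝ × ℝ × ℝ) → Prop} {p : ℤ} {D : ℤ × ℤ × ℤ → Prop}
    {regs : List (List F4)} {V0 : List P3} (h : All7 PP p D regs V0 G.bad) : False := h

private theorem p_spO_o {PP : Set (ℝ × ℝ × ℝ) → Prop} {p : ℤ} {D : ℤ × ℤ × ℤ → Prop}
    {regs : List (List F4)} {V0 : List P3} {a1 b1 a2 b2 a3 b3 : ℤ} {l : G} (h : All7 PP p D regs V0 (G.o a1 b1 a2 b2 a3 b3 l)) :
    GO PP p 1 1 D V0 a1 b1 a2 b2 a3 b3 ∧ All7 PP p D regs V0 l := h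

private theorem p_spO7 (PP : Set (ℝ × ℝ × ℝ) → Prop) (p : ℤ) (D : ℤ × ℤ × ℤ → Prop) (regs : List (List F4))
    (V0 : List P3) (a1 b1 a2 b2 a3 b3 : ℤ) (l : G) (ax m dl : ℕ) (hdl : dl = 1)
    (h : All7 PP p D regs V0 (spO dl a1 b1 a2 b2 a3 b3 l ax m)) :
    GO PP p 1 1 D V0 a1 b1 a2 b2 a3 b3 ∧ All7 PP p D regs V0 l := by
  have hdl : dl = 0 ∨ dl = 1 ∧ (1 : ℤ) = 1 ∧ (1 : ℤ) = 1 := Or.inr ⟨hdl, rfl, rfl⟩
  obtain ⟨h1, h2, h3⟩ := K.q_GOs PP p 1 1 D V0 a1 b1 a2 b2 a3 b3 (m : ℤ) dl hdl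
  have hm : Int.ofNat m = (m : ℤ) := rfl
  have hmd : Int.ofNat (Nat.add m dl) = (m : ℤ) + dl := by
    show ((m + dl : ℕ) : ℤ) = _
    push_cast
    rfl
  obtain ⟨-, -, -, -, -, -, -, -, hsel, -⟩ := K.q_op2
  unfold spO at h
  match ax, h with
  | 0, h =>
    rw [(hsel _ _ _ _ _).1, hm, hmd] at h
    obtain ⟨h4, h5⟩ := p_spO_o h
    obtain ⟨h5, h6⟩ := p_spO_o h5
    exact ⟨h1 h4 h5, h6⟩
  | 1, h =>
    rw [(hsel _ _ _ _ _).2.1, hm, hmd] at h
    obtain ⟨h4, h5⟩ := p_spO_o h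
    obtain ⟨h5, h6⟩ := p_spO_o h5
    exact ⟨h2 h4 h5, h6⟩
  | 2, h =>
    rw [(hsel _ _ _ _ _).2.2.1, hm, hmd] at h
    obtain ⟨h4, h5⟩ := p_spO_o h
    obtain ⟨h5, h6⟩ := p_spO_o h5
    exact ⟨h3 h4 h5, h6⟩
  | k + 3, h =>
    rw [(hsel _ _ _ _ _).2.2.2 k] at h
    exact (p_spO_bad h).elim

private theorem p_alO7 (PP : Set (ℝ × ℝ × ℝ) → Prop) (p : ℤ) (D : ℤ × ℤ × ℤ → Prop) (regs : List (List F4))
    (V0 : List P3) (ofams : List (List Fam)) (a1 b1 a2 b2 a3 b3 : ℤ) (l : G) (d : ℕ) (hC : Cls PP)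
    (hR : RegOK PP regs) (hfam : FamOK PP ofams) (hdim : ∀ fs ∈ ofams, ∀ f ∈ fs, fdim f < 2)
    (hall : All7 PP p D regs V0 (alO V0 ofams a1 b1 a2 b2 a3 b3 l d)) :
    GO PP p 1 1 D V0 a1 b1 a2 b2 a3 b3 ∧ All7 PP p D regs V0 l := by
  obtain ⟨hst, -⟩ := K.q_op1
  obtain ⟨-, -, heq, han, -, -, -, -, -, hgd⟩ := K.q_op2
  unfold alO at hall
  by_cases hp : pt1 a1 b1 a2 b2 a3 b3 = true
  · rw [hp, (hgd _).1, hst] at hall
    unfold pt1 at hp
    rw [han, han, heq, heq, heq] at hp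
    obtain ⟨e1, e2, e3⟩ := hp
    obtain ⟨hne, hd, hl⟩ := p_pushL7 PP p D regs V0 V0 a1 a2 a3 _ _ 256 l _
      (Int.natCast_nonneg _) (by norm_num)
      (show (Int.ofNat (Nat.mul 256 (Nat.succ (Nat.mod (Nat.div d 1024) 256))) : ℤ) =
        256 * (Int.ofNat (Nat.mod (Nat.div d 1024) 256) + 1) by
          have : (Nat.mul 256 (Nat.succ (Nat.mod (Nat.div d 1024) 256))) =
            256 * ((Nat.mod (Nat.div d 1024) 256) + 1) := rfl
          rw [this]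
          push_cast
          rfl) hall
    refine ⟨?_, hl⟩
    intro u hu h1 h2 h3 hmin Q hQ hV
    have hmem : nth [] ofams (Nat.mod (Nat.div d 4) 256) ∈ ofams := by
      rcases K.q_nth (List Fam) [] ofams (Nat.mod (Nat.div d 4) 256) with h | h
      · exact h
      · exact absurd h hne
    obtain ⟨f, hf, m1, m2, m3, hok, hin⟩ := hfam _ hmem Q hQ
    have hu' : u = (a1, a2, a3) := by
      obtain ⟨u1, u2, u3⟩ := u
      unfold Bt at h1 h2 h3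
      simp only at h1 h2 h3
      have i1 : u1 = a1 := by omega
      have i2 : u2 = a2 := by omega
      have i3 : u3 = a3 := by omega
      rw [i1, i2, i3]
    rw [hu']
    refine ((hd f hf m1 m2 m3 hok).resolve_left ((p_rgn PP regs hC hR).1 f _ (hdim _ hmem f hf))) Q hQ ?_
    intro v hv
    rcases List.mem_cons.1 hv with rfl | hv
    · exact hin
    · exact hV v hv
  · rw [Bool.not_eq_true] at hp
    rw [hp, (hgd _).2] at hall
    exact False.elim hall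

private theorem p_syO7 (PP : Set (ℝ × ℝ × ℝ) → Prop) (q : ℤ) (D : ℤ × ℤ × ℤ → Prop) (regs : List (List F4))
    (V0 : List P3) (syms : List M3) (a1 b1 a2 b2 a3 b3 : ℤ) (l : G) (d : ℕ) (hq : 0 < q)
    (hS : SymOK PP q D V0 (I3 :: syms)) (hA : All7 PP q D regs V0 (syO q syms a1 b1 a2 b2 a3 b3 l d)) :
    GO PP q 1 1 D V0 a1 b1 a2 b2 a3 b3 ∧ All7 PP q D regs V0 l := by
  obtain ⟨-, -, -, -, hng, hmu, had⟩ := K.q_op1
  obtain ⟨-, hps, heqi, han, -, hdt, hmd, hcod, -, hgd⟩ := K.q_op2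
  unfold syO at hA
  set g : M3 := nth (M3.mk 1 0 0 0 1 0 0 0 1) syms (Nat.div d 4) with hg
  have hgm : g ∈ I3 :: syms := by
    rcases K.q_nth M3 (M3.mk 1 0 0 0 1 0 0 0 1) syms (Nat.div d 4) with h | h
    · exact List.mem_cons_of_mem _ h
    · rw [hg, h]; exact List.mem_cons_self
  clear_value g
  obtain ⟨hD, hQ⟩ := hS g hgm
  cases g with
  | mk x1 x2 x3 y1 y2 y3 z1 z2 z3 =>
  set B : Bool := an (pt1 a1 b1 a2 b2 a3 b3)
    (M3.rec (fun x1 x2 x3 y1 y2 y3 z1 z2 z3 =>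
      ps (ad (cod q a1 a2 a3) (ng (cod q (md (dt x1 x2 x3 a1 a2 a3) q) (md (dt y1 y2 y3 a1 a2 a3) q)
        (md (dt z1 z2 z3 a1 a2 a3) q))))) (M3.mk x1 x2 x3 y1 y2 y3 z1 z2 z3)) with hB
  have hBt : B = true := by
    cases hb : B with
    | true => rfl
    | false =>
      rw [hb, (hgd l).2] at hA
      exact absurd hA (fun h => h)
  rw [hBt, (hgd l).1] at hA
  refine ⟨?_, hA⟩
  rw [hB] at hBt
  obtain ⟨hp, hc⟩ := (han _ _).1 hBt
  unfold pt1 at hp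
  obtain ⟨e1, hp⟩ := (han _ _).1 hp
  obtain ⟨e2, e3⟩ := (han _ _).1 hp
  have e1 := (heqi _ _).1 e1
  have e2 := (heqi _ _).1 e2
  have e3 := (heqi _ _).1 e3
  have hc := (hps _).1 hc
  rw [had, hng, hdt, hdt, hdt, hmd _ _ hq, hmd _ _ hq, hmd _ _ hq] at hc
  rintro ⟨u1, u2, u3⟩ hDu ⟨k1, k2⟩ ⟨k3, k4⟩ ⟨k5, k6⟩ hind
  have hu1 : u1 = a1 := by simp only at k1 k2; omega
  have hu2 : u2 = a2 := by simp only at k3 k4; omega
  have hu3 : u3 = a3 := by simp only at k5 k6; omega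
  subst hu1 hu2 hu3
  intro Q hPQ hV hal
  obtain ⟨Q', hPQ', hV', hal'⟩ := hQ Q hPQ hV
  have hdead := hind _ (hD _ hDu) (by
    show cod q ((x1 * u1 + x2 * u2 + x3 * u3) % q) ((y1 * u1 + y2 * u2 + y3 * u3) % q)
      ((z1 * u1 + z2 * u2 + z3 * u3) % q) < cod q u1 u2 u3
    omega)
  refine ((K.q_per PP q V0 ((M3.mk x1 x2 x3 y1 y2 y3 z1 z2 z3).ap (u1, u2, u3)) _ ?_ ?_ ?_).2 hdead) Q' hPQ' hV' (hal' _ hal)
  · show q ∣ _ % q - _
    exact Int.dvd_sub_self_of_emod_eq rfl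
  · show q ∣ _ % q - _
    exact Int.dvd_sub_self_of_emod_eq rfl
  · show q ∣ _ % q - _
    exact Int.dvd_sub_self_of_emod_eq rfl

theorem p_stP7 : S_stP7 := by
  obtain ⟨hst, -, -, -, -, -, -⟩ := K.q_op1
  obtain ⟨-, -, -, -, -, -, -, -, hsel, hgd⟩ := K.q_op2
  intro PP q D regs V0 cells ofams syms a1 b1 a2 b2 a3 b3 l d hq hC hR hc hf hdim hs h
  unfold stO at h
  have hd : Nat.mod d 4 < 4 := Nat.mod_lt d (by norm_num)
  generalize Nat.mod d 4 = e at h hd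
  interval_cases e
  · rw [(hsel G _ _ _ _).1, hst, hst] at h
    exact p_spO7 PP q D regs V0 a1 b1 a2 b2 a3 b3 l _ _ 1 rfl h
  · rw [(hsel G _ _ _ _).2.1, hst] at h
    cases hb : klO 1 1 q q cells a1 b1 a2 b2 a3 b3 d (Int.ofNat (Nat.mod (Nat.div d 4) 256)) with
    | false =>
      rw [hb, (hgd l).2] at h
      exact False.elim h
    | true =>
      rw [hb, (hgd l).1] at h
      refine ⟨fun u _ h1 h2 h3 _ => ?_, h⟩
      rw [one_mul] at h1 h2 h3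
      exact K.q_klP PP q V0 cells a1 b1 a2 b2 a3 b3 d _ hc hb u h1 h2 h3
  · rw [(hsel G _ _ _ _).2.2.1] at h
    exact p_alO7 PP q D regs V0 ofams a1 b1 a2 b2 a3 b3 l d hC hR hf hdim h
  · have h3 := (hsel G (st (Nat.mod (Nat.div d 4) 4) (fun ax => st (Nat.sub (Nat.div d 16) 1048576)
      (spO 1 a1 b1 a2 b2 a3 b3 l ax)))
      (gd (st (Nat.mod (Nat.div d 4) 256) (fun k => klO 1 1 q q cells a1 b1 a2 b2 a3 b3 d (Int.ofNat k))) l)
      (alO V0 ofams a1 b1 a2 b2 a3 b3 l d) (syO q syms a1 b1 a2 b2 a3 b3 l d)).2.2.2 0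
    exact p_syO7 PP q D regs V0 syms a1 b1 a2 b2 a3 b3 l d hq hs (h3 ▸ h)

private theorem p_spX_key (m X κ M : ℤ) (dl : ℕ) (h : dl = 0 ∨ dl = 1 ∧ κ = 1 ∧ M = 1) :
    X ≤ m * κ ∨ (m + dl) * κ ≤ X := by
  rcases h with h | ⟨h, h', -⟩
  · subst h
    rcases le_total X (m * κ) with h1 | h1
    · exact Or.inl h1
    · right
      simpa using h1
  · subst h h'
    simp only [mul_one, Nat.cast_one]
    omega

private theorem p_spX7 (PP : Set (ℝ × ℝ × ℝ) → Prop) (p : ℤ) (D : ℤ × ℤ × ℤ → Prop) (regs : List (List F4))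
    (V0 V : List P3) (u1 u2 u3 : ℤ) (f : Fam) (dl : ℕ)
    (a0 b0 a1 b1 a2 b2 a3 b3 : ℤ) (l : G) (ax : ℕ) (m : ℤ)
    (h : All7 PP p D regs V0 (spX V u1 u2 u3 f dl a0 b0 a1 b1 a2 b2 a3 b3 l ax m (m + dl)))
    (hax : ax < 4) :
    GX7 PP p regs V (u1, u2, u3) f dl a0 b0 a1 b1 a2 b2 a3 b3 ∧ All7 PP p D regs V0 l := by
  obtain ⟨-, -, -, -, -, -, -, -, hsel, -⟩ := K.q_op2
  obtain ⟨hs0, hs1, hs2, hs3⟩ := hsel G
    (G.x V u1 u2 u3 f dl a0 m a1 b1 a2 b2 a3 b3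
      (G.x V u1 u2 u3 f dl (m + dl) b0 a1 b1 a2 b2 a3 b3 l))
    (G.x V u1 u2 u3 f dl a0 b0 a1 m a2 b2 a3 b3
      (G.x V u1 u2 u3 f dl a0 b0 (m + dl) b1 a2 b2 a3 b3 l))
    (G.x V u1 u2 u3 f dl a0 b0 a1 b1 a2 m a3 b3
      (G.x V u1 u2 u3 f dl a0 b0 a1 b1 (m + dl) b2 a3 b3 l))
    (G.x V u1 u2 u3 f dl a0 b0 a1 b1 a2 b2 a3 m
      (G.x V u1 u2 u3 f dl a0 b0 a1 b1 a2 b2 (m + dl) b3 l))
  unfold spX at h
  have hcases : ax = 0 ∨ ax = 1 ∨ ax = 2 ∨ ax = 3 := by omega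
  rcases hcases with hax | hax | hax | hax
  · subst hax
    rw [hs0] at h
    obtain ⟨g1, g2, g3⟩ := h
    refine ⟨?_, g3⟩
    intro m1 m2 m3 κ M hκ hM hdl h0 h1 h2 h3
    rcases p_spX_key m M κ M dl hdl with hk | hk
    · exact g1 m1 m2 m3 κ M hκ hM hdl ⟨h0.1, hk⟩ h1 h2 h3
    · exact g2 m1 m2 m3 κ M hκ hM hdl ⟨hk, h0.2⟩ h1 h2 h3
  · subst hax
    rw [hs1] at h
    obtain ⟨g1, g2, g3⟩ := h
    refine ⟨?_, g3⟩
    intro m1 m2 m3 κ M hκ hM hdl h0 h1 h2 h3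
    rcases p_spX_key m (M * m1) κ M dl hdl with hk | hk
    · exact g1 m1 m2 m3 κ M hκ hM hdl h0 ⟨h1.1, hk⟩ h2 h3
    · exact g2 m1 m2 m3 κ M hκ hM hdl h0 ⟨hk, h1.2⟩ h2 h3
  · subst hax
    rw [hs2] at h
    obtain ⟨g1, g2, g3⟩ := h
    refine ⟨?_, g3⟩
    intro m1 m2 m3 κ M hκ hM hdl h0 h1 h2 h3
    rcases p_spX_key m (M * m2) κ M dl hdl with hk | hk
    · exact g1 m1 m2 m3 κ M hκ hM hdl h0 h1 ⟨h2.1, hk⟩ h3
    · exact g2 m1 m2 m3 κ M hκ hM hdl h0 h1 ⟨hk, h2.2⟩ h3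
  · subst hax
    have hs := hs3 0
    rw [Nat.zero_add] at hs
    rw [hs] at h
    obtain ⟨g1, g2, g3⟩ := h
    refine ⟨?_, g3⟩
    intro m1 m2 m3 κ M hκ hM hdl h0 h1 h2 h3
    rcases p_spX_key m (M * m3) κ M dl hdl with hk | hk
    · exact g1 m1 m2 m3 κ M hκ hM hdl h0 h1 h2 ⟨h3.1, hk⟩
    · exact g2 m1 m2 m3 κ M hκ hM hdl h0 h1 h2 ⟨hk, h3.2⟩

private theorem p_alX7 (PP : Set (ℝ × ℝ × ℝ) → Prop) (p : ℤ) (D : ℤ × ℤ × ℤ → Prop) (regs : List (List F4))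
    (V0 V : List P3) (u1 u2 u3 : ℤ) (f : Fam) (a0 b0 a1 b1 a2 b2 a3 b3 : ℤ) (l : G) (d : ℕ)
    (hC : Cls PP) (hR : RegOK PP regs)
    (hA : All7 PP p D regs V0 (alX V u1 u2 u3 f a1 b1 a2 b2 a3 b3 l d)) :
    GX7 PP p regs V (u1, u2, u3) f 1 a0 b0 a1 b1 a2 b2 a3 b3 ∧ All7 PP p D regs V0 l := by
  obtain ⟨hst, hsi, -, -, -, hmu, had⟩ := K.q_op1
  obtain ⟨-, -, heqi, han, -, -, -, -, -, hgd⟩ := K.q_op2
  cases f with
  | mk t1 t2 t3 e1 e2 e3 dim =>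
  have hb : pt1 a1 b1 a2 b2 a3 b3 = true := by
    by_contra hb
    have hb' : pt1 a1 b1 a2 b2 a3 b3 = false := by simpa using hb
    unfold alX at hA
    rw [hb', (hgd _).2] at hA
    exact hA
  have hE : a1 = b1 ∧ a2 = b2 ∧ a3 = b3 := by
    unfold pt1 at hb
    rw [han, han, heqi, heqi, heqi] at hb
    exact hb
  obtain ⟨hE1, hE2, hE3⟩ := hE
  unfold alX at hA
  rw [hb, (hgd _).1] at hA
  change All7 PP p D regs V0
    (si (ad (mu t1 a1) e1) fun x => si (ad (mu t2 a2) e2) fun y => si (ad (mu t3 a3) e3) fun z =>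
      st (Nat.mod (Nat.div d 1024) 256) (fun L =>
        pushF (P3.mk x y z :: V) u1 u2 u3 (Int.ofNat L) (Int.ofNat (Nat.mul 256 (Nat.succ L))) 256 l
          (clf (Nat.mod (Nat.div d 4) 8)))) at hA
  rw [hsi, hsi, hsi, hst, had, had, had, hmu, hmu, hmu] at hA
  obtain ⟨h1, h2⟩ := p_pushF7 PP p D regs V0 _ u1 u2 u3 _ _ 256 l _ (Int.natCast_nonneg _) (by norm_num)
    (by
      show ((256 * (Nat.mod (Nat.div d 1024) 256 + 1) : ℕ) : ℤ) = 256 * ((Nat.mod (Nat.div d 1024) 256 : ℕ) + 1)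
      push_cast
      rfl) hA
  refine ⟨?_, h2⟩
  intro m1 m2 m3 κ M hκ hM hdl B0 B1 B2 B3
  rcases hdl with h | ⟨-, hκ1, hM1⟩
  · exact absurd h one_ne_zero
  subst hκ1 hM1 hE1 hE2 hE3
  have e1' : m1 = a1 := by
    have := B1.1; have := B1.2; linarith
  have e2' : m2 = a2 := by
    have := B2.1; have := B2.2; linarith
  have e3' : m3 = a3 := by
    have := B3.1; have := B3.2; linarith
  subst e1' e2' e3'
  right
  intro Q hQ hV hAlv
  obtain ⟨n1, n2, n3, hok, hin⟩ := K.q_clf Q (Nat.mod (Nat.div d 4) 8) (hC Q hQ).2.1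
  refine ((h1 n1 n2 n3 hok).resolve_left ((p_rgn PP regs hC hR).1 _ _ Nat.one_lt_two)) Q hQ ?_ hAlv
  intro v hv
  rcases List.mem_cons.1 hv with rfl | hv
  · exact hin
  · exact hV v hv

private theorem okT_sound {t1 t2 t3 e1 e2 e3 a1 b1 a2 b2 a3 b3 m1 m2 m3 : ℤ} (h1 : Bt 1 a1 b1 m1)
    (h2 : Bt 1 a2 b2 m2) (h3 : Bt 1 a3 b3 m3) : ∀ l : List F4,
    okT t1 t2 t3 e1 e2 e3 a1 b1 a2 b2 a3 b3 l = true →
      ∀ g ∈ l, 0 ≤ g.ev (t1 * m1 + e1, t2 * m2 + e2, t3 * m3 + e3) 1 := by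
  obtain ⟨-, -, -, -, -, hmu, had⟩ := K.q_op1
  obtain ⟨hnn, -, -, han, -, hdt, -, -, -, -⟩ := K.q_op2
  intro l
  induction l with
  | nil =>
    intro _ g hg
    exact absurd hg List.not_mem_nil
  | cons f l ih =>
    intro hok g hg
    have hok' : an (okQ t1 t2 t3 e1 e2 e3 a1 b1 a2 b2 a3 b3 f)
      (okT t1 t2 t3 e1 e2 e3 a1 b1 a2 b2 a3 b3 l) = true := hok
    rw [han] at hok'
    rcases List.mem_cons.1 hg with rfl | hg
    · obtain ⟨c1, c2, c3, d⟩ := g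
      have hk : nn (ad (ad (mn (mu t1 c1) a1 b1) (ad (mn (mu t2 c2) a2 b2) (mn (mu t3 c3) a3 b3)))
        (ad (dt c1 c2 c3 e1 e2 e3) d)) = true := hok'.1
      rw [hnn, had, had, had, had, hmu, hmu, hmu, hdt] at hk
      have k1 := K.q_mnle (t1 * c1) a1 b1 1 m1 h1
      have k2 := K.q_mnle (t2 * c2) a2 b2 1 m2 h2
      have k3 := K.q_mnle (t3 * c3) a3 b3 1 m3 h3
      rw [mul_one] at k1 k2 k3
      show 0 ≤ c1 * (t1 * m1 + e1) + c2 * (t2 * m2 + e2) + c3 * (t3 * m3 + e3) + d * 1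
      nlinarith [k1, k2, k3, hk]
    · exact ih hok'.2 g hg

theorem p_inX : S_inX := by
  intro PP p D regs V0 V u1 u2 u3 f a0 b0 a1 b1 a2 b2 a3 b3 l hA
  obtain ⟨-, -, -, -, -, -, -, -, -, hgd⟩ := K.q_op2
  obtain ⟨t1, t2, t3, e1, e2, e3, dim⟩ := f
  change All7 PP p D regs V0 (gd (okT t1 t2 t3 e1 e2 e3 a1 b1 a2 b2 a3 b3 (rgn regs dim)) l) at hA
  cases hb : okT t1 t2 t3 e1 e2 e3 a1 b1 a2 b2 a3 b3 (rgn regs dim) with
  | false =>
    rw [hb, (hgd _).2] at hA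
    exact hA.elim
  | true =>
    rw [hb, (hgd _).1] at hA
    refine ⟨?_, hA⟩
    intro m1 m2 m3 κ M hκ hM hdl B0 B1 B2 B3
    rcases hdl with h | ⟨-, hκ1, hM1⟩
    · exact absurd h one_ne_zero
    subst hκ1 hM1
    rw [one_mul] at B1 B2 B3
    left
    exact okT_sound B1 B2 B3 _ hb

theorem p_clX : S_clX := by
  obtain ⟨hst, hsi, -, -, -, hmu, had⟩ := K.q_op1
  obtain ⟨-, -, heqi, han, -, -, -, -, -, hgd⟩ := K.q_op2
  intro PP p D regs V0 V u1 u2 u3 f a0 b0 a1 b1 a2 b2 a3 b3 l L k hC hR hA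
  cases f with
  | mk t1 t2 t3 e1 e2 e3 dim =>
  have hb : pt1 a1 b1 a2 b2 a3 b3 = true := by
    by_contra hb
    have hb' : pt1 a1 b1 a2 b2 a3 b3 = false := by simpa using hb
    unfold clX at hA
    rw [hb', (hgd _).2] at hA
    exact hA
  have hE : a1 = b1 ∧ a2 = b2 ∧ a3 = b3 := by
    unfold pt1 at hb
    rw [han, han, heqi, heqi, heqi] at hb
    exact hb
  obtain ⟨hE1, hE2, hE3⟩ := hE
  unfold clX at hA
  rw [hb, (hgd _).1] at hA
  change All7 PP p D regs V0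
    (si (ad (mu t1 a1) e1) fun x => si (ad (mu t2 a2) e2) fun y => si (ad (mu t3 a3) e3) fun z =>
        pushF (P3.mk x y z :: V) u1 u2 u3 (Int.ofNat L) (Int.ofNat (Nat.mul 256 (Nat.succ L))) 256 l
          (Fam.mk 1 1 1 0 0 0 (Nat.succ (Nat.succ k)))) at hA
  rw [hsi, hsi, hsi, had, had, had, hmu, hmu, hmu] at hA
  obtain ⟨h1, h2⟩ := p_pushF7 PP p D regs V0 _ u1 u2 u3 _ _ 256 l _ (Int.natCast_nonneg _) (by norm_num)
    (by
      show ((256 * (L + 1) : ℕ) : ℤ) = 256 * ((L : ℕ) + 1)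
      push_cast
      rfl) hA
  refine ⟨?_, h2⟩
  intro m1 m2 m3 κ M hκ hM hdl B0 B1 B2 B3
  rcases hdl with h | ⟨-, hκ1, hM1⟩
  · exact absurd h one_ne_zero
  subst hκ1 hM1 hE1 hE2 hE3
  have e1' : m1 = a1 := by
    have := B1.1; have := B1.2; linarith
  have e2' : m2 = a2 := by
    have := B2.1; have := B2.2; linarith
  have e3' : m3 = a3 := by
    have := B3.1; have := B3.2; linarith
  subst e1' e2' e3'
  right
  intro Q hQ hV hAlv
  obtain ⟨y, hy, hn⟩ := (p_rgn PP regs hC hR).2 (Fam.mk 1 1 1 0 0 0 (Nat.succ (Nat.succ k))) Q hQ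
  have hpt : (Fam.mk 1 1 1 0 0 0 (Nat.succ (Nat.succ k))).pt y.1 y.2.1 y.2.2 = toP y := by
    show P3.mk (1 * y.1 + 0) (1 * y.2.1 + 0) (1 * y.2.2 + 0) = P3.mk y.1 y.2.1 y.2.2
    simp
  have h3 := h1 y.1 y.2.1 y.2.2 (fun h => absurd h (Nat.succ_ne_zero _))
  rw [hpt] at h3
  refine (h3.resolve_left hn) Q hQ ?_ hAlv
  intro v hv
  rcases List.mem_cons.1 hv with rfl | hv
  · exact hy
  · exact hV v hv

theorem p_stX7 : S_stX7 := by
  intro PP q D regs V0 V u1 u2 u3 f dl a0 b0 a1 b1 a2 b2 a3 b3 l d hCls hR h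
  obtain ⟨hst, hsi, hsb, -, -, -, had⟩ := K.q_op1
  obtain ⟨-, -, -, -, -, -, -, -, hsel, hgd⟩ := K.q_op2
  unfold stX7 at h
  have hd : d % 4 = 0 ∨ d % 4 = 1 ∨ d % 4 = 2 ∨ d % 4 = 3 := by omega
  have hmod : Nat.mod d 4 = d % 4 := rfl
  rw [hmod] at h
  rcases hd with hd | hd | hd | hd
  · rw [hd, (hsel _ _ _ _ _).1, hsi, hsi, had, hsb] at h
    exact p_spX7 PP q D regs V0 V u1 u2 u3 f dl a0 b0 a1 b1 a2 b2 a3 b3 l _ _ h
      (Nat.mod_lt _ (by norm_num))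
  · rw [hd, (hsel _ _ _ _ _).2.1] at h
    cases hk : klX q V u1 u2 u3 f a0 b0 a1 b1 a2 b2 a3 b3 d
      (Int.ofNat (Nat.mod (Nat.div d 4) 256)) with
    | false =>
      rw [hk, (hgd _).2] at h
      exact h.elim
    | true =>
      rw [hk, (hgd _).1] at h
      refine ⟨?_, h⟩
      intro m1 m2 m3 κ M hκ hM _ h0 h1 h2 h3
      exact Or.inr (K.q_klX PP q V u1 u2 u3 f a0 b0 a1 b1 a2 b2 a3 b3 d _ hCls hk m1 m2 m3 κ M hκ hM h0 h1 h2
        h3)
  · rw [hd, (hsel _ _ _ _ _).2.2.1] at h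
    cases dl with
    | zero => exact h.elim
    | succ k =>
      change All7 PP q D regs V0 (alX V u1 u2 u3 f a1 b1 a2 b2 a3 b3 l d) at h
      have h1 := p_alX7 PP q D regs V0 V u1 u2 u3 f a0 b0 a1 b1 a2 b2 a3 b3 l d hCls hR h
      refine ⟨?_, h1.2⟩
      intro m1 m2 m3 κ M hκ hM hdl
      rcases hdl with h2 | ⟨h2, h3, h4⟩
      · omega
      · exact h1.1 m1 m2 m3 κ M hκ hM (Or.inr ⟨rfl, h3, h4⟩)
  · rw [hd] at h
    have hs := (hsel G (si (sb (Nat.div d 16) 1048576) fun m => si (ad m (Int.ofNat dl)) fun m' =>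
        spX V u1 u2 u3 f dl a0 b0 a1 b1 a2 b2 a3 b3 l (Nat.mod (Nat.div d 4) 4) m m')
      (gd (klX q V u1 u2 u3 f a0 b0 a1 b1 a2 b2 a3 b3 d
        (Int.ofNat (Nat.mod (Nat.div d 4) 256))) l)
      (Nat.rec G.bad (fun _ _ => alX V u1 u2 u3 f a1 b1 a2 b2 a3 b3 l d) dl)
      (Nat.rec G.bad (fun _ _ => neX regs V u1 u2 u3 f a1 b1 a2 b2 a3 b3 l (Nat.div d 4)) dl)).2.2.2 0
    rw [Nat.zero_add] at hs
    rw [hs] at h
    cases dl with
    | zero => exact h.elim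
    | succ k =>
      change All7 PP q D regs V0 (neX regs V u1 u2 u3 f a1 b1 a2 b2 a3 b3 l (Nat.div d 4)) at h
      have h1 : GX7 PP q regs V (u1, u2, u3) f 1 a0 b0 a1 b1 a2 b2 a3 b3 ∧ All7 PP q D regs V0 l := by
        have he : Nat.mod (Nat.div d 4) 2 = 0 ∨ Nat.mod (Nat.div d 4) 2 = 1 := by
          have : Nat.mod (Nat.div d 4) 2 < 2 := Nat.mod_lt _ (by norm_num)
          omega
        unfold neX at h
        rcases he with he | he
        · rw [he] at h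
          exact p_inX PP q D regs V0 V u1 u2 u3 f a0 b0 a1 b1 a2 b2 a3 b3 l h
        · rw [he] at h
          change All7 PP q D regs V0 (st (Nat.mod (Nat.div (Nat.div d 4) 2) 256) fun L =>
            st (Nat.div (Nat.div d 4) 512) fun k => clX V u1 u2 u3 f a1 b1 a2 b2 a3 b3 l L k) at h
          rw [hst, hst] at h
          exact p_clX PP q D regs V0 V u1 u2 u3 f a0 b0 a1 b1 a2 b2 a3 b3 l _ _ hCls hR h
      refine ⟨?_, h1.2⟩
      intro m1 m2 m3 κ M hκ hM hdl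
      rcases hdl with h2 | ⟨h2, h3, h4⟩
      · omega
      · exact h1.1 m1 m2 m3 κ M hκ hM (Or.inr ⟨rfl, h3, h4⟩)

private theorem p_loop_dig (hst : ∀ (α : Type) (n : ℕ) (f : ℕ → α), st n f = f n)
    (ih : ℕ → List ℕ → G → Bool) (P : G → Prop)
    (hih : ∀ (c : ℕ) (cs : List ℕ) (g : G), ih c cs g = true → P g)
    (c : ℕ) (cs : List ℕ) (f : ℕ → G) (g : G) (hf : ∀ d : ℕ, P (f d) → P g)
    (h : dig ih c cs f g = true) : P g := by
  cases c with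
  | zero =>
    have h1 : pop ih cs g = true := h
    cases cs with
    | nil =>
      have h2 : false = true := h1
      exact absurd h2 (by decide)
    | cons a cs =>
      have h2 : st a (fun c => ih c cs g) = true := h1
      rw [hst] at h2
      exact hih a cs g h2
  | succ k =>
    have h1 : st (Nat.div (Nat.succ k) 4503599627370496)
      (fun c' => ih c' cs (st (Nat.mod (Nat.succ k) 4503599627370496) f)) = true := h
    rw [hst, hst] at h1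
    exact hf _ (hih _ _ _ h1)

theorem p_core7 : S_core7 := by
  intro PP q D V0 cells ofams syms regs hq hcls hR hcell hfam hdim hsym fuel
  obtain ⟨hst, -⟩ := K.q_op1
  induction fuel with
  | zero =>
    intro c cs g h
    have h1 : false = true := h
    exact absurd h1 (by decide)
  | succ n ih =>
    intro c cs g h
    cases g with
    | nil => exact True.intro
    | bad =>
      have h1 : false = true := h
      exact absurd h1 (by decide)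
    | o a1 b1 a2 b2 a3 b3 l =>
      have h1 : dig (loop7 q cells V0 ofams syms regs n) c cs
        (stO 1 1 q q 1 cells V0 ofams syms a1 b1 a2 b2 a3 b3 l)
        (G.o a1 b1 a2 b2 a3 b3 l) = true := h
      exact p_loop_dig hst _ (All7 PP q D regs V0) ih c cs _ _
        (fun d hd => p_stP7 PP q D regs V0 cells ofams syms a1 b1 a2 b2 a3 b3 l d hq hcls hR hcell hfam
          hdim hsym hd) h1
    | x V u1 u2 u3 f dl' a0 b0 a1 b1 a2 b2 a3 b3 l =>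
      have h1 : dig (loop7 q cells V0 ofams syms regs n) c cs
        (stX7 q regs V u1 u2 u3 f dl' a0 b0 a1 b1 a2 b2 a3 b3 l)
        (G.x V u1 u2 u3 f dl' a0 b0 a1 b1 a2 b2 a3 b3 l) = true := h
      exact p_loop_dig hst _ (All7 PP q D regs V0) ih c cs _ _
        (fun d hd => p_stX7 PP q D regs V0 V u1 u2 u3 f dl' a0 b0 a1 b1 a2 b2 a3 b3 l d hcls hR hd) h1

end Pool.Agent.Lib.MP_0bc52e_nt.N7
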