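import Pool.Agent.Lib.MP_0bc52e_nt.K.Cells
import Pool.Agent.Lib.MP_0bc52e_nt.G.Sym
import Pool.Agent.Lib.MP_0bc52e_nt.N7.Snd
import Pool.Agent.Lib.MP_0bc52e_nt.N7.Leaf

/-!
Lemmas for the assembly of the certificates for `p = 7` and `p = 11` (MP_0bc52e_nt). The classes are `Sc NG7 PP0`, `Sc NG7 PP1`,
`Sc NG7 (PPh b)`; the table `regs` of regions satisfies `ckLs regs ls = true` for a list `ls` of leaf data.
-/

noncomputable section

namespace Pool.Agent.Lib.MP_0bc52e_nt.N7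

open Pool.Agent.Lib.MP_0bc52e_nt.LC Pool.Agent.Lib.MP_0bc52e_nt.T Pool.Agent.Lib.MP_0bc52e_nt.R
  Pool.Agent.Lib.MP_0bc52e_nt.K Pool.Agent.Lib.MP_0bc52e_nt.G

/-- The classes. -/
abbrev Q0 : Set (ℝ × ℝ × ℝ) → Prop := Sc NG7 PP0
@[inherit_doc Q0] abbrev Q1 : Set (ℝ × ℝ × ℝ) → Prop := Sc NG7 PP1
@[inherit_doc Q0] abbrev Qh (b : Fin 3) : Set (ℝ × ℝ × ℝ) → Prop := Sc NG7 (PPh b)

lemma cls0 : Cls Q0 := cls_Sc q_cls.1
lemma cls1 : Cls Q1 := cls_Sc q_cls.2.1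
lemma clsh (b : Fin 3) : Cls (Qh b) := cls_Sc (q_cls.2.2 b)

lemma fam0 : FamOK Q0 F_0 := fam_Sc q_fam.1
lemma fam1 : FamOK Q1 F_1 := fam_Sc q_fam.2.1
lemma famhW : FamOK (Qh 0) F_hW := fam_Sc (q_fam.2.2 0)
lemma famhT : FamOK (Qh 1) F_hT := fam_Sc (q_fam.2.2 1)
lemma famhD : FamOK (Qh 2) F_hD := fam_Sc (q_fam.2.2 2)

/-- The families of the list are without regions. -/
def fdOK (fs : List (List Fam)) : Prop := ∀ l ∈ fs, ∀ f ∈ l, fdim f < 2

lemma fd0 : fdOK F_0 := by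
  intro l hl f hf
  simp only [F_0, List.mem_cons, List.not_mem_nil, or_false] at hl
  rcases hl with rfl | rfl | rfl | rfl | rfl | rfl | rfl | rfl <;>
    (rw [List.mem_singleton] at hf; subst hf; exact Nat.one_lt_two)

lemma fd1 : fdOK F_1 := by
  intro l hl f hf
  simp only [F_1, List.mem_cons, List.not_mem_nil, or_false] at hl
  subst hl
  rw [List.mem_singleton] at hf
  subst hf
  exact Nat.zero_lt_two

lemma fdhW : fdOK F_hW := by
  intro l hl f hf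
  simp only [F_hW, List.mem_cons, List.not_mem_nil, or_false] at hl
  subst hl
  simp only [List.mem_cons, List.not_mem_nil, or_false] at hf
  rcases hf with rfl | rfl <;> exact Nat.zero_lt_two

lemma fdhT : fdOK F_hT := by
  intro l hl f hf
  simp only [F_hT, List.mem_cons, List.not_mem_nil, or_false] at hl
  subst hl
  rw [List.mem_singleton] at hf
  subst hf
  exact Nat.zero_lt_two

lemma fdhD : fdOK F_hD := by
  intro l hl f hf
  simp only [F_hD, List.mem_cons, List.not_mem_nil, or_false] at hl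
  subst hl
  rw [List.mem_singleton] at hf
  subst hf
  exact Nat.zero_lt_two

lemma all7_bxs {PP : Set (ℝ × ℝ × ℝ) → Prop} {p : ℤ} {D : ℤ × ℤ × ℤ → Prop} {regs : List (List F4)} {V : List P3} :
    ∀ {L : List (ℤ × ℤ)}, All7 PP p D regs V (bxs p L) →
      ∀ e ∈ L, GO PP p 1 1 D V 0 (p - 1) 0 (p - 1) e.1 e.2 := by
  intro L
  induction L with
  | nil => intro _ e he; exact absurd he (List.not_mem_nil)
  | cons a L ih =>
    intro h e he
    have h' : GO PP p 1 1 D V 0 (p - 1) 0 (p - 1) a.1 a.2 ∧ All7 PP p D regs V (bxs p L) := h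
    rcases List.mem_cons.1 he with rfl | he
    · exact h'.1
    · exact ih h'.2 e he

lemma dead7A {PP : Set (ℝ × ℝ × ℝ) → Prop} {p : ℤ} {L : List (ℤ × ℤ)} {V : List P3} {cells : List (List F4)}
    {fs : List (List Fam)} {syms : List M3} {regs : List (List F4)} {fuel : ℕ} {cs : List ℕ} (hp : 0 < p)
    (hcls : Cls PP) (hR : RegOK PP regs) (hc : CellOK PP V cells) (hf : FamOK PP fs) (hd : fdOK fs)
    (hs : SymOK PP p (DA p L) V (I3 :: syms))
    (hk : loop7 p cells V fs syms regs fuel 0 cs (bxs p L) = true) :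
    ∀ r : ℤ, 0 ≤ r → r < p → inl L r = true → Sd PP p V r :=
  q_sd PP p V L hp (all7_bxs (p_core7 PP p (DA p L) V cells fs syms regs hp hcls hR hc hf hd hs fuel 0 cs _ hk))

/-- A root of `Theta` or `Beta`. -/
lemma dead70 {p T : ℤ} {V : List P3} {cells : List (List F4)} {syms : List M3} {regs : List (List F4)}
    {fuel : ℕ} {cs : List ℕ} (hR : RegOK Q0 regs)
    (hp : 0 < p) (hT : T = p - 1) (hc : CellOK Q0 V cells) (hs : ckL V syms = true)
    (hk : loop7 p cells V F_0 syms regs fuel 0 cs (bxs p [(0, T)]) = true) :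
    ∀ u, Dd Q0 p V u := by
  subst hT
  refine q_sdA Q0 p V hp ?_
  exact all7_bxs (p_core7 Q0 p (DA p [(0, p - 1)]) V cells F_0 syms regs hp cls0 hR hc fam0 fd0
    (g_sym0 fri7 V syms p hp hs) fuel 0 cs _ hk) (0, p - 1) (List.mem_singleton.2 rfl)

/-- A root of `Theta` or `Beta`, without regions: an old certificate. -/
lemma dead70_old {p : ℤ} {V : List P3} (h : ∀ u, Dd PP0 p V u) : ∀ u, Dd Q0 p V u := fun u => dd_Sc (h u)

/-- The planar part of `DeadG` for one base. -/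
def PA7 (q : ℤ) (b : Fin 3) : Prop :=
  (∀ r, Sd Q1 q (VU b) r ∨ Sd Q1 q (VU b) (-r)) ∧
    (∀ r, Sd (Qh b) q (VU b) r ∨ Sd Q1 q (VH b) (-r)) ∧ (∀ r, Sd (Qh b) q (VH b) r ∨ Sd (Qh b) q (VH b) (-r))

lemma mkDead7 (p : ℕ) {q : ℤ} (hq : (p : ℤ) = q) (ht : ∀ R ∈ Theta, ∀ u, Dd Q0 q (R.map toP) u)
    (hb : ∀ R ∈ Beta, ∀ u, Dd Q0 q (R.map toP) u) (h0 : PA7 q 0) (h1 : PA7 q 1) (h2 : PA7 q 2) :
    DeadG NG7 p := by
  subst hq
  refine ⟨ht, hb, fun b => ?_⟩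
  fin_cases b
  exacts [h0, h1, h2]

/-- Non-hollow polytopes. -/
theorem eP_of (p : ℕ) (h : DeadG NG7 p) (P : Set (ℝ × ℝ × ℝ)) (hP : IsLP3 P) (hPC : PC3 P) (hH : ¬ T.Hollow P)
    (hC : Cr P p) : Cr P 3 ∨ Cr P 5 ∨ In16 P := by
  by_contra hcon
  push Not at hcon
  exact g_fin fri7 p h P hP hPC hH ⟨hH, hcon.1, hcon.2.1, hcon.2.2⟩ hC

end Pool.Agent.Lib.MP_0bc52e_nt.N7

end
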