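import Pool.Agent.Lib.MP_0bc52e_nt.N7.C.c00
import Pool.Agent.Lib.MP_0bc52e_nt.N7.C.c01
import Pool.Agent.Lib.MP_0bc52e_nt.N7.C.c02
import Pool.Agent.Lib.MP_0bc52e_nt.N7.C.c03
import Pool.Agent.Lib.MP_0bc52e_nt.N7.C.c04
import Pool.Agent.Lib.MP_0bc52e_nt.N7.C.c05
import Pool.Agent.Lib.MP_0bc52e_nt.N7.C.c06
import Pool.Agent.Lib.MP_0bc52e_nt.N7.C.c07
import Pool.Agent.Lib.MP_0bc52e_nt.N7.C.c08
import Pool.Agent.Lib.MP_0bc52e_nt.N7.C.c09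
import Pool.Agent.Lib.MP_0bc52e_nt.N7.C.c10
import Pool.Agent.Lib.MP_0bc52e_nt.N7.C.c11
import Pool.Agent.Lib.MP_0bc52e_nt.N7.C.c12
import Pool.Agent.Lib.MP_0bc52e_nt.N7.C.c13
import Pool.Agent.Lib.MP_0bc52e_nt.N7.C.c14
import Pool.Agent.Lib.MP_0bc52e_nt.N7.C.c15
import Pool.Agent.Lib.MP_0bc52e_nt.N7.C.c16
import Pool.Agent.Lib.MP_0bc52e_nt.N7.C.c17
import Pool.Agent.Lib.MP_0bc52e_nt.N7.C.c18
import Pool.Agent.Lib.MP_0bc52e_nt.N7.C.c19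
import Pool.Agent.Lib.MP_0bc52e_nt.N7.C.c20
import Pool.Agent.Lib.MP_0bc52e_nt.N7.C.c21
import Pool.Agent.Lib.MP_0bc52e_nt.N7.C.c22
import Pool.Agent.Lib.MP_0bc52e_nt.N7.C.c23
import Pool.Agent.Lib.MP_0bc52e_nt.N7.C.c24
import Pool.Agent.Lib.MP_0bc52e_nt.N7.C.c25
import Pool.Agent.Lib.MP_0bc52e_nt.N7.C.c26
import Pool.Agent.Lib.MP_0bc52e_nt.N7.C.c27
import Pool.Agent.Lib.MP_0bc52e_nt.N7.C.c28
import Pool.Agent.Lib.MP_0bc52e_nt.N7.C.c29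
import Pool.Agent.Lib.MP_0bc52e_nt.N7.C.c30
import Pool.Agent.Lib.MP_0bc52e_nt.N7.C.c31
import Pool.Agent.Lib.MP_0bc52e_nt.N7.C.c32
import Pool.Agent.Lib.MP_0bc52e_nt.N7.C.c33
import Pool.Agent.Lib.MP_0bc52e_nt.N7.C.c34

/-!
The certificates for `p = 7` and `p = 11`.
-/
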