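import Pool.Agent.Lib.MP_0bc52e_nt.K.Chk

/-!
The checker of `K/Chk.lean` with regions (MP_0bc52e_nt).

A family `Fam.mk t1 t2 t3 e1 e2 e3 (k + 2)` carries the number `k` of a region, a list of linear forms in the table `regs`. For such a
family the points of the region need not be treated. Two new digits: a box of points in the region (`inX`); a box that is one point, which is
added to the configuration, and then all integer points outside of a region are to be treated (`clX`).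
-/

noncomputable section

namespace Pool.Agent.Lib.MP_0bc52e_nt.N7

open Pool.Agent.Lib.MP_0bc52e_nt.K

/-- One form of a region is nonnegative at all points of the family with parameters in the box. -/
def okQ (t1 t2 t3 e1 e2 e3 a1 b1 a2 b2 a3 b3 : Int) (f : F4) : Bool :=
  F4.rec (fun c1 c2 c3 d =>
    nn (ad (ad (mn (mu t1 c1) a1 b1) (ad (mn (mu t2 c2) a2 b2) (mn (mu t3 c3) a3 b3))) (ad (dt c1 c2 c3 e1 e2 e3) d))) f

/-- All forms of a region. -/
def okT (t1 t2 t3 e1 e2 e3 a1 b1 a2 b2 a3 b3 : Int) (l : List F4) : Bool :=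
  List.rec true (fun f _ ih => an (okQ t1 t2 t3 e1 e2 e3 a1 b1 a2 b2 a3 b3 f) ih) l

/-- The region of the number `dim` of a family; there is none for `dim = 0` and `dim = 1`. -/
def rgn (regs : List (List F4)) (dim : Nat) : List F4 :=
  sel dim [F4.mk 0 0 0 (-1)] [F4.mk 0 0 0 (-1)] (nth [F4.mk 0 0 0 (-1)] regs (Nat.sub dim 2))
    (nth [F4.mk 0 0 0 (-1)] regs (Nat.sub dim 2))

/-- A box of points in the region. -/
def inX (regs : List (List F4)) (f : Fam) (a1 b1 a2 b2 a3 b3 : Int) (l : G) : G :=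
  gd (Fam.rec (fun t1 t2 t3 e1 e2 e3 dim => okT t1 t2 t3 e1 e2 e3 a1 b1 a2 b2 a3 b3 (rgn regs dim)) f) l

/-- An `x` box that is one point: add it to the configuration and treat the integer points outside of the region `k`. -/
def clX (V : List P3) (u1 u2 u3 : Int) (f : Fam) (a1 b1 a2 b2 a3 b3 : Int) (l : G) (L k : Nat) : G :=
  gd (pt1 a1 b1 a2 b2 a3 b3)
    (Fam.rec (fun t1 t2 t3 e1 e2 e3 _ =>
      si (ad (mu t1 a1) e1) fun x => si (ad (mu t2 a2) e2) fun y => si (ad (mu t3 a3) e3) fun z =>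
        pushF (P3.mk x y z :: V) u1 u2 u3 (Int.ofNat L) (Int.ofNat (Nat.mul 256 (Nat.succ L))) 256 l
          (Fam.mk 1 1 1 0 0 0 (Nat.succ (Nat.succ k)))) f)

/-- The new digits `3 + 4 e`: `inX` for even `e`, otherwise `clX` with `e = 1 + 2 L + 512 k`. -/
def neX (regs : List (List F4)) (V : List P3) (u1 u2 u3 : Int) (f : Fam) (a1 b1 a2 b2 a3 b3 : Int) (l : G) (e : Nat) : G :=
  Nat.rec (inX regs f a1 b1 a2 b2 a3 b3 l)
    (fun _ _ => st (Nat.mod (Nat.div e 2) 256) fun L => st (Nat.div e 512) fun k =>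
      clX V u1 u2 u3 f a1 b1 a2 b2 a3 b3 l L k) (Nat.mod e 2)

/-- One step for an `x` box. -/
def stX7 (q : Int) (regs : List (List F4)) (V : List P3) (u1 u2 u3 : Int) (f : Fam) (dl : Nat) (a0 b0 a1 b1 a2 b2 a3 b3 : Int)
    (l : G) (d : Nat) : G :=
  sel (Nat.mod d 4)
    (si (sb (Nat.div d 16) 1048576) fun m => si (ad m (Int.ofNat dl)) fun m' =>
      spX V u1 u2 u3 f dl a0 b0 a1 b1 a2 b2 a3 b3 l (Nat.mod (Nat.div d 4) 4) m m')
    (gd (klX q V u1 u2 u3 f a0 b0 a1 b1 a2 b2 a3 b3 d (Int.ofNat (Nat.mod (Nat.div d 4) 256))) l)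
    (Nat.rec G.bad (fun _ _ => alX V u1 u2 u3 f a1 b1 a2 b2 a3 b3 l d) dl)
    (Nat.rec G.bad (fun _ _ => neX regs V u1 u2 u3 f a1 b1 a2 b2 a3 b3 l (Nat.div d 4)) dl)

/-- The loop. -/
def loop7 (q : Int) (cells : List (List F4)) (V0 : List P3) (ofams : List (List Fam)) (syms : List M3) (regs : List (List F4)) :
    Nat → Nat → List Nat → G → Bool :=
  Nat.rec (fun _ _ _ => false) (fun _ ih c cs g =>
    G.rec true false
      (fun a1 b1 a2 b2 a3 b3 l _ => dig ih c cs (stO 1 1 q q 1 cells V0 ofams syms a1 b1 a2 b2 a3 b3 l) (G.o a1 b1 a2 b2 a3 b3 l))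
      (fun V u1 u2 u3 f dl a0 b0 a1 b1 a2 b2 a3 b3 l _ => dig ih c cs (stX7 q regs V u1 u2 u3 f dl a0 b0 a1 b1 a2 b2 a3 b3 l)
        (G.x V u1 u2 u3 f dl a0 b0 a1 b1 a2 b2 a3 b3 l)) g)

end Pool.Agent.Lib.MP_0bc52e_nt.N7

end
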