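import Pool.Agent.Lib.MP_0bc52e_nt.K.Chk

/-!
The tables of regions of the certificates (MP_0bc52e_nt).
-/

namespace Pool.Agent.Lib.MP_0bc52e_nt.N7

open Pool.Agent.Lib.MP_0bc52e_nt.K

/-- Regions for `n_th4_7`. -/
def R_th4_7 : List (List F4) := [[.mk 1 0 0 2, .mk (-1) 0 0 1, .mk 0 1 0 3, .mk 0 (-1) 0 1, .mk 0 0 1 5, .mk 0 0 (-1) 3, .mk (-5) (-5) 6 5, .mk (-4) 5 (-1) 4, .mk (-4) 6 (-1) 5, .mk (-1) (-1) (-1) 1, .mk (-1) 1 0 1, .mk 1 (-2) (-1) 2, .mk 9 (-7) 2 7, .mk 12 (-2) (-1) 13],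
  [.mk 1 0 0 2, .mk (-1) 0 0 1, .mk 0 1 0 3, .mk 0 (-1) 0 1, .mk 0 0 1 2, .mk 0 0 (-1) 3, .mk (-10) 11 (-3) 10, .mk (-3) 2 2 3, .mk (-2) (-2) 3 2, .mk (-1) (-1) (-1) 1, .mk (-1) 1 0 1, .mk (-1) 1 1 2, .mk 2 (-1) 0 1],
  [.mk 1 0 0 1, .mk (-1) 0 0 1, .mk 0 1 0 2, .mk 0 (-1) 0 1, .mk 0 0 1 3, .mk 0 0 (-1) 1, .mk (-3) (-3) 4 3, .mk (-1) (-1) (-1) 1, .mk (-1) 1 0 1, .mk (-1) 2 (-1) 1, .mk 0 (-1) (-1) 1, .mk 0 (-1) 1 1, .mk 0 2 (-1) 1, .mk 4 (-3) 1 3],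
  [.mk 1 0 0 1, .mk (-1) 0 0 1, .mk 0 1 0 1, .mk 0 (-1) 0 1, .mk 0 0 1 2, .mk 0 0 (-1) 2, .mk (-3) 4 1 3, .mk (-2) (-2) 3 2, .mk (-1) (-1) (-1) 1, .mk (-1) 1 0 1, .mk 0 (-1) (-1) 1, .mk 3 2 (-1) 4, .mk 4 (-3) 1 3],
  [.mk 1 0 0 2, .mk (-1) 0 0 1, .mk 0 1 0 3, .mk 0 (-1) 0 1, .mk 0 0 1 5, .mk 0 0 (-1) 3, .mk (-5) (-5) 6 5, .mk (-4) 5 (-1) 4, .mk (-4) 6 (-1) 5, .mk (-1) (-1) (-1) 1, .mk (-1) 1 0 1, .mk 2 (-1) 0 1],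
  [.mk 1 0 0 1, .mk (-1) 0 0 3, .mk 0 1 0 2, .mk 0 (-1) 0 2, .mk 0 0 1 1, .mk 0 0 (-1) 4, .mk (-9) 10 (-2) 9, .mk (-1) (-3) 6 3, .mk (-1) 1 0 1, .mk 0 (-1) 2 1, .mk 2 (-1) 0 1, .mk 6 (-13) (-5) 13],
  [.mk 1 0 0 1, .mk (-1) 0 0 1, .mk 0 1 0 2, .mk 0 (-1) 0 1, .mk 0 0 1 1, .mk 0 0 (-1) 5, .mk (-7) 12 2 7, .mk (-3) (-3) (-2) 3, .mk (-2) (-3) (-2) 3, .mk (-1) (-1) (-1) 2, .mk (-1) (-1) 3 1, .mk (-1) 1 0 1, .mk 2 (-1) 0 1],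
  [.mk 1 0 0 2, .mk (-1) 0 0 3, .mk 0 1 0 3, .mk 0 (-1) 0 2, .mk 0 0 1 1, .mk 0 0 (-1) 1, .mk (-6) 8 (-5) 7, .mk (-2) 1 3 2, .mk (-1) (-2) 5 2, .mk (-1) 0 2 1, .mk (-1) 1 0 1, .mk 1 (-1) (-1) 1, .mk 2 (-3) (-3) 3, .mk 2 (-1) 0 1],
  [.mk 1 0 0 1, .mk (-1) 0 0 3, .mk 0 1 0 2, .mk 0 (-1) 0 2, .mk 0 0 1 1, .mk 0 0 (-1) 1, .mk (-3) 4 (-2) 3, .mk (-1) (-3) 6 3, .mk (-1) 1 0 1, .mk 0 (-1) 2 1, .mk 1 (-1) (-1) 1, .mk 2 (-3) (-3) 3, .mk 2 (-1) 0 1],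
  [.mk 1 0 0 1, .mk (-1) 0 0 1, .mk 0 1 0 2, .mk 0 (-1) 0 1, .mk 0 0 1 1, .mk 0 0 (-1) 4, .mk (-9) 10 (-2) 9, .mk (-4) (-4) (-3) 4, .mk (-1) (-1) 2 1, .mk (-1) 1 0 1, .mk 0 (-1) 2 1, .mk 2 (-1) 0 1],
  [.mk 1 0 0 1, .mk (-1) 0 0 1, .mk 0 1 0 2, .mk 0 (-1) 0 3, .mk 0 0 1 2, .mk 0 0 (-1) 1, .mk (-3) (-1) (-3) 3, .mk (-1) (-3) 5 3, .mk (-1) (-1) 1 1, .mk (-1) (-1) 2 1, .mk (-1) 2 (-1) 1, .mk 1 1 (-1) 1, .mk 4 2 (-3) 3],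
  [.mk 1 0 0 2, .mk (-1) 0 0 2, .mk 0 1 0 2, .mk 0 (-1) 0 1, .mk 0 0 1 4, .mk 0 0 (-1) 3, .mk (-4) (-4) 5 4, .mk (-3) (-3) 2 3, .mk (-2) 5 (-1) 2, .mk 0 2 (-1) 1, .mk 1 (-2) 1 2, .mk 2 (-1) (-1) 1, .mk 2 0 (-1) 1, .mk 3 (-2) (-2) 2, .mk 3 0 (-1) 2],
  [.mk 1 0 0 13, .mk (-1) 0 0 3, .mk 0 1 0 11, .mk 0 (-1) 0 3, .mk 0 0 1 12, .mk 0 0 (-1) 3, .mk (-12) (-12) 25 12, .mk (-11) 26 (-11) 11, .mk (-3) (-2) 4 3, .mk (-3) 4 (-2) 3, .mk (-1) (-1) 2 1, .mk (-1) 2 (-1) 1, .mk 0 (-1) 1 1, .mk 1 0 (-1) 1, .mk 3 (-2) (-2) 3, .mk 13 (-7) (-7) 8],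
  [.mk 1 0 0 13, .mk (-1) 0 0 1, .mk 0 1 0 11, .mk 0 (-1) 0 2, .mk 0 0 1 12, .mk 0 0 (-1) 2, .mk (-12) (-12) 25 12, .mk (-11) 26 (-11) 11, .mk (-1) (-1) 2 1, .mk (-1) 2 (-1) 1, .mk 0 (-1) 1 1, .mk 1 0 (-1) 1, .mk 13 (-7) (-7) 8],
  [.mk 1 0 0 13, .mk (-1) 0 0 2, .mk 0 1 0 1, .mk 0 (-1) 0 2, .mk 0 0 1 1, .mk 0 0 (-1) 1, .mk (-1) (-7) (-6) 7, .mk (-1) (-6) (-6) 6, .mk (-1) (-2) (-2) 2, .mk (-1) (-2) 5 2, .mk (-1) 5 (-2) 2, .mk 0 (-1) 1 1, .mk 0 (-1) 2 1, .mk 1 (-12) 24 13, .mk 4 26 (-15) 15],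
  [.mk 1 0 0 5, .mk (-1) 0 0 3, .mk 0 1 0 3, .mk 0 (-1) 0 3, .mk 0 0 1 4, .mk 0 0 (-1) 3, .mk (-4) (-4) 9 4, .mk (-3) (-2) 4 3, .mk (-3) 5 (-3) 3, .mk (-2) 0 3 2, .mk (-2) 5 (-2) 2, .mk (-1) (-1) 2 1, .mk 0 (-1) 1 1, .mk 1 0 (-1) 1, .mk 1 5 (-4) 4, .mk 4 (-2) (-3) 3],
  [.mk 1 0 0 5, .mk (-1) 0 0 2, .mk 0 1 0 1, .mk 0 (-1) 0 2, .mk 0 0 1 1, .mk 0 0 (-1) 1, .mk (-1) (-2) (-2) 2, .mk (-1) (-2) 5 2, .mk (-1) 5 (-2) 2, .mk 0 (-1) 1 1, .mk 0 (-1) 2 1, .mk 1 (-4) 8 5, .mk 1 0 2 3, .mk 1 5 (-3) 3, .mk 2 5 (-6) 6],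
  [.mk 1 0 0 4, .mk (-1) 0 0 2, .mk 0 1 0 1, .mk 0 (-1) 0 2, .mk 0 0 1 1, .mk 0 0 (-1) 1, .mk (-1) (-2) (-2) 2, .mk (-1) (-2) 5 2, .mk (-1) 5 (-2) 2, .mk 0 (-1) 1 1, .mk 0 (-1) 2 1, .mk 0 2 (-1) 1, .mk 1 (-3) 6 4, .mk 4 6 (-3) 7],
  [.mk 1 0 0 2, .mk (-1) 0 0 1, .mk 0 1 0 1, .mk 0 (-1) 0 5, .mk 0 0 1 1, .mk 0 0 (-1) 1, .mk (-5) (-2) (-5) 5, .mk (-1) (-1) 2 1, .mk (-1) (-1) 3 1, .mk (-1) 3 (-1) 1, .mk 0 (-1) 3 2, .mk 4 2 (-3) 3, .mk 6 2 (-3) 5],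
  [.mk 1 0 0 3, .mk (-1) 0 0 5, .mk 0 1 0 1, .mk 0 (-1) 0 2, .mk 0 0 1 1, .mk 0 0 (-1) 1, .mk (-2) 5 (-4) 4, .mk (-1) (-4) 9 4, .mk (-1) 0 3 2, .mk (-1) 5 (-2) 2, .mk 0 (-1) 1 1, .mk 0 (-1) 2 1, .mk 1 (-2) (-3) 3, .mk 1 (-2) 4 3, .mk 1 5 (-3) 3],
  [.mk 1 0 0 2, .mk (-1) 0 0 4, .mk 0 1 0 2, .mk 0 (-1) 0 6, .mk 0 0 1 2, .mk 0 0 (-1) 5, .mk (-7) 6 (-3) 7, .mk (-4) (-3) 6 4, .mk (-2) (-2) 5 2, .mk (-2) 5 (-2) 2, .mk (-1) (-1) 2 1, .mk (-1) 2 (-1) 1, .mk 0 (-1) 1 1, .mk 1 0 (-1) 1, .mk 5 (-2) (-2) 2],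
  [.mk 1 0 0 2, .mk (-1) 0 0 5, .mk 0 1 0 2, .mk 0 (-1) 0 7, .mk 0 0 1 2, .mk 0 0 (-1) 6, .mk (-5) (-4) 8 5, .mk (-3) 0 2 3, .mk (-3) 5 (-3) 3, .mk (-2) (-2) 5 2, .mk (-2) 5 (-2) 2, .mk (-1) (-1) 2 1, .mk (-1) 5 (-6) 6, .mk 0 (-1) 1 1, .mk 1 0 (-1) 1, .mk 5 (-2) (-2) 2],
  [.mk 1 0 0 1, .mk (-1) 0 0 2, .mk 0 1 0 1, .mk 0 (-1) 0 7, .mk 0 0 1 1, .mk 0 0 (-1) 3, .mk (-5) 2 (-3) 5, .mk (-3) 2 (-3) 3, .mk (-2) (-1) 3 2, .mk (-1) (-1) 3 1, .mk (-1) 3 (-1) 1, .mk 0 (-1) 2 1, .mk 1 0 (-1) 1, .mk 12 (-2) (-5) 5],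
  [.mk 1 0 0 1, .mk (-1) 0 0 13, .mk 0 1 0 1, .mk 0 (-1) 0 2, .mk 0 0 1 1, .mk 0 0 (-1) 1, .mk (-4) 26 (-11) 11, .mk (-1) (-12) 25 12, .mk 0 (-1) 1 1, .mk 0 (-1) 2 1, .mk 0 2 (-1) 1, .mk 1 (-7) (-7) 8],
  [.mk 1 0 0 3, .mk (-1) 0 0 13, .mk 0 1 0 1, .mk 0 (-1) 0 2, .mk 0 0 1 1, .mk 0 0 (-1) 1, .mk (-4) 26 (-11) 11, .mk (-1) (-12) 25 12, .mk 0 (-1) 1 1, .mk 0 (-1) 2 1, .mk 0 2 (-1) 1, .mk 1 (-7) (-7) 8, .mk 1 (-2) (-2) 3, .mk 1 (-2) 4 3, .mk 1 4 (-2) 3],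
  [.mk 1 0 0 2, .mk (-1) 0 0 13, .mk 0 1 0 2, .mk 0 (-1) 0 15, .mk 0 0 1 2, .mk 0 0 (-1) 14, .mk (-15) 26 (-15) 15, .mk (-13) (-12) 24 13, .mk (-2) (-2) 5 2, .mk (-2) 5 (-2) 2, .mk (-1) (-1) 2 1, .mk 0 (-1) 1 1, .mk 1 0 (-1) 1, .mk 5 (-2) (-2) 2, .mk 13 (-6) (-6) 6, .mk 14 (-7) (-6) 7]]

/-- Regions for `n_th5_7`. -/
def R_th5_7 : List (List F4) := [[.mk 1 0 0 2, .mk (-1) 0 0 1, .mk 0 1 0 3, .mk 0 (-1) 0 1, .mk 0 0 1 5, .mk 0 0 (-1) 3, .mk (-5) (-5) 6 5, .mk (-4) 5 (-1) 4, .mk (-4) 6 (-1) 5, .mk (-1) (-1) (-1) 1, .mk (-1) 1 0 1, .mk 1 (-2) (-1) 2, .mk 9 (-7) 2 7, .mk 12 (-2) (-1) 13],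
  [.mk 1 0 0 2, .mk (-1) 0 0 1, .mk 0 1 0 3, .mk 0 (-1) 0 1, .mk 0 0 1 2, .mk 0 0 (-1) 3, .mk (-10) 11 (-3) 10, .mk (-3) 2 2 3, .mk (-2) (-2) 3 2, .mk (-1) (-1) (-1) 1, .mk (-1) 1 0 1, .mk (-1) 1 1 2, .mk 2 (-1) 0 1],
  [.mk 1 0 0 1, .mk (-1) 0 0 1, .mk 0 1 0 2, .mk 0 (-1) 0 1, .mk 0 0 1 3, .mk 0 0 (-1) 1, .mk (-3) (-3) 4 3, .mk (-1) (-1) (-1) 1, .mk (-1) 1 0 1, .mk (-1) 2 (-1) 1, .mk 0 (-1) (-1) 1, .mk 0 (-1) 1 1, .mk 0 2 (-1) 1, .mk 4 (-3) 1 3],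
  [.mk 1 0 0 1, .mk (-1) 0 0 1, .mk 0 1 0 1, .mk 0 (-1) 0 1, .mk 0 0 1 2, .mk 0 0 (-1) 2, .mk (-3) 4 1 3, .mk (-2) (-2) 3 2, .mk (-1) (-1) (-1) 1, .mk (-1) 1 0 1, .mk 0 (-1) (-1) 1, .mk 3 2 (-1) 4, .mk 4 (-3) 1 3],
  [.mk 1 0 0 2, .mk (-1) 0 0 1, .mk 0 1 0 3, .mk 0 (-1) 0 1, .mk 0 0 1 5, .mk 0 0 (-1) 3, .mk (-5) (-5) 6 5, .mk (-4) 5 (-1) 4, .mk (-4) 6 (-1) 5, .mk (-1) (-1) (-1) 1, .mk (-1) 1 0 1, .mk 2 (-1) 0 1],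
  [.mk 1 0 0 2, .mk (-1) 0 0 1, .mk 0 1 0 3, .mk 0 (-1) 0 1, .mk 0 0 1 5, .mk 0 0 (-1) 1, .mk (-8) (-7) 9 8, .mk (-1) (-1) (-1) 1, .mk (-1) (-1) 1 1, .mk (-1) 1 0 1, .mk (-1) 2 (-1) 1, .mk 0 2 (-1) 1, .mk 1 (-1) (-1) 1, .mk 12 2 (-5) 5],
  [.mk 1 0 0 1, .mk (-1) 0 0 1, .mk 0 1 0 4, .mk 0 (-1) 0 1, .mk 0 0 1 5, .mk 0 0 (-1) 1, .mk (-9) (-8) 10 9, .mk (-4) 7 (-4) 4, .mk (-1) (-1) (-1) 1, .mk (-1) (-1) 1 1, .mk 0 (-1) (-1) 1, .mk 2 1 (-1) 1],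
  [.mk 1 0 0 3, .mk (-1) 0 0 3, .mk 0 1 0 1, .mk 0 (-1) 0 1, .mk 0 0 1 3, .mk 0 0 (-1) 1, .mk (-3) (-2) 4 3, .mk (-1) (-3) (-3) 3, .mk (-1) (-1) 1 1, .mk 1 (-1) (-1) 1, .mk 1 2 (-1) 1, .mk 2 6 (-3) 3, .mk 4 (-2) (-3) 3, .mk 4 5 (-3) 3],
  [.mk 1 0 0 1, .mk (-1) 0 0 3, .mk 0 1 0 4, .mk 0 (-1) 0 1, .mk 0 0 1 5, .mk 0 0 (-1) 1, .mk (-9) (-8) 10 9, .mk (-1) (-3) (-3) 3, .mk (-1) (-1) 1 1, .mk 0 (-1) (-1) 1, .mk 2 1 (-1) 1, .mk 6 18 (-13) 13],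
  [.mk 1 0 0 1, .mk (-1) 0 0 1, .mk 0 1 0 1, .mk 0 (-1) 0 1, .mk 0 0 1 2, .mk 0 0 (-1) 2, .mk (-3) (-2) 4 3, .mk (-3) 4 1 3, .mk (-1) (-1) (-1) 1, .mk (-1) (-1) 1 1, .mk (-1) 1 0 1, .mk 0 (-1) (-1) 1, .mk 4 1 (-1) 3],
  [.mk 1 0 0 1, .mk (-1) 0 0 2, .mk 0 1 0 1, .mk 0 (-1) 0 1, .mk 0 0 1 2, .mk 0 0 (-1) 1, .mk (-2) (-2) 3 2, .mk (-1) (-1) (-1) 1, .mk 0 (-1) 1 1, .mk 1 (-2) 1 2, .mk 1 2 (-1) 1, .mk 1 4 (-2) 2, .mk 3 3 (-2) 2],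
  [.mk 1 0 0 1, .mk (-1) 0 0 1, .mk 0 1 0 1, .mk 0 (-1) 0 1, .mk 0 0 1 2, .mk 0 0 (-1) 2, .mk (-3) 4 1 3, .mk (-2) (-2) 3 2, .mk (-1) (-1) (-1) 1, .mk (-1) 1 0 1, .mk 0 (-1) 1 1, .mk 1 (-2) 1 2, .mk 8 3 (-2) 7],
  [.mk 1 0 0 5, .mk (-1) 0 0 3, .mk 0 1 0 1, .mk 0 (-1) 0 1, .mk 0 0 1 5, .mk 0 0 (-1) 1, .mk (-5) (-5) 6 5, .mk (-5) (-4) 6 5, .mk (-3) 0 4 5, .mk (-1) (-3) (-3) 3, .mk (-1) (-1) 1 1, .mk 1 2 (-1) 1, .mk 2 6 (-3) 3, .mk 6 (-5) (-5) 5, .mk 6 9 (-5) 5],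
  [.mk 1 0 0 5, .mk (-1) 0 0 3, .mk 0 1 0 1, .mk 0 (-1) 0 1, .mk 0 0 1 5, .mk 0 0 (-1) 1, .mk (-5) (-4) 6 5, .mk (-3) 0 4 5, .mk (-1) (-3) (-3) 3, .mk (-1) (-1) 1 1, .mk 1 (-1) (-1) 1, .mk 1 2 (-1) 1, .mk 2 6 (-3) 3, .mk 6 (-4) (-5) 5, .mk 6 9 (-5) 5],
  [.mk 1 0 0 1, .mk (-1) 0 0 3, .mk 0 1 0 1, .mk 0 (-1) 0 1, .mk 0 0 1 2, .mk 0 0 (-1) 1, .mk (-3) (-2) 4 3, .mk (-1) (-3) (-3) 3, .mk (-1) (-1) 1 1, .mk 0 (-1) (-1) 1, .mk 1 2 (-1) 1, .mk 2 1 (-1) 1, .mk 2 6 (-3) 3],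
  [.mk 1 0 0 2, .mk (-1) 0 0 1, .mk 0 1 0 3, .mk 0 (-1) 0 5, .mk 0 0 1 4, .mk 0 0 (-1) 2, .mk (-5) (-1) (-5) 5, .mk (-4) (-5) 6 5, .mk (-1) (-1) 1 1, .mk (-1) 1 (-1) 1, .mk (-1) 7 (-4) 4, .mk 2 1 (-1) 1],
  [.mk 1 0 0 1, .mk (-1) 0 0 1, .mk 0 1 0 1, .mk 0 (-1) 0 1, .mk 0 0 1 5, .mk 0 0 (-1) 2, .mk (-7) 6 4 7, .mk (-4) (-3) 1 4, .mk (-2) (-2) (-1) 2, .mk (-2) 5 (-1) 2, .mk (-1) (-1) 0 1, .mk (-1) 2 0 1, .mk 5 (-2) (-1) 2],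
  [.mk 1 0 0 1, .mk (-1) 0 0 1, .mk 0 1 0 1, .mk 0 (-1) 0 1, .mk 0 0 1 5, .mk 0 0 (-1) 4, .mk (-7) 6 4 7, .mk (-4) (-4) (-1) 4, .mk (-4) (-3) 1 4, .mk (-4) 9 (-1) 4, .mk (-1) (-1) 0 1, .mk (-1) 2 0 1, .mk 5 (-4) (-1) 4, .mk 7 (-2) (-1) 4],
  [.mk 1 0 0 1, .mk (-1) 0 0 1, .mk 0 1 0 1, .mk 0 (-1) 0 1, .mk 0 0 1 2, .mk 0 0 (-1) 4, .mk (-4) (-4) (-1) 4, .mk (-4) 10 (-1) 4, .mk (-1) (-1) 0 1, .mk (-1) 0 1 1, .mk 3 3 (-1) 4, .mk 8 (-5) 2 7],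
  [.mk 1 0 0 1, .mk (-1) 0 0 1, .mk 0 1 0 1, .mk 0 (-1) 0 1, .mk 0 0 1 2, .mk 0 0 (-1) 12, .mk (-12) (-12) (-1) 12, .mk (-11) 26 (-4) 11, .mk (-1) (-1) 0 1, .mk (-1) 0 1 1, .mk (-1) 2 0 1, .mk 13 (-7) 1 8],
  [.mk 1 0 0 1, .mk (-1) 0 0 1, .mk 0 1 0 1, .mk 0 (-1) 0 1, .mk 0 0 1 2, .mk 0 0 (-1) 13, .mk (-13) (-13) (-1) 13, .mk (-4) 5 (-1) 4, .mk (-4) 10 (-1) 4, .mk (-3) 15 (-2) 8, .mk (-1) (-1) 0 1, .mk (-1) 0 1 1, .mk 13 (-7) 1 8],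
  [.mk 1 0 0 1, .mk (-1) 0 0 1, .mk 0 1 0 1, .mk 0 (-1) 0 1, .mk 0 0 1 2, .mk 0 0 (-1) 21, .mk (-21) (-21) (-1) 21, .mk (-19) 46 (-4) 19, .mk (-1) (-1) 0 1, .mk (-1) 0 1 1, .mk 21 (-11) 1 12],
  [.mk 1 0 0 2, .mk (-1) 0 0 1, .mk 0 1 0 2, .mk 0 (-1) 0 3, .mk 0 0 1 3, .mk 0 0 (-1) 1, .mk (-10) (-3) 11 10, .mk (-3) 2 2 3, .mk (-2) 3 (-2) 2, .mk (-1) (-1) (-1) 1, .mk (-1) 0 1 1, .mk (-1) 1 1 2, .mk 2 1 (-2) 2, .mk 6 (-1) (-1) 8, .mk 13 (-1) (-8) 8],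
  [.mk 1 0 0 2, .mk (-1) 0 0 1, .mk 0 1 0 2, .mk 0 (-1) 0 3, .mk 0 0 1 3, .mk 0 0 (-1) 1, .mk (-10) (-3) 11 10, .mk (-3) 2 2 3, .mk (-2) 3 (-2) 2, .mk (-1) (-1) (-1) 1, .mk (-1) 0 1 1, .mk (-1) 1 1 2, .mk 2 0 (-1) 1],
  [.mk 1 0 0 3, .mk (-1) 0 0 3, .mk 0 1 0 1, .mk 0 (-1) 0 1, .mk 0 0 1 3, .mk 0 0 (-1) 2, .mk (-3) (-2) 4 3, .mk (-1) 0 1 1, .mk (-1) 6 (-3) 3, .mk 1 (-1) (-1) 1, .mk 1 2 (-1) 1, .mk 2 (-3) (-3) 3, .mk 4 (-2) (-3) 3, .mk 4 5 (-3) 3],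
  [.mk 1 0 0 1, .mk (-1) 0 0 3, .mk 0 1 0 1, .mk 0 (-1) 0 4, .mk 0 0 1 2, .mk 0 0 (-1) 2, .mk (-9) (-2) 10 9, .mk (-1) 0 1 1, .mk (-1) 6 (-3) 3, .mk 0 2 (-1) 1, .mk 2 0 (-1) 1, .mk 6 (-5) (-13) 13],
  [.mk 1 0 0 1, .mk (-1) 0 0 1, .mk 0 1 0 1, .mk 0 (-1) 0 4, .mk 0 0 1 2, .mk 0 0 (-1) 1, .mk (-9) (-2) 10 9, .mk (-4) (-3) (-4) 4, .mk (-1) 0 1 1, .mk (-1) 2 (-1) 1, .mk 0 2 (-1) 1, .mk 2 0 (-1) 1],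
  [.mk 1 0 0 2, .mk (-1) 0 0 1, .mk 0 1 0 1, .mk 0 (-1) 0 3, .mk 0 0 1 2, .mk 0 0 (-1) 1, .mk (-8) (-2) 9 8, .mk (-1) (-1) (-1) 1, .mk (-1) (-1) 0 1, .mk (-1) 0 1 1, .mk (-1) 2 (-1) 1, .mk 0 (-1) (-1) 1, .mk 1 2 (-1) 1, .mk 12 3 (-5) 5],
  [.mk 1 0 0 3, .mk (-1) 0 0 4, .mk 0 1 0 1, .mk 0 (-1) 0 1, .mk 0 0 1 3, .mk 0 0 (-1) 3, .mk (-3) (-2) 4 3, .mk (-3) 5 1 4, .mk (-1) 0 1 1, .mk 1 (-1) (-1) 1, .mk 1 0 (-2) 2, .mk 1 5 (-2) 2, .mk 3 (-4) (-4) 4, .mk 4 (-2) (-3) 3, .mk 4 5 (-3) 3],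
  [.mk 1 0 0 4, .mk (-1) 0 0 4, .mk 0 1 0 3, .mk 0 (-1) 0 4, .mk 0 0 1 7, .mk 0 0 (-1) 8, .mk (-7) (-7) 8 7, .mk (-4) (-3) 3 4, .mk (-4) 1 1 4, .mk (-3) (-4) 3 4, .mk (-1) (-1) 1 1, .mk (-1) 4 (-1) 1, .mk 1 (-1) 0 1, .mk 1 6 (-4) 4, .mk 2 0 (-1) 1, .mk 9 (-4) (-3) 4, .mk 10 (-3) (-4) 4],
  [.mk 1 0 0 4, .mk (-1) 0 0 4, .mk 0 1 0 3, .mk 0 (-1) 0 4, .mk 0 0 1 7, .mk 0 0 (-1) 8, .mk (-7) (-7) 8 7, .mk (-4) (-3) 3 4, .mk (-4) 11 (-4) 4, .mk (-1) (-1) 1 1, .mk (-1) 4 (-1) 1, .mk 1 (-1) 0 1, .mk 2 0 (-1) 1, .mk 10 (-3) (-4) 4],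
  [.mk 1 0 0 11, .mk (-1) 0 0 1, .mk 0 1 0 1, .mk 0 (-1) 0 1, .mk 0 0 1 2, .mk 0 0 (-1) 1, .mk (-2) (-2) 3 2, .mk (-1) (-10) (-10) 10, .mk (-1) (-1) (-1) 1, .mk (-1) 4 (-1) 1, .mk 0 (-1) 1 1, .mk 1 (-10) 10 11, .mk 1 11 (-4) 4],
  [.mk 1 0 0 4, .mk (-1) 0 0 1, .mk 0 1 0 1, .mk 0 (-1) 0 1, .mk 0 0 1 2, .mk 0 0 (-1) 1, .mk (-2) (-2) 3 2, .mk (-1) (-3) (-3) 3, .mk (-1) (-1) (-1) 1, .mk (-1) 4 (-1) 1, .mk 0 (-1) 1 1, .mk 1 (-3) 3 4, .mk 1 4 (-4) 4, .mk 1 11 (-4) 4],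
  [.mk 1 0 0 2, .mk (-1) 0 0 2, .mk 0 1 0 1, .mk 0 (-1) 0 1, .mk 0 0 1 2, .mk 0 0 (-1) 3, .mk (-2) (-2) 3 2, .mk (-2) (-1) 1 2, .mk (-1) (-1) 1 1, .mk (-1) 4 (-1) 1, .mk 0 (-1) 1 1, .mk 1 (-1) 0 1, .mk 1 (-1) 1 2, .mk 3 (-2) (-2) 2],
  [.mk 1 0 0 2, .mk (-1) 0 0 4, .mk 0 1 0 1, .mk 0 (-1) 0 1, .mk 0 0 1 2, .mk 0 0 (-1) 1, .mk (-2) (-7) 8 7, .mk (-1) 4 (-1) 1, .mk 0 (-1) 1 1, .mk 1 (-3) (-3) 3, .mk 1 (-1) 0 1, .mk 1 (-1) 1 2, .mk 3 (-2) (-2) 2],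
  [.mk 1 0 0 2, .mk (-1) 0 0 2, .mk 0 1 0 1, .mk 0 (-1) 0 1, .mk 0 0 1 2, .mk 0 0 (-1) 1, .mk (-2) (-3) 4 3, .mk (-1) 0 1 1, .mk (-1) 2 (-1) 1, .mk (-1) 4 (-1) 1, .mk 2 (-2) (-3) 3, .mk 5 4 (-3) 3],
  [.mk 1 0 0 4, .mk (-1) 0 0 2, .mk 0 1 0 3, .mk 0 (-1) 0 1, .mk 0 0 1 7, .mk 0 0 (-1) 3, .mk (-7) (-7) 8 7, .mk (-2) (-1) 1 2, .mk (-1) (-1) 1 1, .mk (-1) 4 (-1) 1, .mk 1 (-1) 0 1, .mk 2 0 (-1) 1, .mk 3 (-2) (-2) 2, .mk 8 (-3) (-3) 3],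
  [.mk 1 0 0 2, .mk (-1) 0 0 2, .mk 0 1 0 1, .mk 0 (-1) 0 3, .mk 0 0 1 3, .mk 0 0 (-1) 3, .mk (-3) (-3) 4 3, .mk (-3) 4 (-3) 3, .mk (-1) 0 1 1, .mk (-1) 4 (-1) 1, .mk 1 (-1) 0 1, .mk 1 2 (-1) 1, .mk 2 0 (-1) 1, .mk 6 (-2) (-3) 3],
  [.mk 1 0 0 4, .mk (-1) 0 0 4, .mk 0 1 0 1, .mk 0 (-1) 0 1, .mk 0 0 1 2, .mk 0 0 (-1) 1, .mk (-2) (-7) 8 7, .mk (-1) 4 (-1) 1, .mk 0 (-1) 1 1, .mk 1 (-3) (-4) 4, .mk 1 (-3) 3 4, .mk 1 11 (-4) 4],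
  [.mk 1 0 0 1, .mk (-1) 0 0 4, .mk 0 1 0 1, .mk 0 (-1) 0 5, .mk 0 0 1 2, .mk 0 0 (-1) 9, .mk (-4) (-3) 3 4, .mk (-4) 11 (-4) 4, .mk (-2) (-2) 3 2, .mk (-1) (-1) 1 1, .mk (-1) 4 (-1) 1, .mk 1 (-1) 0 1, .mk 2 0 (-1) 1, .mk 3 4 (-4) 4, .mk 4 (-1) (-1) 1, .mk 10 (-3) (-3) 3],
  [.mk 1 0 0 1, .mk (-1) 0 0 11, .mk 0 1 0 1, .mk 0 (-1) 0 12, .mk 0 0 1 2, .mk 0 0 (-1) 23, .mk (-11) (-10) 10 11, .mk (-4) 11 (-4) 4, .mk (-2) (-2) 3 2, .mk (-1) (-1) 1 1, .mk (-1) 4 (-1) 1, .mk 1 (-1) 0 1, .mk 2 0 (-1) 1, .mk 4 (-1) (-1) 1, .mk 31 (-10) (-10) 10],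
  [.mk 1 0 0 1, .mk (-1) 0 0 1, .mk 0 1 0 2, .mk 0 (-1) 0 2, .mk 0 0 1 3, .mk 0 0 (-1) 1, .mk (-3) (-3) 4 3, .mk (-2) 5 (-2) 2, .mk (-1) (-1) 1 1, .mk (-1) 0 (-1) 1, .mk 0 (-1) 1 1, .mk 3 (-3) 2 4, .mk 4 4 (-3) 3],
  [.mk 1 0 0 1, .mk (-1) 0 0 1, .mk 0 1 0 1, .mk 0 (-1) 0 1, .mk 0 0 1 13, .mk 0 0 (-1) 2, .mk (-15) 22 4 15, .mk (-13) (-13) 1 13, .mk (-2) (-1) (-1) 2, .mk (-2) 6 (-1) 2, .mk (-1) (-1) 0 1, .mk 5 (-1) (-1) 2, .mk 13 (-5) (-1) 6, .mk 14 (-6) (-1) 7],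
  [.mk 1 0 0 1, .mk (-1) 0 0 1, .mk 0 1 0 1, .mk 0 (-1) 0 1, .mk 0 0 1 5, .mk 0 0 (-1) 2, .mk (-5) (-5) 1 5, .mk (-3) (-1) 1 3, .mk (-3) 4 1 3, .mk (-2) (-1) (-1) 2, .mk (-2) 6 (-1) 2, .mk (-1) (-1) 0 1, .mk (-1) 3 2 6, .mk 5 (-1) (-1) 2],
  [.mk 1 0 0 1, .mk (-1) 0 0 1, .mk 0 1 0 1, .mk 0 (-1) 0 1, .mk 0 0 1 4, .mk 0 0 (-1) 2, .mk (-7) 2 4 7, .mk (-4) (-4) 1 4, .mk (-2) (-1) (-1) 2, .mk (-2) 6 (-1) 2, .mk (-1) (-1) 0 1, .mk (-1) 2 0 1, .mk 5 (-1) (-1) 2],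
  [.mk 1 0 0 1, .mk (-1) 0 0 1, .mk 0 1 0 1, .mk 0 (-1) 0 1, .mk 0 0 1 3, .mk 0 0 (-1) 5, .mk (-4) (-3) (-1) 4, .mk (-3) (-3) 1 3, .mk (-3) 4 1 3, .mk (-2) 1 (-1) 2, .mk (-2) 6 (-1) 2, .mk (-1) (-1) 0 1, .mk 1 7 (-2) 4, .mk 4 (-3) 1 3],
  [.mk 1 0 0 1, .mk (-1) 0 0 1, .mk 0 1 0 1, .mk 0 (-1) 0 1, .mk 0 0 1 3, .mk 0 0 (-1) 13, .mk (-12) (-11) (-1) 12, .mk (-11) 30 (-4) 11, .mk (-1) (-1) 0 1, .mk (-1) (-1) 1 1, .mk (-1) 2 0 1, .mk 13 (-8) 1 8],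
  [.mk 1 0 0 1, .mk (-1) 0 0 1, .mk 0 1 0 1, .mk 0 (-1) 0 1, .mk 0 0 1 3, .mk 0 0 (-1) 13, .mk (-12) (-11) (-1) 12, .mk (-11) 30 (-4) 11, .mk (-3) (-3) 1 3, .mk (-3) 3 1 3, .mk (-1) (-1) 0 1, .mk (-1) 2 0 1, .mk 3 (-3) 1 3, .mk 13 (-8) 1 8],
  [.mk 1 0 0 1, .mk (-1) 0 0 1, .mk 0 1 0 1, .mk 0 (-1) 0 4, .mk 0 0 1 2, .mk 0 0 (-1) 1, .mk (-5) (-4) 6 5, .mk (-3) (-2) 4 3, .mk (-2) (-1) 0 2, .mk (-1) 0 (-1) 1, .mk (-1) 4 (-1) 1, .mk 12 3 (-5) 5],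
  [.mk 1 0 0 2, .mk (-1) 0 0 1, .mk 0 1 0 3, .mk 0 (-1) 0 1, .mk 0 0 1 4, .mk 0 0 (-1) 1, .mk (-3) (-3) 4 3, .mk (-3) 7 (-3) 3, .mk (-1) (-1) 0 1, .mk (-1) 0 (-1) 1, .mk (-1) 1 0 1, .mk 0 (-1) 1 1, .mk 1 1 (-1) 1, .mk 2 (-1) 0 1, .mk 2 0 (-1) 1],
  [.mk 1 0 0 1, .mk (-1) 0 0 1, .mk 0 1 0 2, .mk 0 (-1) 0 2, .mk 0 0 1 3, .mk 0 0 (-1) 2, .mk (-3) (-3) 4 3, .mk (-2) 5 (-2) 2, .mk (-1) (-1) 0 1, .mk (-1) 0 (-1) 1, .mk 0 (-1) 1 1, .mk 1 1 (-1) 1, .mk 2 (-4) 3 4, .mk 4 4 (-3) 3]]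

/-- Regions for `n_th7_7`. -/
def R_th7_7 : List (List F4) := [[.mk 1 0 0 1, .mk (-1) 0 0 1, .mk 0 1 0 2, .mk 0 (-1) 0 2, .mk 0 0 1 4, .mk 0 0 (-1) 5, .mk (-13) 16 (-2) 13, .mk (-9) (-7) (-5) 9, .mk (-9) (-2) 5 9, .mk (-5) 2 2 5, .mk 3 (-1) 0 2],
  [.mk 1 0 0 4, .mk (-1) 0 0 1, .mk 0 1 0 5, .mk 0 (-1) 0 1, .mk 0 0 1 7, .mk 0 0 (-1) 1, .mk (-5) 12 (-5) 5, .mk (-3) (-5) 6 5, .mk (-3) (-3) 4 3, .mk (-1) (-1) (-1) 1, .mk (-1) 1 0 1, .mk 2 0 (-1) 1, .mk 3 (-2) 0 2, .mk 3 (-1) (-1) 1],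
  [.mk 1 0 0 2, .mk (-1) 0 0 1, .mk 0 1 0 3, .mk 0 (-1) 0 1, .mk 0 0 1 5, .mk 0 0 (-1) 3, .mk (-5) (-5) 6 5, .mk (-4) 5 (-1) 4, .mk (-4) 6 (-1) 5, .mk (-1) (-1) (-1) 1, .mk (-1) 1 0 1, .mk 2 (-1) 0 1],
  [.mk 1 0 0 2, .mk (-1) 0 0 1, .mk 0 1 0 3, .mk 0 (-1) 0 1, .mk 0 0 1 5, .mk 0 0 (-1) 1, .mk (-8) (-7) 9 8, .mk (-1) (-1) (-1) 1, .mk (-1) (-1) 1 1, .mk (-1) 1 0 1, .mk (-1) 2 (-1) 1, .mk 0 2 (-1) 1, .mk 1 (-1) (-1) 1, .mk 12 2 (-5) 5],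
  [.mk 1 0 0 2, .mk (-1) 0 0 1, .mk 0 1 0 5, .mk 0 (-1) 0 1, .mk 0 0 1 6, .mk 0 0 (-1) 1, .mk (-4) (-4) 5 4, .mk (-3) 3 (-1) 3, .mk (-3) 5 (-3) 3, .mk (-2) 0 1 2, .mk (-1) (-1) (-1) 1, .mk 0 (-1) 1 1, .mk 1 1 (-1) 1, .mk 6 (-1) (-1) 1],
  [.mk 1 0 0 2, .mk (-1) 0 0 1, .mk 0 1 0 3, .mk 0 (-1) 0 1, .mk 0 0 1 5, .mk 0 0 (-1) 3, .mk (-5) (-5) 6 5, .mk (-4) 5 (-1) 4, .mk (-4) 6 (-1) 5, .mk (-1) (-1) (-1) 1, .mk (-1) 1 0 1, .mk 1 (-2) (-1) 2, .mk 9 (-7) 2 7, .mk 12 (-2) (-1) 13],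
  [.mk 1 0 0 1, .mk (-1) 0 0 1, .mk 0 1 0 4, .mk 0 (-1) 0 1, .mk 0 0 1 5, .mk 0 0 (-1) 1, .mk (-9) (-8) 10 9, .mk (-4) 7 (-4) 4, .mk (-1) (-1) (-1) 1, .mk (-1) (-1) 1 1, .mk 0 (-1) (-1) 1, .mk 2 1 (-1) 1],
  [.mk 1 0 0 2, .mk (-1) 0 0 1, .mk 0 1 0 3, .mk 0 (-1) 0 5, .mk 0 0 1 4, .mk 0 0 (-1) 2, .mk (-5) (-1) (-5) 5, .mk (-4) (-5) 6 5, .mk (-4) (-4) 5 4, .mk (-1) (-1) 1 1, .mk (-1) 2 (-1) 1, .mk 2 1 (-1) 1],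
  [.mk 1 0 0 3, .mk (-1) 0 0 2, .mk 0 1 0 7, .mk 0 (-1) 0 3, .mk 0 0 1 10, .mk 0 0 (-1) 5, .mk (-10) (-10) 11 10, .mk (-2) (-3) 2 3, .mk (-2) (-1) 1 2, .mk (-1) (-1) 1 1, .mk (-1) 2 (-1) 1, .mk 6 (-1) (-1) 1, .mk 7 (-2) (-2) 2],
  [.mk 1 0 0 3, .mk (-1) 0 0 2, .mk 0 1 0 7, .mk 0 (-1) 0 3, .mk 0 0 1 10, .mk 0 0 (-1) 5, .mk (-10) (-10) 11 10, .mk (-8) 6 (-1) 8, .mk (-2) (-3) 2 3, .mk (-2) (-1) 1 2, .mk (-1) (-1) 1 1, .mk (-1) 13 (-8) 8, .mk 1 2 (-2) 2, .mk 6 (-1) (-1) 1, .mk 7 (-2) (-2) 2],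
  [.mk 1 0 0 1, .mk (-1) 0 0 1, .mk 0 1 0 2, .mk 0 (-1) 0 1, .mk 0 0 1 6, .mk 0 0 (-1) 3, .mk (-9) 6 2 9, .mk (-3) (-3) (-1) 3, .mk (-3) 4 (-1) 3, .mk (-2) (-2) 1 2, .mk (-1) 1 0 1, .mk 2 (-1) 0 1, .mk 11 (-3) (-1) 3],
  [.mk 1 0 0 1, .mk (-1) 0 0 1, .mk 0 1 0 2, .mk 0 (-1) 0 1, .mk 0 0 1 3, .mk 0 0 (-1) 3, .mk (-4) 1 2 4, .mk (-3) (-3) (-1) 3, .mk (-3) 4 (-1) 3, .mk (-2) (-2) 1 2, .mk (-1) 1 0 1, .mk 2 (-1) 0 1, .mk 3 (-2) 1 2, .mk 4 (-3) (-1) 3, .mk 9 (-4) 1 4],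
  [.mk 1 0 0 1, .mk (-1) 0 0 1, .mk 0 1 0 2, .mk 0 (-1) 0 1, .mk 0 0 1 3, .mk 0 0 (-1) 9, .mk (-10) 11 (-1) 10, .mk (-4) 1 2 4, .mk (-3) (-3) (-1) 3, .mk (-2) (-2) 1 2, .mk (-1) 1 0 1, .mk 2 (-1) 0 1, .mk 3 (-2) 1 2, .mk 30 (-11) 1 11],
  [.mk 1 0 0 1, .mk (-1) 0 0 2, .mk 0 1 0 2, .mk 0 (-1) 0 1, .mk 0 0 1 3, .mk 0 0 (-1) 2, .mk (-7) 10 (-2) 7, .mk (-3) (-5) 6 5, .mk (-3) 4 (-1) 3, .mk (-1) 1 0 1, .mk 0 (-1) 1 1, .mk 2 (-5) (-4) 5, .mk 2 (-1) 0 1],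
  [.mk 1 0 0 4, .mk (-1) 0 0 1, .mk 0 1 0 5, .mk 0 (-1) 0 1, .mk 0 0 1 9, .mk 0 0 (-1) 1, .mk (-9) (-9) 10 9, .mk (-1) (-1) 1 1, .mk (-1) 1 0 1, .mk 0 2 (-1) 1, .mk 1 (-1) (-1) 1, .mk 15 (-4) (-4) 4],
  [.mk 1 0 0 3, .mk (-1) 0 0 1, .mk 0 1 0 5, .mk 0 (-1) 0 1, .mk 0 0 1 8, .mk 0 0 (-1) 1, .mk (-8) (-8) 9 8, .mk (-5) 12 (-5) 5, .mk (-1) (-1) 1 1, .mk (-1) 1 (-1) 1, .mk 1 (-1) (-1) 1, .mk 2 (-1) 0 1, .mk 3 0 (-1) 1, .mk 4 (-1) (-1) 1],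
  [.mk 1 0 0 1, .mk (-1) 0 0 1, .mk 0 1 0 3, .mk 0 (-1) 0 2, .mk 0 0 1 3, .mk 0 0 (-1) 1, .mk (-3) (-3) 4 3, .mk (-3) 4 (-3) 3, .mk (-1) (-1) 1 1, .mk (-1) 1 (-1) 1, .mk 1 (-1) (-3) 3, .mk 2 1 (-1) 1, .mk 4 4 (-3) 3, .mk 7 2 (-3) 3],
  [.mk 1 0 0 1, .mk (-1) 0 0 1, .mk 0 1 0 3, .mk 0 (-1) 0 3, .mk 0 0 1 3, .mk 0 0 (-1) 2, .mk (-4) (-3) 1 4, .mk (-3) (-3) 4 3, .mk (-3) 4 (-3) 3, .mk (-2) 1 (-2) 2, .mk (-1) (-1) 1 1, .mk 2 1 (-1) 1, .mk 3 1 (-2) 2, .mk 4 4 (-3) 3, .mk 9 3 (-4) 4],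
  [.mk 1 0 0 4, .mk (-1) 0 0 1, .mk 0 1 0 5, .mk 0 (-1) 0 2, .mk 0 0 1 9, .mk 0 0 (-1) 1, .mk (-9) (-9) 10 9, .mk (-1) (-1) 1 1, .mk (-1) 1 0 1, .mk 0 2 (-1) 1, .mk 1 (-1) (-3) 3, .mk 25 6 (-13) 13],
  [.mk 1 0 0 1, .mk (-1) 0 0 1, .mk 0 1 0 2, .mk 0 (-1) 0 1, .mk 0 0 1 3, .mk 0 0 (-1) 5, .mk (-4) (-5) (-1) 5, .mk (-4) 6 (-1) 5, .mk (-3) (-3) 4 3, .mk (-1) (-1) 0 1, .mk (-1) 1 0 1, .mk 0 4 (-1) 5, .mk 2 (-1) 0 1, .mk 6 (-3) 1 3, .mk 9 (-5) (-1) 5],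
  [.mk 1 0 0 1, .mk (-1) 0 0 1, .mk 0 1 0 2, .mk 0 (-1) 0 1, .mk 0 0 1 3, .mk 0 0 (-1) 1, .mk (-3) (-3) 4 3, .mk (-2) 4 (-1) 3, .mk (-1) (-1) 1 1, .mk (-1) 1 0 1, .mk 1 (-1) (-1) 1, .mk 2 (-1) 0 1, .mk 6 (-3) 1 3],
  [.mk 1 0 0 1, .mk (-1) 0 0 1, .mk 0 1 0 2, .mk 0 (-1) 0 1, .mk 0 0 1 3, .mk 0 0 (-1) 8, .mk (-9) 11 (-1) 10, .mk (-4) (-5) (-1) 5, .mk (-4) 1 (-1) 5, .mk (-3) (-3) 4 3, .mk (-1) (-1) 0 1, .mk (-1) 1 0 1, .mk 2 (-5) (-1) 5, .mk 2 (-1) 0 1, .mk 27 (-10) 1 10],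
  [.mk 1 0 0 1, .mk (-1) 0 0 1, .mk 0 1 0 2, .mk 0 (-1) 0 1, .mk 0 0 1 3, .mk 0 0 (-1) 15, .mk (-16) 17 (-1) 16, .mk (-16) 18 (-1) 17, .mk (-5) (-5) (-1) 5, .mk (-3) (-3) 4 3, .mk (-1) 1 0 1, .mk 2 (-1) 0 1, .mk 48 (-17) 1 17],
  [.mk 1 0 0 1, .mk (-1) 0 0 1, .mk 0 1 0 3, .mk 0 (-1) 0 4, .mk 0 0 1 4, .mk 0 0 (-1) 4, .mk (-7) (-6) 8 7, .mk (-4) (-4) 3 4, .mk (-4) (-2) 1 4, .mk (-3) (-4) 3 4, .mk (-1) (-1) 1 1, .mk (-1) 2 (-1) 1, .mk 1 3 (-4) 4, .mk 2 1 (-1) 1, .mk 9 2 (-3) 4, .mk 10 3 (-4) 4],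
  [.mk 1 0 0 1, .mk (-1) 0 0 1, .mk 0 1 0 3, .mk 0 (-1) 0 4, .mk 0 0 1 4, .mk 0 0 (-1) 4, .mk (-7) (-6) 8 7, .mk (-4) (-4) 3 4, .mk (-4) 3 (-4) 4, .mk (-1) (-1) 1 1, .mk (-1) 2 (-1) 1, .mk 2 1 (-1) 1, .mk 10 3 (-4) 4],
  [.mk 1 0 0 1, .mk (-1) 0 0 1, .mk 0 1 0 3, .mk 0 (-1) 0 1, .mk 0 0 1 4, .mk 0 0 (-1) 2, .mk (-7) (-6) 8 7, .mk (-2) (-2) 1 2, .mk (-1) (-1) 1 1, .mk (-1) 2 (-1) 1, .mk 2 1 (-1) 1, .mk 3 (-1) (-2) 2, .mk 8 2 (-3) 3],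
  [.mk 1 0 0 3, .mk (-1) 0 0 2, .mk 0 1 0 4, .mk 0 (-1) 0 1, .mk 0 0 1 7, .mk 0 0 (-1) 3, .mk (-9) (-10) 11 10, .mk (-3) (-3) 2 3, .mk (-2) (-1) 1 2, .mk (-1) (-1) 1 1, .mk 0 2 (-1) 1, .mk 1 0 (-1) 1, .mk 5 (-3) 0 3, .mk 8 0 (-3) 3],
  [.mk 1 0 0 1, .mk (-1) 0 0 1, .mk 0 1 0 3, .mk 0 (-1) 0 1, .mk 0 0 1 3, .mk 0 0 (-1) 1, .mk (-3) (-3) 4 3, .mk (-3) 0 2 3, .mk (-3) 2 0 3, .mk (-3) 4 (-3) 3, .mk (-1) (-1) (-1) 1, .mk 6 (-1) (-1) 1],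
  [.mk 1 0 0 1, .mk (-1) 0 0 2, .mk 0 1 0 2, .mk 0 (-1) 0 2, .mk 0 0 1 3, .mk 0 0 (-1) 4, .mk (-4) (-4) 3 4, .mk (-3) (-3) 4 3, .mk (-2) 5 (-2) 2, .mk 0 2 (-1) 1, .mk 1 (-2) 0 2, .mk 2 (-1) 0 1, .mk 2 0 (-1) 1, .mk 3 (-2) 1 2, .mk 3 0 (-2) 2],
  [.mk 1 0 0 1, .mk (-1) 0 0 1, .mk 0 1 0 2, .mk 0 (-1) 0 2, .mk 0 0 1 3, .mk 0 0 (-1) 1, .mk (-3) (-3) 4 3, .mk (-3) 6 (-2) 3, .mk (-1) (-1) 1 1, .mk (-1) 0 (-1) 1, .mk (-1) 2 (-1) 1, .mk 0 (-1) 1 1, .mk 0 1 (-1) 1, .mk 4 (-2) 1 3],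
  [.mk 1 0 0 1, .mk (-1) 0 0 1, .mk 0 1 0 2, .mk 0 (-1) 0 2, .mk 0 0 1 3, .mk 0 0 (-1) 2, .mk (-3) (-3) 4 3, .mk (-2) 5 (-2) 2, .mk (-1) (-1) 1 1, .mk (-1) 0 (-1) 1, .mk 0 (-1) 1 1, .mk 0 2 (-1) 1, .mk 1 3 (-2) 2, .mk 8 (-5) 3 7],
  [.mk 1 0 0 1, .mk (-1) 0 0 1, .mk 0 1 0 2, .mk 0 (-1) 0 2, .mk 0 0 1 3, .mk 0 0 (-1) 1, .mk (-3) (-3) 4 3, .mk (-2) 5 (-2) 2, .mk (-1) (-1) 1 1, .mk (-1) 0 (-1) 1, .mk 0 (-1) 1 1, .mk 3 (-3) 2 4, .mk 4 4 (-3) 3],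
  [.mk 1 0 0 2, .mk (-1) 0 0 1, .mk 0 1 0 3, .mk 0 (-1) 0 1, .mk 0 0 1 4, .mk 0 0 (-1) 1, .mk (-3) (-3) 4 3, .mk (-3) 7 (-3) 3, .mk (-1) (-1) 0 1, .mk (-1) 0 (-1) 1, .mk (-1) 1 0 1, .mk 0 (-1) 1 1, .mk 1 1 (-1) 1, .mk 2 (-1) 0 1, .mk 2 0 (-1) 1],
  [.mk 1 0 0 1, .mk (-1) 0 0 1, .mk 0 1 0 2, .mk 0 (-1) 0 2, .mk 0 0 1 3, .mk 0 0 (-1) 2, .mk (-3) (-3) 4 3, .mk (-2) 5 (-2) 2, .mk (-1) (-1) 0 1, .mk (-1) 0 (-1) 1, .mk 0 (-1) 1 1, .mk 1 1 (-1) 1, .mk 2 (-4) 3 4, .mk 4 4 (-3) 3]]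

/-- Regions for `n_th11_7`. -/
def R_th11_7 : List (List F4) := [[.mk 1 0 0 2, .mk (-1) 0 0 1, .mk 0 1 0 3, .mk 0 (-1) 0 1, .mk 0 0 1 5, .mk 0 0 (-1) 3, .mk (-5) (-5) 6 5, .mk (-4) 5 (-1) 4, .mk (-4) 6 (-1) 5, .mk (-1) (-1) (-1) 1, .mk (-1) 1 0 1, .mk 2 (-1) 0 1],
  [.mk 1 0 0 2, .mk (-1) 0 0 1, .mk 0 1 0 3, .mk 0 (-1) 0 1, .mk 0 0 1 5, .mk 0 0 (-1) 1, .mk (-8) (-7) 9 8, .mk (-1) (-1) (-1) 1, .mk (-1) (-1) 1 1, .mk (-1) 1 0 1, .mk (-1) 2 (-1) 1, .mk 0 2 (-1) 1, .mk 1 (-1) (-1) 1, .mk 12 2 (-5) 5],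
  [.mk 1 0 0 3, .mk (-1) 0 0 1, .mk 0 1 0 5, .mk 0 (-1) 0 1, .mk 0 0 1 8, .mk 0 0 (-1) 1, .mk (-8) (-8) 9 8, .mk (-5) 12 (-5) 5, .mk (-1) (-1) 1 1, .mk (-1) 1 (-1) 1, .mk 1 (-1) (-1) 1, .mk 2 (-1) 0 1, .mk 3 0 (-1) 1, .mk 4 (-1) (-1) 1],
  [.mk 1 0 0 4, .mk (-1) 0 0 1, .mk 0 1 0 5, .mk 0 (-1) 0 1, .mk 0 0 1 9, .mk 0 0 (-1) 1, .mk (-9) (-9) 10 9, .mk (-1) (-1) 1 1, .mk (-1) 1 0 1, .mk 0 2 (-1) 1, .mk 1 (-1) (-1) 1, .mk 15 (-4) (-4) 4],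
  [.mk 1 0 0 3, .mk (-1) 0 0 2, .mk 0 1 0 4, .mk 0 (-1) 0 1, .mk 0 0 1 7, .mk 0 0 (-1) 3, .mk (-9) (-10) 11 10, .mk (-3) (-3) 2 3, .mk (-2) (-1) 1 2, .mk (-1) (-1) 1 1, .mk 0 2 (-1) 1, .mk 3 (-2) (-2) 2, .mk 4 (-1) (-1) 1],
  [.mk 1 0 0 3, .mk (-1) 0 0 4, .mk 0 1 0 4, .mk 0 (-1) 0 4, .mk 0 0 1 7, .mk 0 0 (-1) 8, .mk (-7) (-7) 8 7, .mk (-3) (-4) 3 4, .mk (-3) 10 (-4) 4, .mk (-1) (-1) 1 1, .mk (-1) 1 0 1, .mk 0 2 (-1) 1, .mk 4 (-1) (-1) 1, .mk 11 (-4) (-4) 4],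
  [.mk 1 0 0 3, .mk (-1) 0 0 1, .mk 0 1 0 4, .mk 0 (-1) 0 2, .mk 0 0 1 7, .mk 0 0 (-1) 3, .mk (-7) (-7) 8 7, .mk (-3) 8 (-3) 3, .mk (-2) 3 (-2) 2, .mk (-1) (-2) 1 2, .mk (-1) (-1) 1 1, .mk (-1) 1 0 1, .mk 0 2 (-1) 1, .mk 4 (-1) (-1) 1],
  [.mk 1 0 0 2, .mk (-1) 0 0 1, .mk 0 1 0 3, .mk 0 (-1) 0 1, .mk 0 0 1 5, .mk 0 0 (-1) 5, .mk (-7) 10 (-2) 7, .mk (-5) (-5) 6 5, .mk (-2) 4 (-1) 3, .mk (-1) (-1) 1 1, .mk (-1) 1 0 1, .mk 20 (-5) (-4) 5]]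

/-- Regions for `n_th13_7`. -/
def R_th13_7 : List (List F4) := [[.mk 1 0 0 3, .mk (-1) 0 0 5, .mk 0 1 0 4, .mk 0 (-1) 0 5, .mk 0 0 1 5, .mk 0 0 (-1) 5, .mk (-5) 0 4 5, .mk (-5) 9 (-5) 5, .mk (-3) (-4) 6 5, .mk (-2) 6 (-3) 3, .mk (-1) 1 0 1, .mk (-1) 2 (-1) 1, .mk 0 (-1) 1 1, .mk 2 (-1) (-1) 1, .mk 8 (-4) (-5) 5, .mk 10 (-3) (-3) 3],
  [.mk 1 0 0 3, .mk (-1) 0 0 1, .mk 0 1 0 4, .mk 0 (-1) 0 2, .mk 0 0 1 5, .mk 0 0 (-1) 2, .mk (-3) (-2) 4 3, .mk (-2) 6 (-3) 3, .mk (-1) 1 (-1) 1, .mk (-1) 1 0 1, .mk (-1) 2 (-1) 1, .mk 0 (-1) 1 1, .mk 1 (-1) 0 1, .mk 3 (-1) (-1) 1, .mk 10 (-3) (-3) 3],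
  [.mk 1 0 0 3, .mk (-1) 0 0 5, .mk 0 1 0 4, .mk 0 (-1) 0 5, .mk 0 0 1 5, .mk 0 0 (-1) 5, .mk (-5) 0 4 5, .mk (-5) 9 (-5) 5, .mk (-3) (-4) 6 5, .mk (-2) (-5) 6 5, .mk (-2) 6 (-3) 3, .mk (-1) 1 0 1, .mk (-1) 2 (-1) 1, .mk 0 (-1) 1 1, .mk 9 (-5) (-5) 5, .mk 10 (-3) (-3) 3],
  [.mk 1 0 0 3, .mk (-1) 0 0 3, .mk 0 1 0 4, .mk 0 (-1) 0 3, .mk 0 0 1 5, .mk 0 0 (-1) 3, .mk (-4) 9 (-4) 4, .mk (-2) (-3) 4 3, .mk (-2) 4 (-3) 3, .mk (-1) 1 0 1, .mk (-1) 2 (-1) 1, .mk 0 (-1) 1 1, .mk 0 3 (-2) 2, .mk 5 (-4) 1 4, .mk 5 (-3) (-3) 3, .mk 5 (-2) (-2) 2],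
  [.mk 1 0 0 5, .mk (-1) 0 0 3, .mk 0 1 0 7, .mk 0 (-1) 0 2, .mk 0 0 1 8, .mk 0 0 (-1) 2, .mk (-3) (-4) 6 5, .mk (-2) (-4) 5 4, .mk (-1) 2 (-1) 1, .mk 0 (-1) 1 1, .mk 1 (-1) (-1) 1, .mk 16 (-5) (-5) 5]]

/-- Regions for `n_th17_7`. -/
def R_th17_7 : List (List F4) := [[.mk 1 0 0 4, .mk (-1) 0 0 3, .mk 0 1 0 5, .mk 0 (-1) 0 3, .mk 0 0 1 3, .mk 0 0 (-1) 3, .mk (-4) 1 (-5) 4, .mk (-3) (-3) (-5) 3, .mk (-3) 4 2 3, .mk (-2) (-2) (-5) 2, .mk (-1) 1 0 1, .mk 1 0 1 1, .mk 2 (-1) 1 1, .mk 3 (-2) 0 2, .mk 4 (-3) 2 3, .mk 9 (-4) 4 4],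
  [.mk 1 0 0 7, .mk (-1) 0 0 2, .mk 0 1 0 8, .mk 0 (-1) 0 2, .mk 0 0 1 3, .mk 0 0 (-1) 5, .mk (-5) (-5) (-16) 5, .mk (-4) 5 2 4, .mk (-4) 6 3 5, .mk (-1) (-1) (-1) 1, .mk (-1) 1 0 1, .mk 2 (-1) 1 1]]

/-- Regions for `n_th19_7`. -/
def R_th19_7 : List (List F4) := []

/-- Regions for `n_th20_7`. -/
def R_th20_7 : List (List F4) := []

/-- Regions for `n_b11_7`. -/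
def R_b11_7 : List (List F4) := [[.mk 1 0 0 1, .mk (-1) 0 0 1, .mk 0 1 0 1, .mk 0 (-1) 0 1, .mk 0 0 1 12, .mk 0 0 (-1) 3, .mk (-12) (-12) 1 12, .mk (-11) 26 4 11, .mk (-3) (-2) (-1) 3, .mk (-3) 4 (-1) 3, .mk (-1) (-1) 0 1, .mk (-1) 2 0 1, .mk 3 (-2) (-1) 3, .mk 13 (-7) (-1) 8],
  [.mk 1 0 0 1, .mk (-1) 0 0 1, .mk 0 1 0 1, .mk 0 (-1) 0 1, .mk 0 0 1 12, .mk 0 0 (-1) 2, .mk (-12) (-12) 1 12, .mk (-11) 26 4 11, .mk (-1) (-1) 0 1, .mk (-1) 0 (-1) 1, .mk (-1) 2 0 1, .mk 13 (-7) (-1) 8],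
  [.mk 1 0 0 1, .mk (-1) 0 0 1, .mk 0 1 0 1, .mk 0 (-1) 0 1, .mk 0 0 1 4, .mk 0 0 (-1) 3, .mk (-4) (-4) 1 4, .mk (-3) (-2) (-1) 3, .mk (-3) 5 (-1) 3, .mk (-2) 0 1 2, .mk (-2) 5 1 2, .mk (-1) (-1) 0 1, .mk 1 5 2 4, .mk 4 (-2) (-1) 3],
  [.mk 1 0 0 1, .mk (-1) 0 0 1, .mk 0 1 0 1, .mk 0 (-1) 0 1, .mk 0 0 1 2, .mk 0 0 (-1) 5, .mk (-7) 6 (-4) 7, .mk (-4) (-3) (-1) 4, .mk (-2) (-2) 1 2, .mk (-2) 5 1 2, .mk (-1) (-1) 0 1, .mk (-1) 2 0 1, .mk 5 (-2) 1 2],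
  [.mk 1 0 0 1, .mk (-1) 0 0 1, .mk 0 1 0 1, .mk 0 (-1) 0 1, .mk 0 0 1 2, .mk 0 0 (-1) 6, .mk (-5) (-4) (-1) 5, .mk (-3) 0 (-1) 3, .mk (-3) 5 (-1) 3, .mk (-2) (-2) 1 2, .mk (-2) 5 1 2, .mk (-1) (-1) 0 1, .mk (-1) 5 (-2) 6, .mk 5 (-2) 1 2],
  [.mk 1 0 0 1, .mk (-1) 0 0 1, .mk 0 1 0 1, .mk 0 (-1) 0 1, .mk 0 0 1 2, .mk 0 0 (-1) 14, .mk (-15) 26 (-4) 15, .mk (-13) (-12) (-1) 13, .mk (-2) (-2) 1 2, .mk (-2) 5 1 2, .mk (-1) (-1) 0 1, .mk 5 (-2) 1 2, .mk 13 (-6) 1 6, .mk 14 (-7) 1 7]]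

/-- Regions for `n_b12_7`. -/
def R_b12_7 : List (List F4) := [[.mk 1 0 0 1, .mk (-1) 0 0 1, .mk 0 1 0 1, .mk 0 (-1) 0 1, .mk 0 0 1 13, .mk 0 0 (-1) 3, .mk (-12) (-11) 1 12, .mk (-11) 30 4 11, .mk (-3) (-3) (-1) 3, .mk (-3) 3 (-1) 3, .mk (-1) (-1) 0 1, .mk (-1) 2 0 1, .mk 3 (-3) (-1) 3, .mk 13 (-8) (-1) 8],
  [.mk 1 0 0 1, .mk (-1) 0 0 1, .mk 0 1 0 1, .mk 0 (-1) 0 1, .mk 0 0 1 13, .mk 0 0 (-1) 3, .mk (-12) (-11) 1 12, .mk (-11) 30 4 11, .mk (-1) (-1) (-1) 1, .mk (-1) (-1) 0 1, .mk (-1) 2 0 1, .mk 13 (-8) (-1) 8],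
  [.mk 1 0 0 1, .mk (-1) 0 0 1, .mk 0 1 0 1, .mk 0 (-1) 0 1, .mk 0 0 1 5, .mk 0 0 (-1) 3, .mk (-4) (-3) 1 4, .mk (-3) (-3) (-1) 3, .mk (-3) 4 (-1) 3, .mk (-2) 1 1 2, .mk (-2) 6 1 2, .mk (-1) (-1) 0 1, .mk 1 7 2 4, .mk 4 (-3) (-1) 3],
  [.mk 1 0 0 1, .mk (-1) 0 0 1, .mk 0 1 0 1, .mk 0 (-1) 0 1, .mk 0 0 1 2, .mk 0 0 (-1) 4, .mk (-7) 2 (-4) 7, .mk (-4) (-4) (-1) 4, .mk (-2) (-1) 1 2, .mk (-2) 6 1 2, .mk (-1) (-1) 0 1, .mk (-1) 2 0 1, .mk 5 (-1) 1 2],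
  [.mk 1 0 0 1, .mk (-1) 0 0 1, .mk 0 1 0 1, .mk 0 (-1) 0 1, .mk 0 0 1 2, .mk 0 0 (-1) 5, .mk (-5) (-5) (-1) 5, .mk (-3) (-1) (-1) 3, .mk (-3) 4 (-1) 3, .mk (-2) (-1) 1 2, .mk (-2) 6 1 2, .mk (-1) (-1) 0 1, .mk (-1) 3 (-2) 6, .mk 5 (-1) 1 2],
  [.mk 1 0 0 1, .mk (-1) 0 0 1, .mk 0 1 0 1, .mk 0 (-1) 0 1, .mk 0 0 1 2, .mk 0 0 (-1) 13, .mk (-15) 22 (-4) 15, .mk (-13) (-13) (-1) 13, .mk (-2) (-1) 1 2, .mk (-2) 6 1 2, .mk (-1) (-1) 0 1, .mk 5 (-1) 1 2, .mk 13 (-5) 1 6, .mk 14 (-6) 1 7],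
  [.mk 1 0 0 1, .mk (-1) 0 0 1, .mk 0 1 0 1, .mk 0 (-1) 0 1, .mk 0 0 1 21, .mk 0 0 (-1) 2, .mk (-21) (-21) 1 21, .mk (-19) 46 4 19, .mk (-1) (-1) 0 1, .mk (-1) 0 (-1) 1, .mk 21 (-11) (-1) 12],
  [.mk 1 0 0 1, .mk (-1) 0 0 1, .mk 0 1 0 1, .mk 0 (-1) 0 1, .mk 0 0 1 13, .mk 0 0 (-1) 2, .mk (-13) (-13) 1 13, .mk (-4) 5 1 4, .mk (-4) 10 1 4, .mk (-3) 15 2 8, .mk (-1) (-1) 0 1, .mk (-1) 0 (-1) 1, .mk 13 (-7) (-1) 8],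
  [.mk 1 0 0 1, .mk (-1) 0 0 1, .mk 0 1 0 1, .mk 0 (-1) 0 1, .mk 0 0 1 12, .mk 0 0 (-1) 2, .mk (-12) (-12) 1 12, .mk (-11) 26 4 11, .mk (-1) (-1) 0 1, .mk (-1) 0 (-1) 1, .mk (-1) 2 0 1, .mk 13 (-7) (-1) 8],
  [.mk 1 0 0 1, .mk (-1) 0 0 1, .mk 0 1 0 1, .mk 0 (-1) 0 1, .mk 0 0 1 4, .mk 0 0 (-1) 2, .mk (-4) (-4) 1 4, .mk (-4) 10 1 4, .mk (-1) (-1) 0 1, .mk (-1) 0 (-1) 1, .mk 3 3 1 4, .mk 8 (-5) (-2) 7],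
  [.mk 1 0 0 1, .mk (-1) 0 0 1, .mk 0 1 0 1, .mk 0 (-1) 0 1, .mk 0 0 1 2, .mk 0 0 (-1) 5, .mk (-7) 6 (-4) 7, .mk (-4) (-3) (-1) 4, .mk (-2) (-2) 1 2, .mk (-2) 5 1 2, .mk (-1) (-1) 0 1, .mk (-1) 2 0 1, .mk 5 (-2) 1 2],
  [.mk 1 0 0 1, .mk (-1) 0 0 1, .mk 0 1 0 1, .mk 0 (-1) 0 1, .mk 0 0 1 4, .mk 0 0 (-1) 5, .mk (-7) 6 (-4) 7, .mk (-4) (-4) 1 4, .mk (-4) (-3) (-1) 4, .mk (-4) 9 1 4, .mk (-1) (-1) 0 1, .mk (-1) 2 0 1, .mk 5 (-4) 1 4, .mk 7 (-2) 1 4]]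

/-- Regions for `n_b13_7`. -/
def R_b13_7 : List (List F4) := [[.mk 1 0 0 1, .mk (-1) 0 0 1, .mk 0 1 0 1, .mk 0 (-1) 0 1, .mk 0 0 1 22, .mk 0 0 (-1) 3, .mk (-21) (-20) 1 21, .mk (-19) 50 4 19, .mk (-1) (-1) (-1) 1, .mk (-1) (-1) 0 1, .mk 21 (-12) (-1) 12],
  [.mk 1 0 0 1, .mk (-1) 0 0 1, .mk 0 1 0 1, .mk 0 (-1) 0 1, .mk 0 0 1 14, .mk 0 0 (-1) 3, .mk (-13) (-12) 1 13, .mk (-4) 6 1 4, .mk (-4) 11 1 4, .mk (-3) 17 2 8, .mk (-1) (-1) (-1) 1, .mk (-1) (-1) 0 1, .mk 13 (-8) (-1) 8],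
  [.mk 1 0 0 1, .mk (-1) 0 0 1, .mk 0 1 0 1, .mk 0 (-1) 0 1, .mk 0 0 1 13, .mk 0 0 (-1) 3, .mk (-12) (-11) 1 12, .mk (-11) 30 4 11, .mk (-1) (-1) (-1) 1, .mk (-1) (-1) 0 1, .mk (-1) 2 0 1, .mk 13 (-8) (-1) 8],
  [.mk 1 0 0 1, .mk (-1) 0 0 1, .mk 0 1 0 1, .mk 0 (-1) 0 1, .mk 0 0 1 5, .mk 0 0 (-1) 3, .mk (-4) (-3) 1 4, .mk (-4) 11 1 4, .mk (-1) (-1) (-1) 1, .mk (-1) (-1) 0 1, .mk 3 4 1 4, .mk 8 (-7) (-2) 7],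
  [.mk 1 0 0 1, .mk (-1) 0 0 1, .mk 0 1 0 1, .mk 0 (-1) 0 1, .mk 0 0 1 2, .mk 0 0 (-1) 4, .mk (-7) 2 (-4) 7, .mk (-4) (-4) (-1) 4, .mk (-2) (-1) 1 2, .mk (-2) 6 1 2, .mk (-1) (-1) 0 1, .mk (-1) 2 0 1, .mk 5 (-1) 1 2],
  [.mk 1 0 0 1, .mk (-1) 0 0 1, .mk 0 1 0 1, .mk 0 (-1) 0 1, .mk 0 0 1 4, .mk 0 0 (-1) 4, .mk (-7) 2 (-4) 7, .mk (-4) (-4) (-1) 4, .mk (-4) (-3) 1 4, .mk (-4) 10 1 4, .mk (-1) (-1) 0 1, .mk (-1) 2 0 1, .mk 5 (-3) 1 4, .mk 7 (-1) 1 4],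
  [.mk 1 0 0 1, .mk (-1) 0 0 1, .mk 0 1 0 1, .mk 0 (-1) 0 2, .mk 0 0 1 1, .mk 0 0 (-1) 4, .mk (-8) (-3) (-2) 8, .mk (-4) 4 (-1) 4, .mk (-1) (-1) 1 1, .mk (-1) 2 0 1, .mk (-1) 5 1 1, .mk 1 (-1) (-1) 4, .mk 2 (-3) (-2) 8, .mk 4 (-1) 1 1, .mk 4 0 1 1]]

/-- Regions for `n_b14_7`. -/
def R_b14_7 : List (List F4) := [[.mk 1 0 0 1, .mk (-1) 0 0 1, .mk 0 1 0 1, .mk 0 (-1) 0 2, .mk 0 0 1 1, .mk 0 0 (-1) 5, .mk (-8) (-5) (-2) 8, .mk (-4) 3 (-1) 4, .mk (-1) 0 1 1, .mk (-1) 2 0 1, .mk (-1) 6 1 1, .mk 1 (-2) (-1) 4, .mk 2 (-5) (-2) 8, .mk 4 0 1 1, .mk 4 1 1 1],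
  [.mk 1 0 0 1, .mk (-1) 0 0 1, .mk 0 1 0 1, .mk 0 (-1) 0 1, .mk 0 0 1 11, .mk 0 0 (-1) 5, .mk (-11) (-11) 1 11, .mk (-7) 30 4 7, .mk (-4) (-3) (-1) 4, .mk (-4) 3 (-1) 4, .mk (-1) (-1) 0 1, .mk (-1) 2 0 1, .mk 2 (-3) (-1) 4, .mk 12 (-8) (-1) 9],
  [.mk 1 0 0 1, .mk (-1) 0 0 1, .mk 0 1 0 1, .mk 0 (-1) 0 1, .mk 0 0 1 11, .mk 0 0 (-1) 5, .mk (-11) (-11) 1 11, .mk (-7) 30 4 7, .mk (-2) (-1) (-1) 2, .mk (-1) (-1) 0 1, .mk (-1) 2 0 1, .mk 12 (-8) (-1) 9],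
  [.mk 1 0 0 1, .mk (-1) 0 0 1, .mk 0 1 0 1, .mk 0 (-1) 0 1, .mk 0 0 1 3, .mk 0 0 (-1) 4, .mk (-4) (-3) (-1) 4, .mk (-4) 4 (-1) 4, .mk (-3) (-3) 1 3, .mk (-1) (-1) 0 1, .mk (-1) 1 1 1, .mk (-1) 6 1 1, .mk 3 (-3) (-1) 4, .mk 3 7 2 2],
  [.mk 1 0 0 1, .mk (-1) 0 0 1, .mk 0 1 0 1, .mk 0 (-1) 0 1, .mk 0 0 1 1, .mk 0 0 (-1) 6, .mk (-11) 2 (-4) 11, .mk (-5) (-4) (-1) 5, .mk (-1) (-1) 0 1, .mk (-1) (-1) 1 1, .mk (-1) 2 0 1, .mk (-1) 6 1 1, .mk 6 (-1) 1 1],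
  [.mk 1 0 0 1, .mk (-1) 0 0 1, .mk 0 1 0 1, .mk 0 (-1) 0 1, .mk 0 0 1 1, .mk 0 0 (-1) 7, .mk (-6) (-5) (-1) 6, .mk (-4) (-1) (-1) 4, .mk (-4) 4 (-1) 4, .mk (-3) 3 (-2) 8, .mk (-1) (-1) 0 1, .mk (-1) (-1) 1 1, .mk (-1) 6 1 1, .mk 6 (-1) 1 1],
  [.mk 1 0 0 1, .mk (-1) 0 0 1, .mk 0 1 0 1, .mk 0 (-1) 0 1, .mk 0 0 1 1, .mk 0 0 (-1) 15, .mk (-19) 22 (-4) 19, .mk (-14) (-13) (-1) 14, .mk (-1) (-1) 0 1, .mk (-1) (-1) 1 1, .mk (-1) 6 1 1, .mk 6 (-1) 1 1, .mk 14 (-5) 1 5, .mk 15 (-6) 1 6]]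

/-- Regions for `n_b15_7`. -/
def R_b15_7 : List (List F4) := [[.mk 1 0 0 1, .mk (-1) 0 0 1, .mk 0 1 0 1, .mk 0 (-1) 0 1, .mk 0 0 1 12, .mk 0 0 (-1) 6, .mk (-11) (-10) 1 11, .mk (-7) 34 4 7, .mk (-4) (-4) (-1) 4, .mk (-4) 2 (-1) 4, .mk (-1) (-1) 0 1, .mk (-1) 2 0 1, .mk 2 (-4) (-1) 4, .mk 12 (-9) (-1) 9],
  [.mk 1 0 0 1, .mk (-1) 0 0 1, .mk 0 1 0 1, .mk 0 (-1) 0 1, .mk 0 0 1 12, .mk 0 0 (-1) 6, .mk (-11) (-10) 1 11, .mk (-7) 34 4 7, .mk (-2) (-2) (-1) 2, .mk (-1) (-1) 0 1, .mk (-1) 2 0 1, .mk 12 (-9) (-1) 9],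
  [.mk 1 0 0 1, .mk (-1) 0 0 1, .mk 0 1 0 1, .mk 0 (-1) 0 1, .mk 0 0 1 4, .mk 0 0 (-1) 5, .mk (-4) (-4) (-1) 4, .mk (-4) 3 (-1) 4, .mk (-3) (-2) 1 3, .mk (-1) (-1) 0 1, .mk (-1) 2 1 1, .mk (-1) 7 1 1, .mk 3 (-4) (-1) 4, .mk 3 9 2 2],
  [.mk 1 0 0 1, .mk (-1) 0 0 1, .mk 0 1 0 1, .mk 0 (-1) 0 1, .mk 0 0 1 1, .mk 0 0 (-1) 6, .mk (-11) (-2) (-4) 11, .mk (-5) (-5) (-1) 5, .mk (-1) (-1) 0 1, .mk (-1) 0 1 1, .mk (-1) 2 0 1, .mk (-1) 7 1 1, .mk 6 0 1 1],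
  [.mk 1 0 0 1, .mk (-1) 0 0 1, .mk 0 1 0 1, .mk 0 (-1) 0 1, .mk 0 0 1 1, .mk 0 0 (-1) 6, .mk (-6) (-6) (-1) 6, .mk (-4) (-2) (-1) 4, .mk (-4) 3 (-1) 4, .mk (-3) 1 (-2) 8, .mk (-1) (-1) 0 1, .mk (-1) 0 1 1, .mk (-1) 7 1 1, .mk 6 0 1 1],
  [.mk 1 0 0 1, .mk (-1) 0 0 1, .mk 0 1 0 1, .mk 0 (-1) 0 1, .mk 0 0 1 1, .mk 0 0 (-1) 14, .mk (-19) 18 (-4) 19, .mk (-14) (-14) (-1) 14, .mk (-1) (-1) 0 1, .mk (-1) 0 1 1, .mk (-1) 7 1 1, .mk 6 0 1 1, .mk 14 (-4) 1 5, .mk 15 (-5) 1 6],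
  [.mk 1 0 0 1, .mk (-1) 0 0 1, .mk 0 1 0 1, .mk 0 (-1) 0 1, .mk 0 0 1 20, .mk 0 0 (-1) 5, .mk (-20) (-20) 1 20, .mk (-15) 50 4 15, .mk (-2) (-1) (-1) 2, .mk (-1) (-1) 0 1, .mk 20 (-12) (-1) 13],
  [.mk 1 0 0 1, .mk (-1) 0 0 1, .mk 0 1 0 1, .mk 0 (-1) 0 1, .mk 0 0 1 12, .mk 0 0 (-1) 5, .mk (-12) (-12) 1 12, .mk (-3) 6 1 3, .mk (-3) 11 1 3, .mk (-2) (-1) (-1) 2, .mk (-1) (-1) 0 1, .mk (-1) 17 2 6, .mk 12 (-8) (-1) 9],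
  [.mk 1 0 0 1, .mk (-1) 0 0 1, .mk 0 1 0 1, .mk 0 (-1) 0 1, .mk 0 0 1 11, .mk 0 0 (-1) 5, .mk (-11) (-11) 1 11, .mk (-7) 30 4 7, .mk (-2) (-1) (-1) 2, .mk (-1) (-1) 0 1, .mk (-1) 2 0 1, .mk 12 (-8) (-1) 9],
  [.mk 1 0 0 1, .mk (-1) 0 0 1, .mk 0 1 0 1, .mk 0 (-1) 0 1, .mk 0 0 1 3, .mk 0 0 (-1) 5, .mk (-3) (-3) 1 3, .mk (-3) 11 1 3, .mk (-2) (-1) (-1) 2, .mk (-1) (-1) 0 1, .mk 4 4 1 3, .mk 6 (-7) (-2) 9],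
  [.mk 1 0 0 1, .mk (-1) 0 0 1, .mk 0 1 0 1, .mk 0 (-1) 0 1, .mk 0 0 1 1, .mk 0 0 (-1) 6, .mk (-11) 2 (-4) 11, .mk (-5) (-4) (-1) 5, .mk (-1) (-1) 0 1, .mk (-1) (-1) 1 1, .mk (-1) 2 0 1, .mk (-1) 6 1 1, .mk 6 (-1) 1 1],
  [.mk 1 0 0 1, .mk (-1) 0 0 1, .mk 0 1 0 1, .mk 0 (-1) 0 1, .mk 0 0 1 3, .mk 0 0 (-1) 6, .mk (-11) 2 (-4) 11, .mk (-5) (-4) (-1) 5, .mk (-3) (-3) 1 3, .mk (-3) 10 1 3, .mk (-1) (-1) 0 1, .mk (-1) 2 0 1, .mk 6 (-3) 1 3, .mk 8 (-1) 1 3]]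

/-- Regions for `n_b21_7`. -/
def R_b21_7 : List (List F4) := [[.mk 1 0 0 2, .mk (-1) 0 0 1, .mk 0 1 0 1, .mk 0 (-1) 0 1, .mk 0 0 1 3, .mk 0 0 (-1) 4, .mk (-4) (-4) (-1) 4, .mk (-4) 10 (-1) 4, .mk (-1) (-1) 1 1, .mk (-1) 2 0 1, .mk 1 (-1) 0 1, .mk 3 (-4) (-1) 4, .mk 8 (-7) 2 7],
  [.mk 1 0 0 2, .mk (-1) 0 0 1, .mk 0 1 0 1, .mk 0 (-1) 0 1, .mk 0 0 1 1, .mk 0 0 (-1) 5, .mk (-4) (-4) (-1) 4, .mk (-4) 3 (-1) 4, .mk (-3) 10 1 3, .mk (-1) (-1) 1 1, .mk (-1) 2 0 1, .mk (-1) 4 1 1, .mk 1 (-1) 0 1, .mk 3 (-4) (-1) 4, .mk 3 (-2) 2 2],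
  [.mk 1 0 0 2, .mk (-1) 0 0 1, .mk 0 1 0 1, .mk 0 (-1) 0 1, .mk 0 0 1 1, .mk 0 0 (-1) 12, .mk (-10) 31 1 10, .mk (-4) (-4) (-1) 4, .mk (-1) (-1) 1 1, .mk (-1) 2 0 1, .mk (-1) 4 1 1, .mk 1 (-1) 0 1, .mk 3 (-2) 2 2, .mk 10 (-11) (-1) 11],
  [.mk 1 0 0 2, .mk (-1) 0 0 1, .mk 0 1 0 1, .mk 0 (-1) 0 2, .mk 0 0 1 1, .mk 0 0 (-1) 1, .mk (-2) (-1) (-2) 2, .mk (-2) 1 2 2, .mk (-1) 1 (-1) 1, .mk (-1) 2 0 1, .mk (-1) 2 1 1, .mk 0 (-1) (-1) 1, .mk 1 (-2) (-2) 2, .mk 1 (-1) 0 1, .mk 1 0 1 1, .mk 4 (-2) 3 3]]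

/-- Regions for `n_b23_7`. -/
def R_b23_7 : List (List F4) := [[.mk 1 0 0 2, .mk (-1) 0 0 1, .mk 0 1 0 1, .mk 0 (-1) 0 1, .mk 0 0 1 9, .mk 0 0 (-1) 3, .mk (-11) 30 (-1) 11, .mk (-3) (-3) 1 3, .mk (-2) (-2) (-1) 2, .mk (-2) 3 (-1) 2, .mk (-1) 2 0 1, .mk 1 (-4) (-2) 4, .mk 1 (-1) 0 1, .mk 11 (-10) 1 10],
  [.mk 1 0 0 2, .mk (-1) 0 0 1, .mk 0 1 0 1, .mk 0 (-1) 0 1, .mk 0 0 1 3, .mk 0 0 (-1) 3, .mk (-4) 9 (-1) 4, .mk (-3) (-3) 1 3, .mk (-3) 4 1 3, .mk (-2) (-2) (-1) 2, .mk (-2) 3 (-1) 2, .mk (-1) 2 0 1, .mk 1 (-4) (-2) 4, .mk 1 (-1) 0 1, .mk 4 (-3) 1 3],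
  [.mk 1 0 0 2, .mk (-1) 0 0 1, .mk 0 1 0 1, .mk 0 (-1) 0 1, .mk 0 0 1 3, .mk 0 0 (-1) 6, .mk (-3) (-3) 1 3, .mk (-3) 11 1 3, .mk (-2) (-2) (-1) 2, .mk (-1) 2 0 1, .mk 1 (-1) 0 1, .mk 4 (-3) 1 3, .mk 6 (-9) (-2) 9],
  [.mk 1 0 0 2, .mk (-1) 0 0 2, .mk 0 1 0 1, .mk 0 (-1) 0 1, .mk 0 0 1 5, .mk 0 0 (-1) 4, .mk (-7) (-9) 5 9, .mk (-2) (-9) (-5) 9, .mk (-1) 3 0 2, .mk 2 (-5) (-2) 5, .mk 16 (-13) 2 13]]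

/-- Regions for `n_b25_7`. -/
def R_b25_7 : List (List F4) := [[.mk 1 0 0 2, .mk (-1) 0 0 2, .mk 0 1 0 1, .mk 0 (-1) 0 1, .mk 0 0 1 4, .mk 0 0 (-1) 5, .mk (-7) (-9) (-5) 9, .mk (-2) (-9) 5 9, .mk (-1) 3 0 2, .mk 0 (-5) (-2) 5, .mk 18 (-13) 2 13],
  [.mk 1 0 0 3, .mk (-1) 0 0 1, .mk 0 1 0 2, .mk 0 (-1) 0 1, .mk 0 0 1 5, .mk 0 0 (-1) 8, .mk (-5) (-11) (-6) 11, .mk (-5) (-5) 3 5, .mk (-1) (-1) 0 1, .mk (-1) 2 0 1, .mk 1 (-1) 0 1, .mk 9 (-7) 1 7, .mk 10 (-7) 1 8]]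

/-- Regions for `n_b27_7`. -/
def R_b27_7 : List (List F4) := [[.mk 1 0 0 3, .mk (-1) 0 0 1, .mk 0 1 0 2, .mk 0 (-1) 0 1, .mk 0 0 1 4, .mk 0 0 (-1) 11, .mk (-11) (-11) (-6) 11, .mk (-2) (-5) 3 5, .mk (-1) (-1) 0 1, .mk (-1) 2 0 1, .mk 1 (-1) 0 1, .mk 10 (-7) 1 7, .mk 11 (-7) 1 8],
  [.mk 1 0 0 4, .mk (-1) 0 0 1, .mk 0 1 0 3, .mk 0 (-1) 0 1, .mk 0 0 1 14, .mk 0 0 (-1) 15, .mk (-55) 97 1 56, .mk (-15) (-15) (-8) 15, .mk (-13) (-13) 3 16, .mk (-3) 5 0 3, .mk (-1) (-1) 0 1, .mk 1 (-1) 0 1, .mk 21 (-17) 1 18],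
  [.mk 1 0 0 2, .mk (-1) 0 0 1, .mk 0 1 0 1, .mk 0 (-1) 0 1, .mk 0 0 1 6, .mk 0 0 (-1) 7, .mk (-12) 29 (-1) 12, .mk (-3) (-3) (-1) 3, .mk (-3) 2 (-1) 3, .mk (-2) (-2) 1 2, .mk (-1) (-6) (-2) 6, .mk (-1) 2 0 1, .mk 1 (-1) 0 1, .mk 12 (-9) 1 9],
  [.mk 1 0 0 2, .mk (-1) 0 0 1, .mk 0 1 0 1, .mk 0 (-1) 0 1, .mk 0 0 1 2, .mk 0 0 (-1) 7, .mk (-5) 8 (-1) 5, .mk (-3) (-3) (-1) 3, .mk (-3) 2 (-1) 3, .mk (-2) (-2) 1 2, .mk (-2) 5 1 2, .mk (-1) (-6) (-2) 6, .mk (-1) 2 0 1, .mk 1 (-1) 0 1, .mk 5 (-2) 1 2],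
  [.mk 1 0 0 2, .mk (-1) 0 0 1, .mk 0 1 0 1, .mk 0 (-1) 0 1, .mk 0 0 1 2, .mk 0 0 (-1) 9, .mk (-3) (-3) (-1) 3, .mk (-2) (-2) 1 2, .mk (-2) 12 1 2, .mk (-1) 2 0 1, .mk 1 (-1) 0 1, .mk 4 (-11) (-2) 11, .mk 5 (-2) 1 2]]

/-- Regions for `n_b31_7`. -/
def R_b31_7 : List (List F4) := [[.mk 1 0 0 3, .mk (-1) 0 0 1, .mk 0 1 0 2, .mk 0 (-1) 0 1, .mk 0 0 1 1, .mk 0 0 (-1) 1, .mk (-2) 3 (-2) 2, .mk (-2) 5 2 2, .mk (-1) 0 (-1) 1, .mk (-1) 1 1 1, .mk 0 (-1) (-1) 1, .mk 1 (-2) (-2) 2, .mk 1 (-1) 0 1, .mk 1 (-1) 1 1, .mk 4 (-3) 3 3]]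

/-- Regions for `n_b35_7`. -/
def R_b35_7 : List (List F4) := []

/-- Regions for `n_b37_7`. -/
def R_b37_7 : List (List F4) := []

/-- Regions for `n_b311_7`. -/
def R_b311_7 : List (List F4) := []

/-- Regions for `n_bi3_7`. -/
def R_bi3_7 : List (List F4) := []

/-- Regions for `n_WU1_7`. -/
def R_WU1_7 : List (List F4) := [[.mk 1 0 0 2, .mk (-1) 0 0 1, .mk 0 1 0 3, .mk 0 (-1) 0 1, .mk 0 0 1 2, .mk 0 0 (-1) 3, .mk (-10) 11 (-3) 10, .mk (-3) 2 2 3, .mk (-2) (-2) 3 2, .mk (-1) (-1) (-1) 1, .mk (-1) 1 0 1, .mk (-1) 1 1 2, .mk 2 (-1) 0 1],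
  [.mk 1 0 0 2, .mk (-1) 0 0 1, .mk 0 1 0 3, .mk 0 (-1) 0 1, .mk 0 0 1 5, .mk 0 0 (-1) 3, .mk (-5) (-5) 6 5, .mk (-4) 5 (-1) 4, .mk (-4) 6 (-1) 5, .mk (-1) (-1) (-1) 1, .mk (-1) 1 0 1, .mk 2 (-1) 0 1],
  [.mk 1 0 0 2, .mk (-1) 0 0 1, .mk 0 1 0 3, .mk 0 (-1) 0 1, .mk 0 0 1 5, .mk 0 0 (-1) 3, .mk (-5) (-5) 6 5, .mk (-4) 5 (-1) 4, .mk (-4) 6 (-1) 5, .mk (-1) (-1) (-1) 1, .mk (-1) 1 0 1, .mk 10 (-1) (-1) 12, .mk 13 (-9) 2 9],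
  [.mk 1 0 0 1, .mk (-1) 0 0 1, .mk 0 1 0 2, .mk 0 (-1) 0 7, .mk 0 0 1 5, .mk 0 0 (-1) 3, .mk (-5) 10 16 5, .mk (-4) 5 2 4, .mk (-1) (-1) (-1) 1, .mk (-1) 2 2 1, .mk 6 (-2) (-3) 5],
  [.mk 1 0 0 1, .mk (-1) 0 0 1, .mk 0 1 0 2, .mk 0 (-1) 0 3, .mk 0 0 1 2, .mk 0 0 (-1) 3, .mk (-2) 4 7 2, .mk (-1) (-1) (-1) 1, .mk (-1) 2 1 1, .mk 1 0 1 2, .mk 2 1 3 3, .mk 11 (-1) (-4) 10],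
  [.mk 1 0 0 1, .mk (-1) 0 0 1, .mk 0 1 0 2, .mk 0 (-1) 0 7, .mk 0 0 1 5, .mk 0 0 (-1) 3, .mk (-5) 10 16 5, .mk (-1) (-1) (-1) 1, .mk (-1) 2 1 1, .mk 5 (-1) (-2) 4, .mk 6 (-2) (-3) 5],
  [.mk 1 0 0 1, .mk (-1) 0 0 1, .mk 0 1 0 2, .mk 0 (-1) 0 3, .mk 0 0 1 2, .mk 0 0 (-1) 3, .mk (-3) 3 1 3, .mk (-1) (-1) (-1) 1, .mk (-1) 1 2 1, .mk 0 1 2 1, .mk 0 3 1 3, .mk 1 0 1 2, .mk 2 1 3 3, .mk 11 (-1) (-4) 10]]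

/-- Regions for `n_WU1_7_1`. -/
def R_WU1_7_1 : List (List F4) := [[.mk 1 0 0 4, .mk (-1) 0 0 1, .mk 0 1 0 5, .mk 0 (-1) 0 1, .mk 0 0 1 1, .mk 0 0 (-1) 1, .mk (-8) 10 (-9) 9, .mk (-1) (-1) (-1) 1, .mk (-1) (-1) 0 1, .mk (-1) 1 (-1) 1, .mk 1 (-1) 2 1, .mk 7 (-4) (-4) 4],
  [.mk 1 0 0 3, .mk (-1) 0 0 1, .mk 0 1 0 4, .mk 0 (-1) 0 1, .mk 0 0 1 1, .mk 0 0 (-1) 1, .mk (-4) 5 (-4) 4, .mk (-1) (-1) (-1) 1, .mk (-1) (-1) 6 1, .mk (-1) 1 0 1, .mk 0 (-1) 4 1, .mk 2 0 (-3) 3, .mk 5 (-3) (-3) 3],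
  [.mk 1 0 0 5, .mk (-1) 0 0 1, .mk 0 1 0 6, .mk 0 (-1) 0 1, .mk 0 0 1 2, .mk 0 0 (-1) 1, .mk (-4) 5 (-4) 4, .mk (-1) (-1) (-1) 1, .mk (-1) (-1) 6 1, .mk (-1) 1 0 1, .mk 0 1 (-2) 2, .mk 1 (-1) 1 1, .mk 3 (-1) (-3) 3, .mk 5 (-3) (-3) 3],
  [.mk 1 0 0 3, .mk (-1) 0 0 1, .mk 0 1 0 5, .mk 0 (-1) 0 3, .mk 0 0 1 2, .mk 0 0 (-1) 1, .mk (-7) 2 9 7, .mk (-5) 6 (-5) 5, .mk (-2) (-1) 1 2, .mk (-2) (-1) 12 13, .mk (-1) (-1) (-1) 1, .mk 1 0 (-1) 1, .mk 5 (-1) (-4) 4, .mk 6 (-1) (-4) 5],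
  [.mk 1 0 0 3, .mk (-1) 0 0 1, .mk 0 1 0 5, .mk 0 (-1) 0 3, .mk 0 0 1 2, .mk 0 0 (-1) 1, .mk (-5) 6 (-5) 5, .mk (-1) (-1) (-1) 1, .mk (-1) 0 2 1, .mk 1 0 (-1) 1, .mk 5 (-1) (-4) 4, .mk 6 (-1) (-4) 5],
  [.mk 1 0 0 3, .mk (-1) 0 0 1, .mk 0 1 0 5, .mk 0 (-1) 0 1, .mk 0 0 1 2, .mk 0 0 (-1) 1, .mk (-7) 9 (-8) 8, .mk (-1) (-1) (-1) 1, .mk (-1) (-1) 1 1, .mk (-1) 1 (-1) 1, .mk 1 0 (-1) 1, .mk 2 (-5) 12 5, .mk 2 (-1) (-1) 1, .mk 2 (-1) 0 1],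
  [.mk 1 0 0 2, .mk (-1) 0 0 1, .mk 0 1 0 3, .mk 0 (-1) 0 1, .mk 0 0 1 1, .mk 0 0 (-1) 1, .mk (-3) 1 4 3, .mk (-3) 4 (-3) 3, .mk (-1) (-1) (-1) 1, .mk (-1) (-1) 0 1, .mk (-1) 1 0 1, .mk 1 0 (-1) 1, .mk 2 (-1) (-1) 1, .mk 2 (-1) 0 1],
  [.mk 1 0 0 1, .mk (-1) 0 0 1, .mk 0 1 0 3, .mk 0 (-1) 0 1, .mk 0 0 1 3, .mk 0 0 (-1) 3, .mk (-3) (-3) (-1) 3, .mk (-2) (-3) 4 3, .mk (-2) 4 (-3) 3, .mk (-1) (-1) 1 1, .mk (-1) 1 (-1) 1, .mk 2 (-1) 1 1, .mk 5 (-3) 4 3, .mk 6 (-3) 2 3],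
  [.mk 1 0 0 4, .mk (-1) 0 0 1, .mk 0 1 0 5, .mk 0 (-1) 0 1, .mk 0 0 1 1, .mk 0 0 (-1) 3, .mk (-8) 10 (-9) 9, .mk (-3) (-3) (-1) 3, .mk (-1) (-1) 0 1, .mk (-1) 1 (-1) 1, .mk 1 (-1) 2 1, .mk 18 (-13) 6 13],
  [.mk 1 0 0 1, .mk (-1) 0 0 1, .mk 0 1 0 2, .mk 0 (-1) 0 1, .mk 0 0 1 1, .mk 0 0 (-1) 2, .mk (-2) 1 1 2, .mk (-2) 3 (-2) 2, .mk (-1) (-1) (-1) 1, .mk (-1) 1 0 1, .mk 2 (-1) 1 1, .mk 3 (-2) 3 2, .mk 4 (-2) 1 2],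
  [.mk 1 0 0 1, .mk (-1) 0 0 1, .mk 0 1 0 5, .mk 0 (-1) 0 1, .mk 0 0 1 5, .mk 0 0 (-1) 3, .mk (-5) (-5) 6 5, .mk (-5) 6 (-5) 5, .mk (-4) 6 (-5) 5, .mk (-3) (-3) (-1) 3, .mk (-1) 1 (-1) 1, .mk 0 4 (-3) 5, .mk 2 (-1) 1 1, .mk 6 (-3) 2 3, .mk 9 (-5) 6 5],
  [.mk 1 0 0 1, .mk (-1) 0 0 1, .mk 0 1 0 5, .mk 0 (-1) 0 1, .mk 0 0 1 5, .mk 0 0 (-1) 3, .mk (-4) (-5) 6 5, .mk (-4) 6 (-5) 5, .mk (-3) (-3) (-1) 3, .mk (-1) (-1) 1 1, .mk (-1) 1 (-1) 1, .mk 0 4 (-3) 5, .mk 2 (-1) 1 1, .mk 6 (-3) 2 3, .mk 9 (-5) 6 5],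
  [.mk 1 0 0 1, .mk (-1) 0 0 1, .mk 0 1 0 2, .mk 0 (-1) 0 1, .mk 0 0 1 1, .mk 0 0 (-1) 3, .mk (-3) (-3) (-1) 3, .mk (-2) 4 (-3) 3, .mk (-1) (-1) 0 1, .mk (-1) 1 (-1) 1, .mk 1 (-1) 2 1, .mk 2 (-1) 1 1, .mk 6 (-3) 2 3],
  [.mk 1 0 0 2, .mk (-1) 0 0 1, .mk 0 1 0 3, .mk 0 (-1) 0 1, .mk 0 0 1 1, .mk 0 0 (-1) 2, .mk (-6) 7 (-3) 6, .mk (-2) (-2) (-1) 2, .mk (-2) 1 2 2, .mk (-1) (-1) 0 1, .mk (-1) 0 1 1, .mk (-1) 1 0 1, .mk 2 (-1) 0 1, .mk 3 (-1) (-1) 2, .mk 4 (-2) (-1) 2],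
  [.mk 1 0 0 3, .mk (-1) 0 0 1, .mk 0 1 0 5, .mk 0 (-1) 0 3, .mk 0 0 1 2, .mk 0 0 (-1) 1, .mk (-9) 2 13 9, .mk (-5) 6 (-5) 5, .mk (-1) (-1) (-1) 1, .mk (-1) (-1) 10 12, .mk 1 0 (-1) 1, .mk 5 (-1) (-4) 4, .mk 6 (-1) (-4) 5],
  [.mk 1 0 0 2, .mk (-1) 0 0 1, .mk 0 1 0 3, .mk 0 (-1) 0 2, .mk 0 0 1 1, .mk 0 0 (-1) 1, .mk (-3) 1 4 3, .mk (-3) 4 (-3) 3, .mk (-1) (-1) (-1) 1, .mk (-1) 0 1 1, .mk (-1) 1 0 1, .mk 1 0 (-1) 1, .mk 2 (-1) (-1) 1, .mk 5 (-2) (-1) 3],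
  [.mk 1 0 0 1, .mk (-1) 0 0 1, .mk 0 1 0 2, .mk 0 (-1) 0 1, .mk 0 0 1 1, .mk 0 0 (-1) 2, .mk (-2) 1 1 2, .mk (-2) 3 (-2) 2, .mk (-1) (-1) (-1) 1, .mk (-1) 1 0 1, .mk 1 (-1) 1 1, .mk 2 (-1) 1 1, .mk 4 (-2) 1 2],
  [.mk 1 0 0 1, .mk (-1) 0 0 2, .mk 0 1 0 2, .mk 0 (-1) 0 3, .mk 0 0 1 1, .mk 0 0 (-1) 1, .mk (-2) 3 (-2) 2, .mk (-1) (-1) (-1) 1, .mk 0 1 (-1) 1, .mk 5 (-1) (-4) 4]]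

/-- Regions for `n_WU1_7_2a`. -/
def R_WU1_7_2a : List (List F4) := [[.mk 1 0 0 15, .mk (-1) 0 0 3, .mk 0 1 0 16, .mk 0 (-1) 0 1, .mk 0 0 1 1, .mk 0 0 (-1) 1, .mk (-16) 17 (-16) 16, .mk (-1) (-3) (-3) 3, .mk (-1) 1 (-1) 1, .mk 1 (-1) 2 1, .mk 6 (-5) (-5) 5, .mk 16 (-17) 48 17],
  [.mk 1 0 0 8, .mk (-1) 0 0 3, .mk 0 1 0 9, .mk 0 (-1) 0 1, .mk 0 0 1 1, .mk 0 0 (-1) 1, .mk (-10) 11 (-9) 10, .mk (-1) (-3) (-3) 3, .mk (-1) 1 (-1) 1, .mk 1 (-1) (-1) 1, .mk 1 (-1) 2 1, .mk 4 (-3) (-2) 3, .mk 9 (-10) 27 10],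
  [.mk 1 0 0 8, .mk (-1) 0 0 3, .mk 0 1 0 9, .mk 0 (-1) 0 1, .mk 0 0 1 1, .mk 0 0 (-1) 1, .mk (-10) 11 (-9) 10, .mk (-1) (-3) (-3) 3, .mk (-1) 1 (-1) 1, .mk 0 1 (-4) 5, .mk 1 (-1) (-1) 1, .mk 1 (-1) 2 1, .mk 6 (-5) (-4) 5, .mk 6 (-5) 2 5, .mk 9 (-10) 27 10],
  [.mk 1 0 0 1, .mk (-1) 0 0 3, .mk 0 1 0 5, .mk 0 (-1) 0 1, .mk 0 0 1 4, .mk 0 0 (-1) 1, .mk (-9) 10 (-8) 9, .mk (-1) (-3) (-3) 3, .mk (-1) 1 (-1) 1, .mk 0 (-1) (-1) 1, .mk 2 (-1) 1 1, .mk 6 (-13) 18 13],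
  [.mk 1 0 0 3, .mk (-1) 0 0 3, .mk 0 1 0 3, .mk 0 (-1) 0 1, .mk 0 0 1 1, .mk 0 0 (-1) 1, .mk (-3) 4 (-2) 3, .mk (-1) (-3) (-3) 3, .mk (-1) 1 (-1) 1, .mk 1 (-1) (-1) 1, .mk 1 (-1) 2 1, .mk 2 (-3) 6 3, .mk 4 (-3) (-2) 3, .mk 4 (-3) 5 3],
  [.mk 1 0 0 1, .mk (-1) 0 0 2, .mk 0 1 0 2, .mk 0 (-1) 0 1, .mk 0 0 1 1, .mk 0 0 (-1) 1, .mk (-2) 3 (-2) 2, .mk (-1) (-1) (-1) 1, .mk 0 1 (-1) 1, .mk 1 (-2) 4 2, .mk 1 (-1) 2 1, .mk 1 1 (-2) 2, .mk 3 (-2) 3 2],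
  [.mk 1 0 0 5, .mk (-1) 0 0 3, .mk 0 1 0 5, .mk 0 (-1) 0 1, .mk 0 0 1 1, .mk 0 0 (-1) 1, .mk (-5) 6 (-4) 5, .mk (-3) 4 0 5, .mk (-1) (-3) (-3) 3, .mk (-1) 1 (-1) 1, .mk 1 (-1) (-1) 1, .mk 1 (-1) 2 1, .mk 2 (-3) 6 3, .mk 6 (-5) (-4) 5, .mk 6 (-5) 9 5],
  [.mk 1 0 0 1, .mk (-1) 0 0 3, .mk 0 1 0 2, .mk 0 (-1) 0 1, .mk 0 0 1 1, .mk 0 0 (-1) 1, .mk (-3) 4 (-2) 3, .mk (-1) (-3) (-3) 3, .mk (-1) 1 (-1) 1, .mk 0 (-1) (-1) 1, .mk 1 (-1) 2 1, .mk 2 (-3) 6 3, .mk 2 (-1) 1 1],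
  [.mk 1 0 0 1, .mk (-1) 0 0 1, .mk 0 1 0 2, .mk 0 (-1) 0 2, .mk 0 0 1 1, .mk 0 0 (-1) 1, .mk (-3) 1 4 3, .mk (-3) 4 (-2) 3, .mk (-1) (-1) (-1) 1, .mk (-1) 0 1 1, .mk (-1) 1 (-1) 1, .mk 0 (-1) (-1) 1, .mk 4 (-1) 1 3],
  [.mk 1 0 0 1, .mk (-1) 0 0 1, .mk 0 1 0 2, .mk 0 (-1) 0 2, .mk 0 0 1 1, .mk 0 0 (-1) 1, .mk (-3) 1 4 3, .mk (-2) 3 (-2) 2, .mk (-1) (-1) (-1) 1, .mk (-1) 0 1 1, .mk 0 1 (-1) 1, .mk 1 1 (-2) 2, .mk 8 (-2) 3 7],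
  [.mk 1 0 0 1, .mk (-1) 0 0 1, .mk 0 1 0 5, .mk 0 (-1) 0 1, .mk 0 0 1 4, .mk 0 0 (-1) 1, .mk (-9) 10 (-8) 9, .mk (-4) (-4) 7 4, .mk (-1) (-1) (-1) 1, .mk (-1) 1 (-1) 1, .mk 0 (-1) (-1) 1, .mk 2 (-1) 1 1],
  [.mk 1 0 0 5, .mk (-1) 0 0 3, .mk 0 1 0 1, .mk 0 (-1) 0 2, .mk 0 0 1 1, .mk 0 0 (-1) 1, .mk (-1) (-3) (-3) 3, .mk (-1) 4 (-3) 3, .mk (-1) 4 11 3, .mk 0 (-1) (-1) 1, .mk 0 1 2 1, .mk 1 1 (-2) 2, .mk 2 (-8) (-9) 9],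
  [.mk 1 0 0 2, .mk (-1) 0 0 3, .mk 0 1 0 1, .mk 0 (-1) 0 2, .mk 0 0 1 1, .mk 0 0 (-1) 1, .mk (-1) (-3) (-3) 3, .mk (-1) 4 (-3) 3, .mk (-1) 4 4 3, .mk 0 (-1) (-1) 1, .mk 0 1 2 1, .mk 1 1 (-2) 2, .mk 1 1 3 2, .mk 1 3 9 4, .mk 2 (-3) (-4) 4],
  [.mk 1 0 0 2, .mk (-1) 0 0 10, .mk 0 1 0 1, .mk 0 (-1) 0 2, .mk 0 0 1 1, .mk 0 0 (-1) 1, .mk (-1) (-10) (-10) 10, .mk (-1) 4 (-3) 3, .mk 0 (-1) (-1) 1, .mk 0 1 2 1, .mk 1 1 (-2) 2, .mk 1 1 3 2, .mk 1 10 30 11, .mk 2 (-3) (-4) 4],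
  [.mk 1 0 0 1, .mk (-1) 0 0 1, .mk 0 1 0 2, .mk 0 (-1) 0 5, .mk 0 0 1 4, .mk 0 0 (-1) 1, .mk (-13) 7 12 13, .mk (-3) 4 (-2) 3, .mk (-1) (-1) (-1) 1, .mk (-1) 1 (-1) 1, .mk 0 (-1) (-1) 1, .mk 10 (-1) 1 9],
  [.mk 1 0 0 1, .mk (-1) 0 0 1, .mk 0 1 0 1, .mk 0 (-1) 0 6, .mk 0 0 1 5, .mk 0 0 (-1) 1, .mk (-3) 5 7 3, .mk (-3) 6 8 3, .mk (-1) (-1) (-1) 1, .mk (-1) 2 (-1) 1, .mk (-1) 2 3 2, .mk 0 (-1) (-1) 1, .mk 12 (-5) (-7) 7],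
  [.mk 1 0 0 1, .mk (-1) 0 0 3, .mk 0 1 0 1, .mk 0 (-1) 0 2, .mk 0 0 1 1, .mk 0 0 (-1) 1, .mk (-1) (-3) (-3) 3, .mk (-1) 1 (-1) 1, .mk (-1) 2 0 1, .mk 0 (-1) (-1) 1, .mk 0 1 2 1, .mk 1 2 7 3, .mk 4 (-1) 1 3],
  [.mk 1 0 0 1, .mk (-1) 0 0 3, .mk 0 1 0 1, .mk 0 (-1) 0 2, .mk 0 0 1 1, .mk 0 0 (-1) 1, .mk (-1) (-3) (-3) 3, .mk (-1) 4 (-3) 3, .mk (-1) 4 4 3, .mk 0 (-1) (-1) 1, .mk 0 1 (-1) 1, .mk 0 1 2 1, .mk 1 2 7 3, .mk 4 (-1) 1 3],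
  [.mk 1 0 0 1, .mk (-1) 0 0 10, .mk 0 1 0 1, .mk 0 (-1) 0 2, .mk 0 0 1 1, .mk 0 0 (-1) 1, .mk (-1) (-10) (-10) 10, .mk (-1) 4 (-3) 3, .mk 0 (-1) (-1) 1, .mk 0 1 (-1) 1, .mk 0 1 2 1, .mk 1 9 28 10, .mk 4 (-1) 1 3],
  [.mk 1 0 0 1, .mk (-1) 0 0 5, .mk 0 1 0 2, .mk 0 (-1) 0 1, .mk 0 0 1 4, .mk 0 0 (-1) 1, .mk (-2) 3 (-2) 2, .mk (-1) (-1) (-1) 1, .mk 0 1 (-1) 1, .mk 1 (-1) 1 1, .mk 1 1 (-2) 2, .mk 2 (-2) 3 2, .mk 4 (-3) 6 4],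
  [.mk 1 0 0 1, .mk (-1) 0 0 9, .mk 0 1 0 1, .mk 0 (-1) 0 4, .mk 0 0 1 4, .mk 0 0 (-1) 1, .mk (-1) (-9) (-9) 9, .mk (-1) 1 (-1) 1, .mk (-1) 2 0 1, .mk 0 (-1) (-1) 1, .mk 4 (-1) 1 3, .mk 7 6 25 13],
  [.mk 1 0 0 1, .mk (-1) 0 0 9, .mk 0 1 0 1, .mk 0 (-1) 0 4, .mk 0 0 1 4, .mk 0 0 (-1) 1, .mk (-1) (-9) (-9) 9, .mk (-1) 1 (-1) 1, .mk (-1) 2 0 1, .mk 0 (-1) (-1) 1, .mk 2 (-1) 1 1, .mk 8 (-4) 15 4],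
  [.mk 1 0 0 15, .mk (-1) 0 0 3, .mk 0 1 0 16, .mk 0 (-1) 0 1, .mk 0 0 1 1, .mk 0 0 (-1) 1, .mk (-17) 18 (-16) 17, .mk (-16) 17 (-16) 16, .mk (-1) (-3) (-3) 3, .mk (-1) 1 (-1) 1, .mk 1 (-1) 2 1, .mk 6 (-5) (-5) 5, .mk 16 (-17) 48 17]]

/-- Regions for `n_WU1_7_2b`. -/
def R_WU1_7_2b : List (List F4) := [[.mk 1 0 0 4, .mk (-1) 0 0 4, .mk 0 1 0 3, .mk 0 (-1) 0 4, .mk 0 0 1 1, .mk 0 0 (-1) 1, .mk (-4) 3 1 4, .mk (-4) 3 10 4, .mk (-3) 2 9 4, .mk (-1) 1 2 1, .mk (-1) 2 (-1) 1, .mk 1 (-2) (-4) 4, .mk 1 (-1) (-1) 1, .mk 3 (-4) (-4) 4, .mk 3 (-4) (-3) 4, .mk 8 (-6) (-7) 7],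
  [.mk 1 0 0 4, .mk (-1) 0 0 4, .mk 0 1 0 3, .mk 0 (-1) 0 4, .mk 0 0 1 1, .mk 0 0 (-1) 1, .mk (-4) 3 (-4) 4, .mk (-4) 3 10 4, .mk (-1) 1 2 1, .mk (-1) 2 (-1) 1, .mk 1 (-1) (-1) 1, .mk 3 (-4) (-4) 4, .mk 8 (-6) (-7) 7],
  [.mk 1 0 0 4, .mk (-1) 0 0 2, .mk 0 1 0 3, .mk 0 (-1) 0 1, .mk 0 0 1 1, .mk 0 0 (-1) 1, .mk (-3) 2 8 3, .mk (-2) (-1) 3 2, .mk (-1) 1 2 1, .mk (-1) 2 (-1) 1, .mk 1 (-2) (-2) 2, .mk 1 (-1) (-1) 1, .mk 8 (-6) (-7) 7],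
  [.mk 1 0 0 1, .mk (-1) 0 0 2, .mk 0 1 0 1, .mk 0 (-1) 0 1, .mk 0 0 1 1, .mk 0 0 (-1) 1, .mk (-2) (-1) 3 2, .mk (-1) 2 (-1) 1, .mk 1 (-2) (-2) 2, .mk 1 (-1) (-1) 1, .mk 1 0 (-1) 1, .mk 1 1 1 2],
  [.mk 1 0 0 2, .mk (-1) 0 0 1, .mk 0 1 0 1, .mk 0 (-1) 0 1, .mk 0 0 1 3, .mk 0 0 (-1) 1, .mk (-3) (-3) 2 3, .mk (-3) 6 5 3, .mk (-1) (-1) (-1) 1, .mk (-1) 2 (-1) 1, .mk 1 (-1) (-1) 1, .mk 3 (-1) (-2) 2, .mk 4 (-1) (-2) 3],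
  [.mk 1 0 0 1, .mk (-1) 0 0 2, .mk 0 1 0 1, .mk 0 (-1) 0 1, .mk 0 0 1 1, .mk 0 0 (-1) 1, .mk (-2) (-1) 3 2, .mk (-1) 2 (-1) 1, .mk 1 (-2) (-2) 2, .mk 1 (-1) (-1) 1, .mk 1 1 1 2, .mk 3 (-1) (-2) 2],
  [.mk 1 0 0 1, .mk (-1) 0 0 1, .mk 0 1 0 1, .mk 0 (-1) 0 3, .mk 0 0 1 1, .mk 0 0 (-1) 1, .mk (-3) (-2) (-3) 3, .mk (-3) 1 6 3, .mk (-1) 2 (-1) 1, .mk (-1) 2 2 1, .mk 3 (-1) (-2) 2, .mk 4 (-2) (-3) 3],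
  [.mk 1 0 0 1, .mk (-1) 0 0 4, .mk 0 1 0 1, .mk 0 (-1) 0 5, .mk 0 0 1 1, .mk 0 0 (-1) 1, .mk (-4) 3 (-4) 4, .mk (-4) 3 3 4, .mk (-3) 4 10 3, .mk (-1) 1 2 1, .mk (-1) 2 (-1) 1, .mk (-1) 2 4 1, .mk 1 (-1) (-1) 1, .mk 3 (-4) (-4) 4, .mk 3 (-1) (-2) 2],
  [.mk 1 0 0 1, .mk (-1) 0 0 11, .mk 0 1 0 1, .mk 0 (-1) 0 12, .mk 0 0 1 1, .mk 0 0 (-1) 1, .mk (-10) 11 31 10, .mk (-4) 3 (-4) 4, .mk (-1) 1 2 1, .mk (-1) 2 (-1) 1, .mk (-1) 2 4 1, .mk 1 (-1) (-1) 1, .mk 3 (-1) (-2) 2, .mk 10 (-11) (-11) 11],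
  [.mk 1 0 0 2, .mk (-1) 0 0 1, .mk 0 1 0 1, .mk 0 (-1) 0 3, .mk 0 0 1 1, .mk 0 0 (-1) 1, .mk (-3) (-2) (-3) 3, .mk (-3) 1 6 3, .mk (-1) 1 2 1, .mk (-1) 2 (-1) 1, .mk (-1) 2 1 1, .mk 1 0 (-1) 1, .mk 4 (-2) (-3) 3]]

/-- Regions for `n_WU1_7_2c`. -/
def R_WU1_7_2c : List (List F4) := [[.mk 1 0 0 1, .mk (-1) 0 0 3, .mk 0 1 0 1, .mk 0 (-1) 0 1, .mk 0 0 1 1, .mk 0 0 (-1) 1, .mk (-2) 0 (-3) 3, .mk (-2) 2 (-3) 3, .mk (-1) (-3) (-3) 3, .mk (-1) 4 (-3) 3, .mk 2 (-1) (-1) 1, .mk 2 (-1) 6 1]]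

/-- Regions for `n_WH1_7`. -/
def R_WH1_7 : List (List F4) := [[.mk 1 0 0 1, .mk (-1) 0 0 1, .mk 0 1 0 1, .mk 0 (-1) 0 1, .mk 0 0 1 1, .mk 0 0 (-1) 3, .mk (-3) (-3) (-1) 3, .mk (-2) 4 1 3, .mk (-1) (-1) 0 1, .mk 0 (-1) 1 1, .mk 2 (-1) (-1) 1, .mk 6 (-3) (-4) 3],
  [.mk 1 0 0 1, .mk (-1) 0 0 1, .mk 0 1 0 1, .mk 0 (-1) 0 1, .mk 0 0 1 3, .mk 0 0 (-1) 3, .mk (-3) (-3) (-1) 3, .mk (-2) (-3) 1 3, .mk (-2) 4 1 3, .mk (-1) (-1) 0 1, .mk 2 (-1) 0 1, .mk 5 (-3) 1 3, .mk 6 (-3) (-4) 3],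
  [.mk 1 0 0 1, .mk (-1) 0 0 1, .mk 0 1 0 1, .mk 0 (-1) 0 1, .mk 0 0 1 5, .mk 0 0 (-1) 3, .mk (-4) (-5) 1 5, .mk (-4) 4 1 5, .mk (-3) (-3) (-1) 3, .mk (-2) 6 1 5, .mk (-1) (-1) 0 1, .mk 2 (-1) 0 1, .mk 6 (-3) (-4) 3, .mk 9 (-5) 1 5],
  [.mk 1 0 0 1, .mk (-1) 0 0 1, .mk 0 1 0 1, .mk 0 (-1) 0 1, .mk 0 0 1 5, .mk 0 0 (-1) 3, .mk (-4) (-5) 1 5, .mk (-4) 4 1 5, .mk (-3) (-3) (-1) 3, .mk (-2) 6 1 5, .mk (-1) (-1) 0 1, .mk (-1) 6 1 5, .mk 6 (-3) (-4) 3, .mk 10 (-5) 1 5],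
  [.mk 1 0 0 5, .mk (-1) 0 0 1, .mk 0 1 0 1, .mk 0 (-1) 0 1, .mk 0 0 1 5, .mk 0 0 (-1) 3, .mk (-5) (-5) 6 5, .mk (-5) 9 6 5, .mk (-3) (-3) (-1) 3, .mk (-3) 6 2 3, .mk (-1) 2 1 1, .mk 1 (-1) (-1) 1, .mk 4 0 (-3) 5, .mk 6 (-5) (-5) 5, .mk 6 (-4) (-5) 5],
  [.mk 1 0 0 5, .mk (-1) 0 0 1, .mk 0 1 0 1, .mk 0 (-1) 0 1, .mk 0 0 1 5, .mk 0 0 (-1) 3, .mk (-5) (-4) 6 5, .mk (-5) 9 6 5, .mk (-3) (-3) (-1) 3, .mk (-3) 6 2 3, .mk (-1) (-1) 1 1, .mk (-1) 2 1 1, .mk 1 (-1) (-1) 1, .mk 4 0 (-3) 5, .mk 6 (-4) (-5) 5],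
  [.mk 1 0 0 2, .mk (-1) 0 0 1, .mk 0 1 0 1, .mk 0 (-1) 0 1, .mk 0 0 1 1, .mk 0 0 (-1) 3, .mk (-3) (-3) (-1) 3, .mk (-3) 6 2 3, .mk (-1) (-1) 0 1, .mk (-1) 1 2 1, .mk (-1) 2 1 1, .mk 1 (-1) (-1) 1, .mk 4 (-2) (-3) 3],
  [.mk 1 0 0 3, .mk (-1) 0 0 1, .mk 0 1 0 1, .mk 0 (-1) 0 1, .mk 0 0 1 3, .mk 0 0 (-1) 3, .mk (-3) (-3) (-1) 3, .mk (-3) (-2) 4 3, .mk (-3) 5 4 3, .mk (-3) 6 2 3, .mk (-1) (-1) 1 1, .mk (-1) 2 1 1, .mk 1 (-1) (-1) 1, .mk 4 (-2) (-3) 3],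
  [.mk 1 0 0 1, .mk (-1) 0 0 1, .mk 0 1 0 1, .mk 0 (-1) 0 2, .mk 0 0 1 1, .mk 0 0 (-1) 3, .mk (-3) 6 2 3, .mk (-2) (-2) (-1) 3, .mk (-1) 1 1 1, .mk (-1) 2 1 1, .mk 1 (-1) (-1) 1, .mk 1 0 1 1, .mk 2 (-1) (-1) 1, .mk 6 (-3) (-4) 3],
  [.mk 1 0 0 1, .mk (-1) 0 0 1, .mk 0 1 0 1, .mk 0 (-1) 0 5, .mk 0 0 1 5, .mk 0 0 (-1) 3, .mk (-4) (-2) (-1) 5, .mk (-4) 9 10 5, .mk (-3) 6 2 3, .mk (-1) 2 2 1, .mk 0 (-4) (-3) 5, .mk 1 (-1) (-1) 1, .mk 2 (-1) (-1) 1, .mk 6 (-3) (-4) 3, .mk 9 (-4) (-3) 5],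
  [.mk 1 0 0 1, .mk (-1) 0 0 1, .mk 0 1 0 1, .mk 0 (-1) 0 3, .mk 0 0 1 3, .mk 0 0 (-1) 3, .mk (-3) 6 2 3, .mk (-2) (-2) (-1) 3, .mk (-2) 5 6 3, .mk (-1) 2 2 1, .mk 1 (-1) (-1) 1, .mk 2 (-1) (-1) 1, .mk 5 (-2) (-1) 3, .mk 6 (-3) (-4) 3],
  [.mk 1 0 0 1, .mk (-1) 0 0 1, .mk 0 1 0 1, .mk 0 (-1) 0 5, .mk 0 0 1 5, .mk 0 0 (-1) 3, .mk (-5) (-1) 0 5, .mk (-5) 10 11 5, .mk (-4) (-2) (-1) 5, .mk (-3) 6 2 3, .mk 0 (-4) (-3) 5, .mk 1 (-1) (-1) 1, .mk 2 (-1) (-1) 1, .mk 6 (-3) (-4) 3, .mk 9 (-4) (-3) 5],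
  [.mk 1 0 0 3, .mk (-1) 0 0 1, .mk 0 1 0 1, .mk 0 (-1) 0 1, .mk 0 0 1 3, .mk 0 0 (-1) 3, .mk (-3) (-3) (-1) 3, .mk (-3) 6 2 3, .mk (-1) (-3) 3 3, .mk (-1) (-1) 1 1, .mk (-1) 1 1 1, .mk 4 (-3) (-2) 3, .mk 8 (-5) (-6) 5],
  [.mk 1 0 0 1, .mk (-1) 0 0 1, .mk 0 1 0 1, .mk 0 (-1) 0 3, .mk 0 0 1 3, .mk 0 0 (-1) 3, .mk (-5) (-3) (-1) 5, .mk (-3) (-1) 1 3, .mk (-3) 4 6 3, .mk (-3) 6 2 3, .mk (-1) 2 2 1, .mk 1 (-1) (-1) 1, .mk 6 (-3) (-4) 3],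
  [.mk 1 0 0 1, .mk (-1) 0 0 1, .mk 0 1 0 1, .mk 0 (-1) 0 1, .mk 0 0 1 3, .mk 0 0 (-1) 3, .mk (-3) (-3) (-1) 3, .mk (-3) 8 2 5, .mk (-1) 4 2 3, .mk 2 (-1) 0 1, .mk 4 (-1) 2 3, .mk 6 (-3) (-4) 3],
  [.mk 1 0 0 4, .mk (-1) 0 0 2, .mk 0 1 0 2, .mk 0 (-1) 0 1, .mk 0 0 1 3, .mk 0 0 (-1) 5, .mk (-5) (-5) (-1) 5, .mk (-4) (-1) 7 4, .mk (-1) (-1) 1 1, .mk (-1) 2 1 1, .mk 1 (-1) (-1) 1, .mk 6 (-4) (-5) 5],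
  [.mk 1 0 0 4, .mk (-1) 0 0 2, .mk 0 1 0 2, .mk 0 (-1) 0 1, .mk 0 0 1 3, .mk 0 0 (-1) 5, .mk (-9) 13 7 9, .mk (-5) (-5) (-1) 5, .mk (-1) (-1) 2 1, .mk (-1) 10 2 12, .mk 1 (-1) (-1) 1, .mk 5 (-4) (-4) 4, .mk 6 (-4) (-5) 5],
  [.mk 1 0 0 1, .mk (-1) 0 0 2, .mk 0 1 0 1, .mk 0 (-1) 0 1, .mk 0 0 1 3, .mk 0 0 (-1) 5, .mk (-9) (-1) 1 12, .mk (-4) (-9) (-2) 9, .mk (-2) 6 1 5, .mk (-1) 5 1 4, .mk 2 (-1) 1 1, .mk 10 (-5) (-6) 5],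
  [.mk 1 0 0 1, .mk (-1) 0 0 2, .mk 0 1 0 1, .mk 0 (-1) 0 1, .mk 0 0 1 3, .mk 0 0 (-1) 5, .mk (-2) 6 1 5, .mk (-1) (-1) 0 1, .mk 2 (-1) 0 1, .mk 5 (-4) 3 4, .mk 10 (-5) (-6) 5],
  [.mk 1 0 0 1, .mk (-1) 0 0 1, .mk 0 1 0 2, .mk 0 (-1) 0 4, .mk 0 0 1 3, .mk 0 0 (-1) 5, .mk (-5) 10 4 5, .mk (-4) (-2) (-1) 5, .mk (-4) (-1) 0 4, .mk (-1) 2 3 1, .mk 10 (-9) (-8) 12, .mk 13 (-4) (-6) 9],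
  [.mk 1 0 0 1, .mk (-1) 0 0 1, .mk 0 1 0 2, .mk 0 (-1) 0 4, .mk 0 0 1 3, .mk 0 0 (-1) 5, .mk (-5) 10 4 5, .mk (-4) (-2) (-1) 5, .mk (-1) 2 2 1, .mk (-1) 5 8 4, .mk 2 (-1) (-1) 1]]

/-- Regions for `n_WHh_7`. -/
def R_WHh_7 : List (List F4) := []

/-- Regions for `n_TU1_7`. -/
def R_TU1_7 : List (List F4) := [[.mk 1 0 0 3, .mk (-1) 0 0 1, .mk 0 1 0 6, .mk 0 (-1) 0 5, .mk 0 0 1 2, .mk 0 0 (-1) 1, .mk (-8) 3 (-5) 5, .mk (-1) 0 (-1) 1, .mk (-1) 0 2 1, .mk 1 (-6) (-11) 11, .mk 1 0 (-1) 1, .mk 8 1 (-7) 7, .mk 9 1 (-7) 8]]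

/-- Regions for `n_TUh_7`. -/
def R_TUh_7 : List (List F4) := []

/-- Regions for `n_TH1_7`. -/
def R_TH1_7 : List (List F4) := []

/-- Regions for `n_THh_7`. -/
def R_THh_7 : List (List F4) := []

/-- Regions for `n_DU1_7`. -/
def R_DU1_7 : List (List F4) := []

/-- Regions for `n_DUh_7`. -/
def R_DUh_7 : List (List F4) := []

/-- Regions for `n_DH1_7`. -/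
def R_DH1_7 : List (List F4) := []

/-- Regions for `n_DHh_7`. -/
def R_DHh_7 : List (List F4) := []

/-- Regions for `n_th4_11`. -/
def R_th4_11 : List (List F4) := []

/-- Regions for `n_th5_11`. -/
def R_th5_11 : List (List F4) := []

/-- Regions for `n_th7_11`. -/
def R_th7_11 : List (List F4) := [[.mk 1 0 0 1, .mk (-1) 0 0 1, .mk 0 1 0 2, .mk 0 (-1) 0 1, .mk 0 0 1 3, .mk 0 0 (-1) 3, .mk (-4) 5 (-1) 4, .mk (-4) 6 (-1) 5, .mk (-3) (-3) 4 3, .mk (-1) (-1) (-1) 1, .mk (-1) 1 0 1, .mk 2 (-1) 0 1, .mk 12 (-5) 1 5],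
  [.mk 1 0 0 1, .mk (-1) 0 0 1, .mk 0 1 0 3, .mk 0 (-1) 0 3, .mk 0 0 1 4, .mk 0 0 (-1) 1, .mk (-4) (-5) 6 5, .mk (-4) (-4) 5 4, .mk (-3) (-1) (-3) 3, .mk (-1) (-1) 1 1, .mk (-1) 2 (-1) 1, .mk 2 1 (-1) 1, .mk 12 4 (-5) 5]]

/-- Regions for `n_th11_11`. -/
def R_th11_11 : List (List F4) := []

/-- Regions for `n_th13_11`. -/
def R_th13_11 : List (List F4) := []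

/-- Regions for `n_th17_11`. -/
def R_th17_11 : List (List F4) := [[.mk 1 0 0 4, .mk (-1) 0 0 2, .mk 0 1 0 5, .mk 0 (-1) 0 2, .mk 0 0 1 3, .mk 0 0 (-1) 3, .mk (-4) 5 2 4, .mk (-4) 6 3 5, .mk (-3) (-3) (-10) 3, .mk (-1) (-1) (-1) 1, .mk (-1) 1 0 1, .mk 1 0 1 1, .mk 2 (-1) 1 1, .mk 12 (-5) 6 5]]

/-- Regions for `n_th19_11`. -/
def R_th19_11 : List (List F4) := []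

/-- Regions for `n_th20_11`. -/
def R_th20_11 : List (List F4) := []

/-- Regions for `n_b11_11`. -/
def R_b11_11 : List (List F4) := []

/-- Regions for `n_b12_11`. -/
def R_b12_11 : List (List F4) := []

/-- Regions for `n_b13_11`. -/
def R_b13_11 : List (List F4) := []

/-- Regions for `n_b14_11`. -/
def R_b14_11 : List (List F4) := []

/-- Regions for `n_b15_11`. -/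
def R_b15_11 : List (List F4) := []

/-- Regions for `n_b21_11`. -/
def R_b21_11 : List (List F4) := []

/-- Regions for `n_b23_11`. -/
def R_b23_11 : List (List F4) := []

/-- Regions for `n_b25_11`. -/
def R_b25_11 : List (List F4) := []

/-- Regions for `n_b27_11`. -/
def R_b27_11 : List (List F4) := []

/-- Regions for `n_b31_11`. -/
def R_b31_11 : List (List F4) := []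

/-- Regions for `n_b35_11`. -/
def R_b35_11 : List (List F4) := []

/-- Regions for `n_b37_11`. -/
def R_b37_11 : List (List F4) := []

/-- Regions for `n_b311_11`. -/
def R_b311_11 : List (List F4) := []

/-- Regions for `n_bi3_11`. -/
def R_bi3_11 : List (List F4) := []

/-- Regions for `n_WU1_11`. -/
def R_WU1_11 : List (List F4) := [[.mk 1 0 0 2, .mk (-1) 0 0 1, .mk 0 1 0 3, .mk 0 (-1) 0 3, .mk 0 0 1 1, .mk 0 0 (-1) 1, .mk (-5) 1 12 5, .mk (-3) 4 (-3) 3, .mk (-1) (-1) (-1) 1, .mk (-1) 0 2 1, .mk 1 0 (-1) 1, .mk 5 (-1) (-4) 4, .mk 6 (-1) (-4) 5],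
  [.mk 1 0 0 3, .mk (-1) 0 0 1, .mk 0 1 0 3, .mk 0 (-1) 0 7, .mk 0 0 1 3, .mk 0 0 (-1) 1, .mk (-16) 5 33 16, .mk (-3) 4 (-3) 3, .mk (-1) (-1) (-1) 1, .mk 1 0 (-1) 1, .mk 2 0 (-1) 3, .mk 11 (-1) (-10) 10],
  [.mk 1 0 0 3, .mk (-1) 0 0 1, .mk 0 1 0 3, .mk 0 (-1) 0 7, .mk 0 0 1 3, .mk 0 0 (-1) 1, .mk (-10) 4 25 17, .mk (-5) 2 9 5, .mk (-3) 4 (-3) 3, .mk (-1) (-1) (-1) 1, .mk 1 0 (-1) 1, .mk 2 0 (-1) 3, .mk 11 (-1) (-10) 10]]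

/-- Regions for `n_WUh_11`. -/
def R_WUh_11 : List (List F4) := []

/-- Regions for `n_WH1_11`. -/
def R_WH1_11 : List (List F4) := []

/-- Regions for `n_WHh_11`. -/
def R_WHh_11 : List (List F4) := []

/-- Regions for `n_TU1_11`. -/
def R_TU1_11 : List (List F4) := []

/-- Regions for `n_TUh_11`. -/
def R_TUh_11 : List (List F4) := []

/-- Regions for `n_TH1_11`. -/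
def R_TH1_11 : List (List F4) := []

/-- Regions for `n_THh_11`. -/
def R_THh_11 : List (List F4) := []

/-- Regions for `n_DU1_11`. -/
def R_DU1_11 : List (List F4) := []

/-- Regions for `n_DUh_11`. -/
def R_DUh_11 : List (List F4) := []

/-- Regions for `n_DH1_11`. -/
def R_DH1_11 : List (List F4) := []

/-- Regions for `n_DHh_11`. -/
def R_DHh_11 : List (List F4) := []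

end Pool.Agent.Lib.MP_0bc52e_nt.N7
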