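import Pool.Agent.Lib.MP_0bc52e_nt.N7.Asm
import Pool.Agent.Lib.MP_0bc52e_nt.N7.Data

/-!
The regions of the certificates are good (MP_0bc52e_nt).
-/

namespace Pool.Agent.Lib.MP_0bc52e_nt.N7

open Pool.Agent.Lib.MP_0bc52e_nt.LC Pool.Agent.Lib.MP_0bc52e_nt.T Pool.Agent.Lib.MP_0bc52e_nt.R
  Pool.Agent.Lib.MP_0bc52e_nt.K Pool.Agent.Lib.MP_0bc52e_nt.G

/-- Leaf data for `n_th4_7`. -/
def L_th4_7 : List Lf := [.c 3 (0, 2, 1),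
  .c 3 (2, 1, 0),
  .c 3 (0, 2, 1),
  .e 2 (0, -1, 2) (0, 0, -1) (1, 1, -2) (-1, 0, 2),
  .c 3 (0, 2, 1),
  .c 3 (2, 1, 0),
  .c 3 (2, 1, 1),
  .c 3 (2, 1, 1),
  .c 3 (2, 1, 0),
  .c 3 (2, 1, 0),
  .c 3 (0, 2, 1),
  .c 3 (0, 2, 1),
  .c 3 (1, 0, 2),
  .c 3 (1, 0, 2),
  .c 3 (1, 2, 1),
  .e 1 (1, 2, 1) (-1, -1, -1) (0, -2, -1) (0, 1, 1),
  .e 1 (0, 1, 0) (-1, 0, 0) (-1, -2, -1) (1, 1, 1),
  .c 3 (1, 2, 1),
  .c 5 (0, 2, 1),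
  .e 1 (-1, 1, 0) (1, 0, 0) (0, -2, -1) (0, 1, 1),
  .c 3 (2, 1, 0),
  .e 1 (0, 1, 0) (1, 1, 1) (1, -1, 0) (-1, 0, 0),
  .c 5 (0, 2, 1),
  .c 3 (2, 2, 1),
  .c 3 (2, 2, 1),
  .c 3 (2, 1, 0)]

lemma rk_th4_7 : RegOK Q0 R_th4_7 := ckLs_sound (ls := L_th4_7) (by decide +kernel)

/-- Leaf data for `n_th5_7`. -/
def L_th5_7 : List Lf := [.c 3 (0, 2, 1),
  .c 3 (2, 1, 0),
  .c 3 (0, 2, 1),
  .e 2 (0, -1, 2) (0, 0, -1) (1, 1, -2) (-1, 0, 2),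
  .c 3 (0, 2, 1),
  .c 5 (4, 4, 2),
  .c 3 (2, 0, 1),
  .c 3 (1, 2, 2),
  .c 3 (2, 0, 1),
  .c 3 (2, 0, 1),
  .c 3 (0, 2, 1),
  .c 3 (2, 2, 2),
  .c 3 (1, 2, 2),
  .c 3 (1, 2, 2),
  .c 3 (2, 0, 1),
  .c 3 (0, 2, 1),
  .c 3 (2, 1, 0),
  .c 3 (2, 1, 0),
  .e 0 (0, 1, -1) (0, 0, 1) (1, -1, 1) (-1, 0, -1),
  .c 3 (2, 1, 1),
  .c 3 (2, 2, 2),
  .c 3 (2, 2, 2),
  .c 3 (2, 0, 1),
  .c 3 (2, 0, 1),
  .c 3 (1, 1, 0),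
  .c 3 (2, 0, 1),
  .c 3 (2, 0, 1),
  .c 5 (4, 1, 3),
  .e 1 (-1, 1, -1) (1, 0, 1) (1, -1, 2) (-1, 0, -2),
  .c 3 (2, 0, 1),
  .e 0 (-4, -3, -7) (1, 1, 2) (4, 3, 8) (-1, -1, -3),
  .c 3 (0, 2, 1),
  .e 1 (-4, 1, 1) (1, 0, 0) (4, -1, 0) (-2, 0, -1),
  .c 3 (0, 2, 1),
  .c 3 (1, 1, 0),
  .c 3 (0, 2, 1),
  .c 3 (2, 0, 1),
  .c 3 (0, 2, 1),
  .e 0 (4, 1, 1) (-1, 0, 0) (-4, -1, 0) (1, 0, -1),
  .e 1 (4, 5, 9) (-1, -1, -2) (-4, -5, -8) (2, 2, 3),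
  .c 3 (0, 2, 1),
  .e 2 (0, 2, 1) (0, -1, -1) (1, -2, -1) (-1, 2, 2),
  .c 3 (2, 1, 1),
  .e 1 (0, 1, 1) (0, 0, -1) (1, -1, -1) (-1, 0, 0),
  .c 3 (2, 1, 1),
  .e 1 (0, 1, 0) (0, 0, 1) (1, -1, 0) (-1, 0, -1),
  .c 3 (2, 1, 2),
  .c 3 (2, 1, 2),
  .c 5 (4, 1, 0),
  .c 3 (2, 1, 2),
  .e 2 (-1, 2, 2) (0, -1, -1) (1, -2, -1) (0, 2, 1)]

lemma rk_th5_7 : RegOK Q0 R_th5_7 := ckLs_sound (ls := L_th5_7) (by decide +kernel)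

/-- Leaf data for `n_th7_7`. -/
def L_th7_7 : List Lf := [.c 3 (2, 1, 2),
  .c 5 (4, 3, 3),
  .c 3 (0, 2, 1),
  .c 5 (4, 4, 2),
  .c 3 (2, 1, 2),
  .c 3 (0, 2, 1),
  .c 3 (2, 0, 1),
  .c 3 (0, 2, 1),
  .c 3 (0, 2, 1),
  .c 3 (0, 2, 1),
  .e 0 (-1, -1, -6) (0, 0, 1) (1, 2, 6) (0, -1, -2),
  .e 1 (-1, -1, 2) (0, 0, -1) (1, 2, -2) (0, -1, 1),
  .c 3 (1, 0, 2),
  .c 3 (0, 2, 1),
  .c 3 (0, 2, 1),
  .c 5 (4, 3, 1),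
  .c 3 (2, 0, 1),
  .e 1 (-1, -2, -3) (0, 1, 1) (1, 2, 4) (0, -1, -2),
  .c 3 (0, 2, 1),
  .c 3 (2, 1, 2),
  .c 3 (0, 2, 1),
  .c 3 (2, 1, 2),
  .c 3 (2, 1, 2),
  .c 3 (2, 0, 1),
  .e 0 (-1, -3, -4) (0, 1, 1) (1, 3, 5) (0, -1, -2),
  .c 3 (2, 0, 1),
  .c 3 (2, 1, 2),
  .c 3 (2, 2, 1),
  .c 3 (2, 1, 2),
  .c 3 (2, 1, 1),
  .c 3 (2, 2, 1),
  .e 2 (0, 2, 1) (0, -1, -1) (1, -2, -1) (-1, 2, 2),
  .c 3 (2, 1, 2),
  .e 2 (-1, 2, 2) (0, -1, -1) (1, -2, -1) (0, 2, 1)]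

lemma rk_th7_7 : RegOK Q0 R_th7_7 := ckLs_sound (ls := L_th7_7) (by decide +kernel)

/-- Leaf data for `n_th11_7`. -/
def L_th11_7 : List Lf := [.c 3 (0, 2, 1),
  .c 5 (4, 4, 2),
  .c 5 (4, 3, 1),
  .c 3 (0, 2, 1),
  .c 3 (0, 2, 1),
  .e 0 (-3, -4, -7) (1, 1, 2) (3, 4, 8) (-1, -1, -3),
  .c 3 (0, 2, 1),
  .c 3 (0, 2, 1)]

lemma rk_th11_7 : RegOK Q0 R_th11_7 := ckLs_sound (ls := L_th11_7) (by decide +kernel)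

/-- Leaf data for `n_th13_7`. -/
def L_th13_7 : List Lf := [.c 3 (2, 1, 0),
  .c 3 (1, 1, 0),
  .c 3 (2, 1, 0),
  .e 1 (2, 1, 1) (-1, -1, -1) (-2, -1, 0) (1, 1, 0),
  .c 3 (2, 1, 0)]

lemma rk_th13_7 : RegOK Q0 R_th13_7 := ckLs_sound (ls := L_th13_7) (by decide +kernel)

/-- Leaf data for `n_th17_7`. -/
def L_th17_7 : List Lf := [.e 1 (1, 1, -2) (-1, -1, 1) (-1, 0, 2) (1, 0, -1),
  .c 3 (1, 0, 2)]

lemma rk_th17_7 : RegOK Q0 R_th17_7 := ckLs_sound (ls := L_th17_7) (by decide +kernel)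

/-- Leaf data for `n_th19_7`. -/
def L_th19_7 : List Lf := []

lemma rk_th19_7 : RegOK Q0 R_th19_7 := ckLs_sound (ls := L_th19_7) (by decide +kernel)

/-- Leaf data for `n_th20_7`. -/
def L_th20_7 : List Lf := []

lemma rk_th20_7 : RegOK Q0 R_th20_7 := ckLs_sound (ls := L_th20_7) (by decide +kernel)

/-- Leaf data for `n_b11_7`. -/
def L_b11_7 : List Lf := [.c 3 (2, 1, 2),
  .c 3 (2, 1, 2),
  .e 1 (0, 1, 1) (0, 0, -1) (1, -1, -1) (-1, 0, 1),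
  .c 3 (2, 1, 0),
  .e 1 (0, 1, 0) (0, 0, 1) (1, -1, 0) (-1, 0, 0),
  .c 3 (2, 1, 0)]

lemma rk_b11_7 : RegOK Q0 R_b11_7 := ckLs_sound (ls := L_b11_7) (by decide +kernel)

/-- Leaf data for `n_b12_7`. -/
def L_b12_7 : List Lf := [.c 3 (2, 1, 1),
  .c 3 (2, 1, 1),
  .e 1 (0, 1, 0) (0, 0, -1) (1, -1, 0) (-1, 0, 1),
  .c 3 (2, 1, 2),
  .e 1 (0, 1, -1) (0, 0, 1) (1, -1, 1) (-1, 0, 0),
  .c 3 (2, 1, 2),
  .c 3 (2, 2, 1),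
  .c 3 (2, 2, 1),
  .c 3 (2, 1, 2),
  .e 0 (0, 1, 1) (0, 0, -1) (1, -1, -1) (-1, 0, 1),
  .c 3 (2, 1, 0),
  .c 3 (2, 1, 0)]

lemma rk_b12_7 : RegOK Q0 R_b12_7 := ckLs_sound (ls := L_b12_7) (by decide +kernel)

/-- Leaf data for `n_b13_7`. -/
def L_b13_7 : List Lf := [.c 3 (2, 2, 2),
  .c 3 (2, 2, 2),
  .c 3 (2, 1, 1),
  .e 0 (0, 1, 0) (0, 0, -1) (1, -1, 0) (-1, 0, 1),
  .c 3 (2, 1, 2),
  .c 3 (2, 1, 2),
  .c 3 (2, 1, 1)]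

lemma rk_b13_7 : RegOK Q0 R_b13_7 := ckLs_sound (ls := L_b13_7) (by decide +kernel)

/-- Leaf data for `n_b14_7`. -/
def L_b14_7 : List Lf := [.c 3 (2, 1, 0),
  .c 3 (2, 1, 0),
  .c 3 (2, 1, 0),
  .e 1 (0, 1, 1) (0, 0, -1) (1, -1, -1) (-1, 0, 2),
  .c 3 (2, 1, 1),
  .e 1 (0, 1, 0) (0, 0, 1) (1, -1, 0) (-1, 0, 1),
  .c 3 (2, 1, 1)]

lemma rk_b14_7 : RegOK Q0 R_b14_7 := ckLs_sound (ls := L_b14_7) (by decide +kernel)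

/-- Leaf data for `n_b15_7`. -/
def L_b15_7 : List Lf := [.c 3 (2, 1, 2),
  .c 3 (2, 1, 2),
  .e 1 (0, 1, 0) (0, 0, -1) (1, -1, 0) (-1, 0, 2),
  .c 3 (2, 1, 0),
  .e 1 (0, 1, -1) (0, 0, 1) (1, -1, 1) (-1, 0, 1),
  .c 3 (2, 1, 0),
  .c 3 (2, 2, 1),
  .c 3 (2, 2, 1),
  .c 3 (2, 1, 0),
  .e 0 (0, 1, 1) (0, 0, -1) (1, -1, -1) (-1, 0, 2),
  .c 3 (2, 1, 1),
  .c 3 (2, 1, 1)]

lemma rk_b15_7 : RegOK Q0 R_b15_7 := ckLs_sound (ls := L_b15_7) (by decide +kernel)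

/-- Leaf data for `n_b21_7`. -/
def L_b21_7 : List Lf := [.e 0 (-1, -1, -3) (0, 0, 1) (2, 1, 3) (-1, 0, -1),
  .e 1 (-1, -1, 5) (0, 0, -1) (2, 1, -5) (-1, 0, 2),
  .c 3 (0, 1, 2),
  .c 3 (0, 1, 1)]

lemma rk_b21_7 : RegOK Q0 R_b21_7 := ckLs_sound (ls := L_b21_7) (by decide +kernel)

/-- Leaf data for `n_b23_7`. -/
def L_b23_7 : List Lf := [.c 3 (0, 1, 1),
  .e 1 (-1, -1, -2) (0, 0, 1) (2, 1, 2) (-1, 0, -1),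
  .e 0 (-1, -1, 6) (0, 0, -1) (2, 1, -6) (-1, 0, 2),
  .c 3 (1, 2, 1)]

lemma rk_b23_7 : RegOK Q0 R_b23_7 := ckLs_sound (ls := L_b23_7) (by decide +kernel)

/-- Leaf data for `n_b25_7`. -/
def L_b25_7 : List Lf := [.c 3 (1, 2, 0),
  .c 3 (1, 2, 0)]

lemma rk_b25_7 : RegOK Q0 R_b25_7 := ckLs_sound (ls := L_b25_7) (by decide +kernel)

/-- Leaf data for `n_b27_7`. -/
def L_b27_7 : List Lf := [.c 3 (1, 2, 2),
  .c 3 (1, 2, 2),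
  .c 3 (0, 1, 1),
  .e 1 (-1, -1, 1) (0, 0, 1) (2, 1, -1) (-1, 0, 0),
  .e 0 (-1, -1, 9) (0, 0, -1) (2, 1, -9) (-1, 0, 3)]

lemma rk_b27_7 : RegOK Q0 R_b27_7 := ckLs_sound (ls := L_b27_7) (by decide +kernel)

/-- Leaf data for `n_b31_7`. -/
def L_b31_7 : List Lf := [.c 3 (1, 0, 1)]

lemma rk_b31_7 : RegOK Q0 R_b31_7 := ckLs_sound (ls := L_b31_7) (by decide +kernel)

/-- Leaf data for `n_b35_7`. -/
def L_b35_7 : List Lf := []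

lemma rk_b35_7 : RegOK Q0 R_b35_7 := ckLs_sound (ls := L_b35_7) (by decide +kernel)

/-- Leaf data for `n_b37_7`. -/
def L_b37_7 : List Lf := []

lemma rk_b37_7 : RegOK Q0 R_b37_7 := ckLs_sound (ls := L_b37_7) (by decide +kernel)

/-- Leaf data for `n_b311_7`. -/
def L_b311_7 : List Lf := []

lemma rk_b311_7 : RegOK Q0 R_b311_7 := ckLs_sound (ls := L_b311_7) (by decide +kernel)

/-- Leaf data for `n_bi3_7`. -/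
def L_bi3_7 : List Lf := []

lemma rk_bi3_7 : RegOK Q0 R_bi3_7 := ckLs_sound (ls := L_bi3_7) (by decide +kernel)

/-- Leaf data for `n_WU1_7`. -/
def L_WU1_7 : List Lf := [.c 3 (2, 1, 0),
  .c 3 (0, 2, 1),
  .c 3 (0, 2, 1),
  .c 3 (2, 2, 2),
  .c 3 (2, 0, 1),
  .c 3 (2, 2, 2),
  .c 3 (2, 0, 1)]

lemma rk_WU1_7 : RegOK Q0 R_WU1_7 := ckLs_sound (ls := L_WU1_7) (by decide +kernel)

/-- Leaf data for `n_WU1_7_1`. -/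
def L_WU1_7_1 : List Lf := [.c 3 (0, 1, 2),
  .c 3 (2, 2, 2),
  .c 3 (1, 2, 2),
  .c 3 (2, 1, 0),
  .c 3 (2, 1, 0),
  .c 5 (4, 2, 4),
  .c 3 (2, 1, 0),
  .c 3 (2, 2, 1),
  .c 3 (0, 1, 2),
  .c 3 (2, 1, 0),
  .c 3 (2, 2, 1),
  .c 3 (2, 2, 1),
  .c 3 (0, 1, 2),
  .c 3 (2, 1, 0),
  .c 3 (2, 1, 0),
  .c 3 (2, 1, 0),
  .c 3 (2, 1, 0),
  .c 3 (2, 1, 0)]

lemma rk_WU1_7_1 : RegOK Q0 R_WU1_7_1 := ckLs_sound (ls := L_WU1_7_1) (by decide +kernel)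

/-- Leaf data for `n_WU1_7_2a`. -/
def L_WU1_7_2a : List Lf := [.c 3 (1, 1, 1),
  .c 3 (1, 2, 2),
  .c 3 (1, 2, 2),
  .c 3 (2, 1, 0),
  .c 3 (1, 2, 2),
  .c 3 (0, 1, 2),
  .c 3 (1, 2, 2),
  .c 3 (2, 1, 0),
  .c 3 (2, 1, 0),
  .c 3 (2, 2, 2),
  .c 3 (2, 1, 0),
  .e 0 (-5, 1, -1) (1, 0, 0) (4, -2, 1) (-1, 1, 0),
  .e 1 (3, 1, -1) (-1, 0, 0) (-4, -2, 1) (2, 1, 0),
  .c 3 (2, 0, 1),
  .c 3 (2, 1, 0),
  .c 3 (2, 2, 2),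
  .c 3 (2, 1, 0),
  .c 3 (2, 2, 2),
  .c 3 (2, 2, 2),
  .c 3 (0, 1, 2),
  .c 3 (2, 1, 0),
  .c 3 (2, 1, 0),
  .c 3 (1, 2, 2)]

lemma rk_WU1_7_2a : RegOK Q0 R_WU1_7_2a := ckLs_sound (ls := L_WU1_7_2a) (by decide +kernel)

/-- Leaf data for `n_WU1_7_2b`. -/
def L_WU1_7_2b : List Lf := [.c 3 (1, 0, 2),
  .e 0 (-4, -3, -1) (1, 1, 0) (5, 3, 1) (-2, -1, 0),
  .c 3 (1, 0, 2),
  .c 3 (0, 1, 2),
  .c 3 (0, 1, 2),
  .c 3 (0, 1, 2),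
  .c 3 (0, 1, 2),
  .e 1 (4, 5, -1) (-1, -1, 0) (-3, -5, 1) (1, 2, 0),
  .c 3 (2, 2, 1),
  .c 3 (2, 2, 1)]

lemma rk_WU1_7_2b : RegOK Q0 R_WU1_7_2b := ckLs_sound (ls := L_WU1_7_2b) (by decide +kernel)

/-- Leaf data for `n_WU1_7_2c`. -/
def L_WU1_7_2c : List Lf := [.c 3 (2, 1, 2)]

lemma rk_WU1_7_2c : RegOK Q0 R_WU1_7_2c := ckLs_sound (ls := L_WU1_7_2c) (by decide +kernel)

/-- Leaf data for `n_WH1_7`. -/
def L_WH1_7 : List Lf := [.c 3 (0, 2, 2),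
  .c 3 (1, 2, 1),
  .c 3 (1, 2, 1),
  .c 3 (1, 2, 1),
  .c 3 (2, 2, 1),
  .c 3 (2, 2, 1),
  .c 3 (1, 0, 2),
  .c 3 (2, 2, 1),
  .c 3 (1, 2, 2),
  .c 3 (1, 1, 1),
  .c 3 (1, 1, 1),
  .c 3 (1, 1, 1),
  .c 3 (0, 2, 2),
  .c 3 (2, 1, 2),
  .c 3 (1, 2, 2),
  .c 3 (2, 2, 1),
  .c 3 (1, 0, 2),
  .c 3 (0, 2, 2),
  .c 3 (0, 2, 2),
  .c 3 (1, 2, 2),
  .c 3 (1, 2, 2)]

lemma rk_WH1_7 : RegOK Q0 R_WH1_7 := ckLs_sound (ls := L_WH1_7) (by decide +kernel)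

/-- Leaf data for `n_WHh_7`. -/
def L_WHh_7 : List Lf := []

lemma rk_WHh_7 : RegOK Q0 R_WHh_7 := ckLs_sound (ls := L_WHh_7) (by decide +kernel)

/-- Leaf data for `n_TU1_7`. -/
def L_TU1_7 : List Lf := [.c 3 (1, 1, 2)]

lemma rk_TU1_7 : RegOK Q0 R_TU1_7 := ckLs_sound (ls := L_TU1_7) (by decide +kernel)

/-- Leaf data for `n_TUh_7`. -/
def L_TUh_7 : List Lf := []

lemma rk_TUh_7 : RegOK Q0 R_TUh_7 := ckLs_sound (ls := L_TUh_7) (by decide +kernel)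

/-- Leaf data for `n_TH1_7`. -/
def L_TH1_7 : List Lf := []

lemma rk_TH1_7 : RegOK Q0 R_TH1_7 := ckLs_sound (ls := L_TH1_7) (by decide +kernel)

/-- Leaf data for `n_THh_7`. -/
def L_THh_7 : List Lf := []

lemma rk_THh_7 : RegOK Q0 R_THh_7 := ckLs_sound (ls := L_THh_7) (by decide +kernel)

/-- Leaf data for `n_DU1_7`. -/
def L_DU1_7 : List Lf := []

lemma rk_DU1_7 : RegOK Q0 R_DU1_7 := ckLs_sound (ls := L_DU1_7) (by decide +kernel)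

/-- Leaf data for `n_DUh_7`. -/
def L_DUh_7 : List Lf := []

lemma rk_DUh_7 : RegOK Q0 R_DUh_7 := ckLs_sound (ls := L_DUh_7) (by decide +kernel)

/-- Leaf data for `n_DH1_7`. -/
def L_DH1_7 : List Lf := []

lemma rk_DH1_7 : RegOK Q0 R_DH1_7 := ckLs_sound (ls := L_DH1_7) (by decide +kernel)

/-- Leaf data for `n_DHh_7`. -/
def L_DHh_7 : List Lf := []

lemma rk_DHh_7 : RegOK Q0 R_DHh_7 := ckLs_sound (ls := L_DHh_7) (by decide +kernel)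

/-- Leaf data for `n_th4_11`. -/
def L_th4_11 : List Lf := []

lemma rk_th4_11 : RegOK Q0 R_th4_11 := ckLs_sound (ls := L_th4_11) (by decide +kernel)

/-- Leaf data for `n_th5_11`. -/
def L_th5_11 : List Lf := []

lemma rk_th5_11 : RegOK Q0 R_th5_11 := ckLs_sound (ls := L_th5_11) (by decide +kernel)

/-- Leaf data for `n_th7_11`. -/
def L_th7_11 : List Lf := [.c 3 (0, 2, 1),
  .c 3 (0, 2, 1)]

lemma rk_th7_11 : RegOK Q0 R_th7_11 := ckLs_sound (ls := L_th7_11) (by decide +kernel)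

/-- Leaf data for `n_th11_11`. -/
def L_th11_11 : List Lf := []

lemma rk_th11_11 : RegOK Q0 R_th11_11 := ckLs_sound (ls := L_th11_11) (by decide +kernel)

/-- Leaf data for `n_th13_11`. -/
def L_th13_11 : List Lf := []

lemma rk_th13_11 : RegOK Q0 R_th13_11 := ckLs_sound (ls := L_th13_11) (by decide +kernel)

/-- Leaf data for `n_th17_11`. -/
def L_th17_11 : List Lf := [.c 3 (0, 2, 1)]

lemma rk_th17_11 : RegOK Q0 R_th17_11 := ckLs_sound (ls := L_th17_11) (by decide +kernel)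

/-- Leaf data for `n_th19_11`. -/
def L_th19_11 : List Lf := []

lemma rk_th19_11 : RegOK Q0 R_th19_11 := ckLs_sound (ls := L_th19_11) (by decide +kernel)

/-- Leaf data for `n_th20_11`. -/
def L_th20_11 : List Lf := []

lemma rk_th20_11 : RegOK Q0 R_th20_11 := ckLs_sound (ls := L_th20_11) (by decide +kernel)

/-- Leaf data for `n_b11_11`. -/
def L_b11_11 : List Lf := []

lemma rk_b11_11 : RegOK Q0 R_b11_11 := ckLs_sound (ls := L_b11_11) (by decide +kernel)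

/-- Leaf data for `n_b12_11`. -/
def L_b12_11 : List Lf := []

lemma rk_b12_11 : RegOK Q0 R_b12_11 := ckLs_sound (ls := L_b12_11) (by decide +kernel)

/-- Leaf data for `n_b13_11`. -/
def L_b13_11 : List Lf := []

lemma rk_b13_11 : RegOK Q0 R_b13_11 := ckLs_sound (ls := L_b13_11) (by decide +kernel)

/-- Leaf data for `n_b14_11`. -/
def L_b14_11 : List Lf := []

lemma rk_b14_11 : RegOK Q0 R_b14_11 := ckLs_sound (ls := L_b14_11) (by decide +kernel)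

/-- Leaf data for `n_b15_11`. -/
def L_b15_11 : List Lf := []

lemma rk_b15_11 : RegOK Q0 R_b15_11 := ckLs_sound (ls := L_b15_11) (by decide +kernel)

/-- Leaf data for `n_b21_11`. -/
def L_b21_11 : List Lf := []

lemma rk_b21_11 : RegOK Q0 R_b21_11 := ckLs_sound (ls := L_b21_11) (by decide +kernel)

/-- Leaf data for `n_b23_11`. -/
def L_b23_11 : List Lf := []

lemma rk_b23_11 : RegOK Q0 R_b23_11 := ckLs_sound (ls := L_b23_11) (by decide +kernel)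

/-- Leaf data for `n_b25_11`. -/
def L_b25_11 : List Lf := []

lemma rk_b25_11 : RegOK Q0 R_b25_11 := ckLs_sound (ls := L_b25_11) (by decide +kernel)

/-- Leaf data for `n_b27_11`. -/
def L_b27_11 : List Lf := []

lemma rk_b27_11 : RegOK Q0 R_b27_11 := ckLs_sound (ls := L_b27_11) (by decide +kernel)

/-- Leaf data for `n_b31_11`. -/
def L_b31_11 : List Lf := []

lemma rk_b31_11 : RegOK Q0 R_b31_11 := ckLs_sound (ls := L_b31_11) (by decide +kernel)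

/-- Leaf data for `n_b35_11`. -/
def L_b35_11 : List Lf := []

lemma rk_b35_11 : RegOK Q0 R_b35_11 := ckLs_sound (ls := L_b35_11) (by decide +kernel)

/-- Leaf data for `n_b37_11`. -/
def L_b37_11 : List Lf := []

lemma rk_b37_11 : RegOK Q0 R_b37_11 := ckLs_sound (ls := L_b37_11) (by decide +kernel)

/-- Leaf data for `n_b311_11`. -/
def L_b311_11 : List Lf := []

lemma rk_b311_11 : RegOK Q0 R_b311_11 := ckLs_sound (ls := L_b311_11) (by decide +kernel)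

/-- Leaf data for `n_bi3_11`. -/
def L_bi3_11 : List Lf := []

lemma rk_bi3_11 : RegOK Q0 R_bi3_11 := ckLs_sound (ls := L_bi3_11) (by decide +kernel)

/-- Leaf data for `n_WU1_11`. -/
def L_WU1_11 : List Lf := [.c 3 (0, 2, 1),
  .c 3 (2, 1, 0),
  .c 3 (2, 1, 0)]

lemma rk_WU1_11 : RegOK Q0 R_WU1_11 := ckLs_sound (ls := L_WU1_11) (by decide +kernel)

/-- Leaf data for `n_WUh_11`. -/
def L_WUh_11 : List Lf := []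

lemma rk_WUh_11 : RegOK Q0 R_WUh_11 := ckLs_sound (ls := L_WUh_11) (by decide +kernel)

/-- Leaf data for `n_WH1_11`. -/
def L_WH1_11 : List Lf := []

lemma rk_WH1_11 : RegOK Q0 R_WH1_11 := ckLs_sound (ls := L_WH1_11) (by decide +kernel)

/-- Leaf data for `n_WHh_11`. -/
def L_WHh_11 : List Lf := []

lemma rk_WHh_11 : RegOK Q0 R_WHh_11 := ckLs_sound (ls := L_WHh_11) (by decide +kernel)

/-- Leaf data for `n_TU1_11`. -/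
def L_TU1_11 : List Lf := []

lemma rk_TU1_11 : RegOK Q0 R_TU1_11 := ckLs_sound (ls := L_TU1_11) (by decide +kernel)

/-- Leaf data for `n_TUh_11`. -/
def L_TUh_11 : List Lf := []

lemma rk_TUh_11 : RegOK Q0 R_TUh_11 := ckLs_sound (ls := L_TUh_11) (by decide +kernel)

/-- Leaf data for `n_TH1_11`. -/
def L_TH1_11 : List Lf := []

lemma rk_TH1_11 : RegOK Q0 R_TH1_11 := ckLs_sound (ls := L_TH1_11) (by decide +kernel)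

/-- Leaf data for `n_THh_11`. -/
def L_THh_11 : List Lf := []

lemma rk_THh_11 : RegOK Q0 R_THh_11 := ckLs_sound (ls := L_THh_11) (by decide +kernel)

/-- Leaf data for `n_DU1_11`. -/
def L_DU1_11 : List Lf := []

lemma rk_DU1_11 : RegOK Q0 R_DU1_11 := ckLs_sound (ls := L_DU1_11) (by decide +kernel)

/-- Leaf data for `n_DUh_11`. -/
def L_DUh_11 : List Lf := []

lemma rk_DUh_11 : RegOK Q0 R_DUh_11 := ckLs_sound (ls := L_DUh_11) (by decide +kernel)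

/-- Leaf data for `n_DH1_11`. -/
def L_DH1_11 : List Lf := []

lemma rk_DH1_11 : RegOK Q0 R_DH1_11 := ckLs_sound (ls := L_DH1_11) (by decide +kernel)

/-- Leaf data for `n_DHh_11`. -/
def L_DHh_11 : List Lf := []

lemma rk_DHh_11 : RegOK Q0 R_DHh_11 := ckLs_sound (ls := L_DHh_11) (by decide +kernel)

end Pool.Agent.Lib.MP_0bc52e_nt.N7
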