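import Pool.Agent.Lib.MP_0bc52e_nt.N7.Chk

/-!
The loop of `N7/Chk.lean` in parts (MP_0bc52e_nt): the loop `loopP` ends when the code ends, with a comparison of the remaining goals with
a given list of goals.
-/

noncomputable section

namespace Pool.Agent.Lib.MP_0bc52e_nt.N7

open Pool.Agent.Lib.MP_0bc52e_nt.K

/-- Equality of vectors. -/
def eqP (a b : P3) : Bool :=
  P3.rec (fun x y z => P3.rec (fun x' y' z' => an (eqi x x') (an (eqi y y') (eqi z z'))) b) a

/-- Equality of lists of vectors. -/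
def eqL (l : List P3) : List P3 → Bool :=
  List.rec (fun l' => List.rec true (fun _ _ _ => false) l')
    (fun a _ ih l' => List.rec false (fun b bs _ => an (eqP a b) (ih bs)) l') l

/-- Equality of families. -/
def eqF (f g : Fam) : Bool :=
  Fam.rec (fun t1 t2 t3 e1 e2 e3 d => Fam.rec (fun t1' t2' t3' e1' e2' e3' d' =>
    an (eqi t1 t1') (an (eqi t2 t2') (an (eqi t3 t3') (an (eqi e1 e1') (an (eqi e2 e2') (an (eqi e3 e3') (Nat.beq d d'))))))) g) f

/-- Equality of six integers. -/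
def eq6 (a b c d e f a' b' c' d' e' f' : Int) : Bool :=
  an (eqi a a') (an (eqi b b') (an (eqi c c') (an (eqi d d') (an (eqi e e') (eqi f f')))))

/-- Equality of lists of goals. -/
def eqG (g : G) : G → Bool :=
  G.rec (fun g' => G.rec true false (fun _ _ _ _ _ _ _ _ => false) (fun _ _ _ _ _ _ _ _ _ _ _ _ _ _ _ _ => false) g')
    (fun _ => false)
    (fun a1 b1 a2 b2 a3 b3 _ ih g' => G.rec false false
      (fun a1' b1' a2' b2' a3' b3' l' _ => an (eq6 a1 b1 a2 b2 a3 b3 a1' b1' a2' b2' a3' b3') (ih l'))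
      (fun _ _ _ _ _ _ _ _ _ _ _ _ _ _ _ _ => false) g')
    (fun V u1 u2 u3 f dl a0 b0 a1 b1 a2 b2 a3 b3 _ ih g' => G.rec false false (fun _ _ _ _ _ _ _ _ => false)
      (fun V' u1' u2' u3' f' dl' a0' b0' a1' b1' a2' b2' a3' b3' l' _ =>
        an (an (eqL V V') (an (eqi u1 u1') (an (eqi u2 u2') (an (eqi u3 u3') (an (eqF f f') (an (Nat.beq dl dl')
          (an (eqi a0 a0') (eqi b0 b0'))))))))
          (an (eq6 a1 b1 a2 b2 a3 b3 a1' b1' a2' b2' a3' b3') (ih l'))) g') g

/-- Next chunk of code, or the end. -/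
def popP (ih : Nat → List Nat → G → Bool) (g' : G) (cs : List Nat) (g : G) : Bool :=
  List.rec (eqG g g') (fun c cs _ => st c (fun c => ih c cs g)) cs

/-- One digit of code. -/
def digP (ih : Nat → List Nat → G → Bool) (g' : G) (c : Nat) (cs : List Nat) (f : Nat → G) (g : G) : Bool :=
  Nat.rec (popP ih g' cs g) (fun _ _ =>
    st (Nat.div c 4503599627370496) (fun c' => ih c' cs (st (Nat.mod c 4503599627370496) f))) c

/-- The loop. -/
def loopP (q : Int) (cells : List (List F4)) (V0 : List P3) (ofams : List (List Fam)) (syms : List M3) (regs : List (List F4))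
    (g' : G) : Nat → Nat → List Nat → G → Bool :=
  Nat.rec (fun _ _ _ => false) (fun _ ih c cs g =>
    G.rec (popP ih g' cs g) false
      (fun a1 b1 a2 b2 a3 b3 l _ => digP ih g' c cs (stO 1 1 q q 1 cells V0 ofams syms a1 b1 a2 b2 a3 b3 l) (G.o a1 b1 a2 b2 a3 b3 l))
      (fun V u1 u2 u3 f dl a0 b0 a1 b1 a2 b2 a3 b3 l _ => digP ih g' c cs (stX7 q regs V u1 u2 u3 f dl a0 b0 a1 b1 a2 b2 a3 b3 l)
        (G.x V u1 u2 u3 f dl a0 b0 a1 b1 a2 b2 a3 b3 l)) g)

end Pool.Agent.Lib.MP_0bc52e_nt.N7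

end
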