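import Pool.Agent.Lib.MP_0bc52e_nt.N7.Asm
import Pool.Agent.Lib.MP_0bc52e_nt.N7.Part

/-!
Soundness of the loop in parts (MP_0bc52e_nt).
-/

noncomputable section

namespace Pool.Agent.Lib.MP_0bc52e_nt.N7

open Pool.Agent.Lib.MP_0bc52e_nt.LC Pool.Agent.Lib.MP_0bc52e_nt.T Pool.Agent.Lib.MP_0bc52e_nt.R
  Pool.Agent.Lib.MP_0bc52e_nt.K Pool.Agent.Lib.MP_0bc52e_nt.G

private lemma an_iff (a b : Bool) : an a b = true ↔ a = true ∧ b = true := by
  cases a <;> cases b <;> decide

private lemma eqi_sound {a b : ℤ} (h : eqi a b = true) : a = b := by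
  cases a with
  | ofNat m =>
    cases b with
    | ofNat n =>
      have h' : Nat.beq m n = true := h
      rw [Nat.eq_of_beq_eq_true h']
    | negSucc n =>
      have h' : false = true := h
      exact absurd h' (by decide)
  | negSucc m =>
    cases b with
    | ofNat n =>
      have h' : false = true := h
      exact absurd h' (by decide)
    | negSucc n =>
      have h' : Nat.beq m n = true := h
      rw [Nat.eq_of_beq_eq_true h']

private lemma eqP_sound {a b : P3} (h : eqP a b = true) : a = b := by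
  obtain ⟨x, y, z⟩ := a
  obtain ⟨x', y', z'⟩ := b
  have h' : an (eqi x x') (an (eqi y y') (eqi z z')) = true := h
  rw [an_iff, an_iff] at h'
  obtain ⟨h1, h2, h3⟩ := h'
  rw [eqi_sound h1, eqi_sound h2, eqi_sound h3]

private lemma eqL_sound : ∀ {l l' : List P3}, eqL l l' = true → l = l' := by
  intro l
  induction l with
  | nil =>
    intro l' h
    cases l' with
    | nil => rfl
    | cons b bs =>
      have h' : false = true := h
      exact absurd h' (by decide)
  | cons a l ih =>
    intro l' h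
    cases l' with
    | nil =>
      have h' : false = true := h
      exact absurd h' (by decide)
    | cons b bs =>
      have h' : an (eqP a b) (eqL l bs) = true := h
      rw [an_iff] at h'
      rw [eqP_sound h'.1, ih h'.2]

private lemma eqF_sound {f g : Fam} (h : eqF f g = true) : f = g := by
  obtain ⟨t1, t2, t3, e1, e2, e3, d⟩ := f
  obtain ⟨t1', t2', t3', e1', e2', e3', d'⟩ := g
  have h' : an (eqi t1 t1') (an (eqi t2 t2') (an (eqi t3 t3') (an (eqi e1 e1') (an (eqi e2 e2') (an (eqi e3 e3')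
    (Nat.beq d d')))))) = true := h
  simp only [an_iff] at h'
  obtain ⟨h1, h2, h3, h4, h5, h6, h7⟩ := h'
  rw [eqi_sound h1, eqi_sound h2, eqi_sound h3, eqi_sound h4, eqi_sound h5, eqi_sound h6,
    Nat.eq_of_beq_eq_true h7]

private lemma eq6_sound {a b c d e f a' b' c' d' e' f' : ℤ} (h : eq6 a b c d e f a' b' c' d' e' f' = true) :
    a = a' ∧ b = b' ∧ c = c' ∧ d = d' ∧ e = e' ∧ f = f' := by
  unfold eq6 at h
  simp only [an_iff] at h
  obtain ⟨h1, h2, h3, h4, h5, h6⟩ := h
  exact ⟨eqi_sound h1, eqi_sound h2, eqi_sound h3, eqi_sound h4, eqi_sound h5, eqi_sound h6⟩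

lemma eqG_sound : ∀ {g g' : G}, eqG g g' = true → g = g' := by
  intro g
  induction g with
  | nil =>
    intro g' h
    cases g' with
    | nil => rfl
    | bad =>
      have h' : false = true := h
      exact absurd h' (by decide)
    | o =>
      have h' : false = true := h
      exact absurd h' (by decide)
    | x =>
      have h' : false = true := h
      exact absurd h' (by decide)
  | bad =>
    intro g' h
    have h' : false = true := h
    exact absurd h' (by decide)
  | o a1 b1 a2 b2 a3 b3 l ih =>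
    intro g' h
    cases g' with
    | nil =>
      have h' : false = true := h
      exact absurd h' (by decide)
    | bad =>
      have h' : false = true := h
      exact absurd h' (by decide)
    | o a1' b1' a2' b2' a3' b3' l' =>
      have h' : an (eq6 a1 b1 a2 b2 a3 b3 a1' b1' a2' b2' a3' b3') (eqG l l') = true := h
      rw [an_iff] at h'
      obtain ⟨rfl, rfl, rfl, rfl, rfl, rfl⟩ := eq6_sound h'.1
      rw [ih h'.2]
    | x =>
      have h' : false = true := h
      exact absurd h' (by decide)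
  | x V u1 u2 u3 f dl a0 b0 a1 b1 a2 b2 a3 b3 l ih =>
    intro g' h
    cases g' with
    | nil =>
      have h' : false = true := h
      exact absurd h' (by decide)
    | bad =>
      have h' : false = true := h
      exact absurd h' (by decide)
    | o =>
      have h' : false = true := h
      exact absurd h' (by decide)
    | x V' u1' u2' u3' f' dl' a0' b0' a1' b1' a2' b2' a3' b3' l' =>
      have h' : an (an (eqL V V') (an (eqi u1 u1') (an (eqi u2 u2') (an (eqi u3 u3') (an (eqF f f')
        (an (Nat.beq dl dl') (an (eqi a0 a0') (eqi b0 b0'))))))))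
          (an (eq6 a1 b1 a2 b2 a3 b3 a1' b1' a2' b2' a3' b3') (eqG l l')) = true := h
      simp only [an_iff] at h'
      obtain ⟨⟨h1, h2, h3, h4, h5, h6, h7, h8⟩, h9, h10⟩ := h'
      obtain ⟨rfl, rfl, rfl, rfl, rfl, rfl⟩ := eq6_sound h9
      rw [eqL_sound h1, eqi_sound h2, eqi_sound h3, eqi_sound h4, eqF_sound h5,
        Nat.eq_of_beq_eq_true h6, eqi_sound h7, eqi_sound h8, ih h10]

private lemma popP_sound (hst : ∀ (α : Type) (n : ℕ) (f : ℕ → α), st n f = f n)
    (ih : ℕ → List ℕ → G → Bool) (P : G → Prop) {g' : G} (hg' : P g')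
    (hih : ∀ (c : ℕ) (cs : List ℕ) (g : G), ih c cs g = true → P g)
    (cs : List ℕ) (g : G) (h : popP ih g' cs g = true) : P g := by
  cases cs with
  | nil =>
    have h2 : eqG g g' = true := h
    rw [eqG_sound h2]
    exact hg'
  | cons a cs =>
    have h2 : st a (fun c => ih c cs g) = true := h
    rw [hst] at h2
    exact hih a cs g h2

private lemma digP_sound (hst : ∀ (α : Type) (n : ℕ) (f : ℕ → α), st n f = f n)
    (ih : ℕ → List ℕ → G → Bool) (P : G → Prop) {g' : G} (hg' : P g')
    (hih : ∀ (c : ℕ) (cs : List ℕ) (g : G), ih c cs g = true → P g)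
    (c : ℕ) (cs : List ℕ) (f : ℕ → G) (g : G) (hf : ∀ d : ℕ, P (f d) → P g)
    (h : digP ih g' c cs f g = true) : P g := by
  cases c with
  | zero => exact popP_sound hst ih P hg' hih cs g h
  | succ k =>
    have h1 : st (Nat.div (Nat.succ k) 4503599627370496)
      (fun c' => ih c' cs (st (Nat.mod (Nat.succ k) 4503599627370496) f)) = true := h
    rw [hst, hst] at h1
    exact hf _ (hih _ _ _ h1)

/-- The hypotheses on the data. -/
structure Ctx (PP : Set (ℝ × ℝ × ℝ) → Prop) (q : ℤ) (L : List (ℤ × ℤ)) (V : List P3) (cells : List (List F4))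
    (fs : List (List Fam)) (syms : List M3) (regs : List (List F4)) : Prop where
  hq : 0 < q
  hcls : Cls PP
  hR : RegOK PP regs
  hc : CellOK PP V cells
  hf : FamOK PP fs
  hd : fdOK fs
  hs : SymOK PP q (DA q L) V (I3 :: syms)

theorem stp {PP : Set (ℝ × ℝ × ℝ) → Prop} {q : ℤ} {L : List (ℤ × ℤ)} {V0 : List P3} {cells : List (List F4)}
    {ofams : List (List Fam)} {syms : List M3} {regs : List (List F4)}
    (C : Ctx PP q L V0 cells ofams syms regs) {g' : G} (h' : All7 PP q (DA q L) regs V0 g')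
    {fuel c : ℕ} {cs : List ℕ} {g : G} (hk : loopP q cells V0 ofams syms regs g' fuel c cs g = true) :
    All7 PP q (DA q L) regs V0 g := by
  obtain ⟨hst, -⟩ := K.q_op1
  revert c cs g
  induction fuel with
  | zero =>
    intro c cs g h
    have h1 : false = true := h
    exact absurd h1 (by decide)
  | succ n ih =>
    intro c cs g h
    have ih' : ∀ (c : ℕ) (cs : List ℕ) (g : G),
        loopP q cells V0 ofams syms regs g' n c cs g = true → All7 PP q (DA q L) regs V0 g :=
      fun c cs g h => ih h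
    cases g with
    | nil => exact True.intro
    | bad =>
      have h1 : false = true := h
      exact absurd h1 (by decide)
    | o a1 b1 a2 b2 a3 b3 l =>
      have h1 : digP (loopP q cells V0 ofams syms regs g' n) g' c cs
        (stO 1 1 q q 1 cells V0 ofams syms a1 b1 a2 b2 a3 b3 l)
        (G.o a1 b1 a2 b2 a3 b3 l) = true := h
      exact digP_sound hst _ (All7 PP q (DA q L) regs V0) h' ih' c cs _ _
        (fun d hd => p_stP7 PP q (DA q L) regs V0 cells ofams syms a1 b1 a2 b2 a3 b3 l d C.hq C.hcls C.hR C.hc C.hf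
          C.hd C.hs hd) h1
    | x V u1 u2 u3 f dl' a0 b0 a1 b1 a2 b2 a3 b3 l =>
      have h1 : digP (loopP q cells V0 ofams syms regs g' n) g' c cs
        (stX7 q regs V u1 u2 u3 f dl' a0 b0 a1 b1 a2 b2 a3 b3 l)
        (G.x V u1 u2 u3 f dl' a0 b0 a1 b1 a2 b2 a3 b3 l) = true := h
      exact digP_sound hst _ (All7 PP q (DA q L) regs V0) h' ih' c cs _ _
        (fun d hd => p_stX7 PP q (DA q L) regs V0 V u1 u2 u3 f dl' a0 b0 a1 b1 a2 b2 a3 b3 l d C.hcls C.hR hd) h1

lemma ctx0 {p : ℤ} {V : List P3} {cells : List (List F4)} {syms : List M3} {regs : List (List F4)}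
    (hR : RegOK Q0 regs) (hp : 0 < p) (hc : CellOK Q0 V cells) (hs : ckL V syms = true) :
    Ctx Q0 p [(0, p - 1)] V cells F_0 syms regs :=
  ⟨hp, cls0, hR, hc, fam0, fd0, g_sym0 fri7 V syms p hp hs⟩

lemma dead70a {p : ℤ} {V : List P3} {regs : List (List F4)} (hp : 0 < p)
    (h : All7 Q0 p (DA p [(0, p - 1)]) regs V (bxs p [(0, p - 1)])) : ∀ u, Dd Q0 p V u :=
  q_sdA Q0 p V hp (all7_bxs h (0, p - 1) (List.mem_singleton.2 rfl))

lemma dead7a {PP : Set (ℝ × ℝ × ℝ) → Prop} {p : ℤ} {L : List (ℤ × ℤ)} {V : List P3} {regs : List (List F4)}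
    (hp : 0 < p) (h : All7 PP p (DA p L) regs V (bxs p L)) :
    ∀ r : ℤ, 0 ≤ r → r < p → inl L r = true → Sd PP p V r :=
  q_sd PP p V L hp (all7_bxs h)

lemma sd_app {PP : Set (ℝ × ℝ × ℝ) → Prop} {p : ℤ} {V : List P3} {L1 L2 : List (ℤ × ℤ)}
    (h1 : ∀ r : ℤ, 0 ≤ r → r < p → inl L1 r = true → Sd PP p V r)
    (h2 : ∀ r : ℤ, 0 ≤ r → r < p → inl L2 r = true → Sd PP p V r) :
    ∀ r : ℤ, 0 ≤ r → r < p → inl (L1 ++ L2) r = true → Sd PP p V r := by
  intro r h0 hp hr
  unfold inl at hr
  rw [List.any_append, Bool.or_eq_true] at hr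
  rcases hr with h | h
  · exact h1 r h0 hp h
  · exact h2 r h0 hp h

end Pool.Agent.Lib.MP_0bc52e_nt.N7

end
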