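import Pool.Agent.Lib.MP_0bc52e_nt.N7.CAll
import Pool.Agent.Lib.MP_0bc52e_nt.N7.LfData
import Pool.Agent.Lib.MP_0bc52e_nt.N7.PartS

/-!
The certificates for the modulus 7 (MP_0bc52e_nt).
-/

namespace Pool.Agent.Lib.MP_0bc52e_nt.N7

open Pool.Agent.Lib.MP_0bc52e_nt.LC Pool.Agent.Lib.MP_0bc52e_nt.T Pool.Agent.Lib.MP_0bc52e_nt.R
  Pool.Agent.Lib.MP_0bc52e_nt.K Pool.Agent.Lib.MP_0bc52e_nt.G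

private lemma nil7 {PP : Set (ℝ × ℝ × ℝ) → Prop} {p : ℤ} {D : ℤ × ℤ × ℤ → Prop} {regs : List (List F4)} {V : List P3} :
    All7 PP p D regs V G.nil := True.intro

lemma x_th4_7 : Ctx Q0 7 [(0, 6)] V_th4 C_th4 F_0 S_th4 R_th4_7 :=
  ctx0 rk_th4_7 (by norm_num) (cell_th4 cls0) ck_th4

lemma a_th4_7 : All7 Q0 7 (DA 7 [(0, 6)]) R_th4_7 V_th4 (bxs 7 [(0, 6)]) :=
  stp x_th4_7 (stp x_th4_7 (stp x_th4_7 (stp x_th4_7 nil7 n_th4_7_p3) n_th4_7_p2) n_th4_7_p1) n_th4_7_p0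

lemma x_th5_7 : Ctx Q0 7 [(0, 6)] V_th5 C_th5 F_0 S_th5 R_th5_7 :=
  ctx0 rk_th5_7 (by norm_num) (cell_th5 cls0) ck_th5

lemma a_th5_7 : All7 Q0 7 (DA 7 [(0, 6)]) R_th5_7 V_th5 (bxs 7 [(0, 6)]) :=
  stp x_th5_7 (stp x_th5_7 (stp x_th5_7 (stp x_th5_7 (stp x_th5_7 (stp x_th5_7 (stp x_th5_7 nil7 n_th5_7_p6) n_th5_7_p5) n_th5_7_p4) n_th5_7_p3) n_th5_7_p2) n_th5_7_p1) n_th5_7_p0

lemma x_th7_7 : Ctx Q0 7 [(0, 6)] V_th7 C_th7 F_0 S_th7 R_th7_7 :=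
  ctx0 rk_th7_7 (by norm_num) (cell_th7 cls0) ck_th7

lemma a_th7_7 : All7 Q0 7 (DA 7 [(0, 6)]) R_th7_7 V_th7 (bxs 7 [(0, 6)]) :=
  stp x_th7_7 (stp x_th7_7 (stp x_th7_7 (stp x_th7_7 (stp x_th7_7 (stp x_th7_7 nil7 n_th7_7_p5) n_th7_7_p4) n_th7_7_p3) n_th7_7_p2) n_th7_7_p1) n_th7_7_p0

lemma x_th11_7 : Ctx Q0 7 [(0, 6)] V_th11 C_th11 F_0 S_th11 R_th11_7 :=
  ctx0 rk_th11_7 (by norm_num) (cell_th11 cls0) ck_th11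

lemma a_th11_7 : All7 Q0 7 (DA 7 [(0, 6)]) R_th11_7 V_th11 (bxs 7 [(0, 6)]) :=
  stp x_th11_7 (stp x_th11_7 nil7 n_th11_7_p1) n_th11_7_p0

lemma x_th13_7 : Ctx Q0 7 [(0, 6)] V_th13 C_th13 F_0 S_th13 R_th13_7 :=
  ctx0 rk_th13_7 (by norm_num) (cell_th13 cls0) ck_th13

lemma a_th13_7 : All7 Q0 7 (DA 7 [(0, 6)]) R_th13_7 V_th13 (bxs 7 [(0, 6)]) :=
  stp x_th13_7 nil7 n_th13_7_p0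

lemma x_th17_7 : Ctx Q0 7 [(0, 6)] V_th17 C_th17 F_0 S_th17 R_th17_7 :=
  ctx0 rk_th17_7 (by norm_num) (cell_th17 cls0) ck_th17

lemma a_th17_7 : All7 Q0 7 (DA 7 [(0, 6)]) R_th17_7 V_th17 (bxs 7 [(0, 6)]) :=
  stp x_th17_7 nil7 n_th17_7_p0

lemma x_th19_7 : Ctx Q0 7 [(0, 6)] V_th19 C_th19 F_0 S_th19 R_th19_7 :=
  ctx0 rk_th19_7 (by norm_num) (cell_th19 cls0) ck_th19

lemma a_th19_7 : All7 Q0 7 (DA 7 [(0, 6)]) R_th19_7 V_th19 (bxs 7 [(0, 6)]) :=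
  stp x_th19_7 nil7 n_th19_7_p0

lemma x_th20_7 : Ctx Q0 7 [(0, 6)] V_th20 C_th20 F_0 S_th20 R_th20_7 :=
  ctx0 rk_th20_7 (by norm_num) (cell_th20 cls0) ck_th20

lemma a_th20_7 : All7 Q0 7 (DA 7 [(0, 6)]) R_th20_7 V_th20 (bxs 7 [(0, 6)]) :=
  stp x_th20_7 nil7 n_th20_7_p0

lemma x_b11_7 : Ctx Q0 7 [(0, 6)] V_b11 C_b11 F_0 S_b11 R_b11_7 :=
  ctx0 rk_b11_7 (by norm_num) (cell_b11 cls0) ck_b11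

lemma a_b11_7 : All7 Q0 7 (DA 7 [(0, 6)]) R_b11_7 V_b11 (bxs 7 [(0, 6)]) :=
  stp x_b11_7 nil7 n_b11_7_p0

lemma x_b12_7 : Ctx Q0 7 [(0, 6)] V_b12 C_b12 F_0 S_b12 R_b12_7 :=
  ctx0 rk_b12_7 (by norm_num) (cell_b12 cls0) ck_b12

lemma a_b12_7 : All7 Q0 7 (DA 7 [(0, 6)]) R_b12_7 V_b12 (bxs 7 [(0, 6)]) :=
  stp x_b12_7 (stp x_b12_7 nil7 n_b12_7_p1) n_b12_7_p0

lemma x_b13_7 : Ctx Q0 7 [(0, 6)] V_b13 C_b13 F_0 S_b13 R_b13_7 :=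
  ctx0 rk_b13_7 (by norm_num) (cell_b13 cls0) ck_b13

lemma a_b13_7 : All7 Q0 7 (DA 7 [(0, 6)]) R_b13_7 V_b13 (bxs 7 [(0, 6)]) :=
  stp x_b13_7 (stp x_b13_7 nil7 n_b13_7_p1) n_b13_7_p0

lemma x_b14_7 : Ctx Q0 7 [(0, 6)] V_b14 C_b14 F_0 S_b14 R_b14_7 :=
  ctx0 rk_b14_7 (by norm_num) (cell_b14 cls0) ck_b14

lemma a_b14_7 : All7 Q0 7 (DA 7 [(0, 6)]) R_b14_7 V_b14 (bxs 7 [(0, 6)]) :=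
  stp x_b14_7 nil7 n_b14_7_p0

lemma x_b15_7 : Ctx Q0 7 [(0, 6)] V_b15 C_b15 F_0 S_b15 R_b15_7 :=
  ctx0 rk_b15_7 (by norm_num) (cell_b15 cls0) ck_b15

lemma a_b15_7 : All7 Q0 7 (DA 7 [(0, 6)]) R_b15_7 V_b15 (bxs 7 [(0, 6)]) :=
  stp x_b15_7 nil7 n_b15_7_p0

lemma x_b21_7 : Ctx Q0 7 [(0, 6)] V_b21 C_b21 F_0 S_b21 R_b21_7 :=
  ctx0 rk_b21_7 (by norm_num) (cell_b21 cls0) ck_b21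

lemma a_b21_7 : All7 Q0 7 (DA 7 [(0, 6)]) R_b21_7 V_b21 (bxs 7 [(0, 6)]) :=
  stp x_b21_7 (stp x_b21_7 nil7 n_b21_7_p1) n_b21_7_p0

lemma x_b23_7 : Ctx Q0 7 [(0, 6)] V_b23 C_b23 F_0 S_b23 R_b23_7 :=
  ctx0 rk_b23_7 (by norm_num) (cell_b23 cls0) ck_b23

lemma a_b23_7 : All7 Q0 7 (DA 7 [(0, 6)]) R_b23_7 V_b23 (bxs 7 [(0, 6)]) :=
  stp x_b23_7 (stp x_b23_7 nil7 n_b23_7_p1) n_b23_7_p0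

lemma x_b25_7 : Ctx Q0 7 [(0, 6)] V_b25 C_b25 F_0 S_b25 R_b25_7 :=
  ctx0 rk_b25_7 (by norm_num) (cell_b25 cls0) ck_b25

lemma a_b25_7 : All7 Q0 7 (DA 7 [(0, 6)]) R_b25_7 V_b25 (bxs 7 [(0, 6)]) :=
  stp x_b25_7 nil7 n_b25_7_p0

lemma x_b27_7 : Ctx Q0 7 [(0, 6)] V_b27 C_b27 F_0 S_b27 R_b27_7 :=
  ctx0 rk_b27_7 (by norm_num) (cell_b27 cls0) ck_b27

lemma a_b27_7 : All7 Q0 7 (DA 7 [(0, 6)]) R_b27_7 V_b27 (bxs 7 [(0, 6)]) :=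
  stp x_b27_7 nil7 n_b27_7_p0

lemma x_b31_7 : Ctx Q0 7 [(0, 6)] V_b31 C_b31 F_0 S_b31 R_b31_7 :=
  ctx0 rk_b31_7 (by norm_num) (cell_b31 cls0) ck_b31

lemma a_b31_7 : All7 Q0 7 (DA 7 [(0, 6)]) R_b31_7 V_b31 (bxs 7 [(0, 6)]) :=
  stp x_b31_7 nil7 n_b31_7_p0

lemma x_b35_7 : Ctx Q0 7 [(0, 6)] V_b35 C_b35 F_0 S_b35 R_b35_7 :=
  ctx0 rk_b35_7 (by norm_num) (cell_b35 cls0) ck_b35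

lemma a_b35_7 : All7 Q0 7 (DA 7 [(0, 6)]) R_b35_7 V_b35 (bxs 7 [(0, 6)]) :=
  stp x_b35_7 nil7 n_b35_7_p0

lemma x_b37_7 : Ctx Q0 7 [(0, 6)] V_b37 C_b37 F_0 S_b37 R_b37_7 :=
  ctx0 rk_b37_7 (by norm_num) (cell_b37 cls0) ck_b37

lemma a_b37_7 : All7 Q0 7 (DA 7 [(0, 6)]) R_b37_7 V_b37 (bxs 7 [(0, 6)]) :=
  stp x_b37_7 nil7 n_b37_7_p0

lemma x_b311_7 : Ctx Q0 7 [(0, 6)] V_b311 C_b311 F_0 S_b311 R_b311_7 :=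
  ctx0 rk_b311_7 (by norm_num) (cell_b311 cls0) ck_b311

lemma a_b311_7 : All7 Q0 7 (DA 7 [(0, 6)]) R_b311_7 V_b311 (bxs 7 [(0, 6)]) :=
  stp x_b311_7 nil7 n_b311_7_p0

lemma x_bi3_7 : Ctx Q0 7 [(0, 6)] V_bi3 C_bi3 F_0 S_bi3 R_bi3_7 :=
  ctx0 rk_bi3_7 (by norm_num) (cell_bi3 cls0) ck_bi3

lemma a_bi3_7 : All7 Q0 7 (DA 7 [(0, 6)]) R_bi3_7 V_bi3 (bxs 7 [(0, 6)]) :=
  stp x_bi3_7 nil7 n_bi3_7_p0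

lemma th_7 : ∀ R ∈ Theta, ∀ u, Dd Q0 7 (R.map toP) u :=
  theta_all (P := fun V => ∀ u, Dd Q0 7 V u) (dead70a (by norm_num) a_th4_7)
    (dead70a (by norm_num) a_th5_7)
    (dead70a (by norm_num) a_th7_7)
    (dead70a (by norm_num) a_th11_7)
    (dead70a (by norm_num) a_th13_7)
    (dead70a (by norm_num) a_th17_7)
    (dead70a (by norm_num) a_th19_7)
    (dead70a (by norm_num) a_th20_7)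

lemma be_7 : ∀ R ∈ Beta, ∀ u, Dd Q0 7 (R.map toP) u :=
  beta_all (P := fun V => ∀ u, Dd Q0 7 V u) (dead70a (by norm_num) a_b11_7)
    (dead70a (by norm_num) a_b12_7)
    (dead70a (by norm_num) a_b13_7)
    (dead70a (by norm_num) a_b14_7)
    (dead70a (by norm_num) a_b15_7)
    (dead70a (by norm_num) a_b21_7)
    (dead70a (by norm_num) a_b23_7)
    (dead70a (by norm_num) a_b25_7)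
    (dead70a (by norm_num) a_b27_7)
    (dead70a (by norm_num) a_b31_7)
    (dead70a (by norm_num) a_b35_7)
    (dead70a (by norm_num) a_b37_7)
    (dead70a (by norm_num) a_b311_7)
    (dead70a (by norm_num) a_bi3_7)

lemma x_WU1_7 : Ctx Q1 7 [(0, 0), (4, 4)] V_WU1 C_WU1 F_1 S_WU1 R_WU1_7 :=
  ⟨by norm_num, cls1, (regOK1 rk_WU1_7), cell_WU1 cls1, fam1, fd1,
    (g_sym1 fri7 V_WU1 S_WU1 7 [(0, 0), (4, 4)] (by norm_num) ck_WU1 blk_WU1)⟩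

lemma a_WU1_7 : All7 Q1 7 (DA 7 [(0, 0), (4, 4)]) R_WU1_7 V_WU1 (bxs 7 [(0, 0), (4, 4)]) :=
  stp x_WU1_7 (stp x_WU1_7 (stp x_WU1_7 nil7 n_WU1_7_p2) n_WU1_7_p1) n_WU1_7_p0

lemma s_WU1_7x : ∀ r : ℤ, 0 ≤ r → r < 7 → inl [(0, 0), (4, 4)] r = true → Sd Q1 7 (VU 0) r :=
  dead7a (V := V_WU1) (by norm_num) a_WU1_7

lemma x_WU1_7_1 : Ctx Q1 7 [(1, 1)] V_WU1 C_WU1 F_1 S_WU1 R_WU1_7_1 :=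
  ⟨by norm_num, cls1, (regOK1 rk_WU1_7_1), cell_WU1 cls1, fam1, fd1,
    (g_sym1 fri7 V_WU1 S_WU1 7 [(1, 1)] (by norm_num) ck_WU1 blk_WU1)⟩

lemma a_WU1_7_1 : All7 Q1 7 (DA 7 [(1, 1)]) R_WU1_7_1 V_WU1 (bxs 7 [(1, 1)]) :=
  stp x_WU1_7_1 (stp x_WU1_7_1 (stp x_WU1_7_1 (stp x_WU1_7_1 (stp x_WU1_7_1 (stp x_WU1_7_1 nil7 n_WU1_7_1_p5) n_WU1_7_1_p4) n_WU1_7_1_p3) n_WU1_7_1_p2) n_WU1_7_1_p1) n_WU1_7_1_p0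

lemma s_WU1_7_1x : ∀ r : ℤ, 0 ≤ r → r < 7 → inl [(1, 1)] r = true → Sd Q1 7 (VU 0) r :=
  dead7a (V := V_WU1) (by norm_num) a_WU1_7_1

lemma x_WU1_7_2a : Ctx Q1 7 [(2, 2)] V_WU1 C_WU1 F_1 S_WU1 R_WU1_7_2a :=
  ⟨by norm_num, cls1, (regOK1 rk_WU1_7_2a), cell_WU1 cls1, fam1, fd1,
    (g_sym1 fri7 V_WU1 S_WU1 7 [(2, 2)] (by norm_num) ck_WU1 blk_WU1)⟩

lemma a_WU1_7_2a : All7 Q1 7 (DA 7 [(2, 2)]) R_WU1_7_2a V_WU1 (.o 0 1 0 4 2 2 .nil) :=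
  stp x_WU1_7_2a (stp x_WU1_7_2a (stp x_WU1_7_2a (stp x_WU1_7_2a (stp x_WU1_7_2a (stp x_WU1_7_2a (stp x_WU1_7_2a nil7 n_WU1_7_2a_p6) n_WU1_7_2a_p5) n_WU1_7_2a_p4) n_WU1_7_2a_p3) n_WU1_7_2a_p2) n_WU1_7_2a_p1) n_WU1_7_2a_p0

lemma x_WU1_7_2b : Ctx Q1 7 [(2, 2)] V_WU1 C_WU1 F_1 S_WU1 R_WU1_7_2b :=
  ⟨by norm_num, cls1, (regOK1 rk_WU1_7_2b), cell_WU1 cls1, fam1, fd1,
    (g_sym1 fri7 V_WU1 S_WU1 7 [(2, 2)] (by norm_num) ck_WU1 blk_WU1)⟩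

lemma a_WU1_7_2b : All7 Q1 7 (DA 7 [(2, 2)]) R_WU1_7_2b V_WU1 (.o 0 1 5 6 2 2 .nil) :=
  stp x_WU1_7_2b (stp x_WU1_7_2b (stp x_WU1_7_2b (stp x_WU1_7_2b (stp x_WU1_7_2b nil7 n_WU1_7_2b_p4) n_WU1_7_2b_p3) n_WU1_7_2b_p2) n_WU1_7_2b_p1) n_WU1_7_2b_p0

lemma x_WU1_7_2c : Ctx Q1 7 [(2, 2)] V_WU1 C_WU1 F_1 S_WU1 R_WU1_7_2c :=
  ⟨by norm_num, cls1, (regOK1 rk_WU1_7_2c), cell_WU1 cls1, fam1, fd1,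
    (g_sym1 fri7 V_WU1 S_WU1 7 [(2, 2)] (by norm_num) ck_WU1 blk_WU1)⟩

lemma a_WU1_7_2c : All7 Q1 7 (DA 7 [(2, 2)]) R_WU1_7_2c V_WU1 (.o 2 6 0 6 2 2 .nil) :=
  stp x_WU1_7_2c nil7 n_WU1_7_2c_p0

lemma go_WU1_7_2 : GO Q1 7 1 1 (DA 7 [(2, 2)]) V_WU1 0 6 0 6 2 2 := by
  have h1 : GO Q1 7 1 1 (DA 7 [(2, 2)]) V_WU1 0 1 0 4 2 2 := a_WU1_7_2a.1
  have h2 : GO Q1 7 1 1 (DA 7 [(2, 2)]) V_WU1 0 1 (4 + (1 : ℕ)) 6 2 2 := a_WU1_7_2b.1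
  have h3 : GO Q1 7 1 1 (DA 7 [(2, 2)]) V_WU1 (1 + (1 : ℕ)) 6 0 6 2 2 := a_WU1_7_2c.1
  exact (q_GOs Q1 7 1 1 (DA 7 [(2, 2)]) V_WU1 0 6 0 6 2 2 1 1 (Or.inr ⟨rfl, rfl, rfl⟩)).1
    ((q_GOs Q1 7 1 1 (DA 7 [(2, 2)]) V_WU1 0 1 0 6 2 2 4 1 (Or.inr ⟨rfl, rfl, rfl⟩)).2.1 h1 h2) h3

lemma s_WU1_7_2 : ∀ r : ℤ, 0 ≤ r → r < 7 → inl [(2, 2)] r = true → Sd Q1 7 (VU 0) r :=
  q_sd Q1 7 V_WU1 [(2, 2)] (by norm_num) (fun e he => by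
    rw [List.mem_singleton] at he
    subst he
    exact go_WU1_7_2)

lemma s_WU1_7 : ∀ r : ℤ, 0 ≤ r → r < 7 → inl ([(0, 0), (4, 4)] ++ ([(1, 1)] ++ [(2, 2)])) r = true → Sd Q1 7 (VU 0) r := (sd_app s_WU1_7x (sd_app s_WU1_7_1x s_WU1_7_2))

lemma s_WUh_7 : ∀ r : ℤ, 0 ≤ r → r < 7 → inl [] r = true → Sd (Qh 0) 7 (VU 0) r :=
  fun _ _ _ h => absurd h (by simp [inl])

lemma x_WH1_7 : Ctx Q1 7 [(0, 0), (1, 1), (2, 2), (3, 3), (4, 4), (5, 5), (6, 6)] V_WH1 C_WH1 F_1 S_WH1 R_WH1_7 :=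
  ⟨by norm_num, cls1, (regOK1 rk_WH1_7), cell_WH1 cls1, fam1, fd1,
    (q_symI Q1 V_WH1 7 [(0, 0), (1, 1), (2, 2), (3, 3), (4, 4), (5, 5), (6, 6)])⟩

lemma a_WH1_7 : All7 Q1 7 (DA 7 [(0, 0), (1, 1), (2, 2), (3, 3), (4, 4), (5, 5), (6, 6)]) R_WH1_7 V_WH1 (bxs 7 [(0, 0), (1, 1), (2, 2), (3, 3), (4, 4), (5, 5), (6, 6)]) :=
  stp x_WH1_7 (stp x_WH1_7 (stp x_WH1_7 (stp x_WH1_7 nil7 n_WH1_7_p3) n_WH1_7_p2) n_WH1_7_p1) n_WH1_7_p0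

lemma s_WH1_7x : ∀ r : ℤ, 0 ≤ r → r < 7 → inl [(0, 0), (1, 1), (2, 2), (3, 3), (4, 4), (5, 5), (6, 6)] r = true → Sd Q1 7 (VH 0) r :=
  dead7a (V := V_WH1) (by norm_num) a_WH1_7

lemma s_WH1_7 : ∀ r : ℤ, 0 ≤ r → r < 7 → inl [(0, 0), (1, 1), (2, 2), (3, 3), (4, 4), (5, 5), (6, 6)] r = true → Sd Q1 7 (VH 0) r := s_WH1_7x

lemma x_WHh_7 : Ctx (Qh 0) 7 [(0, 0), (1, 1), (2, 2), (3, 3)] V_WHh C_WHh F_hW S_WHh R_WHh_7 :=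
  ⟨by norm_num, (clsh 0), (regOKh rk_WHh_7 0), cell_WHh (clsh 0), famhW, fdhW,
    (q_symI (Qh 0) V_WHh 7 [(0, 0), (1, 1), (2, 2), (3, 3)])⟩

lemma a_WHh_7 : All7 (Qh 0) 7 (DA 7 [(0, 0), (1, 1), (2, 2), (3, 3)]) R_WHh_7 V_WHh (bxs 7 [(0, 0), (1, 1), (2, 2), (3, 3)]) :=
  stp x_WHh_7 nil7 n_WHh_7_p0

lemma s_WHh_7x : ∀ r : ℤ, 0 ≤ r → r < 7 → inl [(0, 0), (1, 1), (2, 2), (3, 3)] r = true → Sd (Qh 0) 7 (VH 0) r :=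
  dead7a (V := V_WHh) (by norm_num) a_WHh_7

lemma s_WHh_7 : ∀ r : ℤ, 0 ≤ r → r < 7 → inl [(0, 0), (1, 1), (2, 2), (3, 3)] r = true → Sd (Qh 0) 7 (VH 0) r := s_WHh_7x

lemma pa_W_7 : PA7 7 0 :=
  ⟨covq 7 (by norm_num) (by norm_num) (by decide +kernel) s_WU1_7 s_WU1_7,
    covq 7 (by norm_num) (by norm_num) (by decide +kernel) s_WUh_7 s_WH1_7,
    covq 7 (by norm_num) (by norm_num) (by decide +kernel) s_WHh_7 s_WHh_7⟩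

lemma x_TU1_7 : Ctx Q1 7 [(0, 0), (1, 1), (2, 2), (4, 4)] V_TU1 C_TU1 F_1 S_TU1 R_TU1_7 :=
  ⟨by norm_num, cls1, (regOK1 rk_TU1_7), cell_TU1 cls1, fam1, fd1,
    (g_sym1 fri7 V_TU1 S_TU1 7 [(0, 0), (1, 1), (2, 2), (4, 4)] (by norm_num) ck_TU1 blk_TU1)⟩

lemma a_TU1_7 : All7 Q1 7 (DA 7 [(0, 0), (1, 1), (2, 2), (4, 4)]) R_TU1_7 V_TU1 (bxs 7 [(0, 0), (1, 1), (2, 2), (4, 4)]) :=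
  stp x_TU1_7 (stp x_TU1_7 (stp x_TU1_7 (stp x_TU1_7 (stp x_TU1_7 (stp x_TU1_7 nil7 n_TU1_7_p5) n_TU1_7_p4) n_TU1_7_p3) n_TU1_7_p2) n_TU1_7_p1) n_TU1_7_p0

lemma s_TU1_7x : ∀ r : ℤ, 0 ≤ r → r < 7 → inl [(0, 0), (1, 1), (2, 2), (4, 4)] r = true → Sd Q1 7 (VU 1) r :=
  dead7a (V := V_TU1) (by norm_num) a_TU1_7

lemma s_TU1_7 : ∀ r : ℤ, 0 ≤ r → r < 7 → inl [(0, 0), (1, 1), (2, 2), (4, 4)] r = true → Sd Q1 7 (VU 1) r := s_TU1_7x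

lemma x_TUh_7 : Ctx (Qh 1) 7 [(1, 1), (2, 2)] V_TUh C_TUh F_hT S_TUh R_TUh_7 :=
  ⟨by norm_num, (clsh 1), (regOKh rk_TUh_7 1), cell_TUh (clsh 1), famhT, fdhT,
    (q_symI (Qh 1) V_TUh 7 [(1, 1), (2, 2)])⟩

lemma a_TUh_7 : All7 (Qh 1) 7 (DA 7 [(1, 1), (2, 2)]) R_TUh_7 V_TUh (bxs 7 [(1, 1), (2, 2)]) :=
  stp x_TUh_7 nil7 n_TUh_7_p0

lemma s_TUh_7x : ∀ r : ℤ, 0 ≤ r → r < 7 → inl [(1, 1), (2, 2)] r = true → Sd (Qh 1) 7 (VU 1) r :=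
  dead7a (V := V_TUh) (by norm_num) a_TUh_7

lemma s_TUh_7 : ∀ r : ℤ, 0 ≤ r → r < 7 → inl [(1, 1), (2, 2)] r = true → Sd (Qh 1) 7 (VU 1) r := s_TUh_7x

lemma x_TH1_7 : Ctx Q1 7 [(0, 0), (1, 1), (2, 2), (3, 3), (4, 4)] V_TH1 C_TH1 F_1 S_TH1 R_TH1_7 :=
  ⟨by norm_num, cls1, (regOK1 rk_TH1_7), cell_TH1 cls1, fam1, fd1,
    (q_symI Q1 V_TH1 7 [(0, 0), (1, 1), (2, 2), (3, 3), (4, 4)])⟩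

lemma a_TH1_7 : All7 Q1 7 (DA 7 [(0, 0), (1, 1), (2, 2), (3, 3), (4, 4)]) R_TH1_7 V_TH1 (bxs 7 [(0, 0), (1, 1), (2, 2), (3, 3), (4, 4)]) :=
  stp x_TH1_7 nil7 n_TH1_7_p0

lemma s_TH1_7x : ∀ r : ℤ, 0 ≤ r → r < 7 → inl [(0, 0), (1, 1), (2, 2), (3, 3), (4, 4)] r = true → Sd Q1 7 (VH 1) r :=
  dead7a (V := V_TH1) (by norm_num) a_TH1_7

lemma s_TH1_7 : ∀ r : ℤ, 0 ≤ r → r < 7 → inl [(0, 0), (1, 1), (2, 2), (3, 3), (4, 4)] r = true → Sd Q1 7 (VH 1) r := s_TH1_7x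

lemma x_THh_7 : Ctx (Qh 1) 7 [(0, 0), (1, 1), (2, 2), (4, 4)] V_THh C_THh F_hT S_THh R_THh_7 :=
  ⟨by norm_num, (clsh 1), (regOKh rk_THh_7 1), cell_THh (clsh 1), famhT, fdhT,
    (q_symI (Qh 1) V_THh 7 [(0, 0), (1, 1), (2, 2), (4, 4)])⟩

lemma a_THh_7 : All7 (Qh 1) 7 (DA 7 [(0, 0), (1, 1), (2, 2), (4, 4)]) R_THh_7 V_THh (bxs 7 [(0, 0), (1, 1), (2, 2), (4, 4)]) :=
  stp x_THh_7 nil7 n_THh_7_p0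

lemma s_THh_7x : ∀ r : ℤ, 0 ≤ r → r < 7 → inl [(0, 0), (1, 1), (2, 2), (4, 4)] r = true → Sd (Qh 1) 7 (VH 1) r :=
  dead7a (V := V_THh) (by norm_num) a_THh_7

lemma s_THh_7 : ∀ r : ℤ, 0 ≤ r → r < 7 → inl [(0, 0), (1, 1), (2, 2), (4, 4)] r = true → Sd (Qh 1) 7 (VH 1) r := s_THh_7x

lemma pa_T_7 : PA7 7 1 :=
  ⟨covq 7 (by norm_num) (by norm_num) (by decide +kernel) s_TU1_7 s_TU1_7,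
    covq 7 (by norm_num) (by norm_num) (by decide +kernel) s_TUh_7 s_TH1_7,
    covq 7 (by norm_num) (by norm_num) (by decide +kernel) s_THh_7 s_THh_7⟩

lemma x_DU1_7 : Ctx Q1 7 [(0, 0), (1, 1), (2, 2), (4, 4)] V_DU1 C_DU1 F_1 S_DU1 R_DU1_7 :=
  ⟨by norm_num, cls1, (regOK1 rk_DU1_7), cell_DU1 cls1, fam1, fd1,
    (g_sym1 fri7 V_DU1 S_DU1 7 [(0, 0), (1, 1), (2, 2), (4, 4)] (by norm_num) ck_DU1 blk_DU1)⟩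

lemma a_DU1_7 : All7 Q1 7 (DA 7 [(0, 0), (1, 1), (2, 2), (4, 4)]) R_DU1_7 V_DU1 (bxs 7 [(0, 0), (1, 1), (2, 2), (4, 4)]) :=
  stp x_DU1_7 (stp x_DU1_7 (stp x_DU1_7 nil7 n_DU1_7_p2) n_DU1_7_p1) n_DU1_7_p0

lemma s_DU1_7x : ∀ r : ℤ, 0 ≤ r → r < 7 → inl [(0, 0), (1, 1), (2, 2), (4, 4)] r = true → Sd Q1 7 (VU 2) r :=
  dead7a (V := V_DU1) (by norm_num) a_DU1_7

lemma s_DU1_7 : ∀ r : ℤ, 0 ≤ r → r < 7 → inl [(0, 0), (1, 1), (2, 2), (4, 4)] r = true → Sd Q1 7 (VU 2) r := s_DU1_7x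

lemma x_DUh_7 : Ctx (Qh 2) 7 [(1, 1), (2, 2)] V_DUh C_DUh F_hD S_DUh R_DUh_7 :=
  ⟨by norm_num, (clsh 2), (regOKh rk_DUh_7 2), cell_DUh (clsh 2), famhD, fdhD,
    (q_symI (Qh 2) V_DUh 7 [(1, 1), (2, 2)])⟩

lemma a_DUh_7 : All7 (Qh 2) 7 (DA 7 [(1, 1), (2, 2)]) R_DUh_7 V_DUh (bxs 7 [(1, 1), (2, 2)]) :=
  stp x_DUh_7 nil7 n_DUh_7_p0

lemma s_DUh_7x : ∀ r : ℤ, 0 ≤ r → r < 7 → inl [(1, 1), (2, 2)] r = true → Sd (Qh 2) 7 (VU 2) r :=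
  dead7a (V := V_DUh) (by norm_num) a_DUh_7

lemma s_DUh_7 : ∀ r : ℤ, 0 ≤ r → r < 7 → inl [(1, 1), (2, 2)] r = true → Sd (Qh 2) 7 (VU 2) r := s_DUh_7x

lemma x_DH1_7 : Ctx Q1 7 [(0, 0), (1, 1), (2, 2), (3, 3), (4, 4)] V_DH1 C_DH1 F_1 S_DH1 R_DH1_7 :=
  ⟨by norm_num, cls1, (regOK1 rk_DH1_7), cell_DH1 cls1, fam1, fd1,
    (q_symI Q1 V_DH1 7 [(0, 0), (1, 1), (2, 2), (3, 3), (4, 4)])⟩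

lemma a_DH1_7 : All7 Q1 7 (DA 7 [(0, 0), (1, 1), (2, 2), (3, 3), (4, 4)]) R_DH1_7 V_DH1 (bxs 7 [(0, 0), (1, 1), (2, 2), (3, 3), (4, 4)]) :=
  stp x_DH1_7 nil7 n_DH1_7_p0

lemma s_DH1_7x : ∀ r : ℤ, 0 ≤ r → r < 7 → inl [(0, 0), (1, 1), (2, 2), (3, 3), (4, 4)] r = true → Sd Q1 7 (VH 2) r :=
  dead7a (V := V_DH1) (by norm_num) a_DH1_7

lemma s_DH1_7 : ∀ r : ℤ, 0 ≤ r → r < 7 → inl [(0, 0), (1, 1), (2, 2), (3, 3), (4, 4)] r = true → Sd Q1 7 (VH 2) r := s_DH1_7x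

lemma x_DHh_7 : Ctx (Qh 2) 7 [(0, 0), (1, 1), (2, 2), (3, 3)] V_DHh C_DHh F_hD S_DHh R_DHh_7 :=
  ⟨by norm_num, (clsh 2), (regOKh rk_DHh_7 2), cell_DHh (clsh 2), famhD, fdhD,
    (q_symI (Qh 2) V_DHh 7 [(0, 0), (1, 1), (2, 2), (3, 3)])⟩

lemma a_DHh_7 : All7 (Qh 2) 7 (DA 7 [(0, 0), (1, 1), (2, 2), (3, 3)]) R_DHh_7 V_DHh (bxs 7 [(0, 0), (1, 1), (2, 2), (3, 3)]) :=
  stp x_DHh_7 nil7 n_DHh_7_p0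

lemma s_DHh_7x : ∀ r : ℤ, 0 ≤ r → r < 7 → inl [(0, 0), (1, 1), (2, 2), (3, 3)] r = true → Sd (Qh 2) 7 (VH 2) r :=
  dead7a (V := V_DHh) (by norm_num) a_DHh_7

lemma s_DHh_7 : ∀ r : ℤ, 0 ≤ r → r < 7 → inl [(0, 0), (1, 1), (2, 2), (3, 3)] r = true → Sd (Qh 2) 7 (VH 2) r := s_DHh_7x

lemma pa_D_7 : PA7 7 2 :=
  ⟨covq 7 (by norm_num) (by norm_num) (by decide +kernel) s_DU1_7 s_DU1_7,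
    covq 7 (by norm_num) (by norm_num) (by decide +kernel) s_DUh_7 s_DH1_7,
    covq 7 (by norm_num) (by norm_num) (by decide +kernel) s_DHh_7 s_DHh_7⟩

theorem dead7_7 : DeadG NG7 7 := mkDead7 7 (by norm_num) th_7 be_7 pa_W_7 pa_T_7 pa_D_7

end Pool.Agent.Lib.MP_0bc52e_nt.N7
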