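import Pool.Agent.Lib.MP_0bc52e_nt.N7.D7
import Pool.Agent.Lib.MP_0bc52e_nt.N7.D11

/-!
The certificates for `p = 7` and `p = 11` together (MP_0bc52e_nt).
-/

namespace Pool.Agent.Lib.MP_0bc52e_nt.N7

open Pool.Agent.Lib.MP_0bc52e_nt.G

theorem dead7 : DeadG NG7 7 := dead7_7

theorem dead11 : DeadG NG7 11 := dead7_11

end Pool.Agent.Lib.MP_0bc52e_nt.N7
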