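import Pool.Agent.Lib.MP_0bc52e_nt.K.Defs
import Pool.Agent.Lib.MP_0bc52e_nt.N7.Chk

/-!
The meaning of the goals of the checker `N7/Chk.lean` (MP_0bc52e_nt).
-/

noncomputable section

namespace Pool.Agent.Lib.MP_0bc52e_nt.N7

open Pool.Agent.Lib.MP_0bc52e_nt.LC Pool.Agent.Lib.MP_0bc52e_nt.T Pool.Agent.Lib.MP_0bc52e_nt.R Pool.Agent.Lib.MP_0bc52e_nt.K

/-- The last entry of a family. -/
def fdim (f : Fam) : ℕ := Fam.rec (fun _ _ _ _ _ _ dim => dim) f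

/-- The integer point `x` is in the region of the family `f`: all forms are nonnegative at `x`. -/
def InR (regs : List (List F4)) (f : Fam) (x : P3) : Prop := ∀ g ∈ rgn regs (fdim f), 0 ≤ g.ev x.v 1

/-- The meaning of an `x` goal: for the integer vectors `(m1, m2, m3)` such that `M (1, m1, m2, m3)` is in `κ` times the box, the point of
the family is in the region of the family, or the configuration with this point added is dead at `u`. For `dl = 1` only `κ = M = 1` counts. -/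
def GX7 (PP : Set (ℝ × ℝ × ℝ) → Prop) (p : ℤ) (regs : List (List F4)) (V : List P3) (u : ℤ × ℤ × ℤ) (f : Fam) (dl : ℕ)
    (a0 b0 a1 b1 a2 b2 a3 b3 : ℤ) : Prop :=
  ∀ m1 m2 m3 κ M : ℤ, 0 < κ → 0 < M → (dl = 0 ∨ dl = 1 ∧ κ = 1 ∧ M = 1) →
    Bt κ a0 b0 M → Bt κ a1 b1 (M * m1) → Bt κ a2 b2 (M * m2) → Bt κ a3 b3 (M * m3) →
    InR regs f (f.pt m1 m2 m3) ∨ Dd PP p (f.pt m1 m2 m3 :: V) u

/-- The meaning of a list of goals. -/
def All7 (PP : Set (ℝ × ℝ × ℝ) → Prop) (p : ℤ) (D : ℤ × ℤ × ℤ → Prop) (regs : List (List F4)) (V0 : List P3) (g : G) : Prop :=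
  G.rec True False (fun a1 b1 a2 b2 a3 b3 _ ih => GO PP p 1 1 D V0 a1 b1 a2 b2 a3 b3 ∧ ih)
    (fun V u1 u2 u3 f dl a0 b0 a1 b1 a2 b2 a3 b3 _ ih => GX7 PP p regs V (u1, u2, u3) f dl a0 b0 a1 b1 a2 b2 a3 b3 ∧ ih) g

/-- No polytope of the class has all its integer points in a region of the list. -/
def RegOK (PP : Set (ℝ × ℝ × ℝ) → Prop) (regs : List (List F4)) : Prop :=
  ∀ F ∈ regs, ∀ Q, PP Q → ∃ x : ℤ × ℤ × ℤ, ip x ∈ Q ∧ ¬ ∀ g ∈ F, 0 ≤ g.ev x 1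

end Pool.Agent.Lib.MP_0bc52e_nt.N7

end
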