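import Pool.Agent.Lib.MP_0bc52e_nt.K.Chk

/-!
The goals between the parts of the certificates (MP_0bc52e_nt).
-/

namespace Pool.Agent.Lib.MP_0bc52e_nt.N7

open Pool.Agent.Lib.MP_0bc52e_nt.K

/-- Goals of `n_th4_7` after part 1. -/
noncomputable def g_th4_7_1 : G :=
  (.x [.mk 0 (-1) (-1), .mk (-1) (-2) (-1), .mk (-1) (-1) 0, .mk (-1) (-1) (-1), .mk 1 0 0, .mk 0 1 0, .mk 0 0 1] 1 2 5 (.mk 1 1 1 0 0 0 7) 1 1 1 0 0 0 0 1 3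
    (.x [.mk 0 (-1) (-1), .mk (-1) (-2) (-1), .mk (-1) (-1) 0, .mk (-1) (-1) (-1), .mk 1 0 0, .mk 0 1 0, .mk 0 0 1] 1 2 5 (.mk 1 1 1 0 0 0 7) 1 1 1 (-3) 0 (-3) 0 4 6
    (.x [.mk 0 (-1) (-1), .mk (-1) (-2) (-1), .mk (-1) (-1) 0, .mk (-1) (-1) (-1), .mk 1 0 0, .mk 0 1 0, .mk 0 0 1] 1 2 5 (.mk 1 1 1 0 0 0 7) 1 1 1 (-6) 0 (-6) 0 7 11
    (.x [.mk 0 (-1) (-1), .mk (-1) (-2) (-1), .mk (-1) (-1) 0, .mk (-1) (-1) (-1), .mk 1 0 0, .mk 0 1 0, .mk 0 0 1] 1 2 5 (.mk 1 1 1 0 0 0 7) 1 1 1 (-8) 0 1 11 (-11) 11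
    (.x [.mk 0 (-1) (-1), .mk (-1) (-2) (-1), .mk (-1) (-1) 0, .mk (-1) (-1) (-1), .mk 1 0 0, .mk 0 1 0, .mk 0 0 1] 1 2 5 (.mk 1 1 1 0 0 0 7) 1 1 1 1 11 (-11) 11 (-11) 11
    (.x [.mk 0 (-1) (-1), .mk (-1) (-2) (-1), .mk (-1) (-1) 0, .mk (-1) (-1) (-1), .mk 1 0 0, .mk 0 1 0, .mk 0 0 1] 1 2 5 (.mk 1 1 1 0 0 0 7) 0 0 256 3072 3072 (-3072) 3072 (-3072) 3072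
    (.x [.mk 0 (-1) (-1), .mk (-1) (-2) (-1), .mk (-1) (-1) 0, .mk (-1) (-1) (-1), .mk 1 0 0, .mk 0 1 0, .mk 0 0 1] 1 2 5 (.mk 1 1 1 0 0 0 7) 0 0 256 (-3072) (-3072) (-3072) 3072 (-3072) 3072
    (.x [.mk 0 (-1) (-1), .mk (-1) (-2) (-1), .mk (-1) (-1) 0, .mk (-1) (-1) (-1), .mk 1 0 0, .mk 0 1 0, .mk 0 0 1] 1 2 5 (.mk 1 1 1 0 0 0 7) 0 0 256 (-3072) 3072 3072 3072 (-3072) 3072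
    (.x [.mk 0 (-1) (-1), .mk (-1) (-2) (-1), .mk (-1) (-1) 0, .mk (-1) (-1) (-1), .mk 1 0 0, .mk 0 1 0, .mk 0 0 1] 1 2 5 (.mk 1 1 1 0 0 0 7) 0 0 256 (-3072) 3072 (-3072) (-3072) (-3072) 3072
    (.x [.mk 0 (-1) (-1), .mk (-1) (-2) (-1), .mk (-1) (-1) 0, .mk (-1) (-1) (-1), .mk 1 0 0, .mk 0 1 0, .mk 0 0 1] 1 2 5 (.mk 1 1 1 0 0 0 7) 0 0 256 (-3072) 3072 (-3072) 3072 3072 3072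
    (.x [.mk 0 (-1) (-1), .mk (-1) (-2) (-1), .mk (-1) (-1) 0, .mk (-1) (-1) (-1), .mk 1 0 0, .mk 0 1 0, .mk 0 0 1] 1 2 5 (.mk 1 1 1 0 0 0 7) 0 0 256 (-3072) 3072 (-3072) 3072 (-3072) (-3072)
    (.x [.mk (-1) (-2) (-1), .mk (-1) (-1) 0, .mk (-1) (-1) (-1), .mk 1 0 0, .mk 0 1 0, .mk 0 0 1] 1 2 5 (.mk 2 2 2 0 1 1 1) 1 1 1 0 0 (-1) (-1) 0 0
    (.x [.mk (-1) (-2) (-1), .mk (-1) (-1) 0, .mk (-1) (-1) (-1), .mk 1 0 0, .mk 0 1 0, .mk 0 0 1] 1 2 5 (.mk 2 2 2 0 1 1 1) 1 1 1 0 0 0 0 (-1) 0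
    (.x [.mk (-1) (-2) (-1), .mk (-1) (-1) 0, .mk (-1) (-1) (-1), .mk 1 0 0, .mk 0 1 0, .mk 0 0 1] 1 2 5 (.mk 2 2 2 0 1 1 1) 1 1 1 (-9) 0 (-13) 0 1 13
    (.x [.mk (-1) (-2) (-1), .mk (-1) (-1) 0, .mk (-1) (-1) (-1), .mk 1 0 0, .mk 0 1 0, .mk 0 0 1] 1 2 5 (.mk 2 2 2 0 1 1 1) 1 1 1 (-9) 0 1 13 (-13) 13
    (.x [.mk (-1) (-2) (-1), .mk (-1) (-1) 0, .mk (-1) (-1) (-1), .mk 1 0 0, .mk 0 1 0, .mk 0 0 1] 1 2 5 (.mk 2 2 2 0 1 1 1) 1 1 1 1 13 (-13) 13 (-13) 13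
    (.x [.mk (-1) (-2) (-1), .mk (-1) (-1) 0, .mk (-1) (-1) (-1), .mk 1 0 0, .mk 0 1 0, .mk 0 0 1] 1 2 5 (.mk 2 2 2 0 1 1 1) 0 0 256 3584 3584 (-3584) 3584 (-3584) 3584
    (.x [.mk (-1) (-2) (-1), .mk (-1) (-1) 0, .mk (-1) (-1) (-1), .mk 1 0 0, .mk 0 1 0, .mk 0 0 1] 1 2 5 (.mk 2 2 2 0 1 1 1) 0 0 256 (-3584) (-3584) (-3584) 3584 (-3584) 3584
    (.x [.mk (-1) (-2) (-1), .mk (-1) (-1) 0, .mk (-1) (-1) (-1), .mk 1 0 0, .mk 0 1 0, .mk 0 0 1] 1 2 5 (.mk 2 2 2 0 1 1 1) 0 0 256 (-3584) 3584 3584 3584 (-3584) 3584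
    (.x [.mk (-1) (-2) (-1), .mk (-1) (-1) 0, .mk (-1) (-1) (-1), .mk 1 0 0, .mk 0 1 0, .mk 0 0 1] 1 2 5 (.mk 2 2 2 0 1 1 1) 0 0 256 (-3584) 3584 (-3584) (-3584) (-3584) 3584
    (.x [.mk (-1) (-2) (-1), .mk (-1) (-1) 0, .mk (-1) (-1) (-1), .mk 1 0 0, .mk 0 1 0, .mk 0 0 1] 1 2 5 (.mk 2 2 2 0 1 1 1) 0 0 256 (-3584) 3584 (-3584) 3584 3584 3584
    (.x [.mk (-1) (-2) (-1), .mk (-1) (-1) 0, .mk (-1) (-1) (-1), .mk 1 0 0, .mk 0 1 0, .mk 0 0 1] 1 2 5 (.mk 2 2 2 0 1 1 1) 0 0 256 (-3584) 3584 (-3584) 3584 (-3584) (-3584)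
    (.x [.mk (-1) (-1) 0, .mk (-1) (-1) (-1), .mk 1 0 0, .mk 0 1 0, .mk 0 0 1] 1 2 5 (.mk 2 2 2 1 0 1 1) 1 1 1 (-1) (-1) (-1) (-1) 0 0
    (.x [.mk (-1) (-1) 0, .mk (-1) (-1) (-1), .mk 1 0 0, .mk 0 1 0, .mk 0 0 1] 1 2 5 (.mk 2 2 2 1 0 1 1) 1 1 1 0 0 (-2) (-1) (-1) 0
    (.x [.mk (-1) (-1) 0, .mk (-1) (-1) (-1), .mk 1 0 0, .mk 0 1 0, .mk 0 0 1] 1 2 5 (.mk 2 2 2 1 0 1 1) 1 1 1 (-1) 0 0 0 (-1) 0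
    (.x [.mk (-1) (-1) 0, .mk (-1) (-1) (-1), .mk 1 0 0, .mk 0 1 0, .mk 0 0 1] 1 2 5 (.mk 2 2 2 1 0 1 1) 1 1 1 (-10) 0 (-13) 0 1 13
    (.x [.mk (-1) (-1) 0, .mk (-1) (-1) (-1), .mk 1 0 0, .mk 0 1 0, .mk 0 0 1] 1 2 5 (.mk 2 2 2 1 0 1 1) 1 1 1 (-10) 0 1 13 (-13) 13
    (.x [.mk (-1) (-1) 0, .mk (-1) (-1) (-1), .mk 1 0 0, .mk 0 1 0, .mk 0 0 1] 1 2 5 (.mk 2 2 2 1 0 1 1) 1 1 1 1 13 (-13) 13 (-13) 13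
    (.x [.mk (-1) (-1) 0, .mk (-1) (-1) (-1), .mk 1 0 0, .mk 0 1 0, .mk 0 0 1] 1 2 5 (.mk 2 2 2 1 0 1 1) 0 0 256 3584 3584 (-3584) 3584 (-3584) 3584
    (.x [.mk (-1) (-1) 0, .mk (-1) (-1) (-1), .mk 1 0 0, .mk 0 1 0, .mk 0 0 1] 1 2 5 (.mk 2 2 2 1 0 1 1) 0 0 256 (-3584) (-3584) (-3584) 3584 (-3584) 3584
    (.x [.mk (-1) (-1) 0, .mk (-1) (-1) (-1), .mk 1 0 0, .mk 0 1 0, .mk 0 0 1] 1 2 5 (.mk 2 2 2 1 0 1 1) 0 0 256 (-3584) 3584 3584 3584 (-3584) 3584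
    (.x [.mk (-1) (-1) 0, .mk (-1) (-1) (-1), .mk 1 0 0, .mk 0 1 0, .mk 0 0 1] 1 2 5 (.mk 2 2 2 1 0 1 1) 0 0 256 (-3584) 3584 (-3584) (-3584) (-3584) 3584
    (.x [.mk (-1) (-1) 0, .mk (-1) (-1) (-1), .mk 1 0 0, .mk 0 1 0, .mk 0 0 1] 1 2 5 (.mk 2 2 2 1 0 1 1) 0 0 256 (-3584) 3584 (-3584) 3584 3584 3584
    (.x [.mk (-1) (-1) 0, .mk (-1) (-1) (-1), .mk 1 0 0, .mk 0 1 0, .mk 0 0 1] 1 2 5 (.mk 2 2 2 1 0 1 1) 0 0 256 (-3584) 3584 (-3584) 3584 (-3584) (-3584)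
    (.x [.mk (-1) (-1) (-1), .mk 1 0 0, .mk 0 1 0, .mk 0 0 1] 1 2 5 (.mk 2 2 2 1 1 0 1) 1 1 1 (-1) (-1) 0 0 0 0
    (.x [.mk (-1) (-1) (-1), .mk 1 0 0, .mk 0 1 0, .mk 0 0 1] 1 2 5 (.mk 2 2 2 1 1 0 1) 1 1 1 0 0 (-1) 0 0 0
    (.x [.mk (-1) (-1) (-1), .mk 1 0 0, .mk 0 1 0, .mk 0 0 1] 1 2 5 (.mk 2 2 2 1 1 0 1) 1 1 1 (-15) 0 (-15) 0 1 15
    (.x [.mk (-1) (-1) (-1), .mk 1 0 0, .mk 0 1 0, .mk 0 0 1] 1 2 5 (.mk 2 2 2 1 1 0 1) 1 1 1 (-15) 0 1 15 (-15) 15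
    (.x [.mk (-1) (-1) (-1), .mk 1 0 0, .mk 0 1 0, .mk 0 0 1] 1 2 5 (.mk 2 2 2 1 1 0 1) 1 1 1 1 15 (-15) 15 (-15) 15
    (.x [.mk (-1) (-1) (-1), .mk 1 0 0, .mk 0 1 0, .mk 0 0 1] 1 2 5 (.mk 2 2 2 1 1 0 1) 0 0 256 4096 4096 (-4096) 4096 (-4096) 4096
    (.x [.mk (-1) (-1) (-1), .mk 1 0 0, .mk 0 1 0, .mk 0 0 1] 1 2 5 (.mk 2 2 2 1 1 0 1) 0 0 256 (-4096) (-4096) (-4096) 4096 (-4096) 4096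
    (.x [.mk (-1) (-1) (-1), .mk 1 0 0, .mk 0 1 0, .mk 0 0 1] 1 2 5 (.mk 2 2 2 1 1 0 1) 0 0 256 (-4096) 4096 4096 4096 (-4096) 4096
    (.x [.mk (-1) (-1) (-1), .mk 1 0 0, .mk 0 1 0, .mk 0 0 1] 1 2 5 (.mk 2 2 2 1 1 0 1) 0 0 256 (-4096) 4096 (-4096) (-4096) (-4096) 4096
    (.x [.mk (-1) (-1) (-1), .mk 1 0 0, .mk 0 1 0, .mk 0 0 1] 1 2 5 (.mk 2 2 2 1 1 0 1) 0 0 256 (-4096) 4096 (-4096) 4096 4096 4096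
    (.x [.mk (-1) (-1) (-1), .mk 1 0 0, .mk 0 1 0, .mk 0 0 1] 1 2 5 (.mk 2 2 2 1 1 0 1) 0 0 256 (-4096) 4096 (-4096) 4096 (-4096) (-4096)
    (.o 1 1 3 3 4 5 (.o 0 1 2 3 6 6 (.o 2 3 0 3 4 6 (.o 0 3 4 6 0 6 (.o 4 6 0 6 0 6 .nil))))))))))))))))))))))))))))))))))))))))))))))))))

/-- Goals of `n_th4_7` after part 2. -/
noncomputable def g_th4_7_2 : G :=
  (.x [.mk (-1) (-1) (-1), .mk 1 0 0, .mk 0 1 0, .mk 0 0 1] 1 3 5 (.mk 2 2 2 0 1 1 1) 1 1 1 (-14) (-10) (-17) (-15) (-16) (-15)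
    (.x [.mk (-1) (-1) (-1), .mk 1 0 0, .mk 0 1 0, .mk 0 0 1] 1 3 5 (.mk 2 2 2 0 1 1 1) 1 1 1 (-14) (-10) (-17) (-15) (-14) (-12)
    (.x [.mk (-1) (-1) (-1), .mk 1 0 0, .mk 0 1 0, .mk 0 0 1] 1 3 5 (.mk 2 2 2 0 1 1 1) 1 1 1 (-14) (-10) (-17) (-15) (-11) (-10)
    (.x [.mk (-1) (-1) (-1), .mk 1 0 0, .mk 0 1 0, .mk 0 0 1] 1 3 5 (.mk 2 2 2 0 1 1 1) 1 1 1 (-14) (-10) (-14) (-10) (-20) (-10)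
    (.x [.mk (-1) (-1) (-1), .mk 1 0 0, .mk 0 1 0, .mk 0 0 1] 1 3 5 (.mk 2 2 2 0 1 1 1) 1 1 1 (-20) (-10) (-20) (-10) (-9) 0
    (.x [.mk (-1) (-1) (-1), .mk 1 0 0, .mk 0 1 0, .mk 0 0 1] 1 3 5 (.mk 2 2 2 0 1 1 1) 1 1 1 (-20) (-10) (-9) 0 (-20) 0
    (.x [.mk (-1) (-1) (-1), .mk 1 0 0, .mk 0 1 0, .mk 0 0 1] 1 3 5 (.mk 2 2 2 0 1 1 1) 1 1 1 (-9) 0 (-20) 0 (-20) 0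
    (.x [.mk (-1) (-1) (-1), .mk 1 0 0, .mk 0 1 0, .mk 0 0 1] 1 3 5 (.mk 2 2 2 0 1 1 1) 1 1 1 (-20) 0 (-20) 0 1 20
    (.x [.mk (-1) (-1) (-1), .mk 1 0 0, .mk 0 1 0, .mk 0 0 1] 1 3 5 (.mk 2 2 2 0 1 1 1) 1 1 1 (-20) 0 1 20 (-20) 20
    (.x [.mk (-1) (-1) (-1), .mk 1 0 0, .mk 0 1 0, .mk 0 0 1] 1 3 5 (.mk 2 2 2 0 1 1 1) 1 1 1 1 20 (-20) 20 (-20) 20
    (.x [.mk (-1) (-1) (-1), .mk 1 0 0, .mk 0 1 0, .mk 0 0 1] 1 3 5 (.mk 2 2 2 0 1 1 1) 0 0 256 5376 5376 (-5376) 5376 (-5376) 5376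
    (.x [.mk (-1) (-1) (-1), .mk 1 0 0, .mk 0 1 0, .mk 0 0 1] 1 3 5 (.mk 2 2 2 0 1 1 1) 0 0 256 (-5376) (-5376) (-5376) 5376 (-5376) 5376
    (.x [.mk (-1) (-1) (-1), .mk 1 0 0, .mk 0 1 0, .mk 0 0 1] 1 3 5 (.mk 2 2 2 0 1 1 1) 0 0 256 (-5376) 5376 5376 5376 (-5376) 5376
    (.x [.mk (-1) (-1) (-1), .mk 1 0 0, .mk 0 1 0, .mk 0 0 1] 1 3 5 (.mk 2 2 2 0 1 1 1) 0 0 256 (-5376) 5376 (-5376) (-5376) (-5376) 5376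
    (.x [.mk (-1) (-1) (-1), .mk 1 0 0, .mk 0 1 0, .mk 0 0 1] 1 3 5 (.mk 2 2 2 0 1 1 1) 0 0 256 (-5376) 5376 (-5376) 5376 5376 5376
    (.x [.mk (-1) (-1) (-1), .mk 1 0 0, .mk 0 1 0, .mk 0 0 1] 1 3 5 (.mk 2 2 2 0 1 1 1) 0 0 256 (-5376) 5376 (-5376) 5376 (-5376) (-5376)
    (.o 0 1 2 3 6 6 (.o 2 3 0 3 4 6 (.o 0 3 4 6 0 6 (.o 4 6 0 6 0 6 .nil))))))))))))))))))))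

/-- Goals of `n_th4_7` after part 3. -/
noncomputable def g_th4_7_3 : G :=
  (.x [.mk (-2) (-1) (-1), .mk (-1) (-1) (-1), .mk 1 0 0, .mk 0 1 0, .mk 0 0 1] 0 4 6 (.mk 2 2 2 1 1 0 1) 0 0 256 2369 3328 3328 3328 2848 3328
    (.x [.mk (-2) (-1) (-1), .mk (-1) (-1) (-1), .mk 1 0 0, .mk 0 1 0, .mk 0 0 1] 0 4 6 (.mk 2 2 2 1 1 0 1) 0 0 256 (-3328) 3328 (-3328) (-3328) (-3328) 3328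
    (.x [.mk (-2) (-1) (-1), .mk (-1) (-1) (-1), .mk 1 0 0, .mk 0 1 0, .mk 0 0 1] 0 4 6 (.mk 2 2 2 1 1 0 1) 0 0 256 (-3328) 3328 (-3328) 3328 3328 3328
    (.x [.mk (-2) (-1) (-1), .mk (-1) (-1) (-1), .mk 1 0 0, .mk 0 1 0, .mk 0 0 1] 0 4 6 (.mk 2 2 2 1 1 0 1) 0 0 256 (-3328) 3328 (-3328) 3328 (-3328) (-3328)
    (.x [.mk (-1) (-1) (-1), .mk 1 0 0, .mk 0 1 0, .mk 0 0 1] 0 4 6 (.mk 2 2 2 0 1 1 1) 1 1 1 (-1) (-1) (-1) (-1) 0 0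
    (.x [.mk (-1) (-1) (-1), .mk 1 0 0, .mk 0 1 0, .mk 0 0 1] 0 4 6 (.mk 2 2 2 0 1 1 1) 1 1 1 (-1) (-1) 0 0 (-1) 0
    (.x [.mk (-1) (-1) (-1), .mk 1 0 0, .mk 0 1 0, .mk 0 0 1] 0 4 6 (.mk 2 2 2 0 1 1 1) 1 1 1 0 0 (-1) 0 (-1) 0
    (.x [.mk (-1) (-1) (-1), .mk 1 0 0, .mk 0 1 0, .mk 0 0 1] 0 4 6 (.mk 2 2 2 0 1 1 1) 1 1 1 (-15) 0 (-15) 0 1 15
    (.x [.mk (-1) (-1) (-1), .mk 1 0 0, .mk 0 1 0, .mk 0 0 1] 0 4 6 (.mk 2 2 2 0 1 1 1) 1 1 1 (-15) 0 1 15 (-15) 15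
    (.x [.mk (-1) (-1) (-1), .mk 1 0 0, .mk 0 1 0, .mk 0 0 1] 0 4 6 (.mk 2 2 2 0 1 1 1) 1 1 1 1 15 (-15) 15 (-15) 15
    (.x [.mk (-1) (-1) (-1), .mk 1 0 0, .mk 0 1 0, .mk 0 0 1] 0 4 6 (.mk 2 2 2 0 1 1 1) 0 0 256 4096 4096 (-4096) 4096 (-4096) 4096
    (.x [.mk (-1) (-1) (-1), .mk 1 0 0, .mk 0 1 0, .mk 0 0 1] 0 4 6 (.mk 2 2 2 0 1 1 1) 0 0 256 (-4096) (-4096) (-4096) 4096 (-4096) 4096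
    (.x [.mk (-1) (-1) (-1), .mk 1 0 0, .mk 0 1 0, .mk 0 0 1] 0 4 6 (.mk 2 2 2 0 1 1 1) 0 0 256 (-4096) 4096 4096 4096 (-4096) 4096
    (.x [.mk (-1) (-1) (-1), .mk 1 0 0, .mk 0 1 0, .mk 0 0 1] 0 4 6 (.mk 2 2 2 0 1 1 1) 0 0 256 (-4096) 4096 (-4096) (-4096) (-4096) 4096
    (.x [.mk (-1) (-1) (-1), .mk 1 0 0, .mk 0 1 0, .mk 0 0 1] 0 4 6 (.mk 2 2 2 0 1 1 1) 0 0 256 (-4096) 4096 (-4096) 4096 4096 4096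
    (.x [.mk (-1) (-1) (-1), .mk 1 0 0, .mk 0 1 0, .mk 0 0 1] 0 4 6 (.mk 2 2 2 0 1 1 1) 0 0 256 (-4096) 4096 (-4096) 4096 (-4096) (-4096)
    (.o 1 1 4 4 6 6 (.o 0 1 5 5 6 6 (.o 0 1 6 6 4 6 (.o 2 3 4 6 4 6 (.o 4 6 0 6 0 6 .nil)))))))))))))))))))))

/-- Goals of `n_th5_7` after part 1. -/
noncomputable def g_th5_7_1 : G :=
  (.x [.mk 0 (-1) (-1), .mk (-1) 1 (-1), .mk (-1) (-1) (-2), .mk 1 0 0, .mk 0 1 0, .mk 0 0 1] 1 2 4 (.mk 2 2 2 1 0 1 1) 1 1 1 (-7) (-3) 6 13 1 3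
    (.x [.mk 0 (-1) (-1), .mk (-1) 1 (-1), .mk (-1) (-1) (-2), .mk 1 0 0, .mk 0 1 0, .mk 0 0 1] 1 2 4 (.mk 2 2 2 1 0 1 1) 1 1 1 (-7) (-3) 6 13 4 7
    (.x [.mk 0 (-1) (-1), .mk (-1) 1 (-1), .mk (-1) (-1) (-2), .mk 1 0 0, .mk 0 1 0, .mk 0 0 1] 1 2 4 (.mk 2 2 2 1 0 1 1) 1 1 1 (-2) 0 1 13 1 7
    (.x [.mk 0 (-1) (-1), .mk (-1) 1 (-1), .mk (-1) (-1) (-2), .mk 1 0 0, .mk 0 1 0, .mk 0 0 1] 1 2 4 (.mk 2 2 2 1 0 1 1) 1 1 1 (-7) 0 1 13 8 13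
    (.x [.mk 0 (-1) (-1), .mk (-1) 1 (-1), .mk (-1) (-1) (-2), .mk 1 0 0, .mk 0 1 0, .mk 0 0 1] 1 2 4 (.mk 2 2 2 1 0 1 1) 1 1 1 1 13 (-13) 13 (-13) 13
    (.x [.mk 0 (-1) (-1), .mk (-1) 1 (-1), .mk (-1) (-1) (-2), .mk 1 0 0, .mk 0 1 0, .mk 0 0 1] 1 2 4 (.mk 2 2 2 1 0 1 1) 0 0 256 3584 3584 (-3584) 3584 (-3584) 3584
    (.x [.mk 0 (-1) (-1), .mk (-1) 1 (-1), .mk (-1) (-1) (-2), .mk 1 0 0, .mk 0 1 0, .mk 0 0 1] 1 2 4 (.mk 2 2 2 1 0 1 1) 0 0 256 (-3584) (-3584) (-3584) 3584 (-3584) 3584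
    (.x [.mk 0 (-1) (-1), .mk (-1) 1 (-1), .mk (-1) (-1) (-2), .mk 1 0 0, .mk 0 1 0, .mk 0 0 1] 1 2 4 (.mk 2 2 2 1 0 1 1) 0 0 256 (-3584) 3584 3584 3584 (-3584) 3584
    (.x [.mk 0 (-1) (-1), .mk (-1) 1 (-1), .mk (-1) (-1) (-2), .mk 1 0 0, .mk 0 1 0, .mk 0 0 1] 1 2 4 (.mk 2 2 2 1 0 1 1) 0 0 256 (-3584) 3584 (-3584) (-3584) (-3584) 3584
    (.x [.mk 0 (-1) (-1), .mk (-1) 1 (-1), .mk (-1) (-1) (-2), .mk 1 0 0, .mk 0 1 0, .mk 0 0 1] 1 2 4 (.mk 2 2 2 1 0 1 1) 0 0 256 (-3584) 3584 (-3584) 3584 3584 3584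
    (.x [.mk 0 (-1) (-1), .mk (-1) 1 (-1), .mk (-1) (-1) (-2), .mk 1 0 0, .mk 0 1 0, .mk 0 0 1] 1 2 4 (.mk 2 2 2 1 0 1 1) 0 0 256 (-3584) 3584 (-3584) 3584 (-3584) (-3584)
    (.x [.mk (-1) 1 (-1), .mk (-1) (-1) (-2), .mk 1 0 0, .mk 0 1 0, .mk 0 0 1] 1 2 4 (.mk 2 2 2 0 1 1 1) 1 1 1 0 0 (-1) (-1) 0 0
    (.x [.mk (-1) 1 (-1), .mk (-1) (-1) (-2), .mk 1 0 0, .mk 0 1 0, .mk 0 0 1] 1 2 4 (.mk 2 2 2 0 1 1 1) 1 1 1 (-1) 0 0 0 (-1) 0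
    (.x [.mk (-1) 1 (-1), .mk (-1) (-1) (-2), .mk 1 0 0, .mk 0 1 0, .mk 0 0 1] 1 2 4 (.mk 2 2 2 0 1 1 1) 1 1 1 (-13) 0 (-13) 0 1 13
    (.x [.mk (-1) 1 (-1), .mk (-1) (-1) (-2), .mk 1 0 0, .mk 0 1 0, .mk 0 0 1] 1 2 4 (.mk 2 2 2 0 1 1 1) 1 1 1 (-13) 0 1 13 (-13) 13
    (.x [.mk (-1) 1 (-1), .mk (-1) (-1) (-2), .mk 1 0 0, .mk 0 1 0, .mk 0 0 1] 1 2 4 (.mk 2 2 2 0 1 1 1) 1 1 1 1 13 (-13) 13 (-13) 13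
    (.x [.mk (-1) 1 (-1), .mk (-1) (-1) (-2), .mk 1 0 0, .mk 0 1 0, .mk 0 0 1] 1 2 4 (.mk 2 2 2 0 1 1 1) 0 0 256 3584 3584 (-3584) 3584 (-3584) 3584
    (.x [.mk (-1) 1 (-1), .mk (-1) (-1) (-2), .mk 1 0 0, .mk 0 1 0, .mk 0 0 1] 1 2 4 (.mk 2 2 2 0 1 1 1) 0 0 256 (-3584) (-3584) (-3584) 3584 (-3584) 3584
    (.x [.mk (-1) 1 (-1), .mk (-1) (-1) (-2), .mk 1 0 0, .mk 0 1 0, .mk 0 0 1] 1 2 4 (.mk 2 2 2 0 1 1 1) 0 0 256 (-3584) 3584 3584 3584 (-3584) 3584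
    (.x [.mk (-1) 1 (-1), .mk (-1) (-1) (-2), .mk 1 0 0, .mk 0 1 0, .mk 0 0 1] 1 2 4 (.mk 2 2 2 0 1 1 1) 0 0 256 (-3584) 3584 (-3584) (-3584) (-3584) 3584
    (.x [.mk (-1) 1 (-1), .mk (-1) (-1) (-2), .mk 1 0 0, .mk 0 1 0, .mk 0 0 1] 1 2 4 (.mk 2 2 2 0 1 1 1) 0 0 256 (-3584) 3584 (-3584) 3584 3584 3584
    (.x [.mk (-1) 1 (-1), .mk (-1) (-1) (-2), .mk 1 0 0, .mk 0 1 0, .mk 0 0 1] 1 2 4 (.mk 2 2 2 0 1 1 1) 0 0 256 (-3584) 3584 (-3584) 3584 (-3584) (-3584)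
    (.x [.mk (-1) (-1) (-2), .mk 1 0 0, .mk 0 1 0, .mk 0 0 1] 1 2 4 (.mk 2 2 2 1 1 1 1) 1 1 1 (-1) (-1) 0 0 0 0
    (.x [.mk (-1) (-1) (-2), .mk 1 0 0, .mk 0 1 0, .mk 0 0 1] 1 2 4 (.mk 2 2 2 1 1 1 1) 1 1 1 0 0 0 0 (-1) 0
    (.x [.mk (-1) (-1) (-2), .mk 1 0 0, .mk 0 1 0, .mk 0 0 1] 1 2 4 (.mk 2 2 2 1 1 1 1) 1 1 1 (-21) 0 (-21) 0 1 21
    (.x [.mk (-1) (-1) (-2), .mk 1 0 0, .mk 0 1 0, .mk 0 0 1] 1 2 4 (.mk 2 2 2 1 1 1 1) 1 1 1 (-21) 0 1 21 (-21) 21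
    (.x [.mk (-1) (-1) (-2), .mk 1 0 0, .mk 0 1 0, .mk 0 0 1] 1 2 4 (.mk 2 2 2 1 1 1 1) 1 1 1 1 21 (-21) 21 (-21) 21
    (.x [.mk (-1) (-1) (-2), .mk 1 0 0, .mk 0 1 0, .mk 0 0 1] 1 2 4 (.mk 2 2 2 1 1 1 1) 0 0 256 5632 5632 (-5632) 5632 (-5632) 5632
    (.x [.mk (-1) (-1) (-2), .mk 1 0 0, .mk 0 1 0, .mk 0 0 1] 1 2 4 (.mk 2 2 2 1 1 1 1) 0 0 256 (-5632) (-5632) (-5632) 5632 (-5632) 5632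
    (.x [.mk (-1) (-1) (-2), .mk 1 0 0, .mk 0 1 0, .mk 0 0 1] 1 2 4 (.mk 2 2 2 1 1 1 1) 0 0 256 (-5632) 5632 5632 5632 (-5632) 5632
    (.x [.mk (-1) (-1) (-2), .mk 1 0 0, .mk 0 1 0, .mk 0 0 1] 1 2 4 (.mk 2 2 2 1 1 1 1) 0 0 256 (-5632) 5632 (-5632) (-5632) (-5632) 5632
    (.x [.mk (-1) (-1) (-2), .mk 1 0 0, .mk 0 1 0, .mk 0 0 1] 1 2 4 (.mk 2 2 2 1 1 1 1) 0 0 256 (-5632) 5632 (-5632) 5632 5632 5632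
    (.x [.mk (-1) (-1) (-2), .mk 1 0 0, .mk 0 1 0, .mk 0 0 1] 1 2 4 (.mk 2 2 2 1 1 1 1) 0 0 256 (-5632) 5632 (-5632) 5632 (-5632) (-5632)
    (.o 0 1 1 2 5 5 (.o 0 1 3 3 4 5 (.o 0 1 0 3 6 6 (.o 2 3 0 3 4 6 (.o 0 3 4 6 0 6 (.o 4 6 0 6 0 6 .nil)))))))))))))))))))))))))))))))))))))))

/-- Goals of `n_th5_7` after part 2. -/
noncomputable def g_th5_7_2 : G :=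
  (.x [.mk (-1) (-1) (-2), .mk 1 0 0, .mk 0 1 0, .mk 0 0 1] 1 3 5 (.mk 2 2 2 1 1 1 1) 1 1 1 (-5) (-4) (-17) (-14) (-22) (-20)
    (.x [.mk (-1) (-1) (-2), .mk 1 0 0, .mk 0 1 0, .mk 0 0 1] 1 3 5 (.mk 2 2 2 1 1 1 1) 1 1 1 (-3) 0 (-17) (-14) (-24) (-20)
    (.x [.mk (-1) (-1) (-2), .mk 1 0 0, .mk 0 1 0, .mk 0 0 1] 1 3 5 (.mk 2 2 2 1 1 1 1) 1 1 1 (-13) 0 (-23) (-14) (-19) (-12)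
    (.x [.mk (-1) (-1) (-2), .mk 1 0 0, .mk 0 1 0, .mk 0 0 1] 1 3 5 (.mk 2 2 2 1 1 1 1) 1 1 1 (-13) 0 (-27) (-14) (-11) 0
    (.x [.mk (-1) (-1) (-2), .mk 1 0 0, .mk 0 1 0, .mk 0 0 1] 1 3 5 (.mk 2 2 2 1 1 1 1) 1 1 1 (-13) 0 (-13) 0 (-27) 0
    (.x [.mk (-1) (-1) (-2), .mk 1 0 0, .mk 0 1 0, .mk 0 0 1] 1 3 5 (.mk 2 2 2 1 1 1 1) 1 1 1 (-56) 0 (-56) 0 1 56
    (.x [.mk (-1) (-1) (-2), .mk 1 0 0, .mk 0 1 0, .mk 0 0 1] 1 3 5 (.mk 2 2 2 1 1 1 1) 1 1 1 (-56) 0 1 56 (-56) 56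
    (.x [.mk (-1) (-1) (-2), .mk 1 0 0, .mk 0 1 0, .mk 0 0 1] 1 3 5 (.mk 2 2 2 1 1 1 1) 1 1 1 1 56 (-56) 56 (-56) 56
    (.x [.mk (-1) (-1) (-2), .mk 1 0 0, .mk 0 1 0, .mk 0 0 1] 1 3 5 (.mk 2 2 2 1 1 1 1) 0 0 256 14592 14592 (-14592) 14592 (-14592) 14592
    (.x [.mk (-1) (-1) (-2), .mk 1 0 0, .mk 0 1 0, .mk 0 0 1] 1 3 5 (.mk 2 2 2 1 1 1 1) 0 0 256 (-14592) (-14592) (-14592) 14592 (-14592) 14592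
    (.x [.mk (-1) (-1) (-2), .mk 1 0 0, .mk 0 1 0, .mk 0 0 1] 1 3 5 (.mk 2 2 2 1 1 1 1) 0 0 256 (-14592) 14592 14592 14592 (-14592) 14592
    (.x [.mk (-1) (-1) (-2), .mk 1 0 0, .mk 0 1 0, .mk 0 0 1] 1 3 5 (.mk 2 2 2 1 1 1 1) 0 0 256 (-14592) 14592 (-14592) (-14592) (-14592) 14592
    (.x [.mk (-1) (-1) (-2), .mk 1 0 0, .mk 0 1 0, .mk 0 0 1] 1 3 5 (.mk 2 2 2 1 1 1 1) 0 0 256 (-14592) 14592 (-14592) 14592 14592 14592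
    (.x [.mk (-1) (-1) (-2), .mk 1 0 0, .mk 0 1 0, .mk 0 0 1] 1 3 5 (.mk 2 2 2 1 1 1 1) 0 0 256 (-14592) 14592 (-14592) 14592 (-14592) (-14592)
    (.o 0 1 0 3 6 6 (.o 2 3 0 3 4 6 (.o 0 3 4 6 0 6 (.o 4 6 0 6 0 6 .nil))))))))))))))))))

/-- Goals of `n_th5_7` after part 3. -/
noncomputable def g_th5_7_3 : G :=
  (.x [.mk (-1) (-1) (-2), .mk 1 0 0, .mk 0 1 0, .mk 0 0 1] 1 5 1 (.mk 2 2 2 0 1 1 1) 0 0 256 (-1549) (-521) 521 1075 (-5888) (-5888)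
    (.x [.mk (-1) (-1) (-2), .mk 1 0 0, .mk 0 1 0, .mk 0 0 1] 1 5 1 (.mk 2 2 2 0 1 1 1) 0 0 256 (-1549) (-521) 1075 2103 (-5888) (-5888)
    (.x [.mk (-1) (-1) (-2), .mk 1 0 0, .mk 0 1 0, .mk 0 0 1] 1 5 1 (.mk 2 2 2 0 1 1 1) 0 0 256 (-521) 0 0 2103 (-5888) (-5888)
    (.x [.mk (-1) (-1) (-2), .mk 1 0 0, .mk 0 1 0, .mk 0 0 1] 1 5 1 (.mk 2 2 2 0 1 1 1) 0 0 256 (-2103) 0 2103 4206 (-5888) (-5888)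
    (.x [.mk (-1) (-1) (-2), .mk 1 0 0, .mk 0 1 0, .mk 0 0 1] 1 5 1 (.mk 2 2 2 0 1 1 1) 0 0 256 (-4206) 0 4206 5888 (-5888) (-5888)
    (.x [.mk (-1) (-1) (-2), .mk 1 0 0, .mk 0 1 0, .mk 0 0 1] 1 5 1 (.mk 2 2 2 0 1 1 1) 0 0 256 0 3264 0 5888 (-5888) (-5888)
    (.x [.mk (-1) (-1) (-2), .mk 1 0 0, .mk 0 1 0, .mk 0 0 1] 1 5 1 (.mk 2 2 2 0 1 1 1) 0 0 256 3264 5888 (-5888) 5888 (-5888) (-5888)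
    (.o 0 1 6 6 0 1 (.o 0 1 4 6 2 3 (.o 2 3 4 6 0 3 (.o 0 3 4 6 4 6 (.o 4 6 0 6 0 6 .nil))))))))))))

/-- Goals of `n_th5_7` after part 4. -/
noncomputable def g_th5_7_4 : G :=
  (.x [.mk (-1) (-1) (-2), .mk 1 0 0, .mk 0 1 0, .mk 0 0 1] 2 4 2 (.mk 2 2 2 1 0 1 1) 1 1 1 (-7) 0 (-4) 7 (-7) 0
    (.x [.mk (-1) (-1) (-2), .mk 1 0 0, .mk 0 1 0, .mk 0 0 1] 2 4 2 (.mk 2 2 2 1 0 1 1) 1 1 1 (-7) 0 (-4) 7 1 7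
    (.x [.mk (-1) (-1) (-2), .mk 1 0 0, .mk 0 1 0, .mk 0 0 1] 2 4 2 (.mk 2 2 2 1 0 1 1) 1 1 1 1 7 (-7) 7 (-7) 7
    (.x [.mk (-1) (-1) (-2), .mk 1 0 0, .mk 0 1 0, .mk 0 0 1] 2 4 2 (.mk 2 2 2 1 0 1 1) 0 0 256 2048 2048 (-2048) 2048 (-2048) 2048
    (.x [.mk (-1) (-1) (-2), .mk 1 0 0, .mk 0 1 0, .mk 0 0 1] 2 4 2 (.mk 2 2 2 1 0 1 1) 0 0 256 (-2048) (-2048) (-2048) 2048 (-2048) 2048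
    (.x [.mk (-1) (-1) (-2), .mk 1 0 0, .mk 0 1 0, .mk 0 0 1] 2 4 2 (.mk 2 2 2 1 0 1 1) 0 0 256 (-2048) 2048 2048 2048 (-2048) 2048
    (.x [.mk (-1) (-1) (-2), .mk 1 0 0, .mk 0 1 0, .mk 0 0 1] 2 4 2 (.mk 2 2 2 1 0 1 1) 0 0 256 (-2048) 2048 (-2048) (-2048) (-2048) 2048
    (.x [.mk (-1) (-1) (-2), .mk 1 0 0, .mk 0 1 0, .mk 0 0 1] 2 4 2 (.mk 2 2 2 1 0 1 1) 0 0 256 (-2048) 2048 (-2048) 2048 2048 2048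
    (.x [.mk (-1) (-1) (-2), .mk 1 0 0, .mk 0 1 0, .mk 0 0 1] 2 4 2 (.mk 2 2 2 1 0 1 1) 0 0 256 (-2048) 2048 (-2048) 2048 (-2048) (-2048)
    (.o 2 2 4 4 3 3 (.o 2 2 5 5 2 3 (.o 3 3 4 5 2 3 (.o 2 3 6 6 2 3 (.o 0 3 4 6 4 6 (.o 4 6 0 6 0 6 .nil)))))))))))))))

/-- Goals of `n_th5_7` after part 5. -/
noncomputable def g_th5_7_5 : G :=
  (.x [.mk (-2) 1 1, .mk (-1) (-1) (-2), .mk 1 0 0, .mk 0 1 0, .mk 0 0 1] 0 5 6 (.mk 2 2 2 1 1 1 1) 1 1 1 (-3) 0 (-4) 3 (-6) 1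
    (.x [.mk (-2) 1 1, .mk (-1) (-1) (-2), .mk 1 0 0, .mk 0 1 0, .mk 0 0 1] 0 5 6 (.mk 2 2 2 1 1 1 1) 1 1 1 (-15) 0 4 15 (-12) 1
    (.x [.mk (-2) 1 1, .mk (-1) (-1) (-2), .mk 1 0 0, .mk 0 1 0, .mk 0 0 1] 0 5 6 (.mk 2 2 2 1 1 1 1) 1 1 1 (-15) 0 (-8) 15 2 15
    (.x [.mk (-2) 1 1, .mk (-1) (-1) (-2), .mk 1 0 0, .mk 0 1 0, .mk 0 0 1] 0 5 6 (.mk 2 2 2 1 1 1 1) 1 1 1 1 15 (-8) 15 (-15) 15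
    (.x [.mk (-2) 1 1, .mk (-1) (-1) (-2), .mk 1 0 0, .mk 0 1 0, .mk 0 0 1] 0 5 6 (.mk 2 2 2 1 1 1 1) 0 0 256 4096 4096 (-4096) 4096 (-4096) 4096
    (.x [.mk (-2) 1 1, .mk (-1) (-1) (-2), .mk 1 0 0, .mk 0 1 0, .mk 0 0 1] 0 5 6 (.mk 2 2 2 1 1 1 1) 0 0 256 (-4096) (-4096) (-4096) 4096 (-4096) 4096
    (.x [.mk (-2) 1 1, .mk (-1) (-1) (-2), .mk 1 0 0, .mk 0 1 0, .mk 0 0 1] 0 5 6 (.mk 2 2 2 1 1 1 1) 0 0 256 (-4096) 4096 4096 4096 (-4096) 4096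
    (.x [.mk (-2) 1 1, .mk (-1) (-1) (-2), .mk 1 0 0, .mk 0 1 0, .mk 0 0 1] 0 5 6 (.mk 2 2 2 1 1 1 1) 0 0 256 (-4096) 4096 (-4096) (-4096) (-4096) 4096
    (.x [.mk (-2) 1 1, .mk (-1) (-1) (-2), .mk 1 0 0, .mk 0 1 0, .mk 0 0 1] 0 5 6 (.mk 2 2 2 1 1 1 1) 0 0 256 (-4096) 4096 (-4096) 4096 4096 4096
    (.x [.mk (-2) 1 1, .mk (-1) (-1) (-2), .mk 1 0 0, .mk 0 1 0, .mk 0 0 1] 0 5 6 (.mk 2 2 2 1 1 1 1) 0 0 256 (-4096) 4096 (-4096) 4096 (-4096) (-4096)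
    (.x [.mk (-1) (-1) (-2), .mk 1 0 0, .mk 0 1 0, .mk 0 0 1] 0 5 6 (.mk 2 2 2 0 1 1 1) 1 1 1 (-2) (-1) 1 1 (-1) 0
    (.x [.mk (-1) (-1) (-2), .mk 1 0 0, .mk 0 1 0, .mk 0 0 1] 0 5 6 (.mk 2 2 2 0 1 1 1) 1 1 1 0 0 (-1) 1 (-1) 0
    (.x [.mk (-1) (-1) (-2), .mk 1 0 0, .mk 0 1 0, .mk 0 0 1] 0 5 6 (.mk 2 2 2 0 1 1 1) 1 1 1 (-2) 0 2 3 (-3) 0
    (.x [.mk (-1) (-1) (-2), .mk 1 0 0, .mk 0 1 0, .mk 0 0 1] 0 5 6 (.mk 2 2 2 0 1 1 1) 1 1 1 (-6) 0 4 7 (-6) 0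
    (.x [.mk (-1) (-1) (-2), .mk 1 0 0, .mk 0 1 0, .mk 0 0 1] 0 5 6 (.mk 2 2 2 0 1 1 1) 1 1 1 (-6) 0 8 12 (-6) 0
    (.x [.mk (-1) (-1) (-2), .mk 1 0 0, .mk 0 1 0, .mk 0 0 1] 0 5 6 (.mk 2 2 2 0 1 1 1) 1 1 1 (-56) 0 13 56 (-56) 0
    (.x [.mk (-1) (-1) (-2), .mk 1 0 0, .mk 0 1 0, .mk 0 0 1] 0 5 6 (.mk 2 2 2 0 1 1 1) 1 1 1 (-56) 0 (-32) 56 1 56
    (.x [.mk (-1) (-1) (-2), .mk 1 0 0, .mk 0 1 0, .mk 0 0 1] 0 5 6 (.mk 2 2 2 0 1 1 1) 1 1 1 1 56 (-32) 56 (-56) 56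
    (.x [.mk (-1) (-1) (-2), .mk 1 0 0, .mk 0 1 0, .mk 0 0 1] 0 5 6 (.mk 2 2 2 0 1 1 1) 0 0 256 14592 14592 (-14592) 14592 (-14592) 14592
    (.x [.mk (-1) (-1) (-2), .mk 1 0 0, .mk 0 1 0, .mk 0 0 1] 0 5 6 (.mk 2 2 2 0 1 1 1) 0 0 256 (-14592) (-14592) (-14592) 14592 (-14592) 14592
    (.x [.mk (-1) (-1) (-2), .mk 1 0 0, .mk 0 1 0, .mk 0 0 1] 0 5 6 (.mk 2 2 2 0 1 1 1) 0 0 256 (-14592) 14592 14592 14592 (-14592) 14592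
    (.x [.mk (-1) (-1) (-2), .mk 1 0 0, .mk 0 1 0, .mk 0 0 1] 0 5 6 (.mk 2 2 2 0 1 1 1) 0 0 256 (-14592) 14592 (-14592) (-14592) (-14592) 14592
    (.x [.mk (-1) (-1) (-2), .mk 1 0 0, .mk 0 1 0, .mk 0 0 1] 0 5 6 (.mk 2 2 2 0 1 1 1) 0 0 256 (-14592) 14592 (-14592) 14592 14592 14592
    (.x [.mk (-1) (-1) (-2), .mk 1 0 0, .mk 0 1 0, .mk 0 0 1] 0 5 6 (.mk 2 2 2 0 1 1 1) 0 0 256 (-14592) 14592 (-14592) 14592 (-14592) (-14592)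
    (.o 1 1 4 5 6 6 (.o 0 1 6 6 4 6 (.o 2 3 4 6 4 6 (.o 4 6 0 6 0 6 .nil))))))))))))))))))))))))))))

/-- Goals of `n_th5_7` after part 6. -/
noncomputable def g_th5_7_6 : G :=
  (.x [.mk (-1) (-2) (-3), .mk (-1) 1 1, .mk 0 1 1, .mk (-1) (-1) (-2), .mk 1 0 0, .mk 0 1 0, .mk 0 0 1] 1 4 6 (.mk 1 1 1 0 0 0 43) 1 1 1 (-1) 0 1 4 1 3
    (.x [.mk (-1) (-2) (-3), .mk (-1) 1 1, .mk 0 1 1, .mk (-1) (-1) (-2), .mk 1 0 0, .mk 0 1 0, .mk 0 0 1] 1 4 6 (.mk 1 1 1 0 0 0 43) 1 1 1 (-3) 0 1 4 4 6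
    (.x [.mk (-1) (-2) (-3), .mk (-1) 1 1, .mk 0 1 1, .mk (-1) (-1) (-2), .mk 1 0 0, .mk 0 1 0, .mk 0 0 1] 1 4 6 (.mk 1 1 1 0 0 0 43) 1 1 1 (-3) 0 5 8 1 6
    (.x [.mk (-1) (-2) (-3), .mk (-1) 1 1, .mk 0 1 1, .mk (-1) (-1) (-2), .mk 1 0 0, .mk 0 1 0, .mk 0 0 1] 1 4 6 (.mk 1 1 1 0 0 0 43) 1 1 1 (-3) 0 1 8 7 8
    (.x [.mk (-1) (-2) (-3), .mk (-1) 1 1, .mk 0 1 1, .mk (-1) (-1) (-2), .mk 1 0 0, .mk 0 1 0, .mk 0 0 1] 1 4 6 (.mk 1 1 1 0 0 0 43) 1 1 1 1 8 (-8) 8 (-8) 8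
    (.x [.mk (-1) (-2) (-3), .mk (-1) 1 1, .mk 0 1 1, .mk (-1) (-1) (-2), .mk 1 0 0, .mk 0 1 0, .mk 0 0 1] 1 4 6 (.mk 1 1 1 0 0 0 43) 0 0 256 2304 2304 (-2304) 2304 (-2304) 2304
    (.x [.mk (-1) (-2) (-3), .mk (-1) 1 1, .mk 0 1 1, .mk (-1) (-1) (-2), .mk 1 0 0, .mk 0 1 0, .mk 0 0 1] 1 4 6 (.mk 1 1 1 0 0 0 43) 0 0 256 (-2304) (-2304) (-2304) 2304 (-2304) 2304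
    (.x [.mk (-1) (-2) (-3), .mk (-1) 1 1, .mk 0 1 1, .mk (-1) (-1) (-2), .mk 1 0 0, .mk 0 1 0, .mk 0 0 1] 1 4 6 (.mk 1 1 1 0 0 0 43) 0 0 256 (-2304) 2304 2304 2304 (-2304) 2304
    (.x [.mk (-1) (-2) (-3), .mk (-1) 1 1, .mk 0 1 1, .mk (-1) (-1) (-2), .mk 1 0 0, .mk 0 1 0, .mk 0 0 1] 1 4 6 (.mk 1 1 1 0 0 0 43) 0 0 256 (-2304) 2304 (-2304) (-2304) (-2304) 2304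
    (.x [.mk (-1) (-2) (-3), .mk (-1) 1 1, .mk 0 1 1, .mk (-1) (-1) (-2), .mk 1 0 0, .mk 0 1 0, .mk 0 0 1] 1 4 6 (.mk 1 1 1 0 0 0 43) 0 0 256 (-2304) 2304 (-2304) 2304 2304 2304
    (.x [.mk (-1) (-2) (-3), .mk (-1) 1 1, .mk 0 1 1, .mk (-1) (-1) (-2), .mk 1 0 0, .mk 0 1 0, .mk 0 0 1] 1 4 6 (.mk 1 1 1 0 0 0 43) 0 0 256 (-2304) 2304 (-2304) 2304 (-2304) (-2304)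
    (.x [.mk (-1) 1 1, .mk 0 1 1, .mk (-1) (-1) (-2), .mk 1 0 0, .mk 0 1 0, .mk 0 0 1] 1 4 6 (.mk 2 2 2 1 0 1 1) 1 1 1 (-1) (-1) (-1) (-1) (-1) (-1)
    (.x [.mk (-1) 1 1, .mk 0 1 1, .mk (-1) (-1) (-2), .mk 1 0 0, .mk 0 1 0, .mk 0 0 1] 1 4 6 (.mk 2 2 2 1 0 1 1) 1 1 1 (-2) (-1) 0 0 (-2) (-1)
    (.x [.mk (-1) 1 1, .mk 0 1 1, .mk (-1) (-1) (-2), .mk 1 0 0, .mk 0 1 0, .mk 0 0 1] 1 4 6 (.mk 2 2 2 1 0 1 1) 1 1 1 (-2) (-1) (-1) 0 0 0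
    (.x [.mk (-1) 1 1, .mk 0 1 1, .mk (-1) (-1) (-2), .mk 1 0 0, .mk 0 1 0, .mk 0 0 1] 1 4 6 (.mk 2 2 2 1 0 1 1) 1 1 1 0 0 (-1) 0 (-2) 0
    (.x [.mk (-1) 1 1, .mk 0 1 1, .mk (-1) (-1) (-2), .mk 1 0 0, .mk 0 1 0, .mk 0 0 1] 1 4 6 (.mk 2 2 2 1 0 1 1) 1 1 1 (-5) 0 (-5) 0 1 5
    (.x [.mk (-1) 1 1, .mk 0 1 1, .mk (-1) (-1) (-2), .mk 1 0 0, .mk 0 1 0, .mk 0 0 1] 1 4 6 (.mk 2 2 2 1 0 1 1) 1 1 1 (-5) 0 1 5 (-5) 5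
    (.x [.mk (-1) 1 1, .mk 0 1 1, .mk (-1) (-1) (-2), .mk 1 0 0, .mk 0 1 0, .mk 0 0 1] 1 4 6 (.mk 2 2 2 1 0 1 1) 1 1 1 1 5 (-5) 5 (-5) 5
    (.x [.mk (-1) 1 1, .mk 0 1 1, .mk (-1) (-1) (-2), .mk 1 0 0, .mk 0 1 0, .mk 0 0 1] 1 4 6 (.mk 2 2 2 1 0 1 1) 0 0 256 1536 1536 (-1536) 1536 (-1536) 1536
    (.x [.mk (-1) 1 1, .mk 0 1 1, .mk (-1) (-1) (-2), .mk 1 0 0, .mk 0 1 0, .mk 0 0 1] 1 4 6 (.mk 2 2 2 1 0 1 1) 0 0 256 (-1536) (-1536) (-1536) 1536 (-1536) 1536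
    (.x [.mk (-1) 1 1, .mk 0 1 1, .mk (-1) (-1) (-2), .mk 1 0 0, .mk 0 1 0, .mk 0 0 1] 1 4 6 (.mk 2 2 2 1 0 1 1) 0 0 256 (-1536) 1536 1536 1536 (-1536) 1536
    (.x [.mk (-1) 1 1, .mk 0 1 1, .mk (-1) (-1) (-2), .mk 1 0 0, .mk 0 1 0, .mk 0 0 1] 1 4 6 (.mk 2 2 2 1 0 1 1) 0 0 256 (-1536) 1536 (-1536) (-1536) (-1536) 1536
    (.x [.mk (-1) 1 1, .mk 0 1 1, .mk (-1) (-1) (-2), .mk 1 0 0, .mk 0 1 0, .mk 0 0 1] 1 4 6 (.mk 2 2 2 1 0 1 1) 0 0 256 (-1536) 1536 (-1536) 1536 1536 1536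
    (.x [.mk (-1) 1 1, .mk 0 1 1, .mk (-1) (-1) (-2), .mk 1 0 0, .mk 0 1 0, .mk 0 0 1] 1 4 6 (.mk 2 2 2 1 0 1 1) 0 0 256 (-1536) 1536 (-1536) 1536 (-1536) (-1536)
    (.x [.mk 0 1 1, .mk (-1) (-1) (-2), .mk 1 0 0, .mk 0 1 0, .mk 0 0 1] 1 4 6 (.mk 2 2 2 1 1 1 1) 1 1 1 0 0 (-1) 0 (-1) 0
    (.x [.mk 0 1 1, .mk (-1) (-1) (-2), .mk 1 0 0, .mk 0 1 0, .mk 0 0 1] 1 4 6 (.mk 2 2 2 1 1 1 1) 1 1 1 (-8) 0 (-8) 0 1 8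
    (.x [.mk 0 1 1, .mk (-1) (-1) (-2), .mk 1 0 0, .mk 0 1 0, .mk 0 0 1] 1 4 6 (.mk 2 2 2 1 1 1 1) 1 1 1 (-8) 0 1 8 (-8) 8
    (.x [.mk 0 1 1, .mk (-1) (-1) (-2), .mk 1 0 0, .mk 0 1 0, .mk 0 0 1] 1 4 6 (.mk 2 2 2 1 1 1 1) 1 1 1 1 8 (-8) 8 (-8) 8
    (.x [.mk 0 1 1, .mk (-1) (-1) (-2), .mk 1 0 0, .mk 0 1 0, .mk 0 0 1] 1 4 6 (.mk 2 2 2 1 1 1 1) 0 0 256 2304 2304 (-2304) 2304 (-2304) 2304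
    (.x [.mk 0 1 1, .mk (-1) (-1) (-2), .mk 1 0 0, .mk 0 1 0, .mk 0 0 1] 1 4 6 (.mk 2 2 2 1 1 1 1) 0 0 256 (-2304) (-2304) (-2304) 2304 (-2304) 2304
    (.x [.mk 0 1 1, .mk (-1) (-1) (-2), .mk 1 0 0, .mk 0 1 0, .mk 0 0 1] 1 4 6 (.mk 2 2 2 1 1 1 1) 0 0 256 (-2304) 2304 2304 2304 (-2304) 2304
    (.x [.mk 0 1 1, .mk (-1) (-1) (-2), .mk 1 0 0, .mk 0 1 0, .mk 0 0 1] 1 4 6 (.mk 2 2 2 1 1 1 1) 0 0 256 (-2304) 2304 (-2304) (-2304) (-2304) 2304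
    (.x [.mk 0 1 1, .mk (-1) (-1) (-2), .mk 1 0 0, .mk 0 1 0, .mk 0 0 1] 1 4 6 (.mk 2 2 2 1 1 1 1) 0 0 256 (-2304) 2304 (-2304) 2304 2304 2304
    (.x [.mk 0 1 1, .mk (-1) (-1) (-2), .mk 1 0 0, .mk 0 1 0, .mk 0 0 1] 1 4 6 (.mk 2 2 2 1 1 1 1) 0 0 256 (-2304) 2304 (-2304) 2304 (-2304) (-2304)
    (.x [.mk (-1) (-1) (-2), .mk 1 0 0, .mk 0 1 0, .mk 0 0 1] 1 4 6 (.mk 2 2 2 0 1 1 1) 1 1 1 (-35) 0 (-35) 0 1 35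
    (.x [.mk (-1) (-1) (-2), .mk 1 0 0, .mk 0 1 0, .mk 0 0 1] 1 4 6 (.mk 2 2 2 0 1 1 1) 1 1 1 (-35) 0 1 35 (-35) 35
    (.x [.mk (-1) (-1) (-2), .mk 1 0 0, .mk 0 1 0, .mk 0 0 1] 1 4 6 (.mk 2 2 2 0 1 1 1) 1 1 1 1 35 (-35) 35 (-35) 35
    (.x [.mk (-1) (-1) (-2), .mk 1 0 0, .mk 0 1 0, .mk 0 0 1] 1 4 6 (.mk 2 2 2 0 1 1 1) 0 0 256 9216 9216 (-9216) 9216 (-9216) 9216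
    (.x [.mk (-1) (-1) (-2), .mk 1 0 0, .mk 0 1 0, .mk 0 0 1] 1 4 6 (.mk 2 2 2 0 1 1 1) 0 0 256 (-9216) (-9216) (-9216) 9216 (-9216) 9216
    (.x [.mk (-1) (-1) (-2), .mk 1 0 0, .mk 0 1 0, .mk 0 0 1] 1 4 6 (.mk 2 2 2 0 1 1 1) 0 0 256 (-9216) 9216 9216 9216 (-9216) 9216
    (.x [.mk (-1) (-1) (-2), .mk 1 0 0, .mk 0 1 0, .mk 0 0 1] 1 4 6 (.mk 2 2 2 0 1 1 1) 0 0 256 (-9216) 9216 (-9216) (-9216) (-9216) 9216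
    (.x [.mk (-1) (-1) (-2), .mk 1 0 0, .mk 0 1 0, .mk 0 0 1] 1 4 6 (.mk 2 2 2 0 1 1 1) 0 0 256 (-9216) 9216 (-9216) 9216 9216 9216
    (.x [.mk (-1) (-1) (-2), .mk 1 0 0, .mk 0 1 0, .mk 0 0 1] 1 4 6 (.mk 2 2 2 0 1 1 1) 0 0 256 (-9216) 9216 (-9216) 9216 (-9216) (-9216)
    (.o 1 1 5 5 6 6 (.o 0 1 6 6 4 6 (.o 2 3 4 6 4 6 (.o 4 6 0 6 0 6 .nil)))))))))))))))))))))))))))))))))))))))))))))))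

/-- Goals of `n_th7_7` after part 1. -/
noncomputable def g_th7_7_1 : G :=
  (.x [.mk (-1) 1 0, .mk (-1) 1 (-1), .mk 0 (-1) (-1), .mk (-1) (-2) (-3), .mk 1 0 0, .mk 0 1 0, .mk 0 0 1] 1 2 4 (.mk 1 1 1 0 0 0 8) 1 1 1 (-1) (-1) (-3) (-2) (-5) (-4)
    (.x [.mk (-1) 1 0, .mk (-1) 1 (-1), .mk 0 (-1) (-1), .mk (-1) (-2) (-3), .mk 1 0 0, .mk 0 1 0, .mk 0 0 1] 1 2 4 (.mk 1 1 1 0 0 0 8) 1 1 1 (-2) (-1) (-1) 0 (-7) (-4)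
    (.x [.mk (-1) 1 0, .mk (-1) 1 (-1), .mk 0 (-1) (-1), .mk (-1) (-2) (-3), .mk 1 0 0, .mk 0 1 0, .mk 0 0 1] 1 2 4 (.mk 1 1 1 0 0 0 8) 1 1 1 0 0 (-3) 0 (-7) (-4)
    (.x [.mk (-1) 1 0, .mk (-1) 1 (-1), .mk 0 (-1) (-1), .mk (-1) (-2) (-3), .mk 1 0 0, .mk 0 1 0, .mk 0 0 1] 1 2 4 (.mk 1 1 1 0 0 0 8) 1 1 1 (-4) 0 (-3) 0 (-3) 0
    (.x [.mk (-1) 1 0, .mk (-1) 1 (-1), .mk 0 (-1) (-1), .mk (-1) (-2) (-3), .mk 1 0 0, .mk 0 1 0, .mk 0 0 1] 1 2 4 (.mk 1 1 1 0 0 0 8) 1 1 1 (-9) 0 (-15) 0 1 15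
    (.x [.mk (-1) 1 0, .mk (-1) 1 (-1), .mk 0 (-1) (-1), .mk (-1) (-2) (-3), .mk 1 0 0, .mk 0 1 0, .mk 0 0 1] 1 2 4 (.mk 1 1 1 0 0 0 8) 1 1 1 (-15) 0 1 15 (-15) 15
    (.x [.mk (-1) 1 0, .mk (-1) 1 (-1), .mk 0 (-1) (-1), .mk (-1) (-2) (-3), .mk 1 0 0, .mk 0 1 0, .mk 0 0 1] 1 2 4 (.mk 1 1 1 0 0 0 8) 1 1 1 1 15 (-15) 15 (-15) 15
    (.x [.mk (-1) 1 0, .mk (-1) 1 (-1), .mk 0 (-1) (-1), .mk (-1) (-2) (-3), .mk 1 0 0, .mk 0 1 0, .mk 0 0 1] 1 2 4 (.mk 1 1 1 0 0 0 8) 0 0 256 4096 4096 (-4096) 4096 (-4096) 4096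
    (.x [.mk (-1) 1 0, .mk (-1) 1 (-1), .mk 0 (-1) (-1), .mk (-1) (-2) (-3), .mk 1 0 0, .mk 0 1 0, .mk 0 0 1] 1 2 4 (.mk 1 1 1 0 0 0 8) 0 0 256 (-4096) (-4096) (-4096) 4096 (-4096) 4096
    (.x [.mk (-1) 1 0, .mk (-1) 1 (-1), .mk 0 (-1) (-1), .mk (-1) (-2) (-3), .mk 1 0 0, .mk 0 1 0, .mk 0 0 1] 1 2 4 (.mk 1 1 1 0 0 0 8) 0 0 256 (-4096) 4096 4096 4096 (-4096) 4096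
    (.x [.mk (-1) 1 0, .mk (-1) 1 (-1), .mk 0 (-1) (-1), .mk (-1) (-2) (-3), .mk 1 0 0, .mk 0 1 0, .mk 0 0 1] 1 2 4 (.mk 1 1 1 0 0 0 8) 0 0 256 (-4096) 4096 (-4096) (-4096) (-4096) 4096
    (.x [.mk (-1) 1 0, .mk (-1) 1 (-1), .mk 0 (-1) (-1), .mk (-1) (-2) (-3), .mk 1 0 0, .mk 0 1 0, .mk 0 0 1] 1 2 4 (.mk 1 1 1 0 0 0 8) 0 0 256 (-4096) 4096 (-4096) 4096 4096 4096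
    (.x [.mk (-1) 1 0, .mk (-1) 1 (-1), .mk 0 (-1) (-1), .mk (-1) (-2) (-3), .mk 1 0 0, .mk 0 1 0, .mk 0 0 1] 1 2 4 (.mk 1 1 1 0 0 0 8) 0 0 256 (-4096) 4096 (-4096) 4096 (-4096) (-4096)
    (.x [.mk (-1) 1 (-1), .mk 0 (-1) (-1), .mk (-1) (-2) (-3), .mk 1 0 0, .mk 0 1 0, .mk 0 0 1] 1 2 4 (.mk 2 2 2 1 1 0 1) 1 1 1 0 0 (-1) 0 (-2) 0
    (.x [.mk (-1) 1 (-1), .mk 0 (-1) (-1), .mk (-1) (-2) (-3), .mk 1 0 0, .mk 0 1 0, .mk 0 0 1] 1 2 4 (.mk 2 2 2 1 1 0 1) 1 1 1 (-6) 0 (-10) 0 1 10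
    (.x [.mk (-1) 1 (-1), .mk 0 (-1) (-1), .mk (-1) (-2) (-3), .mk 1 0 0, .mk 0 1 0, .mk 0 0 1] 1 2 4 (.mk 2 2 2 1 1 0 1) 1 1 1 (-10) 0 1 10 (-10) 10
    (.x [.mk (-1) 1 (-1), .mk 0 (-1) (-1), .mk (-1) (-2) (-3), .mk 1 0 0, .mk 0 1 0, .mk 0 0 1] 1 2 4 (.mk 2 2 2 1 1 0 1) 1 1 1 1 10 (-10) 10 (-10) 10
    (.x [.mk (-1) 1 (-1), .mk 0 (-1) (-1), .mk (-1) (-2) (-3), .mk 1 0 0, .mk 0 1 0, .mk 0 0 1] 1 2 4 (.mk 2 2 2 1 1 0 1) 0 0 256 2816 2816 (-2816) 2816 (-2816) 2816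
    (.x [.mk (-1) 1 (-1), .mk 0 (-1) (-1), .mk (-1) (-2) (-3), .mk 1 0 0, .mk 0 1 0, .mk 0 0 1] 1 2 4 (.mk 2 2 2 1 1 0 1) 0 0 256 (-2816) (-2816) (-2816) 2816 (-2816) 2816
    (.x [.mk (-1) 1 (-1), .mk 0 (-1) (-1), .mk (-1) (-2) (-3), .mk 1 0 0, .mk 0 1 0, .mk 0 0 1] 1 2 4 (.mk 2 2 2 1 1 0 1) 0 0 256 (-2816) 2816 2816 2816 (-2816) 2816
    (.x [.mk (-1) 1 (-1), .mk 0 (-1) (-1), .mk (-1) (-2) (-3), .mk 1 0 0, .mk 0 1 0, .mk 0 0 1] 1 2 4 (.mk 2 2 2 1 1 0 1) 0 0 256 (-2816) 2816 (-2816) (-2816) (-2816) 2816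
    (.x [.mk (-1) 1 (-1), .mk 0 (-1) (-1), .mk (-1) (-2) (-3), .mk 1 0 0, .mk 0 1 0, .mk 0 0 1] 1 2 4 (.mk 2 2 2 1 1 0 1) 0 0 256 (-2816) 2816 (-2816) 2816 2816 2816
    (.x [.mk (-1) 1 (-1), .mk 0 (-1) (-1), .mk (-1) (-2) (-3), .mk 1 0 0, .mk 0 1 0, .mk 0 0 1] 1 2 4 (.mk 2 2 2 1 1 0 1) 0 0 256 (-2816) 2816 (-2816) 2816 (-2816) (-2816)
    (.x [.mk 0 (-1) (-1), .mk (-1) (-2) (-3), .mk 1 0 0, .mk 0 1 0, .mk 0 0 1] 1 2 4 (.mk 2 2 2 1 1 1 1) 1 1 1 (-1) (-1) 0 0 0 0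
    (.x [.mk 0 (-1) (-1), .mk (-1) (-2) (-3), .mk 1 0 0, .mk 0 1 0, .mk 0 0 1] 1 2 4 (.mk 2 2 2 1 1 1 1) 1 1 1 0 0 0 0 (-1) 0
    (.x [.mk 0 (-1) (-1), .mk (-1) (-2) (-3), .mk 1 0 0, .mk 0 1 0, .mk 0 0 1] 1 2 4 (.mk 2 2 2 1 1 1 1) 1 1 1 (-21) 0 (-21) 0 1 21
    (.x [.mk 0 (-1) (-1), .mk (-1) (-2) (-3), .mk 1 0 0, .mk 0 1 0, .mk 0 0 1] 1 2 4 (.mk 2 2 2 1 1 1 1) 1 1 1 (-21) 0 1 21 (-21) 21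
    (.x [.mk 0 (-1) (-1), .mk (-1) (-2) (-3), .mk 1 0 0, .mk 0 1 0, .mk 0 0 1] 1 2 4 (.mk 2 2 2 1 1 1 1) 1 1 1 1 21 (-21) 21 (-21) 21
    (.x [.mk 0 (-1) (-1), .mk (-1) (-2) (-3), .mk 1 0 0, .mk 0 1 0, .mk 0 0 1] 1 2 4 (.mk 2 2 2 1 1 1 1) 0 0 256 5632 5632 (-5632) 5632 (-5632) 5632
    (.x [.mk 0 (-1) (-1), .mk (-1) (-2) (-3), .mk 1 0 0, .mk 0 1 0, .mk 0 0 1] 1 2 4 (.mk 2 2 2 1 1 1 1) 0 0 256 (-5632) (-5632) (-5632) 5632 (-5632) 5632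
    (.x [.mk 0 (-1) (-1), .mk (-1) (-2) (-3), .mk 1 0 0, .mk 0 1 0, .mk 0 0 1] 1 2 4 (.mk 2 2 2 1 1 1 1) 0 0 256 (-5632) 5632 5632 5632 (-5632) 5632
    (.x [.mk 0 (-1) (-1), .mk (-1) (-2) (-3), .mk 1 0 0, .mk 0 1 0, .mk 0 0 1] 1 2 4 (.mk 2 2 2 1 1 1 1) 0 0 256 (-5632) 5632 (-5632) (-5632) (-5632) 5632
    (.x [.mk 0 (-1) (-1), .mk (-1) (-2) (-3), .mk 1 0 0, .mk 0 1 0, .mk 0 0 1] 1 2 4 (.mk 2 2 2 1 1 1 1) 0 0 256 (-5632) 5632 (-5632) 5632 5632 5632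
    (.x [.mk 0 (-1) (-1), .mk (-1) (-2) (-3), .mk 1 0 0, .mk 0 1 0, .mk 0 0 1] 1 2 4 (.mk 2 2 2 1 1 1 1) 0 0 256 (-5632) 5632 (-5632) 5632 (-5632) (-5632)
    (.x [.mk (-1) (-2) (-3), .mk 1 0 0, .mk 0 1 0, .mk 0 0 1] 1 2 4 (.mk 2 2 2 0 1 1 1) 1 1 1 0 0 (-1) (-1) 0 0
    (.x [.mk (-1) (-2) (-3), .mk 1 0 0, .mk 0 1 0, .mk 0 0 1] 1 2 4 (.mk 2 2 2 0 1 1 1) 1 1 1 0 0 0 0 (-1) 0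
    (.x [.mk (-1) (-2) (-3), .mk 1 0 0, .mk 0 1 0, .mk 0 0 1] 1 2 4 (.mk 2 2 2 0 1 1 1) 1 1 1 (-27) 0 (-27) 0 1 27
    (.x [.mk (-1) (-2) (-3), .mk 1 0 0, .mk 0 1 0, .mk 0 0 1] 1 2 4 (.mk 2 2 2 0 1 1 1) 1 1 1 (-27) 0 1 27 (-27) 27
    (.x [.mk (-1) (-2) (-3), .mk 1 0 0, .mk 0 1 0, .mk 0 0 1] 1 2 4 (.mk 2 2 2 0 1 1 1) 1 1 1 1 27 (-27) 27 (-27) 27
    (.x [.mk (-1) (-2) (-3), .mk 1 0 0, .mk 0 1 0, .mk 0 0 1] 1 2 4 (.mk 2 2 2 0 1 1 1) 0 0 256 7168 7168 (-7168) 7168 (-7168) 7168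
    (.x [.mk (-1) (-2) (-3), .mk 1 0 0, .mk 0 1 0, .mk 0 0 1] 1 2 4 (.mk 2 2 2 0 1 1 1) 0 0 256 (-7168) (-7168) (-7168) 7168 (-7168) 7168
    (.x [.mk (-1) (-2) (-3), .mk 1 0 0, .mk 0 1 0, .mk 0 0 1] 1 2 4 (.mk 2 2 2 0 1 1 1) 0 0 256 (-7168) 7168 7168 7168 (-7168) 7168
    (.x [.mk (-1) (-2) (-3), .mk 1 0 0, .mk 0 1 0, .mk 0 0 1] 1 2 4 (.mk 2 2 2 0 1 1 1) 0 0 256 (-7168) 7168 (-7168) (-7168) (-7168) 7168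
    (.x [.mk (-1) (-2) (-3), .mk 1 0 0, .mk 0 1 0, .mk 0 0 1] 1 2 4 (.mk 2 2 2 0 1 1 1) 0 0 256 (-7168) 7168 (-7168) 7168 7168 7168
    (.x [.mk (-1) (-2) (-3), .mk 1 0 0, .mk 0 1 0, .mk 0 0 1] 1 2 4 (.mk 2 2 2 0 1 1 1) 0 0 256 (-7168) 7168 (-7168) 7168 (-7168) (-7168)
    (.o 1 1 2 2 5 5 (.o 1 1 3 3 4 5 (.o 0 1 2 3 6 6 (.o 2 3 0 3 4 6 (.o 0 3 4 6 0 6 (.o 4 6 0 6 0 6 .nil)))))))))))))))))))))))))))))))))))))))))))))))))))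

/-- Goals of `n_th7_7` after part 2. -/
noncomputable def g_th7_7_2 : G :=
  (.x [.mk (-1) (-2) (-3), .mk 1 0 0, .mk 0 1 0, .mk 0 0 1] 2 2 5 (.mk 2 2 2 1 1 1 1) 1 1 1 (-3) 0 (-12) (-9) (-15) (-9)
    (.x [.mk (-1) (-2) (-3), .mk 1 0 0, .mk 0 1 0, .mk 0 0 1] 2 2 5 (.mk 2 2 2 1 1 1 1) 1 1 1 (-9) 0 (-17) (-9) (-8) 0
    (.x [.mk (-1) (-2) (-3), .mk 1 0 0, .mk 0 1 0, .mk 0 0 1] 2 2 5 (.mk 2 2 2 1 1 1 1) 1 1 1 (-9) 0 (-8) 0 (-17) 0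
    (.x [.mk (-1) (-2) (-3), .mk 1 0 0, .mk 0 1 0, .mk 0 0 1] 2 2 5 (.mk 2 2 2 1 1 1 1) 1 1 1 (-9) 0 (-17) 0 1 17
    (.x [.mk (-1) (-2) (-3), .mk 1 0 0, .mk 0 1 0, .mk 0 0 1] 2 2 5 (.mk 2 2 2 1 1 1 1) 1 1 1 (-17) 0 1 17 (-17) 17
    (.x [.mk (-1) (-2) (-3), .mk 1 0 0, .mk 0 1 0, .mk 0 0 1] 2 2 5 (.mk 2 2 2 1 1 1 1) 1 1 1 1 17 (-17) 17 (-17) 17
    (.x [.mk (-1) (-2) (-3), .mk 1 0 0, .mk 0 1 0, .mk 0 0 1] 2 2 5 (.mk 2 2 2 1 1 1 1) 0 0 256 4608 4608 (-4608) 4608 (-4608) 4608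
    (.x [.mk (-1) (-2) (-3), .mk 1 0 0, .mk 0 1 0, .mk 0 0 1] 2 2 5 (.mk 2 2 2 1 1 1 1) 0 0 256 (-4608) (-4608) (-4608) 4608 (-4608) 4608
    (.x [.mk (-1) (-2) (-3), .mk 1 0 0, .mk 0 1 0, .mk 0 0 1] 2 2 5 (.mk 2 2 2 1 1 1 1) 0 0 256 (-4608) 4608 4608 4608 (-4608) 4608
    (.x [.mk (-1) (-2) (-3), .mk 1 0 0, .mk 0 1 0, .mk 0 0 1] 2 2 5 (.mk 2 2 2 1 1 1 1) 0 0 256 (-4608) 4608 (-4608) (-4608) (-4608) 4608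
    (.x [.mk (-1) (-2) (-3), .mk 1 0 0, .mk 0 1 0, .mk 0 0 1] 2 2 5 (.mk 2 2 2 1 1 1 1) 0 0 256 (-4608) 4608 (-4608) 4608 4608 4608
    (.x [.mk (-1) (-2) (-3), .mk 1 0 0, .mk 0 1 0, .mk 0 0 1] 2 2 5 (.mk 2 2 2 1 1 1 1) 0 0 256 (-4608) 4608 (-4608) 4608 (-4608) (-4608)
    (.o 2 2 3 3 4 5 (.o 3 3 2 3 4 5 (.o 2 3 2 3 6 6 (.o 0 3 4 6 0 6 (.o 4 6 0 6 0 6 .nil)))))))))))))))))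

/-- Goals of `n_th7_7` after part 3. -/
noncomputable def g_th7_7_3 : G :=
  (.x [.mk (-1) (-1) (-2), .mk 0 (-3) (-3), .mk (-1) (-2) (-3), .mk 1 0 0, .mk 0 1 0, .mk 0 0 1] 2 3 6 (.mk 2 2 2 1 1 1 1) 1 1 1 (-3) (-1) (-10) (-8) (-12) (-10)
    (.x [.mk (-1) (-1) (-2), .mk 0 (-3) (-3), .mk (-1) (-2) (-3), .mk 1 0 0, .mk 0 1 0, .mk 0 0 1] 2 3 6 (.mk 2 2 2 1 1 1 1) 1 1 1 (-3) (-1) (-7) (-7) (-12) (-10)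
    (.x [.mk (-1) (-1) (-2), .mk 0 (-3) (-3), .mk (-1) (-2) (-3), .mk 1 0 0, .mk 0 1 0, .mk 0 0 1] 2 3 6 (.mk 2 2 2 1 1 1 1) 1 1 1 0 0 (-10) (-7) (-12) (-10)
    (.x [.mk (-1) (-1) (-2), .mk 0 (-3) (-3), .mk (-1) (-2) (-3), .mk 1 0 0, .mk 0 1 0, .mk 0 0 1] 2 3 6 (.mk 2 2 2 1 1 1 1) 1 1 1 (-3) 0 (-10) (-7) (-9) (-7)
    (.x [.mk (-1) (-1) (-2), .mk 0 (-3) (-3), .mk (-1) (-2) (-3), .mk 1 0 0, .mk 0 1 0, .mk 0 0 1] 2 3 6 (.mk 2 2 2 1 1 1 1) 1 1 1 (-8) 0 (-6) 0 (-14) (-7)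
    (.x [.mk (-1) (-1) (-2), .mk 0 (-3) (-3), .mk (-1) (-2) (-3), .mk 1 0 0, .mk 0 1 0, .mk 0 0 1] 2 3 6 (.mk 2 2 2 1 1 1 1) 1 1 1 (-8) 0 (-14) 0 (-6) 1
    (.x [.mk (-1) (-1) (-2), .mk 0 (-3) (-3), .mk (-1) (-2) (-3), .mk 1 0 0, .mk 0 1 0, .mk 0 0 1] 2 3 6 (.mk 2 2 2 1 1 1 1) 1 1 1 (-14) 0 (-14) 0 2 14
    (.x [.mk (-1) (-1) (-2), .mk 0 (-3) (-3), .mk (-1) (-2) (-3), .mk 1 0 0, .mk 0 1 0, .mk 0 0 1] 2 3 6 (.mk 2 2 2 1 1 1 1) 1 1 1 (-14) 0 1 14 (-14) 14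
    (.x [.mk (-1) (-1) (-2), .mk 0 (-3) (-3), .mk (-1) (-2) (-3), .mk 1 0 0, .mk 0 1 0, .mk 0 0 1] 2 3 6 (.mk 2 2 2 1 1 1 1) 1 1 1 1 14 (-14) 14 (-14) 14
    (.x [.mk (-1) (-1) (-2), .mk 0 (-3) (-3), .mk (-1) (-2) (-3), .mk 1 0 0, .mk 0 1 0, .mk 0 0 1] 2 3 6 (.mk 2 2 2 1 1 1 1) 0 0 256 3840 3840 (-3840) 3840 (-3840) 3840
    (.x [.mk (-1) (-1) (-2), .mk 0 (-3) (-3), .mk (-1) (-2) (-3), .mk 1 0 0, .mk 0 1 0, .mk 0 0 1] 2 3 6 (.mk 2 2 2 1 1 1 1) 0 0 256 (-3840) (-3840) (-3840) 3840 (-3840) 3840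
    (.x [.mk (-1) (-1) (-2), .mk 0 (-3) (-3), .mk (-1) (-2) (-3), .mk 1 0 0, .mk 0 1 0, .mk 0 0 1] 2 3 6 (.mk 2 2 2 1 1 1 1) 0 0 256 (-3840) 3840 3840 3840 (-3840) 3840
    (.x [.mk (-1) (-1) (-2), .mk 0 (-3) (-3), .mk (-1) (-2) (-3), .mk 1 0 0, .mk 0 1 0, .mk 0 0 1] 2 3 6 (.mk 2 2 2 1 1 1 1) 0 0 256 (-3840) 3840 (-3840) (-3840) (-3840) 3840
    (.x [.mk (-1) (-1) (-2), .mk 0 (-3) (-3), .mk (-1) (-2) (-3), .mk 1 0 0, .mk 0 1 0, .mk 0 0 1] 2 3 6 (.mk 2 2 2 1 1 1 1) 0 0 256 (-3840) 3840 (-3840) 3840 3840 3840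
    (.x [.mk (-1) (-1) (-2), .mk 0 (-3) (-3), .mk (-1) (-2) (-3), .mk 1 0 0, .mk 0 1 0, .mk 0 0 1] 2 3 6 (.mk 2 2 2 1 1 1 1) 0 0 256 (-3840) 3840 (-3840) 3840 (-3840) (-3840)
    (.x [.mk 0 (-3) (-3), .mk (-1) (-2) (-3), .mk 1 0 0, .mk 0 1 0, .mk 0 0 1] 2 3 6 (.mk 2 2 2 1 1 0 1) 1 1 1 (-1) (-1) (-1) (-1) 0 0
    (.x [.mk 0 (-3) (-3), .mk (-1) (-2) (-3), .mk 1 0 0, .mk 0 1 0, .mk 0 0 1] 2 3 6 (.mk 2 2 2 1 1 0 1) 1 1 1 0 0 (-2) (-1) (-1) 0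
    (.x [.mk 0 (-3) (-3), .mk (-1) (-2) (-3), .mk 1 0 0, .mk 0 1 0, .mk 0 0 1] 2 3 6 (.mk 2 2 2 1 1 0 1) 1 1 1 (-1) 0 0 0 (-1) 0
    (.x [.mk 0 (-3) (-3), .mk (-1) (-2) (-3), .mk 1 0 0, .mk 0 1 0, .mk 0 0 1] 2 3 6 (.mk 2 2 2 1 1 0 1) 1 1 1 (-2) 0 (-2) 0 1 2
    (.x [.mk 0 (-3) (-3), .mk (-1) (-2) (-3), .mk 1 0 0, .mk 0 1 0, .mk 0 0 1] 2 3 6 (.mk 2 2 2 1 1 0 1) 1 1 1 (-14) 0 (-14) 0 3 14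
    (.x [.mk 0 (-3) (-3), .mk (-1) (-2) (-3), .mk 1 0 0, .mk 0 1 0, .mk 0 0 1] 2 3 6 (.mk 2 2 2 1 1 0 1) 1 1 1 (-14) 0 1 14 (-14) 14
    (.x [.mk 0 (-3) (-3), .mk (-1) (-2) (-3), .mk 1 0 0, .mk 0 1 0, .mk 0 0 1] 2 3 6 (.mk 2 2 2 1 1 0 1) 1 1 1 1 14 (-14) 14 (-14) 14
    (.x [.mk 0 (-3) (-3), .mk (-1) (-2) (-3), .mk 1 0 0, .mk 0 1 0, .mk 0 0 1] 2 3 6 (.mk 2 2 2 1 1 0 1) 0 0 256 3840 3840 (-3840) 3840 (-3840) 3840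
    (.x [.mk 0 (-3) (-3), .mk (-1) (-2) (-3), .mk 1 0 0, .mk 0 1 0, .mk 0 0 1] 2 3 6 (.mk 2 2 2 1 1 0 1) 0 0 256 (-3840) (-3840) (-3840) 3840 (-3840) 3840
    (.x [.mk 0 (-3) (-3), .mk (-1) (-2) (-3), .mk 1 0 0, .mk 0 1 0, .mk 0 0 1] 2 3 6 (.mk 2 2 2 1 1 0 1) 0 0 256 (-3840) 3840 3840 3840 (-3840) 3840
    (.x [.mk 0 (-3) (-3), .mk (-1) (-2) (-3), .mk 1 0 0, .mk 0 1 0, .mk 0 0 1] 2 3 6 (.mk 2 2 2 1 1 0 1) 0 0 256 (-3840) 3840 (-3840) (-3840) (-3840) 3840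
    (.x [.mk 0 (-3) (-3), .mk (-1) (-2) (-3), .mk 1 0 0, .mk 0 1 0, .mk 0 0 1] 2 3 6 (.mk 2 2 2 1 1 0 1) 0 0 256 (-3840) 3840 (-3840) 3840 3840 3840
    (.x [.mk 0 (-3) (-3), .mk (-1) (-2) (-3), .mk 1 0 0, .mk 0 1 0, .mk 0 0 1] 2 3 6 (.mk 2 2 2 1 1 0 1) 0 0 256 (-3840) 3840 (-3840) 3840 (-3840) (-3840)
    (.x [.mk (-1) (-2) (-3), .mk 1 0 0, .mk 0 1 0, .mk 0 0 1] 2 3 6 (.mk 2 2 2 0 1 1 1) 1 1 1 (-2) 0 (-3) (-2) (-1) 0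
    (.x [.mk (-1) (-2) (-3), .mk 1 0 0, .mk 0 1 0, .mk 0 0 1] 2 3 6 (.mk 2 2 2 0 1 1 1) 1 1 1 (-2) 0 (-1) 0 (-3) 0
    (.x [.mk (-1) (-2) (-3), .mk 1 0 0, .mk 0 1 0, .mk 0 0 1] 2 3 6 (.mk 2 2 2 0 1 1 1) 1 1 1 (-18) 0 (-18) 0 1 18
    (.x [.mk (-1) (-2) (-3), .mk 1 0 0, .mk 0 1 0, .mk 0 0 1] 2 3 6 (.mk 2 2 2 0 1 1 1) 1 1 1 (-18) 0 1 18 (-18) 18
    (.x [.mk (-1) (-2) (-3), .mk 1 0 0, .mk 0 1 0, .mk 0 0 1] 2 3 6 (.mk 2 2 2 0 1 1 1) 1 1 1 1 18 (-18) 18 (-18) 18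
    (.x [.mk (-1) (-2) (-3), .mk 1 0 0, .mk 0 1 0, .mk 0 0 1] 2 3 6 (.mk 2 2 2 0 1 1 1) 0 0 256 4864 4864 (-4864) 4864 (-4864) 4864
    (.x [.mk (-1) (-2) (-3), .mk 1 0 0, .mk 0 1 0, .mk 0 0 1] 2 3 6 (.mk 2 2 2 0 1 1 1) 0 0 256 (-4864) (-4864) (-4864) 4864 (-4864) 4864
    (.x [.mk (-1) (-2) (-3), .mk 1 0 0, .mk 0 1 0, .mk 0 0 1] 2 3 6 (.mk 2 2 2 0 1 1 1) 0 0 256 (-4864) 4864 4864 4864 (-4864) 4864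
    (.x [.mk (-1) (-2) (-3), .mk 1 0 0, .mk 0 1 0, .mk 0 0 1] 2 3 6 (.mk 2 2 2 0 1 1 1) 0 0 256 (-4864) 4864 (-4864) (-4864) (-4864) 4864
    (.x [.mk (-1) (-2) (-3), .mk 1 0 0, .mk 0 1 0, .mk 0 0 1] 2 3 6 (.mk 2 2 2 0 1 1 1) 0 0 256 (-4864) 4864 (-4864) 4864 4864 4864
    (.x [.mk (-1) (-2) (-3), .mk 1 0 0, .mk 0 1 0, .mk 0 0 1] 2 3 6 (.mk 2 2 2 0 1 1 1) 0 0 256 (-4864) 4864 (-4864) 4864 (-4864) (-4864)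
    (.o 3 3 2 3 6 6 (.o 0 3 4 6 0 6 (.o 4 6 0 6 0 6 .nil))))))))))))))))))))))))))))))))))))))))))

/-- Goals of `n_th7_7` after part 4. -/
noncomputable def g_th7_7_4 : G :=
  (.x [.mk 0 (-1) (-1), .mk (-1) (-2) (-3), .mk 1 0 0, .mk 0 1 0, .mk 0 0 1] 2 3 6 (.mk 2 2 2 1 1 0 1) 0 0 256 (-884) (-591) 5376 5376 4492 4554
    (.x [.mk 0 (-1) (-1), .mk (-1) (-2) (-3), .mk 1 0 0, .mk 0 1 0, .mk 0 0 1] 2 3 6 (.mk 2 2 2 1 1 0 1) 0 0 256 (-884) (-591) 5376 5376 4554 5376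
    (.x [.mk 0 (-1) (-1), .mk (-1) (-2) (-3), .mk 1 0 0, .mk 0 1 0, .mk 0 0 1] 2 3 6 (.mk 2 2 2 1 1 0 1) 0 0 256 (-591) 1955 5376 5376 1376 5376
    (.x [.mk 0 (-1) (-1), .mk (-1) (-2) (-3), .mk 1 0 0, .mk 0 1 0, .mk 0 0 1] 2 3 6 (.mk 2 2 2 1 1 0 1) 0 0 256 1955 5376 5376 5376 (-384) 5376
    (.x [.mk 0 (-1) (-1), .mk (-1) (-2) (-3), .mk 1 0 0, .mk 0 1 0, .mk 0 0 1] 2 3 6 (.mk 2 2 2 1 1 0 1) 0 0 256 (-5376) 5376 (-5376) (-5376) (-5376) 5376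
    (.x [.mk 0 (-1) (-1), .mk (-1) (-2) (-3), .mk 1 0 0, .mk 0 1 0, .mk 0 0 1] 2 3 6 (.mk 2 2 2 1 1 0 1) 0 0 256 (-5376) 5376 (-5376) 5376 5376 5376
    (.x [.mk 0 (-1) (-1), .mk (-1) (-2) (-3), .mk 1 0 0, .mk 0 1 0, .mk 0 0 1] 2 3 6 (.mk 2 2 2 1 1 0 1) 0 0 256 (-5376) 5376 (-5376) 5376 (-5376) (-5376)
    (.x [.mk (-1) (-2) (-3), .mk 1 0 0, .mk 0 1 0, .mk 0 0 1] 2 3 6 (.mk 2 2 2 0 1 1 1) 1 1 1 0 0 0 0 (-2) (-1)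
    (.x [.mk (-1) (-2) (-3), .mk 1 0 0, .mk 0 1 0, .mk 0 0 1] 2 3 6 (.mk 2 2 2 0 1 1 1) 1 1 1 (-1) 0 (-1) 0 0 0
    (.x [.mk (-1) (-2) (-3), .mk 1 0 0, .mk 0 1 0, .mk 0 0 1] 2 3 6 (.mk 2 2 2 0 1 1 1) 1 1 1 (-18) 0 (-18) 0 1 18
    (.x [.mk (-1) (-2) (-3), .mk 1 0 0, .mk 0 1 0, .mk 0 0 1] 2 3 6 (.mk 2 2 2 0 1 1 1) 1 1 1 (-18) 0 1 18 (-18) 18
    (.x [.mk (-1) (-2) (-3), .mk 1 0 0, .mk 0 1 0, .mk 0 0 1] 2 3 6 (.mk 2 2 2 0 1 1 1) 1 1 1 1 18 (-18) 18 (-18) 18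
    (.x [.mk (-1) (-2) (-3), .mk 1 0 0, .mk 0 1 0, .mk 0 0 1] 2 3 6 (.mk 2 2 2 0 1 1 1) 0 0 256 4864 4864 (-4864) 4864 (-4864) 4864
    (.x [.mk (-1) (-2) (-3), .mk 1 0 0, .mk 0 1 0, .mk 0 0 1] 2 3 6 (.mk 2 2 2 0 1 1 1) 0 0 256 (-4864) (-4864) (-4864) 4864 (-4864) 4864
    (.x [.mk (-1) (-2) (-3), .mk 1 0 0, .mk 0 1 0, .mk 0 0 1] 2 3 6 (.mk 2 2 2 0 1 1 1) 0 0 256 (-4864) 4864 4864 4864 (-4864) 4864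
    (.x [.mk (-1) (-2) (-3), .mk 1 0 0, .mk 0 1 0, .mk 0 0 1] 2 3 6 (.mk 2 2 2 0 1 1 1) 0 0 256 (-4864) 4864 (-4864) (-4864) (-4864) 4864
    (.x [.mk (-1) (-2) (-3), .mk 1 0 0, .mk 0 1 0, .mk 0 0 1] 2 3 6 (.mk 2 2 2 0 1 1 1) 0 0 256 (-4864) 4864 (-4864) 4864 4864 4864
    (.x [.mk (-1) (-2) (-3), .mk 1 0 0, .mk 0 1 0, .mk 0 0 1] 2 3 6 (.mk 2 2 2 0 1 1 1) 0 0 256 (-4864) 4864 (-4864) 4864 (-4864) (-4864)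
    (.o 3 3 2 3 6 6 (.o 0 3 4 6 0 6 (.o 4 6 0 6 0 6 .nil)))))))))))))))))))))

/-- Goals of `n_th7_7` after part 5. -/
noncomputable def g_th7_7_5 : G :=
  (.x [.mk (-1) (-1) (-1), .mk (-1) (-2) (-3), .mk 1 0 0, .mk 0 1 0, .mk 0 0 1] 3 5 2 (.mk 1 1 1 0 0 0 30) 1 1 1 16 18 14 16 27 29
    (.x [.mk (-1) (-1) (-1), .mk (-1) (-2) (-3), .mk 1 0 0, .mk 0 1 0, .mk 0 0 1] 3 5 2 (.mk 1 1 1 0 0 0 30) 1 1 1 16 18 14 16 30 32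
    (.x [.mk (-1) (-1) (-1), .mk (-1) (-2) (-3), .mk 1 0 0, .mk 0 1 0, .mk 0 0 1] 3 5 2 (.mk 1 1 1 0 0 0 30) 1 1 1 16 18 17 20 27 32
    (.x [.mk (-1) (-1) (-1), .mk (-1) (-2) (-3), .mk 1 0 0, .mk 0 1 0, .mk 0 0 1] 3 5 2 (.mk 1 1 1 0 0 0 30) 1 1 1 19 23 14 20 27 32
    (.x [.mk (-1) (-1) (-1), .mk (-1) (-2) (-3), .mk 1 0 0, .mk 0 1 0, .mk 0 0 1] 3 5 2 (.mk 1 1 1 0 0 0 30) 1 1 1 1 23 21 32 20 32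
    (.x [.mk (-1) (-1) (-1), .mk (-1) (-2) (-3), .mk 1 0 0, .mk 0 1 0, .mk 0 0 1] 3 5 2 (.mk 1 1 1 0 0 0 30) 1 1 1 24 32 9 32 7 32
    (.x [.mk (-1) (-1) (-1), .mk (-1) (-2) (-3), .mk 1 0 0, .mk 0 1 0, .mk 0 0 1] 3 5 2 (.mk 1 1 1 0 0 0 30) 0 0 256 8448 8448 (-8448) 8448 (-8448) 8448
    (.x [.mk (-1) (-1) (-1), .mk (-1) (-2) (-3), .mk 1 0 0, .mk 0 1 0, .mk 0 0 1] 3 5 2 (.mk 1 1 1 0 0 0 30) 0 0 256 (-8448) (-8448) (-8448) 8448 (-8448) 8448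
    (.x [.mk (-1) (-1) (-1), .mk (-1) (-2) (-3), .mk 1 0 0, .mk 0 1 0, .mk 0 0 1] 3 5 2 (.mk 1 1 1 0 0 0 30) 0 0 256 (-8448) 8448 8448 8448 (-8448) 8448
    (.x [.mk (-1) (-1) (-1), .mk (-1) (-2) (-3), .mk 1 0 0, .mk 0 1 0, .mk 0 0 1] 3 5 2 (.mk 1 1 1 0 0 0 30) 0 0 256 (-8448) 8448 (-8448) (-8448) (-8448) 8448
    (.x [.mk (-1) (-1) (-1), .mk (-1) (-2) (-3), .mk 1 0 0, .mk 0 1 0, .mk 0 0 1] 3 5 2 (.mk 1 1 1 0 0 0 30) 0 0 256 (-8448) 8448 (-8448) 8448 8448 8448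
    (.x [.mk (-1) (-1) (-1), .mk (-1) (-2) (-3), .mk 1 0 0, .mk 0 1 0, .mk 0 0 1] 3 5 2 (.mk 1 1 1 0 0 0 30) 0 0 256 (-8448) 8448 (-8448) 8448 (-8448) (-8448)
    (.x [.mk (-1) (-2) (-3), .mk 1 0 0, .mk 0 1 0, .mk 0 0 1] 3 5 2 (.mk 2 2 2 1 1 1 1) 1 1 1 (-1) (-1) (-1) (-1) 0 0
    (.x [.mk (-1) (-2) (-3), .mk 1 0 0, .mk 0 1 0, .mk 0 0 1] 3 5 2 (.mk 2 2 2 1 1 1 1) 1 1 1 (-1) (-1) 0 0 (-1) 0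
    (.x [.mk (-1) (-2) (-3), .mk 1 0 0, .mk 0 1 0, .mk 0 0 1] 3 5 2 (.mk 2 2 2 1 1 1 1) 1 1 1 0 0 (-1) 0 (-1) 0
    (.x [.mk (-1) (-2) (-3), .mk 1 0 0, .mk 0 1 0, .mk 0 0 1] 3 5 2 (.mk 2 2 2 1 1 1 1) 1 1 1 (-26) 0 (-26) 0 1 26
    (.x [.mk (-1) (-2) (-3), .mk 1 0 0, .mk 0 1 0, .mk 0 0 1] 3 5 2 (.mk 2 2 2 1 1 1 1) 1 1 1 (-26) 0 1 26 (-26) 26
    (.x [.mk (-1) (-2) (-3), .mk 1 0 0, .mk 0 1 0, .mk 0 0 1] 3 5 2 (.mk 2 2 2 1 1 1 1) 1 1 1 1 26 (-26) 26 (-26) 26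
    (.x [.mk (-1) (-2) (-3), .mk 1 0 0, .mk 0 1 0, .mk 0 0 1] 3 5 2 (.mk 2 2 2 1 1 1 1) 0 0 256 6912 6912 (-6912) 6912 (-6912) 6912
    (.x [.mk (-1) (-2) (-3), .mk 1 0 0, .mk 0 1 0, .mk 0 0 1] 3 5 2 (.mk 2 2 2 1 1 1 1) 0 0 256 (-6912) (-6912) (-6912) 6912 (-6912) 6912
    (.x [.mk (-1) (-2) (-3), .mk 1 0 0, .mk 0 1 0, .mk 0 0 1] 3 5 2 (.mk 2 2 2 1 1 1 1) 0 0 256 (-6912) 6912 6912 6912 (-6912) 6912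
    (.x [.mk (-1) (-2) (-3), .mk 1 0 0, .mk 0 1 0, .mk 0 0 1] 3 5 2 (.mk 2 2 2 1 1 1 1) 0 0 256 (-6912) 6912 (-6912) (-6912) (-6912) 6912
    (.x [.mk (-1) (-2) (-3), .mk 1 0 0, .mk 0 1 0, .mk 0 0 1] 3 5 2 (.mk 2 2 2 1 1 1 1) 0 0 256 (-6912) 6912 (-6912) 6912 6912 6912
    (.x [.mk (-1) (-2) (-3), .mk 1 0 0, .mk 0 1 0, .mk 0 0 1] 3 5 2 (.mk 2 2 2 1 1 1 1) 0 0 256 (-6912) 6912 (-6912) 6912 (-6912) (-6912)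
    (.o 3 3 5 5 3 3 (.o 2 3 6 6 2 3 (.o 0 3 4 6 4 6 (.o 4 6 0 6 0 6 .nil))))))))))))))))))))))))))))

/-- Goals of `n_th11_7` after part 1. -/
noncomputable def g_th11_7_1 : G :=
  (.x [.mk 1 0 1, .mk (-1) (-1) (-2), .mk 1 1 1, .mk (-2) (-3) (-5), .mk 1 0 0, .mk 0 1 0, .mk 0 0 1] 2 3 6 (.mk 1 1 1 0 0 0 5) 1 1 1 7 29 1 29 6 29
    (.x [.mk 1 0 1, .mk (-1) (-1) (-2), .mk 1 1 1, .mk (-2) (-3) (-5), .mk 1 0 0, .mk 0 1 0, .mk 0 0 1] 2 3 6 (.mk 1 1 1 0 0 0 5) 0 0 256 7680 7680 (-7680) 7680 (-7680) 7680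
    (.x [.mk 1 0 1, .mk (-1) (-1) (-2), .mk 1 1 1, .mk (-2) (-3) (-5), .mk 1 0 0, .mk 0 1 0, .mk 0 0 1] 2 3 6 (.mk 1 1 1 0 0 0 5) 0 0 256 (-7680) (-7680) (-7680) 7680 (-7680) 7680
    (.x [.mk 1 0 1, .mk (-1) (-1) (-2), .mk 1 1 1, .mk (-2) (-3) (-5), .mk 1 0 0, .mk 0 1 0, .mk 0 0 1] 2 3 6 (.mk 1 1 1 0 0 0 5) 0 0 256 (-7680) 7680 7680 7680 (-7680) 7680
    (.x [.mk 1 0 1, .mk (-1) (-1) (-2), .mk 1 1 1, .mk (-2) (-3) (-5), .mk 1 0 0, .mk 0 1 0, .mk 0 0 1] 2 3 6 (.mk 1 1 1 0 0 0 5) 0 0 256 (-7680) 7680 (-7680) (-7680) (-7680) 7680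
    (.x [.mk 1 0 1, .mk (-1) (-1) (-2), .mk 1 1 1, .mk (-2) (-3) (-5), .mk 1 0 0, .mk 0 1 0, .mk 0 0 1] 2 3 6 (.mk 1 1 1 0 0 0 5) 0 0 256 (-7680) 7680 (-7680) 7680 7680 7680
    (.x [.mk 1 0 1, .mk (-1) (-1) (-2), .mk 1 1 1, .mk (-2) (-3) (-5), .mk 1 0 0, .mk 0 1 0, .mk 0 0 1] 2 3 6 (.mk 1 1 1 0 0 0 5) 0 0 256 (-7680) 7680 (-7680) 7680 (-7680) (-7680)
    (.x [.mk (-1) (-1) (-2), .mk 1 1 1, .mk (-2) (-3) (-5), .mk 1 0 0, .mk 0 1 0, .mk 0 0 1] 2 3 6 (.mk 2 2 2 1 0 1 1) 1 1 1 1 4 (-5) 0 (-8) 0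
    (.x [.mk (-1) (-1) (-2), .mk 1 1 1, .mk (-2) (-3) (-5), .mk 1 0 0, .mk 0 1 0, .mk 0 0 1] 2 3 6 (.mk 2 2 2 1 0 1 1) 1 1 1 5 17 (-17) 0 (-17) 0
    (.x [.mk (-1) (-1) (-2), .mk 1 1 1, .mk (-2) (-3) (-5), .mk 1 0 0, .mk 0 1 0, .mk 0 0 1] 2 3 6 (.mk 2 2 2 1 0 1 1) 1 1 1 (-9) 17 (-17) 0 1 17
    (.x [.mk (-1) (-1) (-2), .mk 1 1 1, .mk (-2) (-3) (-5), .mk 1 0 0, .mk 0 1 0, .mk 0 0 1] 2 3 6 (.mk 2 2 2 1 0 1 1) 1 1 1 (-9) 17 1 17 (-17) 17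
    (.x [.mk (-1) (-1) (-2), .mk 1 1 1, .mk (-2) (-3) (-5), .mk 1 0 0, .mk 0 1 0, .mk 0 0 1] 2 3 6 (.mk 2 2 2 1 0 1 1) 0 0 256 4608 4608 (-4608) 4608 (-4608) 4608
    (.x [.mk (-1) (-1) (-2), .mk 1 1 1, .mk (-2) (-3) (-5), .mk 1 0 0, .mk 0 1 0, .mk 0 0 1] 2 3 6 (.mk 2 2 2 1 0 1 1) 0 0 256 (-4608) (-4608) (-4608) 4608 (-4608) 4608
    (.x [.mk (-1) (-1) (-2), .mk 1 1 1, .mk (-2) (-3) (-5), .mk 1 0 0, .mk 0 1 0, .mk 0 0 1] 2 3 6 (.mk 2 2 2 1 0 1 1) 0 0 256 (-4608) 4608 4608 4608 (-4608) 4608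
    (.x [.mk (-1) (-1) (-2), .mk 1 1 1, .mk (-2) (-3) (-5), .mk 1 0 0, .mk 0 1 0, .mk 0 0 1] 2 3 6 (.mk 2 2 2 1 0 1 1) 0 0 256 (-4608) 4608 (-4608) (-4608) (-4608) 4608
    (.x [.mk (-1) (-1) (-2), .mk 1 1 1, .mk (-2) (-3) (-5), .mk 1 0 0, .mk 0 1 0, .mk 0 0 1] 2 3 6 (.mk 2 2 2 1 0 1 1) 0 0 256 (-4608) 4608 (-4608) 4608 4608 4608
    (.x [.mk (-1) (-1) (-2), .mk 1 1 1, .mk (-2) (-3) (-5), .mk 1 0 0, .mk 0 1 0, .mk 0 0 1] 2 3 6 (.mk 2 2 2 1 0 1 1) 0 0 256 (-4608) 4608 (-4608) 4608 (-4608) (-4608)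
    (.x [.mk 1 1 1, .mk (-2) (-3) (-5), .mk 1 0 0, .mk 0 1 0, .mk 0 0 1] 2 3 6 (.mk 2 2 2 1 1 0 1) 1 1 1 0 0 (-2) (-1) (-2) (-1)
    (.x [.mk 1 1 1, .mk (-2) (-3) (-5), .mk 1 0 0, .mk 0 1 0, .mk 0 0 1] 2 3 6 (.mk 2 2 2 1 1 0 1) 1 1 1 (-1) 0 (-2) (-1) 0 0
    (.x [.mk 1 1 1, .mk (-2) (-3) (-5), .mk 1 0 0, .mk 0 1 0, .mk 0 0 1] 2 3 6 (.mk 2 2 2 1 1 0 1) 1 1 1 (-1) 0 0 0 (-2) 0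
    (.x [.mk 1 1 1, .mk (-2) (-3) (-5), .mk 1 0 0, .mk 0 1 0, .mk 0 0 1] 2 3 6 (.mk 2 2 2 1 1 0 1) 1 1 1 1 3 (-3) 0 (-3) 0
    (.x [.mk 1 1 1, .mk (-2) (-3) (-5), .mk 1 0 0, .mk 0 1 0, .mk 0 0 1] 2 3 6 (.mk 2 2 2 1 1 0 1) 1 1 1 4 15 (-15) 0 (-15) 0
    (.x [.mk 1 1 1, .mk (-2) (-3) (-5), .mk 1 0 0, .mk 0 1 0, .mk 0 0 1] 2 3 6 (.mk 2 2 2 1 1 0 1) 1 1 1 (-8) 15 (-15) 0 1 15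
    (.x [.mk 1 1 1, .mk (-2) (-3) (-5), .mk 1 0 0, .mk 0 1 0, .mk 0 0 1] 2 3 6 (.mk 2 2 2 1 1 0 1) 1 1 1 (-8) 15 1 15 (-15) 15
    (.x [.mk 1 1 1, .mk (-2) (-3) (-5), .mk 1 0 0, .mk 0 1 0, .mk 0 0 1] 2 3 6 (.mk 2 2 2 1 1 0 1) 0 0 256 4096 4096 (-4096) 4096 (-4096) 4096
    (.x [.mk 1 1 1, .mk (-2) (-3) (-5), .mk 1 0 0, .mk 0 1 0, .mk 0 0 1] 2 3 6 (.mk 2 2 2 1 1 0 1) 0 0 256 (-4096) (-4096) (-4096) 4096 (-4096) 4096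
    (.x [.mk 1 1 1, .mk (-2) (-3) (-5), .mk 1 0 0, .mk 0 1 0, .mk 0 0 1] 2 3 6 (.mk 2 2 2 1 1 0 1) 0 0 256 (-4096) 4096 4096 4096 (-4096) 4096
    (.x [.mk 1 1 1, .mk (-2) (-3) (-5), .mk 1 0 0, .mk 0 1 0, .mk 0 0 1] 2 3 6 (.mk 2 2 2 1 1 0 1) 0 0 256 (-4096) 4096 (-4096) (-4096) (-4096) 4096
    (.x [.mk 1 1 1, .mk (-2) (-3) (-5), .mk 1 0 0, .mk 0 1 0, .mk 0 0 1] 2 3 6 (.mk 2 2 2 1 1 0 1) 0 0 256 (-4096) 4096 (-4096) 4096 4096 4096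
    (.x [.mk 1 1 1, .mk (-2) (-3) (-5), .mk 1 0 0, .mk 0 1 0, .mk 0 0 1] 2 3 6 (.mk 2 2 2 1 1 0 1) 0 0 256 (-4096) 4096 (-4096) 4096 (-4096) (-4096)
    (.x [.mk (-2) (-3) (-5), .mk 1 0 0, .mk 0 1 0, .mk 0 0 1] 2 3 6 (.mk 2 2 2 1 1 1 1) 1 1 1 1 2 0 0 0 0
    (.x [.mk (-2) (-3) (-5), .mk 1 0 0, .mk 0 1 0, .mk 0 0 1] 2 3 6 (.mk 2 2 2 1 1 1 1) 1 1 1 3 4 (-2) 0 (-1) 0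
    (.x [.mk (-2) (-3) (-5), .mk 1 0 0, .mk 0 1 0, .mk 0 0 1] 2 3 6 (.mk 2 2 2 1 1 1 1) 1 1 1 5 19 (-19) 0 (-19) 0
    (.x [.mk (-2) (-3) (-5), .mk 1 0 0, .mk 0 1 0, .mk 0 0 1] 2 3 6 (.mk 2 2 2 1 1 1 1) 1 1 1 (-10) 19 (-19) 0 1 19
    (.x [.mk (-2) (-3) (-5), .mk 1 0 0, .mk 0 1 0, .mk 0 0 1] 2 3 6 (.mk 2 2 2 1 1 1 1) 1 1 1 (-10) 19 1 19 (-19) 19
    (.x [.mk (-2) (-3) (-5), .mk 1 0 0, .mk 0 1 0, .mk 0 0 1] 2 3 6 (.mk 2 2 2 1 1 1 1) 0 0 256 5120 5120 (-5120) 5120 (-5120) 5120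
    (.x [.mk (-2) (-3) (-5), .mk 1 0 0, .mk 0 1 0, .mk 0 0 1] 2 3 6 (.mk 2 2 2 1 1 1 1) 0 0 256 (-5120) (-5120) (-5120) 5120 (-5120) 5120
    (.x [.mk (-2) (-3) (-5), .mk 1 0 0, .mk 0 1 0, .mk 0 0 1] 2 3 6 (.mk 2 2 2 1 1 1 1) 0 0 256 (-5120) 5120 5120 5120 (-5120) 5120
    (.x [.mk (-2) (-3) (-5), .mk 1 0 0, .mk 0 1 0, .mk 0 0 1] 2 3 6 (.mk 2 2 2 1 1 1 1) 0 0 256 (-5120) 5120 (-5120) (-5120) (-5120) 5120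
    (.x [.mk (-2) (-3) (-5), .mk 1 0 0, .mk 0 1 0, .mk 0 0 1] 2 3 6 (.mk 2 2 2 1 1 1 1) 0 0 256 (-5120) 5120 (-5120) 5120 5120 5120
    (.x [.mk (-2) (-3) (-5), .mk 1 0 0, .mk 0 1 0, .mk 0 0 1] 2 3 6 (.mk 2 2 2 1 1 1 1) 0 0 256 (-5120) 5120 (-5120) 5120 (-5120) (-5120)
    (.o 3 3 2 3 4 6 (.o 0 3 4 6 0 6 (.o 4 6 0 6 0 6 .nil))))))))))))))))))))))))))))))))))))))))))))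

/-- Goals of `n_b12_7` after part 1. -/
noncomputable def g_b12_7_1 : G :=
  (.x [.mk 0 0 1, .mk 0 0 (-1), .mk 1 0 0, .mk 0 1 0, .mk (-1) (-1) 2] 1 5 2 (.mk 2 2 2 0 1 1 1) 1 1 1 (-13) (-11) 4 17 1 9
    (.x [.mk 0 0 1, .mk 0 0 (-1), .mk 1 0 0, .mk 0 1 0, .mk (-1) (-1) 2] 1 5 2 (.mk 2 2 2 0 1 1 1) 1 1 1 (-10) (-4) 4 17 1 9
    (.x [.mk 0 0 1, .mk 0 0 (-1), .mk 1 0 0, .mk 0 1 0, .mk (-1) (-1) 2] 1 5 2 (.mk 2 2 2 0 1 1 1) 1 1 1 (-13) (-4) 4 17 10 17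
    (.x [.mk 0 0 1, .mk 0 0 (-1), .mk 1 0 0, .mk 0 1 0, .mk (-1) (-1) 2] 1 5 2 (.mk 2 2 2 0 1 1 1) 1 1 1 (-3) 0 4 17 1 17
    (.x [.mk 0 0 1, .mk 0 0 (-1), .mk 1 0 0, .mk 0 1 0, .mk (-1) (-1) 2] 1 5 2 (.mk 2 2 2 0 1 1 1) 1 1 1 1 17 (-10) 17 (-17) 17
    (.x [.mk 0 0 1, .mk 0 0 (-1), .mk 1 0 0, .mk 0 1 0, .mk (-1) (-1) 2] 1 5 2 (.mk 2 2 2 0 1 1 1) 0 0 256 4608 4608 (-4608) 4608 (-4608) 4608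
    (.x [.mk 0 0 1, .mk 0 0 (-1), .mk 1 0 0, .mk 0 1 0, .mk (-1) (-1) 2] 1 5 2 (.mk 2 2 2 0 1 1 1) 0 0 256 (-4608) (-4608) (-4608) 4608 (-4608) 4608
    (.x [.mk 0 0 1, .mk 0 0 (-1), .mk 1 0 0, .mk 0 1 0, .mk (-1) (-1) 2] 1 5 2 (.mk 2 2 2 0 1 1 1) 0 0 256 (-4608) 4608 4608 4608 (-4608) 4608
    (.x [.mk 0 0 1, .mk 0 0 (-1), .mk 1 0 0, .mk 0 1 0, .mk (-1) (-1) 2] 1 5 2 (.mk 2 2 2 0 1 1 1) 0 0 256 (-4608) 4608 (-4608) (-4608) (-4608) 4608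
    (.x [.mk 0 0 1, .mk 0 0 (-1), .mk 1 0 0, .mk 0 1 0, .mk (-1) (-1) 2] 1 5 2 (.mk 2 2 2 0 1 1 1) 0 0 256 (-4608) 4608 (-4608) 4608 4608 4608
    (.x [.mk 0 0 1, .mk 0 0 (-1), .mk 1 0 0, .mk 0 1 0, .mk (-1) (-1) 2] 1 5 2 (.mk 2 2 2 0 1 1 1) 0 0 256 (-4608) 4608 (-4608) 4608 (-4608) (-4608)
    (.o 0 1 4 5 3 3 (.o 0 1 6 6 0 3 (.o 2 3 4 6 0 3 (.o 0 3 4 6 4 6 (.o 4 6 0 6 0 6 .nil))))))))))))))))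

/-- Goals of `n_b13_7` after part 1. -/
noncomputable def g_b13_7_1 : G :=
  (.x [.mk 0 0 1, .mk 0 0 (-1), .mk 1 0 0, .mk 0 1 0, .mk (-1) (-1) 3] 1 5 1 (.mk 2 2 2 0 1 1 1) 1 1 1 (-11) (-9) (-6) (-6) 13 18
    (.x [.mk 0 0 1, .mk 0 0 (-1), .mk 1 0 0, .mk 0 1 0, .mk (-1) (-1) 3] 1 5 1 (.mk 2 2 2 0 1 1 1) 1 1 1 (-8) (-6) (-10) (-6) 13 18
    (.x [.mk 0 0 1, .mk 0 0 (-1), .mk 1 0 0, .mk 0 1 0, .mk (-1) (-1) 3] 1 5 1 (.mk 2 2 2 0 1 1 1) 1 1 1 (-11) (-6) (-12) (-6) 19 23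
    (.x [.mk 0 0 1, .mk 0 0 (-1), .mk 1 0 0, .mk 0 1 0, .mk (-1) (-1) 3] 1 5 1 (.mk 2 2 2 0 1 1 1) 1 1 1 (-5) 0 (-12) (-6) 13 23
    (.x [.mk 0 0 1, .mk 0 0 (-1), .mk 1 0 0, .mk 0 1 0, .mk (-1) (-1) 3] 1 5 1 (.mk 2 2 2 0 1 1 1) 1 1 1 (-11) 0 (-5) 0 13 23
    (.x [.mk 0 0 1, .mk 0 0 (-1), .mk 1 0 0, .mk 0 1 0, .mk (-1) (-1) 3] 1 5 1 (.mk 2 2 2 0 1 1 1) 1 1 1 (-23) 0 1 23 (-23) 23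
    (.x [.mk 0 0 1, .mk 0 0 (-1), .mk 1 0 0, .mk 0 1 0, .mk (-1) (-1) 3] 1 5 1 (.mk 2 2 2 0 1 1 1) 1 1 1 1 23 (-23) 23 (-23) 23
    (.x [.mk 0 0 1, .mk 0 0 (-1), .mk 1 0 0, .mk 0 1 0, .mk (-1) (-1) 3] 1 5 1 (.mk 2 2 2 0 1 1 1) 0 0 256 6144 6144 (-6144) 6144 (-6144) 6144
    (.x [.mk 0 0 1, .mk 0 0 (-1), .mk 1 0 0, .mk 0 1 0, .mk (-1) (-1) 3] 1 5 1 (.mk 2 2 2 0 1 1 1) 0 0 256 (-6144) (-6144) (-6144) 6144 (-6144) 6144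
    (.x [.mk 0 0 1, .mk 0 0 (-1), .mk 1 0 0, .mk 0 1 0, .mk (-1) (-1) 3] 1 5 1 (.mk 2 2 2 0 1 1 1) 0 0 256 (-6144) 6144 6144 6144 (-6144) 6144
    (.x [.mk 0 0 1, .mk 0 0 (-1), .mk 1 0 0, .mk 0 1 0, .mk (-1) (-1) 3] 1 5 1 (.mk 2 2 2 0 1 1 1) 0 0 256 (-6144) 6144 (-6144) (-6144) (-6144) 6144
    (.x [.mk 0 0 1, .mk 0 0 (-1), .mk 1 0 0, .mk 0 1 0, .mk (-1) (-1) 3] 1 5 1 (.mk 2 2 2 0 1 1 1) 0 0 256 (-6144) 6144 (-6144) 6144 6144 6144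
    (.x [.mk 0 0 1, .mk 0 0 (-1), .mk 1 0 0, .mk 0 1 0, .mk (-1) (-1) 3] 1 5 1 (.mk 2 2 2 0 1 1 1) 0 0 256 (-6144) 6144 (-6144) 6144 (-6144) (-6144)
    (.o 1 1 5 5 2 2 (.o 0 1 4 5 3 3 (.o 0 1 6 6 0 3 (.o 2 3 4 6 0 3 (.o 0 3 4 6 4 6 (.o 4 6 0 6 0 6 .nil)))))))))))))))))))

/-- Goals of `n_b21_7` after part 1. -/
noncomputable def g_b21_7_1 : G :=
  (.x [.mk 1 0 1, .mk 0 0 1, .mk 0 0 (-1), .mk 1 0 0, .mk 0 1 0, .mk (-2) (-1) 1] 3 2 5 (.mk 2 2 2 1 1 1 1) 0 0 256 (-1280) (-241) (-783) 256 (-2048) (-2048)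
    (.x [.mk 1 0 1, .mk 0 0 1, .mk 0 0 (-1), .mk 1 0 0, .mk 0 1 0, .mk (-2) (-1) 1] 3 2 5 (.mk 2 2 2 1 1 1 1) 0 0 256 (-241) 128 (-783) 256 (-2048) (-2048)
    (.x [.mk 1 0 1, .mk 0 0 1, .mk 0 0 (-1), .mk 1 0 0, .mk 0 1 0, .mk (-2) (-1) 1] 3 2 5 (.mk 2 2 2 1 1 1 1) 0 0 256 (-1280) 128 256 1024 (-2048) (-2048)
    (.x [.mk 1 0 1, .mk 0 0 1, .mk 0 0 (-1), .mk 1 0 0, .mk 0 1 0, .mk (-2) (-1) 1] 3 2 5 (.mk 2 2 2 1 1 1 1) 0 0 256 128 1024 (-1152) 1024 (-2048) (-2048)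
    (.x [.mk 1 0 1, .mk 0 0 1, .mk 0 0 (-1), .mk 1 0 0, .mk 0 1 0, .mk (-2) (-1) 1] 3 2 5 (.mk 2 2 2 1 1 1 1) 0 0 256 (-2048) 1024 1024 2048 (-2048) (-2048)
    (.x [.mk 1 0 1, .mk 0 0 1, .mk 0 0 (-1), .mk 1 0 0, .mk 0 1 0, .mk (-2) (-1) 1] 3 2 5 (.mk 2 2 2 1 1 1 1) 0 0 256 1024 2048 (-2048) 2048 (-2048) (-2048)
    (.x [.mk 0 0 1, .mk 0 0 (-1), .mk 1 0 0, .mk 0 1 0, .mk (-2) (-1) 1] 3 2 5 (.mk 2 2 2 1 0 1 1) 1 1 1 (-18) 0 (-18) 0 1 18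
    (.x [.mk 0 0 1, .mk 0 0 (-1), .mk 1 0 0, .mk 0 1 0, .mk (-2) (-1) 1] 3 2 5 (.mk 2 2 2 1 0 1 1) 1 1 1 (-18) 0 1 18 (-18) 18
    (.x [.mk 0 0 1, .mk 0 0 (-1), .mk 1 0 0, .mk 0 1 0, .mk (-2) (-1) 1] 3 2 5 (.mk 2 2 2 1 0 1 1) 1 1 1 1 18 (-18) 18 (-18) 18
    (.x [.mk 0 0 1, .mk 0 0 (-1), .mk 1 0 0, .mk 0 1 0, .mk (-2) (-1) 1] 3 2 5 (.mk 2 2 2 1 0 1 1) 0 0 256 4864 4864 (-4864) 4864 (-4864) 4864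
    (.x [.mk 0 0 1, .mk 0 0 (-1), .mk 1 0 0, .mk 0 1 0, .mk (-2) (-1) 1] 3 2 5 (.mk 2 2 2 1 0 1 1) 0 0 256 (-4864) (-4864) (-4864) 4864 (-4864) 4864
    (.x [.mk 0 0 1, .mk 0 0 (-1), .mk 1 0 0, .mk 0 1 0, .mk (-2) (-1) 1] 3 2 5 (.mk 2 2 2 1 0 1 1) 0 0 256 (-4864) 4864 4864 4864 (-4864) 4864
    (.x [.mk 0 0 1, .mk 0 0 (-1), .mk 1 0 0, .mk 0 1 0, .mk (-2) (-1) 1] 3 2 5 (.mk 2 2 2 1 0 1 1) 0 0 256 (-4864) 4864 (-4864) (-4864) (-4864) 4864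
    (.x [.mk 0 0 1, .mk 0 0 (-1), .mk 1 0 0, .mk 0 1 0, .mk (-2) (-1) 1] 3 2 5 (.mk 2 2 2 1 0 1 1) 0 0 256 (-4864) 4864 (-4864) 4864 4864 4864
    (.x [.mk 0 0 1, .mk 0 0 (-1), .mk 1 0 0, .mk 0 1 0, .mk (-2) (-1) 1] 3 2 5 (.mk 2 2 2 1 0 1 1) 0 0 256 (-4864) 4864 (-4864) 4864 (-4864) (-4864)
    (.o 3 3 1 2 6 6 (.o 3 3 3 3 4 6 (.o 0 3 4 6 0 6 (.o 4 6 0 6 0 6 .nil)))))))))))))))))))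

/-- Goals of `n_b23_7` after part 1. -/
noncomputable def g_b23_7_1 : G :=
  (.x [.mk 0 0 1, .mk 0 0 (-1), .mk 1 0 0, .mk 0 1 0, .mk (-2) (-1) 3] 3 2 5 (.mk 2 2 2 1 0 1 1) 1 1 1 (-17) 0 (-17) (-12) 1 17
    (.x [.mk 0 0 1, .mk 0 0 (-1), .mk 1 0 0, .mk 0 1 0, .mk (-2) (-1) 3] 3 2 5 (.mk 2 2 2 1 0 1 1) 1 1 1 (-17) 0 (-11) 0 1 17
    (.x [.mk 0 0 1, .mk 0 0 (-1), .mk 1 0 0, .mk 0 1 0, .mk (-2) (-1) 3] 3 2 5 (.mk 2 2 2 1 0 1 1) 1 1 1 (-17) 0 1 17 (-17) 17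
    (.x [.mk 0 0 1, .mk 0 0 (-1), .mk 1 0 0, .mk 0 1 0, .mk (-2) (-1) 3] 3 2 5 (.mk 2 2 2 1 0 1 1) 1 1 1 1 17 (-17) 17 (-17) 17
    (.x [.mk 0 0 1, .mk 0 0 (-1), .mk 1 0 0, .mk 0 1 0, .mk (-2) (-1) 3] 3 2 5 (.mk 2 2 2 1 0 1 1) 0 0 256 4608 4608 (-4608) 4608 (-4608) 4608
    (.x [.mk 0 0 1, .mk 0 0 (-1), .mk 1 0 0, .mk 0 1 0, .mk (-2) (-1) 3] 3 2 5 (.mk 2 2 2 1 0 1 1) 0 0 256 (-4608) (-4608) (-4608) 4608 (-4608) 4608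
    (.x [.mk 0 0 1, .mk 0 0 (-1), .mk 1 0 0, .mk 0 1 0, .mk (-2) (-1) 3] 3 2 5 (.mk 2 2 2 1 0 1 1) 0 0 256 (-4608) 4608 4608 4608 (-4608) 4608
    (.x [.mk 0 0 1, .mk 0 0 (-1), .mk 1 0 0, .mk 0 1 0, .mk (-2) (-1) 3] 3 2 5 (.mk 2 2 2 1 0 1 1) 0 0 256 (-4608) 4608 (-4608) (-4608) (-4608) 4608
    (.x [.mk 0 0 1, .mk 0 0 (-1), .mk 1 0 0, .mk 0 1 0, .mk (-2) (-1) 3] 3 2 5 (.mk 2 2 2 1 0 1 1) 0 0 256 (-4608) 4608 (-4608) 4608 4608 4608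
    (.x [.mk 0 0 1, .mk 0 0 (-1), .mk 1 0 0, .mk 0 1 0, .mk (-2) (-1) 3] 3 2 5 (.mk 2 2 2 1 0 1 1) 0 0 256 (-4608) 4608 (-4608) 4608 (-4608) (-4608)
    (.o 3 3 1 2 6 6 (.o 3 3 3 3 4 6 (.o 0 3 4 6 0 6 (.o 4 6 0 6 0 6 .nil))))))))))))))

/-- Goals of `n_WU1_7` after part 1. -/
noncomputable def g_WU1_7_1 : G :=
  (.x [.mk (-1) 2 (-1), .mk 1 0 0, .mk 0 1 0, .mk (-1) (-1) 0, .mk 0 0 1] 1 2 4 (.mk 2 2 2 0 1 1 1) 0 0 256 (-2390) 1792 3584 3584 (-3584) 1792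
    (.x [.mk (-1) 2 (-1), .mk 1 0 0, .mk 0 1 0, .mk (-1) (-1) 0, .mk 0 0 1] 1 2 4 (.mk 2 2 2 0 1 1 1) 0 0 256 (-3584) 1792 3584 3584 1792 3584
    (.x [.mk (-1) 2 (-1), .mk 1 0 0, .mk 0 1 0, .mk (-1) (-1) 0, .mk 0 0 1] 1 2 4 (.mk 2 2 2 0 1 1 1) 0 0 256 1792 3584 3584 3584 (-3584) 3584
    (.x [.mk (-1) 2 (-1), .mk 1 0 0, .mk 0 1 0, .mk (-1) (-1) 0, .mk 0 0 1] 1 2 4 (.mk 2 2 2 0 1 1 1) 0 0 256 (-3584) 3584 (-3584) (-3584) (-3584) 3584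
    (.x [.mk (-1) 2 (-1), .mk 1 0 0, .mk 0 1 0, .mk (-1) (-1) 0, .mk 0 0 1] 1 2 4 (.mk 2 2 2 0 1 1 1) 0 0 256 (-3584) 3584 (-3584) 3584 3584 3584
    (.x [.mk (-1) 2 (-1), .mk 1 0 0, .mk 0 1 0, .mk (-1) (-1) 0, .mk 0 0 1] 1 2 4 (.mk 2 2 2 0 1 1 1) 0 0 256 (-3584) 3584 (-3584) 3584 (-3584) (-3584)
    (.x [.mk 1 0 0, .mk 0 1 0, .mk (-1) (-1) 0, .mk 0 0 1] 1 2 4 (.mk 1 1 0 0 0 (-1) 0) 1 1 1 0 0 1 2 0 0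
    (.x [.mk 1 0 0, .mk 0 1 0, .mk (-1) (-1) 0, .mk 0 0 1] 1 2 4 (.mk 1 1 0 0 0 (-1) 0) 1 1 1 (-1) 0 3 3 0 0
    (.x [.mk 1 0 0, .mk 0 1 0, .mk (-1) (-1) 0, .mk 0 0 1] 1 2 4 (.mk 1 1 0 0 0 (-1) 0) 1 1 1 (-4) 0 4 6 0 0
    (.x [.mk 1 0 0, .mk 0 1 0, .mk (-1) (-1) 0, .mk 0 0 1] 1 2 4 (.mk 1 1 0 0 0 (-1) 0) 1 1 1 (-4) 0 7 11 0 0
    (.x [.mk 1 0 0, .mk 0 1 0, .mk (-1) (-1) 0, .mk 0 0 1] 1 2 4 (.mk 1 1 0 0 0 (-1) 0) 1 1 1 (-10) 0 12 21 0 0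
    (.x [.mk 1 0 0, .mk 0 1 0, .mk (-1) (-1) 0, .mk 0 0 1] 1 2 4 (.mk 1 1 0 0 0 (-1) 0) 1 1 1 1 21 (-21) 21 0 0
    (.x [.mk 1 0 0, .mk 0 1 0, .mk (-1) (-1) 0, .mk 0 0 1] 1 2 4 (.mk 1 1 0 0 0 (-1) 0) 0 0 256 5632 5632 (-5632) 5632 0 0
    (.x [.mk 1 0 0, .mk 0 1 0, .mk (-1) (-1) 0, .mk 0 0 1] 1 2 4 (.mk 1 1 0 0 0 (-1) 0) 0 0 256 (-5632) (-5632) (-5632) 5632 0 0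
    (.x [.mk 1 0 0, .mk 0 1 0, .mk (-1) (-1) 0, .mk 0 0 1] 1 2 4 (.mk 1 1 0 0 0 (-1) 0) 0 0 256 (-5632) 5632 5632 5632 0 0
    (.x [.mk 1 0 0, .mk 0 1 0, .mk (-1) (-1) 0, .mk 0 0 1] 1 2 4 (.mk 1 1 0 0 0 (-1) 0) 0 0 256 (-5632) 5632 (-5632) (-5632) 0 0
    (.o 0 1 3 3 4 4 (.o 2 3 0 3 4 4 (.o 0 3 4 6 4 4 (.o 4 6 0 6 4 4 .nil))))))))))))))))))))

/-- Goals of `n_WU1_7` after part 2. -/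
noncomputable def g_WU1_7_2 : G :=
  (.x [.mk 0 0 (-1), .mk 1 0 0, .mk 0 1 0, .mk (-1) (-1) 0, .mk 0 0 1] 1 5 4 (.mk 2 2 2 0 1 1 1) 1 1 1 (-3) 0 (-3) (-2) 9 15
    (.x [.mk 0 0 (-1), .mk 1 0 0, .mk 0 1 0, .mk (-1) (-1) 0, .mk 0 0 1] 1 5 4 (.mk 2 2 2 0 1 1 1) 1 1 1 (-3) 0 (-1) 0 9 15
    (.x [.mk 0 0 (-1), .mk 1 0 0, .mk 0 1 0, .mk (-1) (-1) 0, .mk 0 0 1] 1 5 4 (.mk 2 2 2 0 1 1 1) 1 1 1 (-15) 0 1 15 (-15) 15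
    (.x [.mk 0 0 (-1), .mk 1 0 0, .mk 0 1 0, .mk (-1) (-1) 0, .mk 0 0 1] 1 5 4 (.mk 2 2 2 0 1 1 1) 1 1 1 1 15 (-15) 15 (-15) 15
    (.x [.mk 0 0 (-1), .mk 1 0 0, .mk 0 1 0, .mk (-1) (-1) 0, .mk 0 0 1] 1 5 4 (.mk 2 2 2 0 1 1 1) 0 0 256 4096 4096 (-4096) 4096 (-4096) 4096
    (.x [.mk 0 0 (-1), .mk 1 0 0, .mk 0 1 0, .mk (-1) (-1) 0, .mk 0 0 1] 1 5 4 (.mk 2 2 2 0 1 1 1) 0 0 256 (-4096) (-4096) (-4096) 4096 (-4096) 4096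
    (.x [.mk 0 0 (-1), .mk 1 0 0, .mk 0 1 0, .mk (-1) (-1) 0, .mk 0 0 1] 1 5 4 (.mk 2 2 2 0 1 1 1) 0 0 256 (-4096) 4096 4096 4096 (-4096) 4096
    (.x [.mk 0 0 (-1), .mk 1 0 0, .mk 0 1 0, .mk (-1) (-1) 0, .mk 0 0 1] 1 5 4 (.mk 2 2 2 0 1 1 1) 0 0 256 (-4096) 4096 (-4096) (-4096) (-4096) 4096
    (.x [.mk 0 0 (-1), .mk 1 0 0, .mk 0 1 0, .mk (-1) (-1) 0, .mk 0 0 1] 1 5 4 (.mk 2 2 2 0 1 1 1) 0 0 256 (-4096) 4096 (-4096) 4096 4096 4096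
    (.x [.mk 0 0 (-1), .mk 1 0 0, .mk 0 1 0, .mk (-1) (-1) 0, .mk 0 0 1] 1 5 4 (.mk 2 2 2 0 1 1 1) 0 0 256 (-4096) 4096 (-4096) 4096 (-4096) (-4096)
    (.x [.mk 1 0 0, .mk 0 1 0, .mk (-1) (-1) 0, .mk 0 0 1] 1 5 4 (.mk 1 1 0 0 0 (-1) 0) 1 1 1 (-20) 0 1 20 0 0
    (.x [.mk 1 0 0, .mk 0 1 0, .mk (-1) (-1) 0, .mk 0 0 1] 1 5 4 (.mk 1 1 0 0 0 (-1) 0) 1 1 1 1 20 (-20) 20 0 0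
    (.x [.mk 1 0 0, .mk 0 1 0, .mk (-1) (-1) 0, .mk 0 0 1] 1 5 4 (.mk 1 1 0 0 0 (-1) 0) 0 0 256 5376 5376 (-5376) 5376 0 0
    (.x [.mk 1 0 0, .mk 0 1 0, .mk (-1) (-1) 0, .mk 0 0 1] 1 5 4 (.mk 1 1 0 0 0 (-1) 0) 0 0 256 (-5376) (-5376) (-5376) 5376 0 0
    (.x [.mk 1 0 0, .mk 0 1 0, .mk (-1) (-1) 0, .mk 0 0 1] 1 5 4 (.mk 1 1 0 0 0 (-1) 0) 0 0 256 (-5376) 5376 5376 5376 0 0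
    (.x [.mk 1 0 0, .mk 0 1 0, .mk (-1) (-1) 0, .mk 0 0 1] 1 5 4 (.mk 1 1 0 0 0 (-1) 0) 0 0 256 (-5376) 5376 (-5376) (-5376) 0 0
    (.o 1 1 6 6 4 4 (.o 2 3 4 6 4 4 (.o 4 6 0 6 4 4 .nil)))))))))))))))))))

/-- Goals of `n_WU1_7_1` after part 1. -/
noncomputable def g_WU1_7_1_1 : G :=
  (.x [.mk 1 0 (-1), .mk 1 (-1) (-1), .mk (-2) (-3) (-1), .mk 1 0 0, .mk 0 1 0, .mk (-1) (-1) 0, .mk 0 0 1] 2 4 1 (.mk 1 1 1 0 0 0 2) 0 0 256 3037 4096 (-2962) 4096 (-4096) (-4096)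
    (.x [.mk 1 (-1) (-1), .mk (-2) (-3) (-1), .mk 1 0 0, .mk 0 1 0, .mk (-1) (-1) 0, .mk 0 0 1] 2 4 1 (.mk 2 2 2 1 0 1 1) 1 1 1 0 0 0 0 0 0
    (.x [.mk 1 (-1) (-1), .mk (-2) (-3) (-1), .mk 1 0 0, .mk 0 1 0, .mk (-1) (-1) 0, .mk 0 0 1] 2 4 1 (.mk 2 2 2 1 0 1 1) 1 1 1 (-10) 0 (-10) 0 1 10
    (.x [.mk 1 (-1) (-1), .mk (-2) (-3) (-1), .mk 1 0 0, .mk 0 1 0, .mk (-1) (-1) 0, .mk 0 0 1] 2 4 1 (.mk 2 2 2 1 0 1 1) 1 1 1 (-10) 0 1 10 (-10) 10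
    (.x [.mk 1 (-1) (-1), .mk (-2) (-3) (-1), .mk 1 0 0, .mk 0 1 0, .mk (-1) (-1) 0, .mk 0 0 1] 2 4 1 (.mk 2 2 2 1 0 1 1) 1 1 1 1 10 (-10) 10 (-10) 10
    (.x [.mk 1 (-1) (-1), .mk (-2) (-3) (-1), .mk 1 0 0, .mk 0 1 0, .mk (-1) (-1) 0, .mk 0 0 1] 2 4 1 (.mk 2 2 2 1 0 1 1) 0 0 256 2816 2816 (-2816) 2816 (-2816) 2816
    (.x [.mk 1 (-1) (-1), .mk (-2) (-3) (-1), .mk 1 0 0, .mk 0 1 0, .mk (-1) (-1) 0, .mk 0 0 1] 2 4 1 (.mk 2 2 2 1 0 1 1) 0 0 256 (-2816) (-2816) (-2816) 2816 (-2816) 2816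
    (.x [.mk 1 (-1) (-1), .mk (-2) (-3) (-1), .mk 1 0 0, .mk 0 1 0, .mk (-1) (-1) 0, .mk 0 0 1] 2 4 1 (.mk 2 2 2 1 0 1 1) 0 0 256 (-2816) 2816 2816 2816 (-2816) 2816
    (.x [.mk 1 (-1) (-1), .mk (-2) (-3) (-1), .mk 1 0 0, .mk 0 1 0, .mk (-1) (-1) 0, .mk 0 0 1] 2 4 1 (.mk 2 2 2 1 0 1 1) 0 0 256 (-2816) 2816 (-2816) (-2816) (-2816) 2816
    (.x [.mk 1 (-1) (-1), .mk (-2) (-3) (-1), .mk 1 0 0, .mk 0 1 0, .mk (-1) (-1) 0, .mk 0 0 1] 2 4 1 (.mk 2 2 2 1 0 1 1) 0 0 256 (-2816) 2816 (-2816) 2816 2816 2816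
    (.x [.mk 1 (-1) (-1), .mk (-2) (-3) (-1), .mk 1 0 0, .mk 0 1 0, .mk (-1) (-1) 0, .mk 0 0 1] 2 4 1 (.mk 2 2 2 1 0 1 1) 0 0 256 (-2816) 2816 (-2816) 2816 (-2816) (-2816)
    (.x [.mk (-2) (-3) (-1), .mk 1 0 0, .mk 0 1 0, .mk (-1) (-1) 0, .mk 0 0 1] 2 4 1 (.mk 2 2 2 1 1 1 1) 1 1 1 0 0 (-1) (-1) 0 0
    (.x [.mk (-2) (-3) (-1), .mk 1 0 0, .mk 0 1 0, .mk (-1) (-1) 0, .mk 0 0 1] 2 4 1 (.mk 2 2 2 1 1 1 1) 1 1 1 0 0 0 0 (-1) 0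
    (.x [.mk (-2) (-3) (-1), .mk 1 0 0, .mk 0 1 0, .mk (-1) (-1) 0, .mk 0 0 1] 2 4 1 (.mk 2 2 2 1 1 1 1) 1 1 1 (-21) 0 (-21) 0 1 21
    (.x [.mk (-2) (-3) (-1), .mk 1 0 0, .mk 0 1 0, .mk (-1) (-1) 0, .mk 0 0 1] 2 4 1 (.mk 2 2 2 1 1 1 1) 1 1 1 (-21) 0 1 21 (-21) 21
    (.x [.mk (-2) (-3) (-1), .mk 1 0 0, .mk 0 1 0, .mk (-1) (-1) 0, .mk 0 0 1] 2 4 1 (.mk 2 2 2 1 1 1 1) 1 1 1 1 21 (-21) 21 (-21) 21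
    (.x [.mk (-2) (-3) (-1), .mk 1 0 0, .mk 0 1 0, .mk (-1) (-1) 0, .mk 0 0 1] 2 4 1 (.mk 2 2 2 1 1 1 1) 0 0 256 5632 5632 (-5632) 5632 (-5632) 5632
    (.x [.mk (-2) (-3) (-1), .mk 1 0 0, .mk 0 1 0, .mk (-1) (-1) 0, .mk 0 0 1] 2 4 1 (.mk 2 2 2 1 1 1 1) 0 0 256 (-5632) (-5632) (-5632) 5632 (-5632) 5632
    (.x [.mk (-2) (-3) (-1), .mk 1 0 0, .mk 0 1 0, .mk (-1) (-1) 0, .mk 0 0 1] 2 4 1 (.mk 2 2 2 1 1 1 1) 0 0 256 (-5632) 5632 5632 5632 (-5632) 5632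
    (.x [.mk (-2) (-3) (-1), .mk 1 0 0, .mk 0 1 0, .mk (-1) (-1) 0, .mk 0 0 1] 2 4 1 (.mk 2 2 2 1 1 1 1) 0 0 256 (-5632) 5632 (-5632) (-5632) (-5632) 5632
    (.x [.mk (-2) (-3) (-1), .mk 1 0 0, .mk 0 1 0, .mk (-1) (-1) 0, .mk 0 0 1] 2 4 1 (.mk 2 2 2 1 1 1 1) 0 0 256 (-5632) 5632 (-5632) 5632 5632 5632
    (.x [.mk (-2) (-3) (-1), .mk 1 0 0, .mk 0 1 0, .mk (-1) (-1) 0, .mk 0 0 1] 2 4 1 (.mk 2 2 2 1 1 1 1) 0 0 256 (-5632) 5632 (-5632) 5632 (-5632) (-5632)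
    (.x [.mk 1 0 0, .mk 0 1 0, .mk (-1) (-1) 0, .mk 0 0 1] 2 4 1 (.mk 1 1 0 0 0 (-1) 0) 1 1 1 (-2) (-2) (-2) (-2) 0 0
    (.x [.mk 1 0 0, .mk 0 1 0, .mk (-1) (-1) 0, .mk 0 0 1] 2 4 1 (.mk 1 1 0 0 0 (-1) 0) 1 1 1 (-1) (-1) (-3) (-2) 0 0
    (.x [.mk 1 0 0, .mk 0 1 0, .mk (-1) (-1) 0, .mk 0 0 1] 2 4 1 (.mk 1 1 0 0 0 (-1) 0) 1 1 1 (-4) (-1) (-1) 1 0 0
    (.x [.mk 1 0 0, .mk 0 1 0, .mk (-1) (-1) 0, .mk 0 0 1] 2 4 1 (.mk 1 1 0 0 0 (-1) 0) 1 1 1 0 2 (-5) 1 0 0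
    (.x [.mk 1 0 0, .mk 0 1 0, .mk (-1) (-1) 0, .mk 0 0 1] 2 4 1 (.mk 1 1 0 0 0 (-1) 0) 1 1 1 (-4) 2 2 7 0 0
    (.x [.mk 1 0 0, .mk 0 1 0, .mk (-1) (-1) 0, .mk 0 0 1] 2 4 1 (.mk 1 1 0 0 0 (-1) 0) 1 1 1 3 8 (-5) 7 0 0
    (.x [.mk 1 0 0, .mk 0 1 0, .mk (-1) (-1) 0, .mk 0 0 1] 2 4 1 (.mk 1 1 0 0 0 (-1) 0) 1 1 1 (-4) 8 8 8 0 0
    (.x [.mk 1 0 0, .mk 0 1 0, .mk (-1) (-1) 0, .mk 0 0 1] 2 4 1 (.mk 1 1 0 0 0 (-1) 0) 0 0 256 2304 2304 (-2304) 2304 0 0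
    (.x [.mk 1 0 0, .mk 0 1 0, .mk (-1) (-1) 0, .mk 0 0 1] 2 4 1 (.mk 1 1 0 0 0 (-1) 0) 0 0 256 (-2304) (-2304) (-2304) 2304 0 0
    (.x [.mk 1 0 0, .mk 0 1 0, .mk (-1) (-1) 0, .mk 0 0 1] 2 4 1 (.mk 1 1 0 0 0 (-1) 0) 0 0 256 (-2304) 2304 2304 2304 0 0
    (.x [.mk 1 0 0, .mk 0 1 0, .mk (-1) (-1) 0, .mk 0 0 1] 2 4 1 (.mk 1 1 0 0 0 (-1) 0) 0 0 256 (-2304) 2304 (-2304) (-2304) 0 0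
    (.o 2 2 5 5 1 1 (.o 3 3 3 5 1 1 (.o 0 3 6 6 1 1 (.o 4 6 0 6 1 1 .nil)))))))))))))))))))))))))))))))))))))

/-- Goals of `n_WU1_7_1` after part 2. -/
noncomputable def g_WU1_7_1_2 : G :=
  (.x [.mk 0 (-5) (-5), .mk (-1) 1 3, .mk (-1) (-2) (-1), .mk 1 0 0, .mk 0 1 0, .mk (-1) (-1) 0, .mk 0 0 1] 2 4 1 (.mk 1 1 1 0 0 0 12) 1 1 1 (-2) (-1) (-22) (-21) (-21) (-20)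
    (.x [.mk 0 (-5) (-5), .mk (-1) 1 3, .mk (-1) (-2) (-1), .mk 1 0 0, .mk 0 1 0, .mk (-1) (-1) 0, .mk 0 0 1] 2 4 1 (.mk 1 1 1 0 0 0 12) 1 1 1 0 0 (-22) (-21) (-21) (-20)
    (.x [.mk 0 (-5) (-5), .mk (-1) 1 3, .mk (-1) (-2) (-1), .mk 1 0 0, .mk 0 1 0, .mk (-1) (-1) 0, .mk 0 0 1] 2 4 1 (.mk 1 1 1 0 0 0 12) 1 1 1 (-2) 0 (-20) (-20) (-24) (-20)
    (.x [.mk 0 (-5) (-5), .mk (-1) 1 3, .mk (-1) (-2) (-1), .mk 1 0 0, .mk 0 1 0, .mk (-1) (-1) 0, .mk 0 0 1] 2 4 1 (.mk 1 1 1 0 0 0 12) 1 1 1 (-20) 0 (-39) (-20) (-19) 0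
    (.x [.mk 0 (-5) (-5), .mk (-1) 1 3, .mk (-1) (-2) (-1), .mk 1 0 0, .mk 0 1 0, .mk (-1) (-1) 0, .mk 0 0 1] 2 4 1 (.mk 1 1 1 0 0 0 12) 1 1 1 (-20) 0 (-19) 0 (-39) 0
    (.x [.mk 0 (-5) (-5), .mk (-1) 1 3, .mk (-1) (-2) (-1), .mk 1 0 0, .mk 0 1 0, .mk (-1) (-1) 0, .mk 0 0 1] 2 4 1 (.mk 1 1 1 0 0 0 12) 1 1 1 (-39) 0 (-39) 0 1 39
    (.x [.mk 0 (-5) (-5), .mk (-1) 1 3, .mk (-1) (-2) (-1), .mk 1 0 0, .mk 0 1 0, .mk (-1) (-1) 0, .mk 0 0 1] 2 4 1 (.mk 1 1 1 0 0 0 12) 1 1 1 (-39) 0 1 39 (-39) 39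
    (.x [.mk 0 (-5) (-5), .mk (-1) 1 3, .mk (-1) (-2) (-1), .mk 1 0 0, .mk 0 1 0, .mk (-1) (-1) 0, .mk 0 0 1] 2 4 1 (.mk 1 1 1 0 0 0 12) 1 1 1 1 39 (-39) 39 (-39) 39
    (.x [.mk 0 (-5) (-5), .mk (-1) 1 3, .mk (-1) (-2) (-1), .mk 1 0 0, .mk 0 1 0, .mk (-1) (-1) 0, .mk 0 0 1] 2 4 1 (.mk 1 1 1 0 0 0 12) 0 0 256 10240 10240 (-10240) 10240 (-10240) 10240
    (.x [.mk 0 (-5) (-5), .mk (-1) 1 3, .mk (-1) (-2) (-1), .mk 1 0 0, .mk 0 1 0, .mk (-1) (-1) 0, .mk 0 0 1] 2 4 1 (.mk 1 1 1 0 0 0 12) 0 0 256 (-10240) (-10240) (-10240) 10240 (-10240) 10240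
    (.x [.mk 0 (-5) (-5), .mk (-1) 1 3, .mk (-1) (-2) (-1), .mk 1 0 0, .mk 0 1 0, .mk (-1) (-1) 0, .mk 0 0 1] 2 4 1 (.mk 1 1 1 0 0 0 12) 0 0 256 (-10240) 10240 10240 10240 (-10240) 10240
    (.x [.mk 0 (-5) (-5), .mk (-1) 1 3, .mk (-1) (-2) (-1), .mk 1 0 0, .mk 0 1 0, .mk (-1) (-1) 0, .mk 0 0 1] 2 4 1 (.mk 1 1 1 0 0 0 12) 0 0 256 (-10240) 10240 (-10240) (-10240) (-10240) 10240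
    (.x [.mk 0 (-5) (-5), .mk (-1) 1 3, .mk (-1) (-2) (-1), .mk 1 0 0, .mk 0 1 0, .mk (-1) (-1) 0, .mk 0 0 1] 2 4 1 (.mk 1 1 1 0 0 0 12) 0 0 256 (-10240) 10240 (-10240) 10240 10240 10240
    (.x [.mk 0 (-5) (-5), .mk (-1) 1 3, .mk (-1) (-2) (-1), .mk 1 0 0, .mk 0 1 0, .mk (-1) (-1) 0, .mk 0 0 1] 2 4 1 (.mk 1 1 1 0 0 0 12) 0 0 256 (-10240) 10240 (-10240) 10240 (-10240) (-10240)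
    (.x [.mk (-1) 1 3, .mk (-1) (-2) (-1), .mk 1 0 0, .mk 0 1 0, .mk (-1) (-1) 0, .mk 0 0 1] 2 4 1 (.mk 2 2 2 0 1 1 1) 1 1 1 (-1) 0 (-4) (-3) (-2) (-2)
    (.x [.mk (-1) 1 3, .mk (-1) (-2) (-1), .mk 1 0 0, .mk 0 1 0, .mk (-1) (-1) 0, .mk 0 0 1] 2 4 1 (.mk 2 2 2 0 1 1 1) 1 1 1 (-1) 0 (-2) (-2) (-4) (-2)
    (.x [.mk (-1) 1 3, .mk (-1) (-2) (-1), .mk 1 0 0, .mk 0 1 0, .mk (-1) (-1) 0, .mk 0 0 1] 2 4 1 (.mk 2 2 2 0 1 1 1) 1 1 1 (-2) 0 (-4) (-2) (-1) 0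
    (.x [.mk (-1) 1 3, .mk (-1) (-2) (-1), .mk 1 0 0, .mk 0 1 0, .mk (-1) (-1) 0, .mk 0 0 1] 2 4 1 (.mk 2 2 2 0 1 1 1) 1 1 1 (-2) 0 (-1) 0 (-4) 0
    (.x [.mk (-1) 1 3, .mk (-1) (-2) (-1), .mk 1 0 0, .mk 0 1 0, .mk (-1) (-1) 0, .mk 0 0 1] 2 4 1 (.mk 2 2 2 0 1 1 1) 1 1 1 (-22) 0 (-22) 0 1 22
    (.x [.mk (-1) 1 3, .mk (-1) (-2) (-1), .mk 1 0 0, .mk 0 1 0, .mk (-1) (-1) 0, .mk 0 0 1] 2 4 1 (.mk 2 2 2 0 1 1 1) 1 1 1 (-22) 0 1 22 (-22) 22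
    (.x [.mk (-1) 1 3, .mk (-1) (-2) (-1), .mk 1 0 0, .mk 0 1 0, .mk (-1) (-1) 0, .mk 0 0 1] 2 4 1 (.mk 2 2 2 0 1 1 1) 1 1 1 1 22 (-22) 22 (-22) 22
    (.x [.mk (-1) 1 3, .mk (-1) (-2) (-1), .mk 1 0 0, .mk 0 1 0, .mk (-1) (-1) 0, .mk 0 0 1] 2 4 1 (.mk 2 2 2 0 1 1 1) 0 0 256 5888 5888 (-5888) 5888 (-5888) 5888
    (.x [.mk (-1) 1 3, .mk (-1) (-2) (-1), .mk 1 0 0, .mk 0 1 0, .mk (-1) (-1) 0, .mk 0 0 1] 2 4 1 (.mk 2 2 2 0 1 1 1) 0 0 256 (-5888) (-5888) (-5888) 5888 (-5888) 5888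
    (.x [.mk (-1) 1 3, .mk (-1) (-2) (-1), .mk 1 0 0, .mk 0 1 0, .mk (-1) (-1) 0, .mk 0 0 1] 2 4 1 (.mk 2 2 2 0 1 1 1) 0 0 256 (-5888) 5888 5888 5888 (-5888) 5888
    (.x [.mk (-1) 1 3, .mk (-1) (-2) (-1), .mk 1 0 0, .mk 0 1 0, .mk (-1) (-1) 0, .mk 0 0 1] 2 4 1 (.mk 2 2 2 0 1 1 1) 0 0 256 (-5888) 5888 (-5888) (-5888) (-5888) 5888
    (.x [.mk (-1) 1 3, .mk (-1) (-2) (-1), .mk 1 0 0, .mk 0 1 0, .mk (-1) (-1) 0, .mk 0 0 1] 2 4 1 (.mk 2 2 2 0 1 1 1) 0 0 256 (-5888) 5888 (-5888) 5888 5888 5888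
    (.x [.mk (-1) 1 3, .mk (-1) (-2) (-1), .mk 1 0 0, .mk 0 1 0, .mk (-1) (-1) 0, .mk 0 0 1] 2 4 1 (.mk 2 2 2 0 1 1 1) 0 0 256 (-5888) 5888 (-5888) 5888 (-5888) (-5888)
    (.x [.mk (-1) (-2) (-1), .mk 1 0 0, .mk 0 1 0, .mk (-1) (-1) 0, .mk 0 0 1] 2 4 1 (.mk 2 2 2 1 1 1 1) 1 1 1 (-1) (-1) 0 0 2 2
    (.x [.mk (-1) (-2) (-1), .mk 1 0 0, .mk 0 1 0, .mk (-1) (-1) 0, .mk 0 0 1] 2 4 1 (.mk 2 2 2 1 1 1 1) 1 1 1 (-2) (-1) (-1) 0 3 3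
    (.x [.mk (-1) (-2) (-1), .mk 1 0 0, .mk 0 1 0, .mk (-1) (-1) 0, .mk 0 0 1] 2 4 1 (.mk 2 2 2 1 1 1 1) 1 1 1 (-4) (-1) (-2) 0 4 5
    (.x [.mk (-1) (-2) (-1), .mk 1 0 0, .mk 0 1 0, .mk (-1) (-1) 0, .mk 0 0 1] 2 4 1 (.mk 2 2 2 1 1 1 1) 1 1 1 0 0 (-2) 0 1 5
    (.x [.mk (-1) (-2) (-1), .mk 1 0 0, .mk 0 1 0, .mk (-1) (-1) 0, .mk 0 0 1] 2 4 1 (.mk 2 2 2 1 1 1 1) 1 1 1 (-4) 0 (-2) 0 6 7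
    (.x [.mk (-1) (-2) (-1), .mk 1 0 0, .mk 0 1 0, .mk (-1) (-1) 0, .mk 0 0 1] 2 4 1 (.mk 2 2 2 1 1 1 1) 1 1 1 (-10) 0 (-8) 0 8 13
    (.x [.mk (-1) (-2) (-1), .mk 1 0 0, .mk 0 1 0, .mk (-1) (-1) 0, .mk 0 0 1] 2 4 1 (.mk 2 2 2 1 1 1 1) 1 1 1 (-10) 0 (-8) 0 14 21
    (.x [.mk (-1) (-2) (-1), .mk 1 0 0, .mk 0 1 0, .mk (-1) (-1) 0, .mk 0 0 1] 2 4 1 (.mk 2 2 2 1 1 1 1) 1 1 1 (-21) 0 1 21 (-21) 21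
    (.x [.mk (-1) (-2) (-1), .mk 1 0 0, .mk 0 1 0, .mk (-1) (-1) 0, .mk 0 0 1] 2 4 1 (.mk 2 2 2 1 1 1 1) 1 1 1 1 21 (-21) 21 (-21) 21
    (.x [.mk (-1) (-2) (-1), .mk 1 0 0, .mk 0 1 0, .mk (-1) (-1) 0, .mk 0 0 1] 2 4 1 (.mk 2 2 2 1 1 1 1) 0 0 256 5632 5632 (-5632) 5632 (-5632) 5632
    (.x [.mk (-1) (-2) (-1), .mk 1 0 0, .mk 0 1 0, .mk (-1) (-1) 0, .mk 0 0 1] 2 4 1 (.mk 2 2 2 1 1 1 1) 0 0 256 (-5632) (-5632) (-5632) 5632 (-5632) 5632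
    (.x [.mk (-1) (-2) (-1), .mk 1 0 0, .mk 0 1 0, .mk (-1) (-1) 0, .mk 0 0 1] 2 4 1 (.mk 2 2 2 1 1 1 1) 0 0 256 (-5632) 5632 5632 5632 (-5632) 5632
    (.x [.mk (-1) (-2) (-1), .mk 1 0 0, .mk 0 1 0, .mk (-1) (-1) 0, .mk 0 0 1] 2 4 1 (.mk 2 2 2 1 1 1 1) 0 0 256 (-5632) 5632 (-5632) (-5632) (-5632) 5632
    (.x [.mk (-1) (-2) (-1), .mk 1 0 0, .mk 0 1 0, .mk (-1) (-1) 0, .mk 0 0 1] 2 4 1 (.mk 2 2 2 1 1 1 1) 0 0 256 (-5632) 5632 (-5632) 5632 5632 5632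
    (.x [.mk (-1) (-2) (-1), .mk 1 0 0, .mk 0 1 0, .mk (-1) (-1) 0, .mk 0 0 1] 2 4 1 (.mk 2 2 2 1 1 1 1) 0 0 256 (-5632) 5632 (-5632) 5632 (-5632) (-5632)
    (.x [.mk 1 0 0, .mk 0 1 0, .mk (-1) (-1) 0, .mk 0 0 1] 2 4 1 (.mk 1 1 0 0 0 (-1) 0) 1 1 1 (-4) (-1) (-1) 1 0 0
    (.x [.mk 1 0 0, .mk 0 1 0, .mk (-1) (-1) 0, .mk 0 0 1] 2 4 1 (.mk 1 1 0 0 0 (-1) 0) 1 1 1 0 2 (-5) 1 0 0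
    (.x [.mk 1 0 0, .mk 0 1 0, .mk (-1) (-1) 0, .mk 0 0 1] 2 4 1 (.mk 1 1 0 0 0 (-1) 0) 1 1 1 (-4) 2 2 7 0 0
    (.x [.mk 1 0 0, .mk 0 1 0, .mk (-1) (-1) 0, .mk 0 0 1] 2 4 1 (.mk 1 1 0 0 0 (-1) 0) 1 1 1 3 8 (-5) 7 0 0
    (.x [.mk 1 0 0, .mk 0 1 0, .mk (-1) (-1) 0, .mk 0 0 1] 2 4 1 (.mk 1 1 0 0 0 (-1) 0) 1 1 1 (-4) 8 8 8 0 0
    (.x [.mk 1 0 0, .mk 0 1 0, .mk (-1) (-1) 0, .mk 0 0 1] 2 4 1 (.mk 1 1 0 0 0 (-1) 0) 0 0 256 2304 2304 (-2304) 2304 0 0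
    (.x [.mk 1 0 0, .mk 0 1 0, .mk (-1) (-1) 0, .mk 0 0 1] 2 4 1 (.mk 1 1 0 0 0 (-1) 0) 0 0 256 (-2304) (-2304) (-2304) 2304 0 0
    (.x [.mk 1 0 0, .mk 0 1 0, .mk (-1) (-1) 0, .mk 0 0 1] 2 4 1 (.mk 1 1 0 0 0 (-1) 0) 0 0 256 (-2304) 2304 2304 2304 0 0
    (.x [.mk 1 0 0, .mk 0 1 0, .mk (-1) (-1) 0, .mk 0 0 1] 2 4 1 (.mk 1 1 0 0 0 (-1) 0) 0 0 256 (-2304) 2304 (-2304) (-2304) 0 0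
    (.o 2 2 5 5 1 1 (.o 3 3 3 5 1 1 (.o 0 3 6 6 1 1 (.o 4 6 0 6 1 1 .nil)))))))))))))))))))))))))))))))))))))))))))))))))))))))

/-- Goals of `n_WU1_7_1` after part 3. -/
noncomputable def g_WU1_7_1_3 : G :=
  (.x [.mk 1 (-1) (-1), .mk (-3) (-4) (-1), .mk 0 (-1) (-1), .mk 1 0 0, .mk 0 1 0, .mk (-1) (-1) 0, .mk 0 0 1] 2 4 1 (.mk 1 1 1 0 0 0 2) 1 1 1 0 0 (-1) (-1) (-1) (-1)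
    (.x [.mk 1 (-1) (-1), .mk (-3) (-4) (-1), .mk 0 (-1) (-1), .mk 1 0 0, .mk 0 1 0, .mk (-1) (-1) 0, .mk 0 0 1] 2 4 1 (.mk 1 1 1 0 0 0 2) 1 1 1 (-8) 0 0 0 (-5) (-1)
    (.x [.mk 1 (-1) (-1), .mk (-3) (-4) (-1), .mk 0 (-1) (-1), .mk 1 0 0, .mk 0 1 0, .mk (-1) (-1) 0, .mk 0 0 1] 2 4 1 (.mk 1 1 1 0 0 0 2) 1 1 1 (-8) 0 (-8) 0 0 4
    (.x [.mk 1 (-1) (-1), .mk (-3) (-4) (-1), .mk 0 (-1) (-1), .mk 1 0 0, .mk 0 1 0, .mk (-1) (-1) 0, .mk 0 0 1] 2 4 1 (.mk 1 1 1 0 0 0 2) 1 1 1 (-18) 0 (-18) 0 5 18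
    (.x [.mk 1 (-1) (-1), .mk (-3) (-4) (-1), .mk 0 (-1) (-1), .mk 1 0 0, .mk 0 1 0, .mk (-1) (-1) 0, .mk 0 0 1] 2 4 1 (.mk 1 1 1 0 0 0 2) 1 1 1 (-18) 0 1 18 (-10) 18
    (.x [.mk 1 (-1) (-1), .mk (-3) (-4) (-1), .mk 0 (-1) (-1), .mk 1 0 0, .mk 0 1 0, .mk (-1) (-1) 0, .mk 0 0 1] 2 4 1 (.mk 1 1 1 0 0 0 2) 1 1 1 1 18 (-18) 18 (-18) 18
    (.x [.mk 1 (-1) (-1), .mk (-3) (-4) (-1), .mk 0 (-1) (-1), .mk 1 0 0, .mk 0 1 0, .mk (-1) (-1) 0, .mk 0 0 1] 2 4 1 (.mk 1 1 1 0 0 0 2) 0 0 256 4864 4864 (-4864) 4864 (-4864) 4864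
    (.x [.mk 1 (-1) (-1), .mk (-3) (-4) (-1), .mk 0 (-1) (-1), .mk 1 0 0, .mk 0 1 0, .mk (-1) (-1) 0, .mk 0 0 1] 2 4 1 (.mk 1 1 1 0 0 0 2) 0 0 256 (-4864) (-4864) (-4864) 4864 (-4864) 4864
    (.x [.mk 1 (-1) (-1), .mk (-3) (-4) (-1), .mk 0 (-1) (-1), .mk 1 0 0, .mk 0 1 0, .mk (-1) (-1) 0, .mk 0 0 1] 2 4 1 (.mk 1 1 1 0 0 0 2) 0 0 256 (-4864) 4864 4864 4864 (-4864) 4864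
    (.x [.mk 1 (-1) (-1), .mk (-3) (-4) (-1), .mk 0 (-1) (-1), .mk 1 0 0, .mk 0 1 0, .mk (-1) (-1) 0, .mk 0 0 1] 2 4 1 (.mk 1 1 1 0 0 0 2) 0 0 256 (-4864) 4864 (-4864) (-4864) (-4864) 4864
    (.x [.mk 1 (-1) (-1), .mk (-3) (-4) (-1), .mk 0 (-1) (-1), .mk 1 0 0, .mk 0 1 0, .mk (-1) (-1) 0, .mk 0 0 1] 2 4 1 (.mk 1 1 1 0 0 0 2) 0 0 256 (-4864) 4864 (-4864) 4864 4864 4864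
    (.x [.mk 1 (-1) (-1), .mk (-3) (-4) (-1), .mk 0 (-1) (-1), .mk 1 0 0, .mk 0 1 0, .mk (-1) (-1) 0, .mk 0 0 1] 2 4 1 (.mk 1 1 1 0 0 0 2) 0 0 256 (-4864) 4864 (-4864) 4864 (-4864) (-4864)
    (.x [.mk (-3) (-4) (-1), .mk 0 (-1) (-1), .mk 1 0 0, .mk 0 1 0, .mk (-1) (-1) 0, .mk 0 0 1] 2 4 1 (.mk 2 2 2 1 1 1 1) 1 1 1 (-4) 0 0 0 (-3) (-1)
    (.x [.mk (-3) (-4) (-1), .mk 0 (-1) (-1), .mk 1 0 0, .mk 0 1 0, .mk (-1) (-1) 0, .mk 0 0 1] 2 4 1 (.mk 2 2 2 1 1 1 1) 1 1 1 (-4) 0 (-4) 0 0 2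
    (.x [.mk (-3) (-4) (-1), .mk 0 (-1) (-1), .mk 1 0 0, .mk 0 1 0, .mk (-1) (-1) 0, .mk 0 0 1] 2 4 1 (.mk 2 2 2 1 1 1 1) 1 1 1 (-9) 0 (-9) 0 3 9
    (.x [.mk (-3) (-4) (-1), .mk 0 (-1) (-1), .mk 1 0 0, .mk 0 1 0, .mk (-1) (-1) 0, .mk 0 0 1] 2 4 1 (.mk 2 2 2 1 1 1 1) 1 1 1 (-9) 0 1 9 (-5) 9
    (.x [.mk (-3) (-4) (-1), .mk 0 (-1) (-1), .mk 1 0 0, .mk 0 1 0, .mk (-1) (-1) 0, .mk 0 0 1] 2 4 1 (.mk 2 2 2 1 1 1 1) 1 1 1 1 9 (-9) 9 (-9) 9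
    (.x [.mk (-3) (-4) (-1), .mk 0 (-1) (-1), .mk 1 0 0, .mk 0 1 0, .mk (-1) (-1) 0, .mk 0 0 1] 2 4 1 (.mk 2 2 2 1 1 1 1) 0 0 256 2560 2560 (-2560) 2560 (-2560) 2560
    (.x [.mk (-3) (-4) (-1), .mk 0 (-1) (-1), .mk 1 0 0, .mk 0 1 0, .mk (-1) (-1) 0, .mk 0 0 1] 2 4 1 (.mk 2 2 2 1 1 1 1) 0 0 256 (-2560) (-2560) (-2560) 2560 (-2560) 2560
    (.x [.mk (-3) (-4) (-1), .mk 0 (-1) (-1), .mk 1 0 0, .mk 0 1 0, .mk (-1) (-1) 0, .mk 0 0 1] 2 4 1 (.mk 2 2 2 1 1 1 1) 0 0 256 (-2560) 2560 2560 2560 (-2560) 2560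
    (.x [.mk (-3) (-4) (-1), .mk 0 (-1) (-1), .mk 1 0 0, .mk 0 1 0, .mk (-1) (-1) 0, .mk 0 0 1] 2 4 1 (.mk 2 2 2 1 1 1 1) 0 0 256 (-2560) 2560 (-2560) (-2560) (-2560) 2560
    (.x [.mk (-3) (-4) (-1), .mk 0 (-1) (-1), .mk 1 0 0, .mk 0 1 0, .mk (-1) (-1) 0, .mk 0 0 1] 2 4 1 (.mk 2 2 2 1 1 1 1) 0 0 256 (-2560) 2560 (-2560) 2560 2560 2560
    (.x [.mk (-3) (-4) (-1), .mk 0 (-1) (-1), .mk 1 0 0, .mk 0 1 0, .mk (-1) (-1) 0, .mk 0 0 1] 2 4 1 (.mk 2 2 2 1 1 1 1) 0 0 256 (-2560) 2560 (-2560) 2560 (-2560) (-2560)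
    (.x [.mk 0 (-1) (-1), .mk 1 0 0, .mk 0 1 0, .mk (-1) (-1) 0, .mk 0 0 1] 2 4 1 (.mk 2 2 2 1 0 1 1) 1 1 1 (-2) (-2) (-2) (-2) 0 0
    (.x [.mk 0 (-1) (-1), .mk 1 0 0, .mk 0 1 0, .mk (-1) (-1) 0, .mk 0 0 1] 2 4 1 (.mk 2 2 2 1 0 1 1) 1 1 1 (-4) (-2) (-1) 0 (-3) 0
    (.x [.mk 0 (-1) (-1), .mk 1 0 0, .mk 0 1 0, .mk (-1) (-1) 0, .mk 0 0 1] 2 4 1 (.mk 2 2 2 1 0 1 1) 1 1 1 (-1) 0 (-4) 0 (-3) 0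
    (.x [.mk 0 (-1) (-1), .mk 1 0 0, .mk 0 1 0, .mk (-1) (-1) 0, .mk 0 0 1] 2 4 1 (.mk 2 2 2 1 0 1 1) 1 1 1 (-21) 0 (-21) 0 1 21
    (.x [.mk 0 (-1) (-1), .mk 1 0 0, .mk 0 1 0, .mk (-1) (-1) 0, .mk 0 0 1] 2 4 1 (.mk 2 2 2 1 0 1 1) 1 1 1 (-21) 0 1 21 (-21) 21
    (.x [.mk 0 (-1) (-1), .mk 1 0 0, .mk 0 1 0, .mk (-1) (-1) 0, .mk 0 0 1] 2 4 1 (.mk 2 2 2 1 0 1 1) 1 1 1 1 21 (-21) 21 (-21) 21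
    (.x [.mk 0 (-1) (-1), .mk 1 0 0, .mk 0 1 0, .mk (-1) (-1) 0, .mk 0 0 1] 2 4 1 (.mk 2 2 2 1 0 1 1) 0 0 256 5632 5632 (-5632) 5632 (-5632) 5632
    (.x [.mk 0 (-1) (-1), .mk 1 0 0, .mk 0 1 0, .mk (-1) (-1) 0, .mk 0 0 1] 2 4 1 (.mk 2 2 2 1 0 1 1) 0 0 256 (-5632) (-5632) (-5632) 5632 (-5632) 5632
    (.x [.mk 0 (-1) (-1), .mk 1 0 0, .mk 0 1 0, .mk (-1) (-1) 0, .mk 0 0 1] 2 4 1 (.mk 2 2 2 1 0 1 1) 0 0 256 (-5632) 5632 5632 5632 (-5632) 5632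
    (.x [.mk 0 (-1) (-1), .mk 1 0 0, .mk 0 1 0, .mk (-1) (-1) 0, .mk 0 0 1] 2 4 1 (.mk 2 2 2 1 0 1 1) 0 0 256 (-5632) 5632 (-5632) (-5632) (-5632) 5632
    (.x [.mk 0 (-1) (-1), .mk 1 0 0, .mk 0 1 0, .mk (-1) (-1) 0, .mk 0 0 1] 2 4 1 (.mk 2 2 2 1 0 1 1) 0 0 256 (-5632) 5632 (-5632) 5632 5632 5632
    (.x [.mk 0 (-1) (-1), .mk 1 0 0, .mk 0 1 0, .mk (-1) (-1) 0, .mk 0 0 1] 2 4 1 (.mk 2 2 2 1 0 1 1) 0 0 256 (-5632) 5632 (-5632) 5632 (-5632) (-5632)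
    (.x [.mk 1 0 0, .mk 0 1 0, .mk (-1) (-1) 0, .mk 0 0 1] 2 4 1 (.mk 1 1 0 0 0 (-1) 0) 1 1 1 0 0 0 0 0 0
    (.x [.mk 1 0 0, .mk 0 1 0, .mk (-1) (-1) 0, .mk 0 0 1] 2 4 1 (.mk 1 1 0 0 0 (-1) 0) 1 1 1 1 1 (-1) 0 0 0
    (.x [.mk 1 0 0, .mk 0 1 0, .mk (-1) (-1) 0, .mk 0 0 1] 2 4 1 (.mk 1 1 0 0 0 (-1) 0) 1 1 1 0 1 1 1 0 0
    (.x [.mk 1 0 0, .mk 0 1 0, .mk (-1) (-1) 0, .mk 0 0 1] 2 4 1 (.mk 1 1 0 0 0 (-1) 0) 1 1 1 2 2 (-1) 1 0 0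
    (.x [.mk 1 0 0, .mk 0 1 0, .mk (-1) (-1) 0, .mk 0 0 1] 2 4 1 (.mk 1 1 0 0 0 (-1) 0) 1 1 1 (-4) 2 2 7 0 0
    (.x [.mk 1 0 0, .mk 0 1 0, .mk (-1) (-1) 0, .mk 0 0 1] 2 4 1 (.mk 1 1 0 0 0 (-1) 0) 1 1 1 3 8 (-5) 7 0 0
    (.x [.mk 1 0 0, .mk 0 1 0, .mk (-1) (-1) 0, .mk 0 0 1] 2 4 1 (.mk 1 1 0 0 0 (-1) 0) 1 1 1 (-4) 8 8 8 0 0
    (.x [.mk 1 0 0, .mk 0 1 0, .mk (-1) (-1) 0, .mk 0 0 1] 2 4 1 (.mk 1 1 0 0 0 (-1) 0) 0 0 256 2304 2304 (-2304) 2304 0 0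
    (.x [.mk 1 0 0, .mk 0 1 0, .mk (-1) (-1) 0, .mk 0 0 1] 2 4 1 (.mk 1 1 0 0 0 (-1) 0) 0 0 256 (-2304) (-2304) (-2304) 2304 0 0
    (.x [.mk 1 0 0, .mk 0 1 0, .mk (-1) (-1) 0, .mk 0 0 1] 2 4 1 (.mk 1 1 0 0 0 (-1) 0) 0 0 256 (-2304) 2304 2304 2304 0 0
    (.x [.mk 1 0 0, .mk 0 1 0, .mk (-1) (-1) 0, .mk 0 0 1] 2 4 1 (.mk 1 1 0 0 0 (-1) 0) 0 0 256 (-2304) 2304 (-2304) (-2304) 0 0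
    (.o 2 2 5 5 1 1 (.o 3 3 3 5 1 1 (.o 0 3 6 6 1 1 (.o 4 6 0 6 1 1 .nil))))))))))))))))))))))))))))))))))))))))))))))))))

/-- Goals of `n_WU1_7_1` after part 4. -/
noncomputable def g_WU1_7_1_4 : G :=
  (.x [.mk (-4) (-5) (-1), .mk 1 (-1) (-1), .mk 1 0 0, .mk 0 1 0, .mk (-1) (-1) 0, .mk 0 0 1] 2 4 1 (.mk 1 1 1 0 0 0 2) 1 1 1 (-18) (-9) (-8) 0 (-5) 4
    (.x [.mk (-4) (-5) (-1), .mk 1 (-1) (-1), .mk 1 0 0, .mk 0 1 0, .mk (-1) (-1) 0, .mk 0 0 1] 2 4 1 (.mk 1 1 1 0 0 0 2) 1 1 1 (-8) 0 (-18) 0 (-10) 4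
    (.x [.mk (-4) (-5) (-1), .mk 1 (-1) (-1), .mk 1 0 0, .mk 0 1 0, .mk (-1) (-1) 0, .mk 0 0 1] 2 4 1 (.mk 1 1 1 0 0 0 2) 1 1 1 (-18) 0 (-18) 0 5 18
    (.x [.mk (-4) (-5) (-1), .mk 1 (-1) (-1), .mk 1 0 0, .mk 0 1 0, .mk (-1) (-1) 0, .mk 0 0 1] 2 4 1 (.mk 1 1 1 0 0 0 2) 1 1 1 (-18) 0 1 18 (-10) 18
    (.x [.mk (-4) (-5) (-1), .mk 1 (-1) (-1), .mk 1 0 0, .mk 0 1 0, .mk (-1) (-1) 0, .mk 0 0 1] 2 4 1 (.mk 1 1 1 0 0 0 2) 1 1 1 1 18 (-18) 18 (-18) 18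
    (.x [.mk (-4) (-5) (-1), .mk 1 (-1) (-1), .mk 1 0 0, .mk 0 1 0, .mk (-1) (-1) 0, .mk 0 0 1] 2 4 1 (.mk 1 1 1 0 0 0 2) 0 0 256 4864 4864 (-4864) 4864 (-4864) 4864
    (.x [.mk (-4) (-5) (-1), .mk 1 (-1) (-1), .mk 1 0 0, .mk 0 1 0, .mk (-1) (-1) 0, .mk 0 0 1] 2 4 1 (.mk 1 1 1 0 0 0 2) 0 0 256 (-4864) (-4864) (-4864) 4864 (-4864) 4864
    (.x [.mk (-4) (-5) (-1), .mk 1 (-1) (-1), .mk 1 0 0, .mk 0 1 0, .mk (-1) (-1) 0, .mk 0 0 1] 2 4 1 (.mk 1 1 1 0 0 0 2) 0 0 256 (-4864) 4864 4864 4864 (-4864) 4864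
    (.x [.mk (-4) (-5) (-1), .mk 1 (-1) (-1), .mk 1 0 0, .mk 0 1 0, .mk (-1) (-1) 0, .mk 0 0 1] 2 4 1 (.mk 1 1 1 0 0 0 2) 0 0 256 (-4864) 4864 (-4864) (-4864) (-4864) 4864
    (.x [.mk (-4) (-5) (-1), .mk 1 (-1) (-1), .mk 1 0 0, .mk 0 1 0, .mk (-1) (-1) 0, .mk 0 0 1] 2 4 1 (.mk 1 1 1 0 0 0 2) 0 0 256 (-4864) 4864 (-4864) 4864 4864 4864
    (.x [.mk (-4) (-5) (-1), .mk 1 (-1) (-1), .mk 1 0 0, .mk 0 1 0, .mk (-1) (-1) 0, .mk 0 0 1] 2 4 1 (.mk 1 1 1 0 0 0 2) 0 0 256 (-4864) 4864 (-4864) 4864 (-4864) (-4864)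
    (.x [.mk 1 (-1) (-1), .mk 1 0 0, .mk 0 1 0, .mk (-1) (-1) 0, .mk 0 0 1] 2 4 1 (.mk 2 2 2 0 1 1 1) 1 1 1 (-1) (-1) (-4) (-3) (-2) (-1)
    (.x [.mk 1 (-1) (-1), .mk 1 0 0, .mk 0 1 0, .mk (-1) (-1) 0, .mk 0 0 1] 2 4 1 (.mk 2 2 2 0 1 1 1) 1 1 1 (-2) (-1) (-4) (-3) 0 0
    (.x [.mk 1 (-1) (-1), .mk 1 0 0, .mk 0 1 0, .mk (-1) (-1) 0, .mk 0 0 1] 2 4 1 (.mk 2 2 2 0 1 1 1) 1 1 1 0 0 (-4) (-3) (-2) 0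
    (.x [.mk 1 (-1) (-1), .mk 1 0 0, .mk 0 1 0, .mk (-1) (-1) 0, .mk 0 0 1] 2 4 1 (.mk 2 2 2 0 1 1 1) 1 1 1 (-2) 0 (-2) 0 (-6) 0
    (.x [.mk 1 (-1) (-1), .mk 1 0 0, .mk 0 1 0, .mk (-1) (-1) 0, .mk 0 0 1] 2 4 1 (.mk 2 2 2 0 1 1 1) 1 1 1 (-13) 0 (-13) 0 1 13
    (.x [.mk 1 (-1) (-1), .mk 1 0 0, .mk 0 1 0, .mk (-1) (-1) 0, .mk 0 0 1] 2 4 1 (.mk 2 2 2 0 1 1 1) 1 1 1 (-13) 0 1 13 (-13) 13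
    (.x [.mk 1 (-1) (-1), .mk 1 0 0, .mk 0 1 0, .mk (-1) (-1) 0, .mk 0 0 1] 2 4 1 (.mk 2 2 2 0 1 1 1) 1 1 1 1 13 (-13) 13 (-13) 13
    (.x [.mk 1 (-1) (-1), .mk 1 0 0, .mk 0 1 0, .mk (-1) (-1) 0, .mk 0 0 1] 2 4 1 (.mk 2 2 2 0 1 1 1) 0 0 256 3584 3584 (-3584) 3584 (-3584) 3584
    (.x [.mk 1 (-1) (-1), .mk 1 0 0, .mk 0 1 0, .mk (-1) (-1) 0, .mk 0 0 1] 2 4 1 (.mk 2 2 2 0 1 1 1) 0 0 256 (-3584) (-3584) (-3584) 3584 (-3584) 3584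
    (.x [.mk 1 (-1) (-1), .mk 1 0 0, .mk 0 1 0, .mk (-1) (-1) 0, .mk 0 0 1] 2 4 1 (.mk 2 2 2 0 1 1 1) 0 0 256 (-3584) 3584 3584 3584 (-3584) 3584
    (.x [.mk 1 (-1) (-1), .mk 1 0 0, .mk 0 1 0, .mk (-1) (-1) 0, .mk 0 0 1] 2 4 1 (.mk 2 2 2 0 1 1 1) 0 0 256 (-3584) 3584 (-3584) (-3584) (-3584) 3584
    (.x [.mk 1 (-1) (-1), .mk 1 0 0, .mk 0 1 0, .mk (-1) (-1) 0, .mk 0 0 1] 2 4 1 (.mk 2 2 2 0 1 1 1) 0 0 256 (-3584) 3584 (-3584) 3584 3584 3584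
    (.x [.mk 1 (-1) (-1), .mk 1 0 0, .mk 0 1 0, .mk (-1) (-1) 0, .mk 0 0 1] 2 4 1 (.mk 2 2 2 0 1 1 1) 0 0 256 (-3584) 3584 (-3584) 3584 (-3584) (-3584)
    (.x [.mk 1 0 0, .mk 0 1 0, .mk (-1) (-1) 0, .mk 0 0 1] 2 4 1 (.mk 1 1 0 0 0 (-1) 0) 1 1 1 1 1 0 0 0 0
    (.x [.mk 1 0 0, .mk 0 1 0, .mk (-1) (-1) 0, .mk 0 0 1] 2 4 1 (.mk 1 1 0 0 0 (-1) 0) 1 1 1 0 1 1 1 0 0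
    (.x [.mk 1 0 0, .mk 0 1 0, .mk (-1) (-1) 0, .mk 0 0 1] 2 4 1 (.mk 1 1 0 0 0 (-1) 0) 1 1 1 2 2 (-1) 1 0 0
    (.x [.mk 1 0 0, .mk 0 1 0, .mk (-1) (-1) 0, .mk 0 0 1] 2 4 1 (.mk 1 1 0 0 0 (-1) 0) 1 1 1 (-4) 2 2 7 0 0
    (.x [.mk 1 0 0, .mk 0 1 0, .mk (-1) (-1) 0, .mk 0 0 1] 2 4 1 (.mk 1 1 0 0 0 (-1) 0) 1 1 1 3 8 (-5) 7 0 0
    (.x [.mk 1 0 0, .mk 0 1 0, .mk (-1) (-1) 0, .mk 0 0 1] 2 4 1 (.mk 1 1 0 0 0 (-1) 0) 1 1 1 (-4) 8 8 8 0 0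
    (.x [.mk 1 0 0, .mk 0 1 0, .mk (-1) (-1) 0, .mk 0 0 1] 2 4 1 (.mk 1 1 0 0 0 (-1) 0) 0 0 256 2304 2304 (-2304) 2304 0 0
    (.x [.mk 1 0 0, .mk 0 1 0, .mk (-1) (-1) 0, .mk 0 0 1] 2 4 1 (.mk 1 1 0 0 0 (-1) 0) 0 0 256 (-2304) (-2304) (-2304) 2304 0 0
    (.x [.mk 1 0 0, .mk 0 1 0, .mk (-1) (-1) 0, .mk 0 0 1] 2 4 1 (.mk 1 1 0 0 0 (-1) 0) 0 0 256 (-2304) 2304 2304 2304 0 0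
    (.x [.mk 1 0 0, .mk 0 1 0, .mk (-1) (-1) 0, .mk 0 0 1] 2 4 1 (.mk 1 1 0 0 0 (-1) 0) 0 0 256 (-2304) 2304 (-2304) (-2304) 0 0
    (.o 2 2 5 5 1 1 (.o 3 3 3 5 1 1 (.o 0 3 6 6 1 1 (.o 4 6 0 6 1 1 .nil))))))))))))))))))))))))))))))))))))))

/-- Goals of `n_WU1_7_1` after part 5. -/
noncomputable def g_WU1_7_1_5 : G :=
  (.x [.mk 0 (-1) (-1), .mk 1 0 (-1), .mk 1 0 0, .mk 0 1 0, .mk (-1) (-1) 0, .mk 0 0 1] 2 4 1 (.mk 2 2 2 1 1 1 1) 1 1 1 (-2) (-2) (-3) (-3) (-1) 0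
    (.x [.mk 0 (-1) (-1), .mk 1 0 (-1), .mk 1 0 0, .mk 0 1 0, .mk (-1) (-1) 0, .mk 0 0 1] 2 4 1 (.mk 2 2 2 1 1 1 1) 1 1 1 (-2) (-2) (-2) (-2) (-1) 0
    (.x [.mk 0 (-1) (-1), .mk 1 0 (-1), .mk 1 0 0, .mk 0 1 0, .mk (-1) (-1) 0, .mk 0 0 1] 2 4 1 (.mk 2 2 2 1 1 1 1) 1 1 1 (-3) (-2) (-1) 0 (-1) 0
    (.x [.mk 0 (-1) (-1), .mk 1 0 (-1), .mk 1 0 0, .mk 0 1 0, .mk (-1) (-1) 0, .mk 0 0 1] 2 4 1 (.mk 2 2 2 1 1 1 1) 1 1 1 (-1) 0 (-3) 0 (-2) 0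
    (.x [.mk 0 (-1) (-1), .mk 1 0 (-1), .mk 1 0 0, .mk 0 1 0, .mk (-1) (-1) 0, .mk 0 0 1] 2 4 1 (.mk 2 2 2 1 1 1 1) 1 1 1 (-8) 0 (-8) 0 1 8
    (.x [.mk 0 (-1) (-1), .mk 1 0 (-1), .mk 1 0 0, .mk 0 1 0, .mk (-1) (-1) 0, .mk 0 0 1] 2 4 1 (.mk 2 2 2 1 1 1 1) 1 1 1 (-8) 0 1 8 (-8) 8
    (.x [.mk 0 (-1) (-1), .mk 1 0 (-1), .mk 1 0 0, .mk 0 1 0, .mk (-1) (-1) 0, .mk 0 0 1] 2 4 1 (.mk 2 2 2 1 1 1 1) 1 1 1 1 8 (-8) 8 (-8) 8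
    (.x [.mk 0 (-1) (-1), .mk 1 0 (-1), .mk 1 0 0, .mk 0 1 0, .mk (-1) (-1) 0, .mk 0 0 1] 2 4 1 (.mk 2 2 2 1 1 1 1) 0 0 256 2304 2304 (-2304) 2304 (-2304) 2304
    (.x [.mk 0 (-1) (-1), .mk 1 0 (-1), .mk 1 0 0, .mk 0 1 0, .mk (-1) (-1) 0, .mk 0 0 1] 2 4 1 (.mk 2 2 2 1 1 1 1) 0 0 256 (-2304) (-2304) (-2304) 2304 (-2304) 2304
    (.x [.mk 0 (-1) (-1), .mk 1 0 (-1), .mk 1 0 0, .mk 0 1 0, .mk (-1) (-1) 0, .mk 0 0 1] 2 4 1 (.mk 2 2 2 1 1 1 1) 0 0 256 (-2304) 2304 2304 2304 (-2304) 2304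
    (.x [.mk 0 (-1) (-1), .mk 1 0 (-1), .mk 1 0 0, .mk 0 1 0, .mk (-1) (-1) 0, .mk 0 0 1] 2 4 1 (.mk 2 2 2 1 1 1 1) 0 0 256 (-2304) 2304 (-2304) (-2304) (-2304) 2304
    (.x [.mk 0 (-1) (-1), .mk 1 0 (-1), .mk 1 0 0, .mk 0 1 0, .mk (-1) (-1) 0, .mk 0 0 1] 2 4 1 (.mk 2 2 2 1 1 1 1) 0 0 256 (-2304) 2304 (-2304) 2304 2304 2304
    (.x [.mk 0 (-1) (-1), .mk 1 0 (-1), .mk 1 0 0, .mk 0 1 0, .mk (-1) (-1) 0, .mk 0 0 1] 2 4 1 (.mk 2 2 2 1 1 1 1) 0 0 256 (-2304) 2304 (-2304) 2304 (-2304) (-2304)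
    (.x [.mk 1 0 (-1), .mk 1 0 0, .mk 0 1 0, .mk (-1) (-1) 0, .mk 0 0 1] 2 4 1 (.mk 2 2 2 0 1 1 1) 1 1 1 0 0 (-1) (-1) 0 0
    (.x [.mk 1 0 (-1), .mk 1 0 0, .mk 0 1 0, .mk (-1) (-1) 0, .mk 0 0 1] 2 4 1 (.mk 2 2 2 0 1 1 1) 1 1 1 0 0 0 0 (-1) 0
    (.x [.mk 1 0 (-1), .mk 1 0 0, .mk 0 1 0, .mk (-1) (-1) 0, .mk 0 0 1] 2 4 1 (.mk 2 2 2 0 1 1 1) 1 1 1 (-8) 0 (-8) 0 1 8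
    (.x [.mk 1 0 (-1), .mk 1 0 0, .mk 0 1 0, .mk (-1) (-1) 0, .mk 0 0 1] 2 4 1 (.mk 2 2 2 0 1 1 1) 1 1 1 (-8) 0 1 8 (-8) 8
    (.x [.mk 1 0 (-1), .mk 1 0 0, .mk 0 1 0, .mk (-1) (-1) 0, .mk 0 0 1] 2 4 1 (.mk 2 2 2 0 1 1 1) 1 1 1 1 8 (-8) 8 (-8) 8
    (.x [.mk 1 0 (-1), .mk 1 0 0, .mk 0 1 0, .mk (-1) (-1) 0, .mk 0 0 1] 2 4 1 (.mk 2 2 2 0 1 1 1) 0 0 256 2304 2304 (-2304) 2304 (-2304) 2304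
    (.x [.mk 1 0 (-1), .mk 1 0 0, .mk 0 1 0, .mk (-1) (-1) 0, .mk 0 0 1] 2 4 1 (.mk 2 2 2 0 1 1 1) 0 0 256 (-2304) (-2304) (-2304) 2304 (-2304) 2304
    (.x [.mk 1 0 (-1), .mk 1 0 0, .mk 0 1 0, .mk (-1) (-1) 0, .mk 0 0 1] 2 4 1 (.mk 2 2 2 0 1 1 1) 0 0 256 (-2304) 2304 2304 2304 (-2304) 2304
    (.x [.mk 1 0 (-1), .mk 1 0 0, .mk 0 1 0, .mk (-1) (-1) 0, .mk 0 0 1] 2 4 1 (.mk 2 2 2 0 1 1 1) 0 0 256 (-2304) 2304 (-2304) (-2304) (-2304) 2304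
    (.x [.mk 1 0 (-1), .mk 1 0 0, .mk 0 1 0, .mk (-1) (-1) 0, .mk 0 0 1] 2 4 1 (.mk 2 2 2 0 1 1 1) 0 0 256 (-2304) 2304 (-2304) 2304 2304 2304
    (.x [.mk 1 0 (-1), .mk 1 0 0, .mk 0 1 0, .mk (-1) (-1) 0, .mk 0 0 1] 2 4 1 (.mk 2 2 2 0 1 1 1) 0 0 256 (-2304) 2304 (-2304) 2304 (-2304) (-2304)
    (.x [.mk 1 0 0, .mk 0 1 0, .mk (-1) (-1) 0, .mk 0 0 1] 2 4 1 (.mk 1 1 0 0 0 (-1) 0) 1 1 1 0 1 1 1 0 0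
    (.x [.mk 1 0 0, .mk 0 1 0, .mk (-1) (-1) 0, .mk 0 0 1] 2 4 1 (.mk 1 1 0 0 0 (-1) 0) 1 1 1 2 2 (-1) 1 0 0
    (.x [.mk 1 0 0, .mk 0 1 0, .mk (-1) (-1) 0, .mk 0 0 1] 2 4 1 (.mk 1 1 0 0 0 (-1) 0) 1 1 1 (-4) 2 2 7 0 0
    (.x [.mk 1 0 0, .mk 0 1 0, .mk (-1) (-1) 0, .mk 0 0 1] 2 4 1 (.mk 1 1 0 0 0 (-1) 0) 1 1 1 3 8 (-5) 7 0 0
    (.x [.mk 1 0 0, .mk 0 1 0, .mk (-1) (-1) 0, .mk 0 0 1] 2 4 1 (.mk 1 1 0 0 0 (-1) 0) 1 1 1 (-4) 8 8 8 0 0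
    (.x [.mk 1 0 0, .mk 0 1 0, .mk (-1) (-1) 0, .mk 0 0 1] 2 4 1 (.mk 1 1 0 0 0 (-1) 0) 0 0 256 2304 2304 (-2304) 2304 0 0
    (.x [.mk 1 0 0, .mk 0 1 0, .mk (-1) (-1) 0, .mk 0 0 1] 2 4 1 (.mk 1 1 0 0 0 (-1) 0) 0 0 256 (-2304) (-2304) (-2304) 2304 0 0
    (.x [.mk 1 0 0, .mk 0 1 0, .mk (-1) (-1) 0, .mk 0 0 1] 2 4 1 (.mk 1 1 0 0 0 (-1) 0) 0 0 256 (-2304) 2304 2304 2304 0 0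
    (.x [.mk 1 0 0, .mk 0 1 0, .mk (-1) (-1) 0, .mk 0 0 1] 2 4 1 (.mk 1 1 0 0 0 (-1) 0) 0 0 256 (-2304) 2304 (-2304) (-2304) 0 0
    (.o 2 2 5 5 1 1 (.o 3 3 3 5 1 1 (.o 0 3 6 6 1 1 (.o 4 6 0 6 1 1 .nil)))))))))))))))))))))))))))))))))))))

/-- Goals of `n_WU1_7_2a` after part 1. -/
noncomputable def g_WU1_7_2a_1 : G :=
  (.x [.mk 3 1 (-1), .mk (-8) (-9) (-1), .mk (-7) (-8) (-1), .mk 1 0 0, .mk 0 1 0, .mk (-1) (-1) 0, .mk 0 0 1] 1 4 2 (.mk 1 1 1 0 0 0 4) 1 1 1 0 0 0 0 1 1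
    (.x [.mk 3 1 (-1), .mk (-8) (-9) (-1), .mk (-7) (-8) (-1), .mk 1 0 0, .mk 0 1 0, .mk (-1) (-1) 0, .mk 0 0 1] 1 4 2 (.mk 1 1 1 0 0 0 4) 1 1 1 0 0 0 0 2 2
    (.x [.mk 3 1 (-1), .mk (-8) (-9) (-1), .mk (-7) (-8) (-1), .mk 1 0 0, .mk 0 1 0, .mk (-1) (-1) 0, .mk 0 0 1] 1 4 2 (.mk 1 1 1 0 0 0 4) 1 1 1 (-2) 0 (-1) 0 3 3
    (.x [.mk 3 1 (-1), .mk (-8) (-9) (-1), .mk (-7) (-8) (-1), .mk 1 0 0, .mk 0 1 0, .mk (-1) (-1) 0, .mk 0 0 1] 1 4 2 (.mk 1 1 1 0 0 0 4) 1 1 1 (-9) 0 (-9) 0 4 10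
    (.x [.mk 3 1 (-1), .mk (-8) (-9) (-1), .mk (-7) (-8) (-1), .mk 1 0 0, .mk 0 1 0, .mk (-1) (-1) 0, .mk 0 0 1] 1 4 2 (.mk 1 1 1 0 0 0 4) 1 1 1 (-40) 0 (-40) 0 11 40
    (.x [.mk 3 1 (-1), .mk (-8) (-9) (-1), .mk (-7) (-8) (-1), .mk 1 0 0, .mk 0 1 0, .mk (-1) (-1) 0, .mk 0 0 1] 1 4 2 (.mk 1 1 1 0 0 0 4) 1 1 1 (-40) 0 1 40 (-20) 40
    (.x [.mk 3 1 (-1), .mk (-8) (-9) (-1), .mk (-7) (-8) (-1), .mk 1 0 0, .mk 0 1 0, .mk (-1) (-1) 0, .mk 0 0 1] 1 4 2 (.mk 1 1 1 0 0 0 4) 1 1 1 1 40 (-40) 40 (-40) 40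
    (.x [.mk 3 1 (-1), .mk (-8) (-9) (-1), .mk (-7) (-8) (-1), .mk 1 0 0, .mk 0 1 0, .mk (-1) (-1) 0, .mk 0 0 1] 1 4 2 (.mk 1 1 1 0 0 0 4) 0 0 256 10496 10496 (-10496) 10496 (-10496) 10496
    (.x [.mk 3 1 (-1), .mk (-8) (-9) (-1), .mk (-7) (-8) (-1), .mk 1 0 0, .mk 0 1 0, .mk (-1) (-1) 0, .mk 0 0 1] 1 4 2 (.mk 1 1 1 0 0 0 4) 0 0 256 (-10496) (-10496) (-10496) 10496 (-10496) 10496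
    (.x [.mk 3 1 (-1), .mk (-8) (-9) (-1), .mk (-7) (-8) (-1), .mk 1 0 0, .mk 0 1 0, .mk (-1) (-1) 0, .mk 0 0 1] 1 4 2 (.mk 1 1 1 0 0 0 4) 0 0 256 (-10496) 10496 10496 10496 (-10496) 10496
    (.x [.mk 3 1 (-1), .mk (-8) (-9) (-1), .mk (-7) (-8) (-1), .mk 1 0 0, .mk 0 1 0, .mk (-1) (-1) 0, .mk 0 0 1] 1 4 2 (.mk 1 1 1 0 0 0 4) 0 0 256 (-10496) 10496 (-10496) (-10496) (-10496) 10496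
    (.x [.mk 3 1 (-1), .mk (-8) (-9) (-1), .mk (-7) (-8) (-1), .mk 1 0 0, .mk 0 1 0, .mk (-1) (-1) 0, .mk 0 0 1] 1 4 2 (.mk 1 1 1 0 0 0 4) 0 0 256 (-10496) 10496 (-10496) 10496 10496 10496
    (.x [.mk 3 1 (-1), .mk (-8) (-9) (-1), .mk (-7) (-8) (-1), .mk 1 0 0, .mk 0 1 0, .mk (-1) (-1) 0, .mk 0 0 1] 1 4 2 (.mk 1 1 1 0 0 0 4) 0 0 256 (-10496) 10496 (-10496) 10496 (-10496) (-10496)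
    (.x [.mk (-8) (-9) (-1), .mk (-7) (-8) (-1), .mk 1 0 0, .mk 0 1 0, .mk (-1) (-1) 0, .mk 0 0 1] 1 4 2 (.mk 2 2 2 1 1 1 1) 1 1 1 2 2 (-1) 0 (-2) (-1)
    (.x [.mk (-8) (-9) (-1), .mk (-7) (-8) (-1), .mk 1 0 0, .mk 0 1 0, .mk (-1) (-1) 0, .mk 0 0 1] 1 4 2 (.mk 2 2 2 1 1 1 1) 1 1 1 3 3 (-2) 0 (-3) (-1)
    (.x [.mk (-8) (-9) (-1), .mk (-7) (-8) (-1), .mk 1 0 0, .mk 0 1 0, .mk (-1) (-1) 0, .mk 0 0 1] 1 4 2 (.mk 2 2 2 1 1 1 1) 1 1 1 4 6 (-4) 0 (-6) (-1)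
    (.x [.mk (-8) (-9) (-1), .mk (-7) (-8) (-1), .mk 1 0 0, .mk 0 1 0, .mk (-1) (-1) 0, .mk 0 0 1] 1 4 2 (.mk 2 2 2 1 1 1 1) 1 1 1 7 11 (-10) 0 (-11) (-1)
    (.x [.mk (-8) (-9) (-1), .mk (-7) (-8) (-1), .mk 1 0 0, .mk 0 1 0, .mk (-1) (-1) 0, .mk 0 0 1] 1 4 2 (.mk 2 2 2 1 1 1 1) 1 1 1 12 21 (-10) 0 (-16) (-1)
    (.x [.mk (-8) (-9) (-1), .mk (-7) (-8) (-1), .mk 1 0 0, .mk 0 1 0, .mk (-1) (-1) 0, .mk 0 0 1] 1 4 2 (.mk 2 2 2 1 1 1 1) 1 1 1 1 21 (-21) 0 0 21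
    (.x [.mk (-8) (-9) (-1), .mk (-7) (-8) (-1), .mk 1 0 0, .mk 0 1 0, .mk (-1) (-1) 0, .mk 0 0 1] 1 4 2 (.mk 2 2 2 1 1 1 1) 1 1 1 1 21 1 21 (-21) 21
    (.x [.mk (-8) (-9) (-1), .mk (-7) (-8) (-1), .mk 1 0 0, .mk 0 1 0, .mk (-1) (-1) 0, .mk 0 0 1] 1 4 2 (.mk 2 2 2 1 1 1 1) 0 0 256 5632 5632 (-5632) 5632 (-5632) 5632
    (.x [.mk (-8) (-9) (-1), .mk (-7) (-8) (-1), .mk 1 0 0, .mk 0 1 0, .mk (-1) (-1) 0, .mk 0 0 1] 1 4 2 (.mk 2 2 2 1 1 1 1) 0 0 256 (-5632) (-5632) (-5632) 5632 (-5632) 5632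
    (.x [.mk (-8) (-9) (-1), .mk (-7) (-8) (-1), .mk 1 0 0, .mk 0 1 0, .mk (-1) (-1) 0, .mk 0 0 1] 1 4 2 (.mk 2 2 2 1 1 1 1) 0 0 256 (-5632) 5632 5632 5632 (-5632) 5632
    (.x [.mk (-8) (-9) (-1), .mk (-7) (-8) (-1), .mk 1 0 0, .mk 0 1 0, .mk (-1) (-1) 0, .mk 0 0 1] 1 4 2 (.mk 2 2 2 1 1 1 1) 0 0 256 (-5632) 5632 (-5632) (-5632) (-5632) 5632
    (.x [.mk (-8) (-9) (-1), .mk (-7) (-8) (-1), .mk 1 0 0, .mk 0 1 0, .mk (-1) (-1) 0, .mk 0 0 1] 1 4 2 (.mk 2 2 2 1 1 1 1) 0 0 256 (-5632) 5632 (-5632) 5632 5632 5632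
    (.x [.mk (-8) (-9) (-1), .mk (-7) (-8) (-1), .mk 1 0 0, .mk 0 1 0, .mk (-1) (-1) 0, .mk 0 0 1] 1 4 2 (.mk 2 2 2 1 1 1 1) 0 0 256 (-5632) 5632 (-5632) 5632 (-5632) (-5632)
    (.x [.mk (-7) (-8) (-1), .mk 1 0 0, .mk 0 1 0, .mk (-1) (-1) 0, .mk 0 0 1] 1 4 2 (.mk 2 2 2 0 1 1 1) 1 1 1 (-3) (-3) (-6) (-5) (-1) (-1)
    (.x [.mk (-7) (-8) (-1), .mk 1 0 0, .mk 0 1 0, .mk (-1) (-1) 0, .mk 0 0 1] 1 4 2 (.mk 2 2 2 0 1 1 1) 1 1 1 (-2) (-2) (-7) (-5) (-2) (-1)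
    (.x [.mk (-7) (-8) (-1), .mk 1 0 0, .mk 0 1 0, .mk (-1) (-1) 0, .mk 0 0 1] 1 4 2 (.mk 2 2 2 0 1 1 1) 1 1 1 (-1) 0 (-7) (-5) (-3) (-1)
    (.x [.mk (-7) (-8) (-1), .mk 1 0 0, .mk 0 1 0, .mk (-1) (-1) 0, .mk 0 0 1] 1 4 2 (.mk 2 2 2 0 1 1 1) 1 1 1 (-4) 0 (-10) (-5) 0 5
    (.x [.mk (-7) (-8) (-1), .mk 1 0 0, .mk 0 1 0, .mk (-1) (-1) 0, .mk 0 0 1] 1 4 2 (.mk 2 2 2 0 1 1 1) 1 1 1 (-4) 0 (-4) 0 (-5) 5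
    (.x [.mk (-7) (-8) (-1), .mk 1 0 0, .mk 0 1 0, .mk (-1) (-1) 0, .mk 0 0 1] 1 4 2 (.mk 2 2 2 0 1 1 1) 1 1 1 (-21) 0 (-21) 0 6 21
    (.x [.mk (-7) (-8) (-1), .mk 1 0 0, .mk 0 1 0, .mk (-1) (-1) 0, .mk 0 0 1] 1 4 2 (.mk 2 2 2 0 1 1 1) 1 1 1 (-21) 0 1 21 (-10) 21
    (.x [.mk (-7) (-8) (-1), .mk 1 0 0, .mk 0 1 0, .mk (-1) (-1) 0, .mk 0 0 1] 1 4 2 (.mk 2 2 2 0 1 1 1) 1 1 1 1 21 (-21) 21 (-21) 21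
    (.x [.mk (-7) (-8) (-1), .mk 1 0 0, .mk 0 1 0, .mk (-1) (-1) 0, .mk 0 0 1] 1 4 2 (.mk 2 2 2 0 1 1 1) 0 0 256 5632 5632 (-5632) 5632 (-5632) 5632
    (.x [.mk (-7) (-8) (-1), .mk 1 0 0, .mk 0 1 0, .mk (-1) (-1) 0, .mk 0 0 1] 1 4 2 (.mk 2 2 2 0 1 1 1) 0 0 256 (-5632) (-5632) (-5632) 5632 (-5632) 5632
    (.x [.mk (-7) (-8) (-1), .mk 1 0 0, .mk 0 1 0, .mk (-1) (-1) 0, .mk 0 0 1] 1 4 2 (.mk 2 2 2 0 1 1 1) 0 0 256 (-5632) 5632 5632 5632 (-5632) 5632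
    (.x [.mk (-7) (-8) (-1), .mk 1 0 0, .mk 0 1 0, .mk (-1) (-1) 0, .mk 0 0 1] 1 4 2 (.mk 2 2 2 0 1 1 1) 0 0 256 (-5632) 5632 (-5632) (-5632) (-5632) 5632
    (.x [.mk (-7) (-8) (-1), .mk 1 0 0, .mk 0 1 0, .mk (-1) (-1) 0, .mk 0 0 1] 1 4 2 (.mk 2 2 2 0 1 1 1) 0 0 256 (-5632) 5632 (-5632) 5632 5632 5632
    (.x [.mk (-7) (-8) (-1), .mk 1 0 0, .mk 0 1 0, .mk (-1) (-1) 0, .mk 0 0 1] 1 4 2 (.mk 2 2 2 0 1 1 1) 0 0 256 (-5632) 5632 (-5632) 5632 (-5632) (-5632)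
    (.x [.mk 1 0 0, .mk 0 1 0, .mk (-1) (-1) 0, .mk 0 0 1] 1 4 2 (.mk 1 1 0 0 0 (-1) 0) 1 1 1 (-7) (-7) (-7) (-7) 0 0
    (.x [.mk 1 0 0, .mk 0 1 0, .mk (-1) (-1) 0, .mk 0 0 1] 1 4 2 (.mk 1 1 0 0 0 (-1) 0) 1 1 1 (-6) (-6) (-8) (-7) 0 0
    (.x [.mk 1 0 0, .mk 0 1 0, .mk (-1) (-1) 0, .mk 0 0 1] 1 4 2 (.mk 1 1 0 0 0 (-1) 0) 1 1 1 (-7) (-6) (-6) (-6) 0 0
    (.x [.mk 1 0 0, .mk 0 1 0, .mk (-1) (-1) 0, .mk 0 0 1] 1 4 2 (.mk 1 1 0 0 0 (-1) 0) 1 1 1 (-5) (-5) (-8) (-6) 0 0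
    (.x [.mk 1 0 0, .mk 0 1 0, .mk (-1) (-1) 0, .mk 0 0 1] 1 4 2 (.mk 1 1 0 0 0 (-1) 0) 1 1 1 (-4) 0 (-12) (-6) 0 0
    (.x [.mk 1 0 0, .mk 0 1 0, .mk (-1) (-1) 0, .mk 0 0 1] 1 4 2 (.mk 1 1 0 0 0 (-1) 0) 1 1 1 (-11) 0 (-5) 0 0 0
    (.x [.mk 1 0 0, .mk 0 1 0, .mk (-1) (-1) 0, .mk 0 0 1] 1 4 2 (.mk 1 1 0 0 0 (-1) 0) 1 1 1 (-25) 0 1 25 0 0
    (.x [.mk 1 0 0, .mk 0 1 0, .mk (-1) (-1) 0, .mk 0 0 1] 1 4 2 (.mk 1 1 0 0 0 (-1) 0) 1 1 1 1 25 (-25) 25 0 0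
    (.x [.mk 1 0 0, .mk 0 1 0, .mk (-1) (-1) 0, .mk 0 0 1] 1 4 2 (.mk 1 1 0 0 0 (-1) 0) 0 0 256 6656 6656 (-6656) 6656 0 0
    (.x [.mk 1 0 0, .mk 0 1 0, .mk (-1) (-1) 0, .mk 0 0 1] 1 4 2 (.mk 1 1 0 0 0 (-1) 0) 0 0 256 (-6656) (-6656) (-6656) 6656 0 0
    (.x [.mk 1 0 0, .mk 0 1 0, .mk (-1) (-1) 0, .mk 0 0 1] 1 4 2 (.mk 1 1 0 0 0 (-1) 0) 0 0 256 (-6656) 6656 6656 6656 0 0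
    (.x [.mk 1 0 0, .mk 0 1 0, .mk (-1) (-1) 0, .mk 0 0 1] 1 4 2 (.mk 1 1 0 0 0 (-1) 0) 0 0 256 (-6656) 6656 (-6656) (-6656) 0 0
    .nil))))))))))))))))))))))))))))))))))))))))))))))))))))

/-- Goals of `n_WU1_7_2a` after part 2. -/
noncomputable def g_WU1_7_2a_2 : G :=
  (.x [.mk (-1) (-2) (-1), .mk 1 0 0, .mk 0 1 0, .mk (-1) (-1) 0, .mk 0 0 1] 1 4 2 (.mk 2 2 2 0 1 1 1) 0 0 256 (-5376) (-2624) (-5376) (-5376) (-5376) 128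
    (.x [.mk (-1) (-2) (-1), .mk 1 0 0, .mk 0 1 0, .mk (-1) (-1) 0, .mk 0 0 1] 1 4 2 (.mk 2 2 2 0 1 1 1) 0 0 256 (-2624) 128 (-5376) (-5376) (-5376) 128
    (.x [.mk (-1) (-2) (-1), .mk 1 0 0, .mk 0 1 0, .mk (-1) (-1) 0, .mk 0 0 1] 1 4 2 (.mk 2 2 2 0 1 1 1) 0 0 256 (-5376) 128 (-5376) (-5376) 128 5376
    (.x [.mk (-1) (-2) (-1), .mk 1 0 0, .mk 0 1 0, .mk (-1) (-1) 0, .mk 0 0 1] 1 4 2 (.mk 2 2 2 0 1 1 1) 0 0 256 128 5376 (-5376) (-5376) (-5376) 5376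
    (.x [.mk (-1) (-2) (-1), .mk 1 0 0, .mk 0 1 0, .mk (-1) (-1) 0, .mk 0 0 1] 1 4 2 (.mk 2 2 2 0 1 1 1) 0 0 256 (-5376) 5376 (-5376) 5376 5376 5376
    (.x [.mk (-1) (-2) (-1), .mk 1 0 0, .mk 0 1 0, .mk (-1) (-1) 0, .mk 0 0 1] 1 4 2 (.mk 2 2 2 0 1 1 1) 0 0 256 (-5376) 5376 (-5376) 5376 (-5376) (-5376)
    (.x [.mk 1 0 0, .mk 0 1 0, .mk (-1) (-1) 0, .mk 0 0 1] 1 4 2 (.mk 1 1 0 0 0 (-1) 0) 1 1 1 0 0 (-3) (-2) 0 0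
    (.x [.mk 1 0 0, .mk 0 1 0, .mk (-1) (-1) 0, .mk 0 0 1] 1 4 2 (.mk 1 1 0 0 0 (-1) 0) 1 1 1 (-2) 0 (-1) 0 0 0
    (.x [.mk 1 0 0, .mk 0 1 0, .mk (-1) (-1) 0, .mk 0 0 1] 1 4 2 (.mk 1 1 0 0 0 (-1) 0) 1 1 1 (-25) 0 1 25 0 0
    (.x [.mk 1 0 0, .mk 0 1 0, .mk (-1) (-1) 0, .mk 0 0 1] 1 4 2 (.mk 1 1 0 0 0 (-1) 0) 1 1 1 1 25 (-25) 25 0 0
    (.x [.mk 1 0 0, .mk 0 1 0, .mk (-1) (-1) 0, .mk 0 0 1] 1 4 2 (.mk 1 1 0 0 0 (-1) 0) 0 0 256 6656 6656 (-6656) 6656 0 0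
    (.x [.mk 1 0 0, .mk 0 1 0, .mk (-1) (-1) 0, .mk 0 0 1] 1 4 2 (.mk 1 1 0 0 0 (-1) 0) 0 0 256 (-6656) (-6656) (-6656) 6656 0 0
    (.x [.mk 1 0 0, .mk 0 1 0, .mk (-1) (-1) 0, .mk 0 0 1] 1 4 2 (.mk 1 1 0 0 0 (-1) 0) 0 0 256 (-6656) 6656 6656 6656 0 0
    (.x [.mk 1 0 0, .mk 0 1 0, .mk (-1) (-1) 0, .mk 0 0 1] 1 4 2 (.mk 1 1 0 0 0 (-1) 0) 0 0 256 (-6656) 6656 (-6656) (-6656) 0 0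
    .nil))))))))))))))

/-- Goals of `n_WU1_7_2a` after part 3. -/
noncomputable def g_WU1_7_2a_3 : G :=
  (.x [.mk 0 0 (-1), .mk 1 0 0, .mk 0 1 0, .mk (-1) (-1) 0, .mk 0 0 1] 1 4 2 (.mk 2 2 2 0 1 1 1) 1 1 1 (-4) 0 1 4 (-4) 4
    (.x [.mk 0 0 (-1), .mk 1 0 0, .mk 0 1 0, .mk (-1) (-1) 0, .mk 0 0 1] 1 4 2 (.mk 2 2 2 0 1 1 1) 1 1 1 1 4 (-4) 4 (-4) 4
    (.x [.mk 0 0 (-1), .mk 1 0 0, .mk 0 1 0, .mk (-1) (-1) 0, .mk 0 0 1] 1 4 2 (.mk 2 2 2 0 1 1 1) 0 0 256 1280 1280 (-1280) 1280 (-1280) 1280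
    (.x [.mk 0 0 (-1), .mk 1 0 0, .mk 0 1 0, .mk (-1) (-1) 0, .mk 0 0 1] 1 4 2 (.mk 2 2 2 0 1 1 1) 0 0 256 (-1280) (-1280) (-1280) 1280 (-1280) 1280
    (.x [.mk 0 0 (-1), .mk 1 0 0, .mk 0 1 0, .mk (-1) (-1) 0, .mk 0 0 1] 1 4 2 (.mk 2 2 2 0 1 1 1) 0 0 256 (-1280) 1280 1280 1280 (-1280) 1280
    (.x [.mk 0 0 (-1), .mk 1 0 0, .mk 0 1 0, .mk (-1) (-1) 0, .mk 0 0 1] 1 4 2 (.mk 2 2 2 0 1 1 1) 0 0 256 (-1280) 1280 (-1280) (-1280) (-1280) 1280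
    (.x [.mk 0 0 (-1), .mk 1 0 0, .mk 0 1 0, .mk (-1) (-1) 0, .mk 0 0 1] 1 4 2 (.mk 2 2 2 0 1 1 1) 0 0 256 (-1280) 1280 (-1280) 1280 1280 1280
    (.x [.mk 0 0 (-1), .mk 1 0 0, .mk 0 1 0, .mk (-1) (-1) 0, .mk 0 0 1] 1 4 2 (.mk 2 2 2 0 1 1 1) 0 0 256 (-1280) 1280 (-1280) 1280 (-1280) (-1280)
    (.x [.mk 1 0 0, .mk 0 1 0, .mk (-1) (-1) 0, .mk 0 0 1] 1 4 2 (.mk 1 1 0 0 0 (-1) 0) 1 1 1 (-25) 0 1 25 0 0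
    (.x [.mk 1 0 0, .mk 0 1 0, .mk (-1) (-1) 0, .mk 0 0 1] 1 4 2 (.mk 1 1 0 0 0 (-1) 0) 1 1 1 1 25 (-25) 25 0 0
    (.x [.mk 1 0 0, .mk 0 1 0, .mk (-1) (-1) 0, .mk 0 0 1] 1 4 2 (.mk 1 1 0 0 0 (-1) 0) 0 0 256 6656 6656 (-6656) 6656 0 0
    (.x [.mk 1 0 0, .mk 0 1 0, .mk (-1) (-1) 0, .mk 0 0 1] 1 4 2 (.mk 1 1 0 0 0 (-1) 0) 0 0 256 (-6656) (-6656) (-6656) 6656 0 0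
    (.x [.mk 1 0 0, .mk 0 1 0, .mk (-1) (-1) 0, .mk 0 0 1] 1 4 2 (.mk 1 1 0 0 0 (-1) 0) 0 0 256 (-6656) 6656 6656 6656 0 0
    (.x [.mk 1 0 0, .mk 0 1 0, .mk (-1) (-1) 0, .mk 0 0 1] 1 4 2 (.mk 1 1 0 0 0 (-1) 0) 0 0 256 (-6656) 6656 (-6656) (-6656) 0 0
    .nil))))))))))))))

/-- Goals of `n_WU1_7_2a` after part 4. -/
noncomputable def g_WU1_7_2a_4 : G :=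
  (.x [.mk (-1) 1 1, .mk 0 1 (-1), .mk (-1) (-2) (-1), .mk 0 2 (-1), .mk 1 0 0, .mk 0 1 0, .mk (-1) (-1) 0, .mk 0 0 1] 1 4 2 (.mk 1 1 1 0 0 0 11) 0 0 256 (-1792) 1792 (-1792) 1792 (-1792) (-1792)
    (.x [.mk 0 1 (-1), .mk (-1) (-2) (-1), .mk 0 2 (-1), .mk 1 0 0, .mk 0 1 0, .mk (-1) (-1) 0, .mk 0 0 1] 1 4 2 (.mk 2 2 2 1 1 1 1) 1 1 1 0 0 (-1) 0 (-1) 0
    (.x [.mk 0 1 (-1), .mk (-1) (-2) (-1), .mk 0 2 (-1), .mk 1 0 0, .mk 0 1 0, .mk (-1) (-1) 0, .mk 0 0 1] 1 4 2 (.mk 2 2 2 1 1 1 1) 1 1 1 (-3) 0 (-3) 0 1 3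
    (.x [.mk 0 1 (-1), .mk (-1) (-2) (-1), .mk 0 2 (-1), .mk 1 0 0, .mk 0 1 0, .mk (-1) (-1) 0, .mk 0 0 1] 1 4 2 (.mk 2 2 2 1 1 1 1) 1 1 1 (-3) 0 1 3 (-3) 3
    (.x [.mk 0 1 (-1), .mk (-1) (-2) (-1), .mk 0 2 (-1), .mk 1 0 0, .mk 0 1 0, .mk (-1) (-1) 0, .mk 0 0 1] 1 4 2 (.mk 2 2 2 1 1 1 1) 1 1 1 1 3 (-3) 3 (-3) 3
    (.x [.mk 0 1 (-1), .mk (-1) (-2) (-1), .mk 0 2 (-1), .mk 1 0 0, .mk 0 1 0, .mk (-1) (-1) 0, .mk 0 0 1] 1 4 2 (.mk 2 2 2 1 1 1 1) 0 0 256 1024 1024 (-1024) 1024 (-1024) 1024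
    (.x [.mk 0 1 (-1), .mk (-1) (-2) (-1), .mk 0 2 (-1), .mk 1 0 0, .mk 0 1 0, .mk (-1) (-1) 0, .mk 0 0 1] 1 4 2 (.mk 2 2 2 1 1 1 1) 0 0 256 (-1024) (-1024) (-1024) 1024 (-1024) 1024
    (.x [.mk 0 1 (-1), .mk (-1) (-2) (-1), .mk 0 2 (-1), .mk 1 0 0, .mk 0 1 0, .mk (-1) (-1) 0, .mk 0 0 1] 1 4 2 (.mk 2 2 2 1 1 1 1) 0 0 256 (-1024) 1024 1024 1024 (-1024) 1024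
    (.x [.mk 0 1 (-1), .mk (-1) (-2) (-1), .mk 0 2 (-1), .mk 1 0 0, .mk 0 1 0, .mk (-1) (-1) 0, .mk 0 0 1] 1 4 2 (.mk 2 2 2 1 1 1 1) 0 0 256 (-1024) 1024 (-1024) (-1024) (-1024) 1024
    (.x [.mk 0 1 (-1), .mk (-1) (-2) (-1), .mk 0 2 (-1), .mk 1 0 0, .mk 0 1 0, .mk (-1) (-1) 0, .mk 0 0 1] 1 4 2 (.mk 2 2 2 1 1 1 1) 0 0 256 (-1024) 1024 (-1024) 1024 1024 1024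
    (.x [.mk 0 1 (-1), .mk (-1) (-2) (-1), .mk 0 2 (-1), .mk 1 0 0, .mk 0 1 0, .mk (-1) (-1) 0, .mk 0 0 1] 1 4 2 (.mk 2 2 2 1 1 1 1) 0 0 256 (-1024) 1024 (-1024) 1024 (-1024) (-1024)
    (.x [.mk (-1) (-2) (-1), .mk 0 2 (-1), .mk 1 0 0, .mk 0 1 0, .mk (-1) (-1) 0, .mk 0 0 1] 1 4 2 (.mk 2 2 2 0 1 1 1) 1 1 1 0 0 0 0 0 0
    (.x [.mk (-1) (-2) (-1), .mk 0 2 (-1), .mk 1 0 0, .mk 0 1 0, .mk (-1) (-1) 0, .mk 0 0 1] 1 4 2 (.mk 2 2 2 0 1 1 1) 1 1 1 (-3) 0 (-4) 0 1 4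
    (.x [.mk (-1) (-2) (-1), .mk 0 2 (-1), .mk 1 0 0, .mk 0 1 0, .mk (-1) (-1) 0, .mk 0 0 1] 1 4 2 (.mk 2 2 2 0 1 1 1) 1 1 1 (-3) 0 1 4 (-4) 4
    (.x [.mk (-1) (-2) (-1), .mk 0 2 (-1), .mk 1 0 0, .mk 0 1 0, .mk (-1) (-1) 0, .mk 0 0 1] 1 4 2 (.mk 2 2 2 0 1 1 1) 1 1 1 1 4 (-4) 4 (-4) 4
    (.x [.mk (-1) (-2) (-1), .mk 0 2 (-1), .mk 1 0 0, .mk 0 1 0, .mk (-1) (-1) 0, .mk 0 0 1] 1 4 2 (.mk 2 2 2 0 1 1 1) 0 0 256 1280 1280 (-1280) 1280 (-1280) 1280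
    (.x [.mk (-1) (-2) (-1), .mk 0 2 (-1), .mk 1 0 0, .mk 0 1 0, .mk (-1) (-1) 0, .mk 0 0 1] 1 4 2 (.mk 2 2 2 0 1 1 1) 0 0 256 (-1280) (-1280) (-1280) 1280 (-1280) 1280
    (.x [.mk (-1) (-2) (-1), .mk 0 2 (-1), .mk 1 0 0, .mk 0 1 0, .mk (-1) (-1) 0, .mk 0 0 1] 1 4 2 (.mk 2 2 2 0 1 1 1) 0 0 256 (-1280) 1280 1280 1280 (-1280) 1280
    (.x [.mk (-1) (-2) (-1), .mk 0 2 (-1), .mk 1 0 0, .mk 0 1 0, .mk (-1) (-1) 0, .mk 0 0 1] 1 4 2 (.mk 2 2 2 0 1 1 1) 0 0 256 (-1280) 1280 (-1280) (-1280) (-1280) 1280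
    (.x [.mk (-1) (-2) (-1), .mk 0 2 (-1), .mk 1 0 0, .mk 0 1 0, .mk (-1) (-1) 0, .mk 0 0 1] 1 4 2 (.mk 2 2 2 0 1 1 1) 0 0 256 (-1280) 1280 (-1280) 1280 1280 1280
    (.x [.mk (-1) (-2) (-1), .mk 0 2 (-1), .mk 1 0 0, .mk 0 1 0, .mk (-1) (-1) 0, .mk 0 0 1] 1 4 2 (.mk 2 2 2 0 1 1 1) 0 0 256 (-1280) 1280 (-1280) 1280 (-1280) (-1280)
    (.x [.mk 0 2 (-1), .mk 1 0 0, .mk 0 1 0, .mk (-1) (-1) 0, .mk 0 0 1] 1 4 2 (.mk 2 2 2 1 0 1 1) 1 1 1 (-1) (-1) 0 0 (-1) (-1)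
    (.x [.mk 0 2 (-1), .mk 1 0 0, .mk 0 1 0, .mk (-1) (-1) 0, .mk 0 0 1] 1 4 2 (.mk 2 2 2 1 0 1 1) 1 1 1 (-2) (-1) (-1) 0 0 0
    (.x [.mk 0 2 (-1), .mk 1 0 0, .mk 0 1 0, .mk (-1) (-1) 0, .mk 0 0 1] 1 4 2 (.mk 2 2 2 1 0 1 1) 1 1 1 0 0 (-1) 0 (-2) 0
    (.x [.mk 0 2 (-1), .mk 1 0 0, .mk 0 1 0, .mk (-1) (-1) 0, .mk 0 0 1] 1 4 2 (.mk 2 2 2 1 0 1 1) 1 1 1 (-13) 0 (-13) 0 1 13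
    (.x [.mk 0 2 (-1), .mk 1 0 0, .mk 0 1 0, .mk (-1) (-1) 0, .mk 0 0 1] 1 4 2 (.mk 2 2 2 1 0 1 1) 1 1 1 (-13) 0 1 13 (-13) 13
    (.x [.mk 0 2 (-1), .mk 1 0 0, .mk 0 1 0, .mk (-1) (-1) 0, .mk 0 0 1] 1 4 2 (.mk 2 2 2 1 0 1 1) 1 1 1 1 13 (-13) 13 (-13) 13
    (.x [.mk 0 2 (-1), .mk 1 0 0, .mk 0 1 0, .mk (-1) (-1) 0, .mk 0 0 1] 1 4 2 (.mk 2 2 2 1 0 1 1) 0 0 256 3584 3584 (-3584) 3584 (-3584) 3584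
    (.x [.mk 0 2 (-1), .mk 1 0 0, .mk 0 1 0, .mk (-1) (-1) 0, .mk 0 0 1] 1 4 2 (.mk 2 2 2 1 0 1 1) 0 0 256 (-3584) (-3584) (-3584) 3584 (-3584) 3584
    (.x [.mk 0 2 (-1), .mk 1 0 0, .mk 0 1 0, .mk (-1) (-1) 0, .mk 0 0 1] 1 4 2 (.mk 2 2 2 1 0 1 1) 0 0 256 (-3584) 3584 3584 3584 (-3584) 3584
    (.x [.mk 0 2 (-1), .mk 1 0 0, .mk 0 1 0, .mk (-1) (-1) 0, .mk 0 0 1] 1 4 2 (.mk 2 2 2 1 0 1 1) 0 0 256 (-3584) 3584 (-3584) (-3584) (-3584) 3584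
    (.x [.mk 0 2 (-1), .mk 1 0 0, .mk 0 1 0, .mk (-1) (-1) 0, .mk 0 0 1] 1 4 2 (.mk 2 2 2 1 0 1 1) 0 0 256 (-3584) 3584 (-3584) 3584 3584 3584
    (.x [.mk 0 2 (-1), .mk 1 0 0, .mk 0 1 0, .mk (-1) (-1) 0, .mk 0 0 1] 1 4 2 (.mk 2 2 2 1 0 1 1) 0 0 256 (-3584) 3584 (-3584) 3584 (-3584) (-3584)
    (.x [.mk 1 0 0, .mk 0 1 0, .mk (-1) (-1) 0, .mk 0 0 1] 1 4 2 (.mk 1 1 0 0 0 (-1) 0) 1 1 1 0 0 3 3 0 0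
    (.x [.mk 1 0 0, .mk 0 1 0, .mk (-1) (-1) 0, .mk 0 0 1] 1 4 2 (.mk 1 1 0 0 0 (-1) 0) 1 1 1 (-2) 0 4 5 0 0
    (.x [.mk 1 0 0, .mk 0 1 0, .mk (-1) (-1) 0, .mk 0 0 1] 1 4 2 (.mk 1 1 0 0 0 (-1) 0) 1 1 1 (-5) 0 6 9 0 0
    (.x [.mk 1 0 0, .mk 0 1 0, .mk (-1) (-1) 0, .mk 0 0 1] 1 4 2 (.mk 1 1 0 0 0 (-1) 0) 1 1 1 (-12) 0 10 18 0 0
    (.x [.mk 1 0 0, .mk 0 1 0, .mk (-1) (-1) 0, .mk 0 0 1] 1 4 2 (.mk 1 1 0 0 0 (-1) 0) 1 1 1 (-12) 0 19 25 0 0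
    (.x [.mk 1 0 0, .mk 0 1 0, .mk (-1) (-1) 0, .mk 0 0 1] 1 4 2 (.mk 1 1 0 0 0 (-1) 0) 1 1 1 1 25 (-25) 25 0 0
    (.x [.mk 1 0 0, .mk 0 1 0, .mk (-1) (-1) 0, .mk 0 0 1] 1 4 2 (.mk 1 1 0 0 0 (-1) 0) 0 0 256 6656 6656 (-6656) 6656 0 0
    (.x [.mk 1 0 0, .mk 0 1 0, .mk (-1) (-1) 0, .mk 0 0 1] 1 4 2 (.mk 1 1 0 0 0 (-1) 0) 0 0 256 (-6656) (-6656) (-6656) 6656 0 0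
    (.x [.mk 1 0 0, .mk 0 1 0, .mk (-1) (-1) 0, .mk 0 0 1] 1 4 2 (.mk 1 1 0 0 0 (-1) 0) 0 0 256 (-6656) 6656 6656 6656 0 0
    (.x [.mk 1 0 0, .mk 0 1 0, .mk (-1) (-1) 0, .mk 0 0 1] 1 4 2 (.mk 1 1 0 0 0 (-1) 0) 0 0 256 (-6656) 6656 (-6656) (-6656) 0 0
    .nil)))))))))))))))))))))))))))))))))))))))))))

/-- Goals of `n_WU1_7_2a` after part 5. -/
noncomputable def g_WU1_7_2a_5 : G :=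
  (.x [.mk 2 0 (-1), .mk 1 0 0, .mk 0 1 0, .mk (-1) (-1) 0, .mk 0 0 1] 1 4 2 (.mk 2 2 2 1 1 1 1) 1 1 1 (-15) (-14) (-2) 0 13 15
    (.x [.mk 2 0 (-1), .mk 1 0 0, .mk 0 1 0, .mk (-1) (-1) 0, .mk 0 0 1] 1 4 2 (.mk 2 2 2 1 1 1 1) 1 1 1 (-13) (-12) (-2) 0 13 15
    (.x [.mk 2 0 (-1), .mk 1 0 0, .mk 0 1 0, .mk (-1) (-1) 0, .mk 0 0 1] 1 4 2 (.mk 2 2 2 1 1 1 1) 1 1 1 (-23) (-12) (-11) 0 16 23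
    (.x [.mk 2 0 (-1), .mk 1 0 0, .mk 0 1 0, .mk (-1) (-1) 0, .mk 0 0 1] 1 4 2 (.mk 2 2 2 1 1 1 1) 1 1 1 (-11) 0 (-23) 0 1 23
    (.x [.mk 2 0 (-1), .mk 1 0 0, .mk 0 1 0, .mk (-1) (-1) 0, .mk 0 0 1] 1 4 2 (.mk 2 2 2 1 1 1 1) 1 1 1 (-23) 0 1 23 (-23) 23
    (.x [.mk 2 0 (-1), .mk 1 0 0, .mk 0 1 0, .mk (-1) (-1) 0, .mk 0 0 1] 1 4 2 (.mk 2 2 2 1 1 1 1) 1 1 1 1 23 (-23) 23 (-23) 23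
    (.x [.mk 2 0 (-1), .mk 1 0 0, .mk 0 1 0, .mk (-1) (-1) 0, .mk 0 0 1] 1 4 2 (.mk 2 2 2 1 1 1 1) 0 0 256 6144 6144 (-6144) 6144 (-6144) 6144
    (.x [.mk 2 0 (-1), .mk 1 0 0, .mk 0 1 0, .mk (-1) (-1) 0, .mk 0 0 1] 1 4 2 (.mk 2 2 2 1 1 1 1) 0 0 256 (-6144) (-6144) (-6144) 6144 (-6144) 6144
    (.x [.mk 2 0 (-1), .mk 1 0 0, .mk 0 1 0, .mk (-1) (-1) 0, .mk 0 0 1] 1 4 2 (.mk 2 2 2 1 1 1 1) 0 0 256 (-6144) 6144 6144 6144 (-6144) 6144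
    (.x [.mk 2 0 (-1), .mk 1 0 0, .mk 0 1 0, .mk (-1) (-1) 0, .mk 0 0 1] 1 4 2 (.mk 2 2 2 1 1 1 1) 0 0 256 (-6144) 6144 (-6144) (-6144) (-6144) 6144
    (.x [.mk 2 0 (-1), .mk 1 0 0, .mk 0 1 0, .mk (-1) (-1) 0, .mk 0 0 1] 1 4 2 (.mk 2 2 2 1 1 1 1) 0 0 256 (-6144) 6144 (-6144) 6144 6144 6144
    (.x [.mk 2 0 (-1), .mk 1 0 0, .mk 0 1 0, .mk (-1) (-1) 0, .mk 0 0 1] 1 4 2 (.mk 2 2 2 1 1 1 1) 0 0 256 (-6144) 6144 (-6144) 6144 (-6144) (-6144)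
    (.x [.mk 1 0 0, .mk 0 1 0, .mk (-1) (-1) 0, .mk 0 0 1] 1 4 2 (.mk 1 1 0 0 0 (-1) 0) 1 1 1 2 2 1 1 0 0
    (.x [.mk 1 0 0, .mk 0 1 0, .mk (-1) (-1) 0, .mk 0 0 1] 1 4 2 (.mk 1 1 0 0 0 (-1) 0) 1 1 1 3 3 (-1) 1 0 0
    (.x [.mk 1 0 0, .mk 0 1 0, .mk (-1) (-1) 0, .mk 0 0 1] 1 4 2 (.mk 1 1 0 0 0 (-1) 0) 1 1 1 4 6 (-1) 1 0 0
    (.x [.mk 1 0 0, .mk 0 1 0, .mk (-1) (-1) 0, .mk 0 0 1] 1 4 2 (.mk 1 1 0 0 0 (-1) 0) 1 1 1 7 12 (-1) 1 0 0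
    (.x [.mk 1 0 0, .mk 0 1 0, .mk (-1) (-1) 0, .mk 0 0 1] 1 4 2 (.mk 1 1 0 0 0 (-1) 0) 1 1 1 13 25 (-1) 1 0 0
    (.x [.mk 1 0 0, .mk 0 1 0, .mk (-1) (-1) 0, .mk 0 0 1] 1 4 2 (.mk 1 1 0 0 0 (-1) 0) 1 1 1 1 25 2 25 0 0
    (.x [.mk 1 0 0, .mk 0 1 0, .mk (-1) (-1) 0, .mk 0 0 1] 1 4 2 (.mk 1 1 0 0 0 (-1) 0) 0 0 256 6656 6656 (-6656) 6656 0 0
    (.x [.mk 1 0 0, .mk 0 1 0, .mk (-1) (-1) 0, .mk 0 0 1] 1 4 2 (.mk 1 1 0 0 0 (-1) 0) 0 0 256 (-6656) (-6656) (-6656) 6656 0 0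
    (.x [.mk 1 0 0, .mk 0 1 0, .mk (-1) (-1) 0, .mk 0 0 1] 1 4 2 (.mk 1 1 0 0 0 (-1) 0) 0 0 256 (-6656) 6656 6656 6656 0 0
    (.x [.mk 1 0 0, .mk 0 1 0, .mk (-1) (-1) 0, .mk 0 0 1] 1 4 2 (.mk 1 1 0 0 0 (-1) 0) 0 0 256 (-6656) 6656 (-6656) (-6656) 0 0
    .nil))))))))))))))))))))))

/-- Goals of `n_WU1_7_2a` after part 6. -/
noncomputable def g_WU1_7_2a_6 : G :=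
  (.x [.mk (-2) (-3) (-1), .mk 3 1 (-1), .mk 1 0 0, .mk 0 1 0, .mk (-1) (-1) 0, .mk 0 0 1] 1 4 2 (.mk 2 2 2 1 0 1 1) 1 1 1 (-19) (-17) (-22) (-17) (-3) 2
    (.x [.mk (-2) (-3) (-1), .mk 3 1 (-1), .mk 1 0 0, .mk 0 1 0, .mk (-1) (-1) 0, .mk 0 0 1] 1 4 2 (.mk 2 2 2 1 0 1 1) 1 1 1 (-22) (-17) (-22) (-17) 3 5
    (.x [.mk (-2) (-3) (-1), .mk 3 1 (-1), .mk 1 0 0, .mk 0 1 0, .mk (-1) (-1) 0, .mk 0 0 1] 1 4 2 (.mk 2 2 2 1 0 1 1) 1 1 1 (-22) (-17) (-16) (-11) (-3) 5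
    (.x [.mk (-2) (-3) (-1), .mk 3 1 (-1), .mk 1 0 0, .mk 0 1 0, .mk (-1) (-1) 0, .mk 0 0 1] 1 4 2 (.mk 2 2 2 1 0 1 1) 1 1 1 (-16) (-11) (-22) (-11) (-6) 5
    (.x [.mk (-2) (-3) (-1), .mk 3 1 (-1), .mk 1 0 0, .mk 0 1 0, .mk (-1) (-1) 0, .mk 0 0 1] 1 4 2 (.mk 2 2 2 1 0 1 1) 1 1 1 (-22) (-11) (-10) 0 (-6) 5
    (.x [.mk (-2) (-3) (-1), .mk 3 1 (-1), .mk 1 0 0, .mk 0 1 0, .mk (-1) (-1) 0, .mk 0 0 1] 1 4 2 (.mk 2 2 2 1 0 1 1) 1 1 1 (-10) 0 (-22) 0 (-11) 5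
    (.x [.mk (-2) (-3) (-1), .mk 3 1 (-1), .mk 1 0 0, .mk 0 1 0, .mk (-1) (-1) 0, .mk 0 0 1] 1 4 2 (.mk 2 2 2 1 0 1 1) 1 1 1 (-22) 0 (-22) 0 6 22
    (.x [.mk (-2) (-3) (-1), .mk 3 1 (-1), .mk 1 0 0, .mk 0 1 0, .mk (-1) (-1) 0, .mk 0 0 1] 1 4 2 (.mk 2 2 2 1 0 1 1) 1 1 1 (-22) 0 1 22 (-11) 22
    (.x [.mk (-2) (-3) (-1), .mk 3 1 (-1), .mk 1 0 0, .mk 0 1 0, .mk (-1) (-1) 0, .mk 0 0 1] 1 4 2 (.mk 2 2 2 1 0 1 1) 1 1 1 1 22 (-22) 22 (-22) 22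
    (.x [.mk (-2) (-3) (-1), .mk 3 1 (-1), .mk 1 0 0, .mk 0 1 0, .mk (-1) (-1) 0, .mk 0 0 1] 1 4 2 (.mk 2 2 2 1 0 1 1) 0 0 256 5888 5888 (-5888) 5888 (-5888) 5888
    (.x [.mk (-2) (-3) (-1), .mk 3 1 (-1), .mk 1 0 0, .mk 0 1 0, .mk (-1) (-1) 0, .mk 0 0 1] 1 4 2 (.mk 2 2 2 1 0 1 1) 0 0 256 (-5888) (-5888) (-5888) 5888 (-5888) 5888
    (.x [.mk (-2) (-3) (-1), .mk 3 1 (-1), .mk 1 0 0, .mk 0 1 0, .mk (-1) (-1) 0, .mk 0 0 1] 1 4 2 (.mk 2 2 2 1 0 1 1) 0 0 256 (-5888) 5888 5888 5888 (-5888) 5888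
    (.x [.mk (-2) (-3) (-1), .mk 3 1 (-1), .mk 1 0 0, .mk 0 1 0, .mk (-1) (-1) 0, .mk 0 0 1] 1 4 2 (.mk 2 2 2 1 0 1 1) 0 0 256 (-5888) 5888 (-5888) (-5888) (-5888) 5888
    (.x [.mk (-2) (-3) (-1), .mk 3 1 (-1), .mk 1 0 0, .mk 0 1 0, .mk (-1) (-1) 0, .mk 0 0 1] 1 4 2 (.mk 2 2 2 1 0 1 1) 0 0 256 (-5888) 5888 (-5888) 5888 5888 5888
    (.x [.mk (-2) (-3) (-1), .mk 3 1 (-1), .mk 1 0 0, .mk 0 1 0, .mk (-1) (-1) 0, .mk 0 0 1] 1 4 2 (.mk 2 2 2 1 0 1 1) 0 0 256 (-5888) 5888 (-5888) 5888 (-5888) (-5888)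
    (.x [.mk 3 1 (-1), .mk 1 0 0, .mk 0 1 0, .mk (-1) (-1) 0, .mk 0 0 1] 1 4 2 (.mk 2 2 2 0 1 1 1) 1 1 1 0 0 (-3) (-2) (-2) (-1)
    (.x [.mk 3 1 (-1), .mk 1 0 0, .mk 0 1 0, .mk (-1) (-1) 0, .mk 0 0 1] 1 4 2 (.mk 2 2 2 0 1 1 1) 1 1 1 (-1) 0 (-3) (-2) 0 1
    (.x [.mk 3 1 (-1), .mk 1 0 0, .mk 0 1 0, .mk (-1) (-1) 0, .mk 0 0 1] 1 4 2 (.mk 2 2 2 0 1 1 1) 1 1 1 (-1) 0 (-1) 0 (-2) 1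
    (.x [.mk 3 1 (-1), .mk 1 0 0, .mk 0 1 0, .mk (-1) (-1) 0, .mk 0 0 1] 1 4 2 (.mk 2 2 2 0 1 1 1) 1 1 1 (-4) 0 (-4) 0 2 4
    (.x [.mk 3 1 (-1), .mk 1 0 0, .mk 0 1 0, .mk (-1) (-1) 0, .mk 0 0 1] 1 4 2 (.mk 2 2 2 0 1 1 1) 1 1 1 (-21) 0 (-21) 0 5 21
    (.x [.mk 3 1 (-1), .mk 1 0 0, .mk 0 1 0, .mk (-1) (-1) 0, .mk 0 0 1] 1 4 2 (.mk 2 2 2 0 1 1 1) 1 1 1 (-21) 0 1 21 (-12) 21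
    (.x [.mk 3 1 (-1), .mk 1 0 0, .mk 0 1 0, .mk (-1) (-1) 0, .mk 0 0 1] 1 4 2 (.mk 2 2 2 0 1 1 1) 1 1 1 1 21 (-21) 21 (-21) 21
    (.x [.mk 3 1 (-1), .mk 1 0 0, .mk 0 1 0, .mk (-1) (-1) 0, .mk 0 0 1] 1 4 2 (.mk 2 2 2 0 1 1 1) 0 0 256 5632 5632 (-5632) 5632 (-5632) 5632
    (.x [.mk 3 1 (-1), .mk 1 0 0, .mk 0 1 0, .mk (-1) (-1) 0, .mk 0 0 1] 1 4 2 (.mk 2 2 2 0 1 1 1) 0 0 256 (-5632) (-5632) (-5632) 5632 (-5632) 5632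
    (.x [.mk 3 1 (-1), .mk 1 0 0, .mk 0 1 0, .mk (-1) (-1) 0, .mk 0 0 1] 1 4 2 (.mk 2 2 2 0 1 1 1) 0 0 256 (-5632) 5632 5632 5632 (-5632) 5632
    (.x [.mk 3 1 (-1), .mk 1 0 0, .mk 0 1 0, .mk (-1) (-1) 0, .mk 0 0 1] 1 4 2 (.mk 2 2 2 0 1 1 1) 0 0 256 (-5632) 5632 (-5632) (-5632) (-5632) 5632
    (.x [.mk 3 1 (-1), .mk 1 0 0, .mk 0 1 0, .mk (-1) (-1) 0, .mk 0 0 1] 1 4 2 (.mk 2 2 2 0 1 1 1) 0 0 256 (-5632) 5632 (-5632) 5632 5632 5632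
    (.x [.mk 3 1 (-1), .mk 1 0 0, .mk 0 1 0, .mk (-1) (-1) 0, .mk 0 0 1] 1 4 2 (.mk 2 2 2 0 1 1 1) 0 0 256 (-5632) 5632 (-5632) 5632 (-5632) (-5632)
    (.x [.mk 1 0 0, .mk 0 1 0, .mk (-1) (-1) 0, .mk 0 0 1] 1 4 2 (.mk 1 1 0 0 0 (-1) 0) 1 1 1 4 6 (-1) 1 0 0
    (.x [.mk 1 0 0, .mk 0 1 0, .mk (-1) (-1) 0, .mk 0 0 1] 1 4 2 (.mk 1 1 0 0 0 (-1) 0) 1 1 1 7 12 (-1) 1 0 0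
    (.x [.mk 1 0 0, .mk 0 1 0, .mk (-1) (-1) 0, .mk 0 0 1] 1 4 2 (.mk 1 1 0 0 0 (-1) 0) 1 1 1 13 25 (-1) 1 0 0
    (.x [.mk 1 0 0, .mk 0 1 0, .mk (-1) (-1) 0, .mk 0 0 1] 1 4 2 (.mk 1 1 0 0 0 (-1) 0) 1 1 1 1 25 2 25 0 0
    (.x [.mk 1 0 0, .mk 0 1 0, .mk (-1) (-1) 0, .mk 0 0 1] 1 4 2 (.mk 1 1 0 0 0 (-1) 0) 0 0 256 6656 6656 (-6656) 6656 0 0
    (.x [.mk 1 0 0, .mk 0 1 0, .mk (-1) (-1) 0, .mk 0 0 1] 1 4 2 (.mk 1 1 0 0 0 (-1) 0) 0 0 256 (-6656) (-6656) (-6656) 6656 0 0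
    (.x [.mk 1 0 0, .mk 0 1 0, .mk (-1) (-1) 0, .mk 0 0 1] 1 4 2 (.mk 1 1 0 0 0 (-1) 0) 0 0 256 (-6656) 6656 6656 6656 0 0
    (.x [.mk 1 0 0, .mk 0 1 0, .mk (-1) (-1) 0, .mk 0 0 1] 1 4 2 (.mk 1 1 0 0 0 (-1) 0) 0 0 256 (-6656) 6656 (-6656) (-6656) 0 0
    .nil))))))))))))))))))))))))))))))))))))

/-- Goals of `n_WU1_7_2b` after part 1. -/
noncomputable def g_WU1_7_2b_1 : G :=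
  (.x [.mk (-1) 0 1, .mk 0 (-1) (-1), .mk 1 0 0, .mk 0 1 0, .mk (-1) (-1) 0, .mk 0 0 1] 1 5 2 (.mk 2 2 2 1 1 1 1) 1 1 1 (-3) 0 (-4) (-4) (-2) 0
    (.x [.mk (-1) 0 1, .mk 0 (-1) (-1), .mk 1 0 0, .mk 0 1 0, .mk (-1) (-1) 0, .mk 0 0 1] 1 5 2 (.mk 2 2 2 1 1 1 1) 1 1 1 (-3) 0 (-3) 0 (-2) 0
    (.x [.mk (-1) 0 1, .mk 0 (-1) (-1), .mk 1 0 0, .mk 0 1 0, .mk (-1) (-1) 0, .mk 0 0 1] 1 5 2 (.mk 2 2 2 1 1 1 1) 1 1 1 (-10) 0 (-10) 0 1 10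
    (.x [.mk (-1) 0 1, .mk 0 (-1) (-1), .mk 1 0 0, .mk 0 1 0, .mk (-1) (-1) 0, .mk 0 0 1] 1 5 2 (.mk 2 2 2 1 1 1 1) 1 1 1 (-10) 0 1 10 (-10) 10
    (.x [.mk (-1) 0 1, .mk 0 (-1) (-1), .mk 1 0 0, .mk 0 1 0, .mk (-1) (-1) 0, .mk 0 0 1] 1 5 2 (.mk 2 2 2 1 1 1 1) 1 1 1 1 10 (-10) 10 (-10) 10
    (.x [.mk (-1) 0 1, .mk 0 (-1) (-1), .mk 1 0 0, .mk 0 1 0, .mk (-1) (-1) 0, .mk 0 0 1] 1 5 2 (.mk 2 2 2 1 1 1 1) 0 0 256 2816 2816 (-2816) 2816 (-2816) 2816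
    (.x [.mk (-1) 0 1, .mk 0 (-1) (-1), .mk 1 0 0, .mk 0 1 0, .mk (-1) (-1) 0, .mk 0 0 1] 1 5 2 (.mk 2 2 2 1 1 1 1) 0 0 256 (-2816) (-2816) (-2816) 2816 (-2816) 2816
    (.x [.mk (-1) 0 1, .mk 0 (-1) (-1), .mk 1 0 0, .mk 0 1 0, .mk (-1) (-1) 0, .mk 0 0 1] 1 5 2 (.mk 2 2 2 1 1 1 1) 0 0 256 (-2816) 2816 2816 2816 (-2816) 2816
    (.x [.mk (-1) 0 1, .mk 0 (-1) (-1), .mk 1 0 0, .mk 0 1 0, .mk (-1) (-1) 0, .mk 0 0 1] 1 5 2 (.mk 2 2 2 1 1 1 1) 0 0 256 (-2816) 2816 (-2816) (-2816) (-2816) 2816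
    (.x [.mk (-1) 0 1, .mk 0 (-1) (-1), .mk 1 0 0, .mk 0 1 0, .mk (-1) (-1) 0, .mk 0 0 1] 1 5 2 (.mk 2 2 2 1 1 1 1) 0 0 256 (-2816) 2816 (-2816) 2816 2816 2816
    (.x [.mk (-1) 0 1, .mk 0 (-1) (-1), .mk 1 0 0, .mk 0 1 0, .mk (-1) (-1) 0, .mk 0 0 1] 1 5 2 (.mk 2 2 2 1 1 1 1) 0 0 256 (-2816) 2816 (-2816) 2816 (-2816) (-2816)
    (.x [.mk 0 (-1) (-1), .mk 1 0 0, .mk 0 1 0, .mk (-1) (-1) 0, .mk 0 0 1] 1 5 2 (.mk 2 2 2 1 0 1 1) 1 1 1 0 0 0 0 (-1) 0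
    (.x [.mk 0 (-1) (-1), .mk 1 0 0, .mk 0 1 0, .mk (-1) (-1) 0, .mk 0 0 1] 1 5 2 (.mk 2 2 2 1 0 1 1) 1 1 1 (-8) 0 (-8) 0 1 8
    (.x [.mk 0 (-1) (-1), .mk 1 0 0, .mk 0 1 0, .mk (-1) (-1) 0, .mk 0 0 1] 1 5 2 (.mk 2 2 2 1 0 1 1) 1 1 1 (-8) 0 1 8 (-8) 8
    (.x [.mk 0 (-1) (-1), .mk 1 0 0, .mk 0 1 0, .mk (-1) (-1) 0, .mk 0 0 1] 1 5 2 (.mk 2 2 2 1 0 1 1) 1 1 1 1 8 (-8) 8 (-8) 8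
    (.x [.mk 0 (-1) (-1), .mk 1 0 0, .mk 0 1 0, .mk (-1) (-1) 0, .mk 0 0 1] 1 5 2 (.mk 2 2 2 1 0 1 1) 0 0 256 2304 2304 (-2304) 2304 (-2304) 2304
    (.x [.mk 0 (-1) (-1), .mk 1 0 0, .mk 0 1 0, .mk (-1) (-1) 0, .mk 0 0 1] 1 5 2 (.mk 2 2 2 1 0 1 1) 0 0 256 (-2304) (-2304) (-2304) 2304 (-2304) 2304
    (.x [.mk 0 (-1) (-1), .mk 1 0 0, .mk 0 1 0, .mk (-1) (-1) 0, .mk 0 0 1] 1 5 2 (.mk 2 2 2 1 0 1 1) 0 0 256 (-2304) 2304 2304 2304 (-2304) 2304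
    (.x [.mk 0 (-1) (-1), .mk 1 0 0, .mk 0 1 0, .mk (-1) (-1) 0, .mk 0 0 1] 1 5 2 (.mk 2 2 2 1 0 1 1) 0 0 256 (-2304) 2304 (-2304) (-2304) (-2304) 2304
    (.x [.mk 0 (-1) (-1), .mk 1 0 0, .mk 0 1 0, .mk (-1) (-1) 0, .mk 0 0 1] 1 5 2 (.mk 2 2 2 1 0 1 1) 0 0 256 (-2304) 2304 (-2304) 2304 2304 2304
    (.x [.mk 0 (-1) (-1), .mk 1 0 0, .mk 0 1 0, .mk (-1) (-1) 0, .mk 0 0 1] 1 5 2 (.mk 2 2 2 1 0 1 1) 0 0 256 (-2304) 2304 (-2304) 2304 (-2304) (-2304)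
    (.x [.mk 1 0 0, .mk 0 1 0, .mk (-1) (-1) 0, .mk 0 0 1] 1 5 2 (.mk 1 1 0 0 0 (-1) 0) 1 1 1 (-6) 0 0 3 0 0
    (.x [.mk 1 0 0, .mk 0 1 0, .mk (-1) (-1) 0, .mk 0 0 1] 1 5 2 (.mk 1 1 0 0 0 (-1) 0) 1 1 1 (-19) 0 4 19 0 0
    (.x [.mk 1 0 0, .mk 0 1 0, .mk (-1) (-1) 0, .mk 0 0 1] 1 5 2 (.mk 1 1 0 0 0 (-1) 0) 1 1 1 1 19 (-13) 19 0 0
    (.x [.mk 1 0 0, .mk 0 1 0, .mk (-1) (-1) 0, .mk 0 0 1] 1 5 2 (.mk 1 1 0 0 0 (-1) 0) 0 0 256 5120 5120 (-5120) 5120 0 0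
    (.x [.mk 1 0 0, .mk 0 1 0, .mk (-1) (-1) 0, .mk 0 0 1] 1 5 2 (.mk 1 1 0 0 0 (-1) 0) 0 0 256 (-5120) (-5120) (-5120) 5120 0 0
    (.x [.mk 1 0 0, .mk 0 1 0, .mk (-1) (-1) 0, .mk 0 0 1] 1 5 2 (.mk 1 1 0 0 0 (-1) 0) 0 0 256 (-5120) 5120 5120 5120 0 0
    (.x [.mk 1 0 0, .mk 0 1 0, .mk (-1) (-1) 0, .mk 0 0 1] 1 5 2 (.mk 1 1 0 0 0 (-1) 0) 0 0 256 (-5120) 5120 (-5120) (-5120) 0 0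
    (.o 1 1 6 6 2 2 .nil)))))))))))))))))))))))))))))

/-- Goals of `n_WU1_7_2b` after part 2. -/
noncomputable def g_WU1_7_2b_2 : G :=
  (.x [.mk 1 2 (-1), .mk (-1) 1 (-1), .mk 1 0 0, .mk 0 1 0, .mk (-1) (-1) 0, .mk 0 0 1] 1 5 2 (.mk 2 2 2 0 1 1 1) 1 1 1 (-12) (-11) (-12) (-10) (-2) 0
    (.x [.mk 1 2 (-1), .mk (-1) 1 (-1), .mk 1 0 0, .mk 0 1 0, .mk (-1) (-1) 0, .mk 0 0 1] 1 5 2 (.mk 2 2 2 0 1 1 1) 1 1 1 (-14) (-11) (-9) (-7) (-4) 0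
    (.x [.mk 1 2 (-1), .mk (-1) 1 (-1), .mk 1 0 0, .mk 0 1 0, .mk (-1) (-1) 0, .mk 0 0 1] 1 5 2 (.mk 2 2 2 0 1 1 1) 1 1 1 (-14) (-11) (-12) (-7) 1 3
    (.x [.mk 1 2 (-1), .mk (-1) 1 (-1), .mk 1 0 0, .mk 0 1 0, .mk (-1) (-1) 0, .mk 0 0 1] 1 5 2 (.mk 2 2 2 0 1 1 1) 1 1 1 (-10) (-7) (-12) (-7) (-4) 3
    (.x [.mk 1 2 (-1), .mk (-1) 1 (-1), .mk 1 0 0, .mk 0 1 0, .mk (-1) (-1) 0, .mk 0 0 1] 1 5 2 (.mk 2 2 2 0 1 1 1) 1 1 1 (-14) (-7) (-6) 0 (-7) 3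
    (.x [.mk 1 2 (-1), .mk (-1) 1 (-1), .mk 1 0 0, .mk 0 1 0, .mk (-1) (-1) 0, .mk 0 0 1] 1 5 2 (.mk 2 2 2 0 1 1 1) 1 1 1 (-6) 0 (-14) 0 (-7) 3
    (.x [.mk 1 2 (-1), .mk (-1) 1 (-1), .mk 1 0 0, .mk 0 1 0, .mk (-1) (-1) 0, .mk 0 0 1] 1 5 2 (.mk 2 2 2 0 1 1 1) 1 1 1 (-14) 0 (-14) 0 4 14
    (.x [.mk 1 2 (-1), .mk (-1) 1 (-1), .mk 1 0 0, .mk 0 1 0, .mk (-1) (-1) 0, .mk 0 0 1] 1 5 2 (.mk 2 2 2 0 1 1 1) 1 1 1 (-14) 0 1 14 (-14) 14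
    (.x [.mk 1 2 (-1), .mk (-1) 1 (-1), .mk 1 0 0, .mk 0 1 0, .mk (-1) (-1) 0, .mk 0 0 1] 1 5 2 (.mk 2 2 2 0 1 1 1) 1 1 1 1 14 (-14) 14 (-14) 14
    (.x [.mk 1 2 (-1), .mk (-1) 1 (-1), .mk 1 0 0, .mk 0 1 0, .mk (-1) (-1) 0, .mk 0 0 1] 1 5 2 (.mk 2 2 2 0 1 1 1) 0 0 256 3840 3840 (-3840) 3840 (-3840) 3840
    (.x [.mk 1 2 (-1), .mk (-1) 1 (-1), .mk 1 0 0, .mk 0 1 0, .mk (-1) (-1) 0, .mk 0 0 1] 1 5 2 (.mk 2 2 2 0 1 1 1) 0 0 256 (-3840) (-3840) (-3840) 3840 (-3840) 3840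
    (.x [.mk 1 2 (-1), .mk (-1) 1 (-1), .mk 1 0 0, .mk 0 1 0, .mk (-1) (-1) 0, .mk 0 0 1] 1 5 2 (.mk 2 2 2 0 1 1 1) 0 0 256 (-3840) 3840 3840 3840 (-3840) 3840
    (.x [.mk 1 2 (-1), .mk (-1) 1 (-1), .mk 1 0 0, .mk 0 1 0, .mk (-1) (-1) 0, .mk 0 0 1] 1 5 2 (.mk 2 2 2 0 1 1 1) 0 0 256 (-3840) 3840 (-3840) (-3840) (-3840) 3840
    (.x [.mk 1 2 (-1), .mk (-1) 1 (-1), .mk 1 0 0, .mk 0 1 0, .mk (-1) (-1) 0, .mk 0 0 1] 1 5 2 (.mk 2 2 2 0 1 1 1) 0 0 256 (-3840) 3840 (-3840) 3840 3840 3840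
    (.x [.mk 1 2 (-1), .mk (-1) 1 (-1), .mk 1 0 0, .mk 0 1 0, .mk (-1) (-1) 0, .mk 0 0 1] 1 5 2 (.mk 2 2 2 0 1 1 1) 0 0 256 (-3840) 3840 (-3840) 3840 (-3840) (-3840)
    (.x [.mk (-1) 1 (-1), .mk 1 0 0, .mk 0 1 0, .mk (-1) (-1) 0, .mk 0 0 1] 1 5 2 (.mk 2 2 2 1 0 1 1) 1 1 1 0 0 1 1 0 0
    (.x [.mk (-1) 1 (-1), .mk 1 0 0, .mk 0 1 0, .mk (-1) (-1) 0, .mk 0 0 1] 1 5 2 (.mk 2 2 2 1 0 1 1) 1 1 1 0 0 2 2 (-1) 0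
    (.x [.mk (-1) 1 (-1), .mk 1 0 0, .mk 0 1 0, .mk (-1) (-1) 0, .mk 0 0 1] 1 5 2 (.mk 2 2 2 1 0 1 1) 1 1 1 (-2) 0 3 4 (-3) 0
    (.x [.mk (-1) 1 (-1), .mk 1 0 0, .mk 0 1 0, .mk (-1) (-1) 0, .mk 0 0 1] 1 5 2 (.mk 2 2 2 1 0 1 1) 1 1 1 (-3) 0 5 8 (-7) 0
    (.x [.mk (-1) 1 (-1), .mk 1 0 0, .mk 0 1 0, .mk (-1) (-1) 0, .mk 0 0 1] 1 5 2 (.mk 2 2 2 1 0 1 1) 1 1 1 (-7) 0 9 16 (-7) 0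
    (.x [.mk (-1) 1 (-1), .mk 1 0 0, .mk 0 1 0, .mk (-1) (-1) 0, .mk 0 0 1] 1 5 2 (.mk 2 2 2 1 0 1 1) 1 1 1 (-16) 0 1 16 1 16
    (.x [.mk (-1) 1 (-1), .mk 1 0 0, .mk 0 1 0, .mk (-1) (-1) 0, .mk 0 0 1] 1 5 2 (.mk 2 2 2 1 0 1 1) 1 1 1 1 16 (-16) 16 (-16) 16
    (.x [.mk (-1) 1 (-1), .mk 1 0 0, .mk 0 1 0, .mk (-1) (-1) 0, .mk 0 0 1] 1 5 2 (.mk 2 2 2 1 0 1 1) 0 0 256 4352 4352 (-4352) 4352 (-4352) 4352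
    (.x [.mk (-1) 1 (-1), .mk 1 0 0, .mk 0 1 0, .mk (-1) (-1) 0, .mk 0 0 1] 1 5 2 (.mk 2 2 2 1 0 1 1) 0 0 256 (-4352) (-4352) (-4352) 4352 (-4352) 4352
    (.x [.mk (-1) 1 (-1), .mk 1 0 0, .mk 0 1 0, .mk (-1) (-1) 0, .mk 0 0 1] 1 5 2 (.mk 2 2 2 1 0 1 1) 0 0 256 (-4352) 4352 4352 4352 (-4352) 4352
    (.x [.mk (-1) 1 (-1), .mk 1 0 0, .mk 0 1 0, .mk (-1) (-1) 0, .mk 0 0 1] 1 5 2 (.mk 2 2 2 1 0 1 1) 0 0 256 (-4352) 4352 (-4352) (-4352) (-4352) 4352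
    (.x [.mk (-1) 1 (-1), .mk 1 0 0, .mk 0 1 0, .mk (-1) (-1) 0, .mk 0 0 1] 1 5 2 (.mk 2 2 2 1 0 1 1) 0 0 256 (-4352) 4352 (-4352) 4352 4352 4352
    (.x [.mk (-1) 1 (-1), .mk 1 0 0, .mk 0 1 0, .mk (-1) (-1) 0, .mk 0 0 1] 1 5 2 (.mk 2 2 2 1 0 1 1) 0 0 256 (-4352) 4352 (-4352) 4352 (-4352) (-4352)
    (.x [.mk 1 0 0, .mk 0 1 0, .mk (-1) (-1) 0, .mk 0 0 1] 1 5 2 (.mk 1 1 0 0 0 (-1) 0) 1 1 1 0 0 0 1 0 0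
    (.x [.mk 1 0 0, .mk 0 1 0, .mk (-1) (-1) 0, .mk 0 0 1] 1 5 2 (.mk 1 1 0 0 0 (-1) 0) 1 1 1 (-2) 0 2 3 0 0
    (.x [.mk 1 0 0, .mk 0 1 0, .mk (-1) (-1) 0, .mk 0 0 1] 1 5 2 (.mk 1 1 0 0 0 (-1) 0) 1 1 1 (-19) 0 4 19 0 0
    (.x [.mk 1 0 0, .mk 0 1 0, .mk (-1) (-1) 0, .mk 0 0 1] 1 5 2 (.mk 1 1 0 0 0 (-1) 0) 1 1 1 1 19 (-13) 19 0 0
    (.x [.mk 1 0 0, .mk 0 1 0, .mk (-1) (-1) 0, .mk 0 0 1] 1 5 2 (.mk 1 1 0 0 0 (-1) 0) 0 0 256 5120 5120 (-5120) 5120 0 0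
    (.x [.mk 1 0 0, .mk 0 1 0, .mk (-1) (-1) 0, .mk 0 0 1] 1 5 2 (.mk 1 1 0 0 0 (-1) 0) 0 0 256 (-5120) (-5120) (-5120) 5120 0 0
    (.x [.mk 1 0 0, .mk 0 1 0, .mk (-1) (-1) 0, .mk 0 0 1] 1 5 2 (.mk 1 1 0 0 0 (-1) 0) 0 0 256 (-5120) 5120 5120 5120 0 0
    (.x [.mk 1 0 0, .mk 0 1 0, .mk (-1) (-1) 0, .mk 0 0 1] 1 5 2 (.mk 1 1 0 0 0 (-1) 0) 0 0 256 (-5120) 5120 (-5120) (-5120) 0 0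
    (.o 1 1 6 6 2 2 .nil)))))))))))))))))))))))))))))))))))))

/-- Goals of `n_WU1_7_2b` after part 3. -/
noncomputable def g_WU1_7_2b_3 : G :=
  (.x [.mk (-4) (-3) (-1), .mk (-1) 1 (-1), .mk 0 2 (-1), .mk 1 0 0, .mk 0 1 0, .mk (-1) (-1) 0, .mk 0 0 1] 1 5 2 (.mk 2 2 2 1 0 1 1) 1 1 1 7 7 9 9 (-2) (-1)
    (.x [.mk (-4) (-3) (-1), .mk (-1) 1 (-1), .mk 0 2 (-1), .mk 1 0 0, .mk 0 1 0, .mk (-1) (-1) 0, .mk 0 0 1] 1 5 2 (.mk 2 2 2 1 0 1 1) 1 1 1 8 8 9 9 (-2) (-1)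
    (.x [.mk (-4) (-3) (-1), .mk (-1) 1 (-1), .mk 0 2 (-1), .mk 1 0 0, .mk 0 1 0, .mk (-1) (-1) 0, .mk 0 0 1] 1 5 2 (.mk 2 2 2 1 0 1 1) 1 1 1 7 8 7 9 0 1
    (.x [.mk (-4) (-3) (-1), .mk (-1) 1 (-1), .mk 0 2 (-1), .mk 1 0 0, .mk 0 1 0, .mk (-1) (-1) 0, .mk 0 0 1] 1 5 2 (.mk 2 2 2 1 0 1 1) 1 1 1 5 8 10 11 (-3) 1
    (.x [.mk (-4) (-3) (-1), .mk (-1) 1 (-1), .mk 0 2 (-1), .mk 1 0 0, .mk 0 1 0, .mk (-1) (-1) 0, .mk 0 0 1] 1 5 2 (.mk 2 2 2 1 0 1 1) 1 1 1 1 8 12 15 (-7) 1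
    (.x [.mk (-4) (-3) (-1), .mk (-1) 1 (-1), .mk 0 2 (-1), .mk 1 0 0, .mk 0 1 0, .mk (-1) (-1) 0, .mk 0 0 1] 1 5 2 (.mk 2 2 2 1 0 1 1) 1 1 1 1 8 7 15 2 4
    (.x [.mk (-4) (-3) (-1), .mk (-1) 1 (-1), .mk 0 2 (-1), .mk 1 0 0, .mk 0 1 0, .mk (-1) (-1) 0, .mk 0 0 1] 1 5 2 (.mk 2 2 2 1 0 1 1) 1 1 1 9 15 7 15 (-7) 4
    (.x [.mk (-4) (-3) (-1), .mk (-1) 1 (-1), .mk 0 2 (-1), .mk 1 0 0, .mk 0 1 0, .mk (-1) (-1) 0, .mk 0 0 1] 1 5 2 (.mk 2 2 2 1 0 1 1) 1 1 1 1 15 (-3) 15 5 15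
    (.x [.mk (-4) (-3) (-1), .mk (-1) 1 (-1), .mk 0 2 (-1), .mk 1 0 0, .mk 0 1 0, .mk (-1) (-1) 0, .mk 0 0 1] 1 5 2 (.mk 2 2 2 1 0 1 1) 0 0 256 4096 4096 (-4096) 4096 (-4096) 4096
    (.x [.mk (-4) (-3) (-1), .mk (-1) 1 (-1), .mk 0 2 (-1), .mk 1 0 0, .mk 0 1 0, .mk (-1) (-1) 0, .mk 0 0 1] 1 5 2 (.mk 2 2 2 1 0 1 1) 0 0 256 (-4096) (-4096) (-4096) 4096 (-4096) 4096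
    (.x [.mk (-4) (-3) (-1), .mk (-1) 1 (-1), .mk 0 2 (-1), .mk 1 0 0, .mk 0 1 0, .mk (-1) (-1) 0, .mk 0 0 1] 1 5 2 (.mk 2 2 2 1 0 1 1) 0 0 256 (-4096) 4096 4096 4096 (-4096) 4096
    (.x [.mk (-4) (-3) (-1), .mk (-1) 1 (-1), .mk 0 2 (-1), .mk 1 0 0, .mk 0 1 0, .mk (-1) (-1) 0, .mk 0 0 1] 1 5 2 (.mk 2 2 2 1 0 1 1) 0 0 256 (-4096) 4096 (-4096) (-4096) (-4096) 4096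
    (.x [.mk (-4) (-3) (-1), .mk (-1) 1 (-1), .mk 0 2 (-1), .mk 1 0 0, .mk 0 1 0, .mk (-1) (-1) 0, .mk 0 0 1] 1 5 2 (.mk 2 2 2 1 0 1 1) 0 0 256 (-4096) 4096 (-4096) 4096 4096 4096
    (.x [.mk (-4) (-3) (-1), .mk (-1) 1 (-1), .mk 0 2 (-1), .mk 1 0 0, .mk 0 1 0, .mk (-1) (-1) 0, .mk 0 0 1] 1 5 2 (.mk 2 2 2 1 0 1 1) 0 0 256 (-4096) 4096 (-4096) 4096 (-4096) (-4096)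
    (.x [.mk (-1) 1 (-1), .mk 0 2 (-1), .mk 1 0 0, .mk 0 1 0, .mk (-1) (-1) 0, .mk 0 0 1] 1 5 2 (.mk 2 2 2 0 1 1 1) 1 1 1 (-2) (-2) (-2) (-2) 0 0
    (.x [.mk (-1) 1 (-1), .mk 0 2 (-1), .mk 1 0 0, .mk 0 1 0, .mk (-1) (-1) 0, .mk 0 0 1] 1 5 2 (.mk 2 2 2 0 1 1 1) 1 1 1 (-1) 0 (-4) (-2) (-3) 0
    (.x [.mk (-1) 1 (-1), .mk 0 2 (-1), .mk 1 0 0, .mk 0 1 0, .mk (-1) (-1) 0, .mk 0 0 1] 1 5 2 (.mk 2 2 2 0 1 1 1) 1 1 1 (-3) 0 (-1) 0 (-3) 0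
    (.x [.mk (-1) 1 (-1), .mk 0 2 (-1), .mk 1 0 0, .mk 0 1 0, .mk (-1) (-1) 0, .mk 0 0 1] 1 5 2 (.mk 2 2 2 0 1 1 1) 1 1 1 (-16) 0 (-16) 0 1 16
    (.x [.mk (-1) 1 (-1), .mk 0 2 (-1), .mk 1 0 0, .mk 0 1 0, .mk (-1) (-1) 0, .mk 0 0 1] 1 5 2 (.mk 2 2 2 0 1 1 1) 1 1 1 (-16) 0 1 16 (-16) 16
    (.x [.mk (-1) 1 (-1), .mk 0 2 (-1), .mk 1 0 0, .mk 0 1 0, .mk (-1) (-1) 0, .mk 0 0 1] 1 5 2 (.mk 2 2 2 0 1 1 1) 1 1 1 1 16 (-16) 16 (-16) 16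
    (.x [.mk (-1) 1 (-1), .mk 0 2 (-1), .mk 1 0 0, .mk 0 1 0, .mk (-1) (-1) 0, .mk 0 0 1] 1 5 2 (.mk 2 2 2 0 1 1 1) 0 0 256 4352 4352 (-4352) 4352 (-4352) 4352
    (.x [.mk (-1) 1 (-1), .mk 0 2 (-1), .mk 1 0 0, .mk 0 1 0, .mk (-1) (-1) 0, .mk 0 0 1] 1 5 2 (.mk 2 2 2 0 1 1 1) 0 0 256 (-4352) (-4352) (-4352) 4352 (-4352) 4352
    (.x [.mk (-1) 1 (-1), .mk 0 2 (-1), .mk 1 0 0, .mk 0 1 0, .mk (-1) (-1) 0, .mk 0 0 1] 1 5 2 (.mk 2 2 2 0 1 1 1) 0 0 256 (-4352) 4352 4352 4352 (-4352) 4352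
    (.x [.mk (-1) 1 (-1), .mk 0 2 (-1), .mk 1 0 0, .mk 0 1 0, .mk (-1) (-1) 0, .mk 0 0 1] 1 5 2 (.mk 2 2 2 0 1 1 1) 0 0 256 (-4352) 4352 (-4352) (-4352) (-4352) 4352
    (.x [.mk (-1) 1 (-1), .mk 0 2 (-1), .mk 1 0 0, .mk 0 1 0, .mk (-1) (-1) 0, .mk 0 0 1] 1 5 2 (.mk 2 2 2 0 1 1 1) 0 0 256 (-4352) 4352 (-4352) 4352 4352 4352
    (.x [.mk (-1) 1 (-1), .mk 0 2 (-1), .mk 1 0 0, .mk 0 1 0, .mk (-1) (-1) 0, .mk 0 0 1] 1 5 2 (.mk 2 2 2 0 1 1 1) 0 0 256 (-4352) 4352 (-4352) 4352 (-4352) (-4352)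
    (.x [.mk 0 2 (-1), .mk 1 0 0, .mk 0 1 0, .mk (-1) (-1) 0, .mk 0 0 1] 1 5 2 (.mk 2 2 2 1 1 1 1) 1 1 1 (-1) (-1) 0 0 0 0
    (.x [.mk 0 2 (-1), .mk 1 0 0, .mk 0 1 0, .mk (-1) (-1) 0, .mk 0 0 1] 1 5 2 (.mk 2 2 2 1 1 1 1) 1 1 1 0 0 (-1) 0 (-1) 0
    (.x [.mk 0 2 (-1), .mk 1 0 0, .mk 0 1 0, .mk (-1) (-1) 0, .mk 0 0 1] 1 5 2 (.mk 2 2 2 1 1 1 1) 1 1 1 (-16) 0 (-16) 0 1 16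
    (.x [.mk 0 2 (-1), .mk 1 0 0, .mk 0 1 0, .mk (-1) (-1) 0, .mk 0 0 1] 1 5 2 (.mk 2 2 2 1 1 1 1) 1 1 1 (-16) 0 1 16 (-16) 16
    (.x [.mk 0 2 (-1), .mk 1 0 0, .mk 0 1 0, .mk (-1) (-1) 0, .mk 0 0 1] 1 5 2 (.mk 2 2 2 1 1 1 1) 1 1 1 1 16 (-16) 16 (-16) 16
    (.x [.mk 0 2 (-1), .mk 1 0 0, .mk 0 1 0, .mk (-1) (-1) 0, .mk 0 0 1] 1 5 2 (.mk 2 2 2 1 1 1 1) 0 0 256 4352 4352 (-4352) 4352 (-4352) 4352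
    (.x [.mk 0 2 (-1), .mk 1 0 0, .mk 0 1 0, .mk (-1) (-1) 0, .mk 0 0 1] 1 5 2 (.mk 2 2 2 1 1 1 1) 0 0 256 (-4352) (-4352) (-4352) 4352 (-4352) 4352
    (.x [.mk 0 2 (-1), .mk 1 0 0, .mk 0 1 0, .mk (-1) (-1) 0, .mk 0 0 1] 1 5 2 (.mk 2 2 2 1 1 1 1) 0 0 256 (-4352) 4352 4352 4352 (-4352) 4352
    (.x [.mk 0 2 (-1), .mk 1 0 0, .mk 0 1 0, .mk (-1) (-1) 0, .mk 0 0 1] 1 5 2 (.mk 2 2 2 1 1 1 1) 0 0 256 (-4352) 4352 (-4352) (-4352) (-4352) 4352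
    (.x [.mk 0 2 (-1), .mk 1 0 0, .mk 0 1 0, .mk (-1) (-1) 0, .mk 0 0 1] 1 5 2 (.mk 2 2 2 1 1 1 1) 0 0 256 (-4352) 4352 (-4352) 4352 4352 4352
    (.x [.mk 0 2 (-1), .mk 1 0 0, .mk 0 1 0, .mk (-1) (-1) 0, .mk 0 0 1] 1 5 2 (.mk 2 2 2 1 1 1 1) 0 0 256 (-4352) 4352 (-4352) 4352 (-4352) (-4352)
    (.x [.mk 1 0 0, .mk 0 1 0, .mk (-1) (-1) 0, .mk 0 0 1] 1 5 2 (.mk 1 1 0 0 0 (-1) 0) 1 1 1 0 0 3 3 0 0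
    (.x [.mk 1 0 0, .mk 0 1 0, .mk (-1) (-1) 0, .mk 0 0 1] 1 5 2 (.mk 1 1 0 0 0 (-1) 0) 1 1 1 (-19) 0 4 19 0 0
    (.x [.mk 1 0 0, .mk 0 1 0, .mk (-1) (-1) 0, .mk 0 0 1] 1 5 2 (.mk 1 1 0 0 0 (-1) 0) 1 1 1 1 19 (-13) 19 0 0
    (.x [.mk 1 0 0, .mk 0 1 0, .mk (-1) (-1) 0, .mk 0 0 1] 1 5 2 (.mk 1 1 0 0 0 (-1) 0) 0 0 256 5120 5120 (-5120) 5120 0 0
    (.x [.mk 1 0 0, .mk 0 1 0, .mk (-1) (-1) 0, .mk 0 0 1] 1 5 2 (.mk 1 1 0 0 0 (-1) 0) 0 0 256 (-5120) (-5120) (-5120) 5120 0 0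
    (.x [.mk 1 0 0, .mk 0 1 0, .mk (-1) (-1) 0, .mk 0 0 1] 1 5 2 (.mk 1 1 0 0 0 (-1) 0) 0 0 256 (-5120) 5120 5120 5120 0 0
    (.x [.mk 1 0 0, .mk 0 1 0, .mk (-1) (-1) 0, .mk 0 0 1] 1 5 2 (.mk 1 1 0 0 0 (-1) 0) 0 0 256 (-5120) 5120 (-5120) (-5120) 0 0
    (.o 1 1 6 6 2 2 .nil)))))))))))))))))))))))))))))))))))))))))))))

/-- Goals of `n_WU1_7_2b` after part 4. -/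
noncomputable def g_WU1_7_2b_4 : G :=
  (.x [.mk 4 5 (-1), .mk (-1) 1 (-1), .mk 3 4 (-1), .mk 1 0 0, .mk 0 1 0, .mk (-1) (-1) 0, .mk 0 0 1] 1 5 2 (.mk 1 1 1 0 0 0 9) 1 1 1 (-15) 0 (-15) 0 (-7) 8
    (.x [.mk 4 5 (-1), .mk (-1) 1 (-1), .mk 3 4 (-1), .mk 1 0 0, .mk 0 1 0, .mk (-1) (-1) 0, .mk 0 0 1] 1 5 2 (.mk 1 1 1 0 0 0 9) 1 1 1 (-31) 0 (-31) 0 9 31
    (.x [.mk 4 5 (-1), .mk (-1) 1 (-1), .mk 3 4 (-1), .mk 1 0 0, .mk 0 1 0, .mk (-1) (-1) 0, .mk 0 0 1] 1 5 2 (.mk 1 1 1 0 0 0 9) 1 1 1 (-31) 0 1 31 (-31) 31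
    (.x [.mk 4 5 (-1), .mk (-1) 1 (-1), .mk 3 4 (-1), .mk 1 0 0, .mk 0 1 0, .mk (-1) (-1) 0, .mk 0 0 1] 1 5 2 (.mk 1 1 1 0 0 0 9) 1 1 1 1 31 (-31) 31 (-31) 31
    (.x [.mk 4 5 (-1), .mk (-1) 1 (-1), .mk 3 4 (-1), .mk 1 0 0, .mk 0 1 0, .mk (-1) (-1) 0, .mk 0 0 1] 1 5 2 (.mk 1 1 1 0 0 0 9) 0 0 256 8192 8192 (-8192) 8192 (-8192) 8192
    (.x [.mk 4 5 (-1), .mk (-1) 1 (-1), .mk 3 4 (-1), .mk 1 0 0, .mk 0 1 0, .mk (-1) (-1) 0, .mk 0 0 1] 1 5 2 (.mk 1 1 1 0 0 0 9) 0 0 256 (-8192) (-8192) (-8192) 8192 (-8192) 8192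
    (.x [.mk 4 5 (-1), .mk (-1) 1 (-1), .mk 3 4 (-1), .mk 1 0 0, .mk 0 1 0, .mk (-1) (-1) 0, .mk 0 0 1] 1 5 2 (.mk 1 1 1 0 0 0 9) 0 0 256 (-8192) 8192 8192 8192 (-8192) 8192
    (.x [.mk 4 5 (-1), .mk (-1) 1 (-1), .mk 3 4 (-1), .mk 1 0 0, .mk 0 1 0, .mk (-1) (-1) 0, .mk 0 0 1] 1 5 2 (.mk 1 1 1 0 0 0 9) 0 0 256 (-8192) 8192 (-8192) (-8192) (-8192) 8192
    (.x [.mk 4 5 (-1), .mk (-1) 1 (-1), .mk 3 4 (-1), .mk 1 0 0, .mk 0 1 0, .mk (-1) (-1) 0, .mk 0 0 1] 1 5 2 (.mk 1 1 1 0 0 0 9) 0 0 256 (-8192) 8192 (-8192) 8192 8192 8192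
    (.x [.mk 4 5 (-1), .mk (-1) 1 (-1), .mk 3 4 (-1), .mk 1 0 0, .mk 0 1 0, .mk (-1) (-1) 0, .mk 0 0 1] 1 5 2 (.mk 1 1 1 0 0 0 9) 0 0 256 (-8192) 8192 (-8192) 8192 (-8192) (-8192)
    (.x [.mk (-1) 1 (-1), .mk 3 4 (-1), .mk 1 0 0, .mk 0 1 0, .mk (-1) (-1) 0, .mk 0 0 1] 1 5 2 (.mk 2 2 2 0 1 1 1) 1 1 1 1 2 2 2 0 1
    (.x [.mk (-1) 1 (-1), .mk 3 4 (-1), .mk 1 0 0, .mk 0 1 0, .mk (-1) (-1) 0, .mk 0 0 1] 1 5 2 (.mk 2 2 2 0 1 1 1) 1 1 1 3 4 0 2 (-1) 1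
    (.x [.mk (-1) 1 (-1), .mk 3 4 (-1), .mk 1 0 0, .mk 0 1 0, .mk (-1) (-1) 0, .mk 0 0 1] 1 5 2 (.mk 2 2 2 0 1 1 1) 1 1 1 1 4 (-1) 2 2 4
    (.x [.mk (-1) 1 (-1), .mk 3 4 (-1), .mk 1 0 0, .mk 0 1 0, .mk (-1) (-1) 0, .mk 0 0 1] 1 5 2 (.mk 2 2 2 0 1 1 1) 1 1 1 1 4 3 5 (-2) 4
    (.x [.mk (-1) 1 (-1), .mk 3 4 (-1), .mk 1 0 0, .mk 0 1 0, .mk (-1) (-1) 0, .mk 0 0 1] 1 5 2 (.mk 2 2 2 0 1 1 1) 1 1 1 5 7 (-1) 5 (-2) 4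
    (.x [.mk (-1) 1 (-1), .mk 3 4 (-1), .mk 1 0 0, .mk 0 1 0, .mk (-1) (-1) 0, .mk 0 0 1] 1 5 2 (.mk 2 2 2 0 1 1 1) 1 1 1 8 15 (-4) 5 (-2) 4
    (.x [.mk (-1) 1 (-1), .mk 3 4 (-1), .mk 1 0 0, .mk 0 1 0, .mk (-1) (-1) 0, .mk 0 0 1] 1 5 2 (.mk 2 2 2 0 1 1 1) 1 1 1 1 15 6 15 (-7) 4
    (.x [.mk (-1) 1 (-1), .mk 3 4 (-1), .mk 1 0 0, .mk 0 1 0, .mk (-1) (-1) 0, .mk 0 0 1] 1 5 2 (.mk 2 2 2 0 1 1 1) 1 1 1 1 15 (-4) 15 5 15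
    (.x [.mk (-1) 1 (-1), .mk 3 4 (-1), .mk 1 0 0, .mk 0 1 0, .mk (-1) (-1) 0, .mk 0 0 1] 1 5 2 (.mk 2 2 2 0 1 1 1) 0 0 256 4096 4096 (-4096) 4096 (-4096) 4096
    (.x [.mk (-1) 1 (-1), .mk 3 4 (-1), .mk 1 0 0, .mk 0 1 0, .mk (-1) (-1) 0, .mk 0 0 1] 1 5 2 (.mk 2 2 2 0 1 1 1) 0 0 256 (-4096) (-4096) (-4096) 4096 (-4096) 4096
    (.x [.mk (-1) 1 (-1), .mk 3 4 (-1), .mk 1 0 0, .mk 0 1 0, .mk (-1) (-1) 0, .mk 0 0 1] 1 5 2 (.mk 2 2 2 0 1 1 1) 0 0 256 (-4096) 4096 4096 4096 (-4096) 4096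
    (.x [.mk (-1) 1 (-1), .mk 3 4 (-1), .mk 1 0 0, .mk 0 1 0, .mk (-1) (-1) 0, .mk 0 0 1] 1 5 2 (.mk 2 2 2 0 1 1 1) 0 0 256 (-4096) 4096 (-4096) (-4096) (-4096) 4096
    (.x [.mk (-1) 1 (-1), .mk 3 4 (-1), .mk 1 0 0, .mk 0 1 0, .mk (-1) (-1) 0, .mk 0 0 1] 1 5 2 (.mk 2 2 2 0 1 1 1) 0 0 256 (-4096) 4096 (-4096) 4096 4096 4096
    (.x [.mk (-1) 1 (-1), .mk 3 4 (-1), .mk 1 0 0, .mk 0 1 0, .mk (-1) (-1) 0, .mk 0 0 1] 1 5 2 (.mk 2 2 2 0 1 1 1) 0 0 256 (-4096) 4096 (-4096) 4096 (-4096) (-4096)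
    (.x [.mk 3 4 (-1), .mk 1 0 0, .mk 0 1 0, .mk (-1) (-1) 0, .mk 0 0 1] 1 5 2 (.mk 2 2 2 1 1 1 1) 1 1 1 (-1) (-1) 0 0 0 0
    (.x [.mk 3 4 (-1), .mk 1 0 0, .mk 0 1 0, .mk (-1) (-1) 0, .mk 0 0 1] 1 5 2 (.mk 2 2 2 1 1 1 1) 1 1 1 0 0 (-2) 0 (-1) 0
    (.x [.mk 3 4 (-1), .mk 1 0 0, .mk 0 1 0, .mk (-1) (-1) 0, .mk 0 0 1] 1 5 2 (.mk 2 2 2 1 1 1 1) 1 1 1 (-2) 0 (-2) 0 1 2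
    (.x [.mk 3 4 (-1), .mk 1 0 0, .mk 0 1 0, .mk (-1) (-1) 0, .mk 0 0 1] 1 5 2 (.mk 2 2 2 1 1 1 1) 1 1 1 (-2) 0 (-2) 0 3 3
    (.x [.mk 3 4 (-1), .mk 1 0 0, .mk 0 1 0, .mk (-1) (-1) 0, .mk 0 0 1] 1 5 2 (.mk 2 2 2 1 1 1 1) 1 1 1 (-14) 0 (-14) 0 4 14
    (.x [.mk 3 4 (-1), .mk 1 0 0, .mk 0 1 0, .mk (-1) (-1) 0, .mk 0 0 1] 1 5 2 (.mk 2 2 2 1 1 1 1) 1 1 1 (-14) 0 1 14 (-14) 14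
    (.x [.mk 3 4 (-1), .mk 1 0 0, .mk 0 1 0, .mk (-1) (-1) 0, .mk 0 0 1] 1 5 2 (.mk 2 2 2 1 1 1 1) 1 1 1 1 14 (-14) 14 (-14) 14
    (.x [.mk 3 4 (-1), .mk 1 0 0, .mk 0 1 0, .mk (-1) (-1) 0, .mk 0 0 1] 1 5 2 (.mk 2 2 2 1 1 1 1) 0 0 256 3840 3840 (-3840) 3840 (-3840) 3840
    (.x [.mk 3 4 (-1), .mk 1 0 0, .mk 0 1 0, .mk (-1) (-1) 0, .mk 0 0 1] 1 5 2 (.mk 2 2 2 1 1 1 1) 0 0 256 (-3840) (-3840) (-3840) 3840 (-3840) 3840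
    (.x [.mk 3 4 (-1), .mk 1 0 0, .mk 0 1 0, .mk (-1) (-1) 0, .mk 0 0 1] 1 5 2 (.mk 2 2 2 1 1 1 1) 0 0 256 (-3840) 3840 3840 3840 (-3840) 3840
    (.x [.mk 3 4 (-1), .mk 1 0 0, .mk 0 1 0, .mk (-1) (-1) 0, .mk 0 0 1] 1 5 2 (.mk 2 2 2 1 1 1 1) 0 0 256 (-3840) 3840 (-3840) (-3840) (-3840) 3840
    (.x [.mk 3 4 (-1), .mk 1 0 0, .mk 0 1 0, .mk (-1) (-1) 0, .mk 0 0 1] 1 5 2 (.mk 2 2 2 1 1 1 1) 0 0 256 (-3840) 3840 (-3840) 3840 3840 3840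
    (.x [.mk 3 4 (-1), .mk 1 0 0, .mk 0 1 0, .mk (-1) (-1) 0, .mk 0 0 1] 1 5 2 (.mk 2 2 2 1 1 1 1) 0 0 256 (-3840) 3840 (-3840) 3840 (-3840) (-3840)
    (.x [.mk 1 0 0, .mk 0 1 0, .mk (-1) (-1) 0, .mk 0 0 1] 1 5 2 (.mk 1 1 0 0 0 (-1) 0) 1 1 1 3 3 5 5 0 0
    (.x [.mk 1 0 0, .mk 0 1 0, .mk (-1) (-1) 0, .mk 0 0 1] 1 5 2 (.mk 1 1 0 0 0 (-1) 0) 1 1 1 4 4 4 5 0 0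
    (.x [.mk 1 0 0, .mk 0 1 0, .mk (-1) (-1) 0, .mk 0 0 1] 1 5 2 (.mk 1 1 0 0 0 (-1) 0) 1 1 1 3 4 6 6 0 0
    (.x [.mk 1 0 0, .mk 0 1 0, .mk (-1) (-1) 0, .mk 0 0 1] 1 5 2 (.mk 1 1 0 0 0 (-1) 0) 1 1 1 5 5 4 6 0 0
    (.x [.mk 1 0 0, .mk 0 1 0, .mk (-1) (-1) 0, .mk 0 0 1] 1 5 2 (.mk 1 1 0 0 0 (-1) 0) 1 1 1 1 5 7 9 0 0
    (.x [.mk 1 0 0, .mk 0 1 0, .mk (-1) (-1) 0, .mk 0 0 1] 1 5 2 (.mk 1 1 0 0 0 (-1) 0) 1 1 1 6 10 0 9 0 0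
    (.x [.mk 1 0 0, .mk 0 1 0, .mk (-1) (-1) 0, .mk 0 0 1] 1 5 2 (.mk 1 1 0 0 0 (-1) 0) 1 1 1 11 19 0 9 0 0
    (.x [.mk 1 0 0, .mk 0 1 0, .mk (-1) (-1) 0, .mk 0 0 1] 1 5 2 (.mk 1 1 0 0 0 (-1) 0) 1 1 1 1 19 10 19 0 0
    (.x [.mk 1 0 0, .mk 0 1 0, .mk (-1) (-1) 0, .mk 0 0 1] 1 5 2 (.mk 1 1 0 0 0 (-1) 0) 0 0 256 5120 5120 (-5120) 5120 0 0
    (.x [.mk 1 0 0, .mk 0 1 0, .mk (-1) (-1) 0, .mk 0 0 1] 1 5 2 (.mk 1 1 0 0 0 (-1) 0) 0 0 256 (-5120) (-5120) (-5120) 5120 0 0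
    (.x [.mk 1 0 0, .mk 0 1 0, .mk (-1) (-1) 0, .mk 0 0 1] 1 5 2 (.mk 1 1 0 0 0 (-1) 0) 0 0 256 (-5120) 5120 5120 5120 0 0
    (.x [.mk 1 0 0, .mk 0 1 0, .mk (-1) (-1) 0, .mk 0 0 1] 1 5 2 (.mk 1 1 0 0 0 (-1) 0) 0 0 256 (-5120) 5120 (-5120) (-5120) 0 0
    (.o 1 1 6 6 2 2 .nil))))))))))))))))))))))))))))))))))))))))))))))))))

/-- Goals of `n_WH1_7` after part 1. -/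
noncomputable def g_WH1_7_1 : G :=
  (.x [.mk 0 0 (-1), .mk (-1) 0 (-1), .mk 1 0 0, .mk 0 1 0, .mk (-1) (-1) 0, .mk 1 (-1) 3] 4 2 1 (.mk 2 2 2 0 1 1 1) 0 0 256 (-3072) (-3072) (-677) (-421) (-2395) (-2230)
    (.x [.mk 0 0 (-1), .mk (-1) 0 (-1), .mk 1 0 0, .mk 0 1 0, .mk (-1) (-1) 0, .mk 1 (-1) 3] 4 2 1 (.mk 2 2 2 0 1 1 1) 0 0 256 (-3072) (-3072) (-421) 0 (-3072) (-2230)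
    (.x [.mk 0 0 (-1), .mk (-1) 0 (-1), .mk 1 0 0, .mk 0 1 0, .mk (-1) (-1) 0, .mk 1 (-1) 3] 4 2 1 (.mk 2 2 2 0 1 1 1) 0 0 256 (-3072) (-3072) (-842) 0 (-2230) (-1901)
    (.x [.mk 0 0 (-1), .mk (-1) 0 (-1), .mk 1 0 0, .mk 0 1 0, .mk (-1) (-1) 0, .mk 1 (-1) 3] 4 2 1 (.mk 2 2 2 0 1 1 1) 0 0 256 (-3072) (-3072) (-1171) 0 (-1901) (-1242)
    (.x [.mk 0 0 (-1), .mk (-1) 0 (-1), .mk 1 0 0, .mk 0 1 0, .mk (-1) (-1) 0, .mk 1 (-1) 3] 4 2 1 (.mk 2 2 2 0 1 1 1) 0 0 256 (-3072) (-3072) (-1830) 0 (-1242) 0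
    (.x [.mk 0 0 (-1), .mk (-1) 0 (-1), .mk 1 0 0, .mk 0 1 0, .mk (-1) (-1) 0, .mk 1 (-1) 3] 4 2 1 (.mk 2 2 2 0 1 1 1) 0 0 256 (-3072) (-3072) (-3072) 0 0 3072
    (.x [.mk 0 0 (-1), .mk (-1) 0 (-1), .mk 1 0 0, .mk 0 1 0, .mk (-1) (-1) 0, .mk 1 (-1) 3] 4 2 1 (.mk 2 2 2 0 1 1 1) 0 0 256 (-3072) (-3072) 0 3072 (-3072) 3072
    (.x [.mk 0 0 (-1), .mk (-1) 0 (-1), .mk 1 0 0, .mk 0 1 0, .mk (-1) (-1) 0, .mk 1 (-1) 3] 4 2 1 (.mk 2 2 2 0 1 1 1) 0 0 256 (-3072) 3072 3072 3072 (-3072) 3072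
    (.x [.mk 0 0 (-1), .mk (-1) 0 (-1), .mk 1 0 0, .mk 0 1 0, .mk (-1) (-1) 0, .mk 1 (-1) 3] 4 2 1 (.mk 2 2 2 0 1 1 1) 0 0 256 (-3072) 3072 (-3072) (-3072) (-3072) 3072
    (.x [.mk 0 0 (-1), .mk (-1) 0 (-1), .mk 1 0 0, .mk 0 1 0, .mk (-1) (-1) 0, .mk 1 (-1) 3] 4 2 1 (.mk 2 2 2 0 1 1 1) 0 0 256 (-3072) 3072 (-3072) 3072 3072 3072
    (.x [.mk 0 0 (-1), .mk (-1) 0 (-1), .mk 1 0 0, .mk 0 1 0, .mk (-1) (-1) 0, .mk 1 (-1) 3] 4 2 1 (.mk 2 2 2 0 1 1 1) 0 0 256 (-3072) 3072 (-3072) 3072 (-3072) (-3072)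
    (.x [.mk (-1) 0 (-1), .mk 1 0 0, .mk 0 1 0, .mk (-1) (-1) 0, .mk 1 (-1) 3] 4 2 1 (.mk 2 2 2 0 0 1 1) 1 1 1 0 0 0 0 0 0
    (.x [.mk (-1) 0 (-1), .mk 1 0 0, .mk 0 1 0, .mk (-1) (-1) 0, .mk 1 (-1) 3] 4 2 1 (.mk 2 2 2 0 0 1 1) 1 1 1 (-20) 0 (-20) 0 1 20
    (.x [.mk (-1) 0 (-1), .mk 1 0 0, .mk 0 1 0, .mk (-1) (-1) 0, .mk 1 (-1) 3] 4 2 1 (.mk 2 2 2 0 0 1 1) 1 1 1 (-20) 0 1 20 (-20) 20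
    (.x [.mk (-1) 0 (-1), .mk 1 0 0, .mk 0 1 0, .mk (-1) (-1) 0, .mk 1 (-1) 3] 4 2 1 (.mk 2 2 2 0 0 1 1) 1 1 1 1 20 (-20) 20 (-20) 20
    (.x [.mk (-1) 0 (-1), .mk 1 0 0, .mk 0 1 0, .mk (-1) (-1) 0, .mk 1 (-1) 3] 4 2 1 (.mk 2 2 2 0 0 1 1) 0 0 256 5376 5376 (-5376) 5376 (-5376) 5376
    (.x [.mk (-1) 0 (-1), .mk 1 0 0, .mk 0 1 0, .mk (-1) (-1) 0, .mk 1 (-1) 3] 4 2 1 (.mk 2 2 2 0 0 1 1) 0 0 256 (-5376) (-5376) (-5376) 5376 (-5376) 5376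
    (.x [.mk (-1) 0 (-1), .mk 1 0 0, .mk 0 1 0, .mk (-1) (-1) 0, .mk 1 (-1) 3] 4 2 1 (.mk 2 2 2 0 0 1 1) 0 0 256 (-5376) 5376 5376 5376 (-5376) 5376
    (.x [.mk (-1) 0 (-1), .mk 1 0 0, .mk 0 1 0, .mk (-1) (-1) 0, .mk 1 (-1) 3] 4 2 1 (.mk 2 2 2 0 0 1 1) 0 0 256 (-5376) 5376 (-5376) (-5376) (-5376) 5376
    (.x [.mk (-1) 0 (-1), .mk 1 0 0, .mk 0 1 0, .mk (-1) (-1) 0, .mk 1 (-1) 3] 4 2 1 (.mk 2 2 2 0 0 1 1) 0 0 256 (-5376) 5376 (-5376) 5376 5376 5376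
    (.x [.mk (-1) 0 (-1), .mk 1 0 0, .mk 0 1 0, .mk (-1) (-1) 0, .mk 1 (-1) 3] 4 2 1 (.mk 2 2 2 0 0 1 1) 0 0 256 (-5376) 5376 (-5376) 5376 (-5376) (-5376)
    (.x [.mk 1 0 0, .mk 0 1 0, .mk (-1) (-1) 0, .mk 1 (-1) 3] 4 2 1 (.mk 1 1 0 0 0 (-1) 0) 1 1 1 (-2) (-1) 1 1 0 0
    (.x [.mk 1 0 0, .mk 0 1 0, .mk (-1) (-1) 0, .mk 1 (-1) 3] 4 2 1 (.mk 1 1 0 0 0 (-1) 0) 1 1 1 0 0 (-1) 1 0 0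
    (.x [.mk 1 0 0, .mk 0 1 0, .mk (-1) (-1) 0, .mk 1 (-1) 3] 4 2 1 (.mk 1 1 0 0 0 (-1) 0) 1 1 1 (-3) 0 2 4 0 0
    (.x [.mk 1 0 0, .mk 0 1 0, .mk (-1) (-1) 0, .mk 1 (-1) 3] 4 2 1 (.mk 1 1 0 0 0 (-1) 0) 1 1 1 1 4 (-2) 4 0 0
    (.x [.mk 1 0 0, .mk 0 1 0, .mk (-1) (-1) 0, .mk 1 (-1) 3] 4 2 1 (.mk 1 1 0 0 0 (-1) 0) 0 0 256 1280 1280 (-1280) 1280 0 0
    (.x [.mk 1 0 0, .mk 0 1 0, .mk (-1) (-1) 0, .mk 1 (-1) 3] 4 2 1 (.mk 1 1 0 0 0 (-1) 0) 0 0 256 (-1280) (-1280) (-1280) 1280 0 0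
    (.x [.mk 1 0 0, .mk 0 1 0, .mk (-1) (-1) 0, .mk 1 (-1) 3] 4 2 1 (.mk 1 1 0 0 0 (-1) 0) 0 0 256 (-1280) 1280 1280 1280 0 0
    (.x [.mk 1 0 0, .mk 0 1 0, .mk (-1) (-1) 0, .mk 1 (-1) 3] 4 2 1 (.mk 1 1 0 0 0 (-1) 0) 0 0 256 (-1280) 1280 (-1280) (-1280) 0 0
    (.o 5 5 2 2 1 1 (.o 4 5 3 3 1 1 (.o 6 6 2 3 1 1 (.o 4 6 4 6 1 1 (.o 0 6 0 6 2 2 (.o 0 6 0 6 3 3 (.o 0 6 0 6 4 4 (.o 0 6 0 6 5 5 (.o 0 6 0 6 6 6 .nil))))))))))))))))))))))))))))))))))))))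

/-- Goals of `n_WH1_7` after part 2. -/
noncomputable def g_WH1_7_2 : G :=
  (.x [.mk 1 1 (-1), .mk 1 0 0, .mk 0 1 0, .mk (-1) (-1) 0, .mk 1 (-1) 3] 6 3 1 (.mk 2 2 2 0 0 1 1) 1 1 1 (-12) 0 (-12) 0 (-12) 12
    (.x [.mk 1 1 (-1), .mk 1 0 0, .mk 0 1 0, .mk (-1) (-1) 0, .mk 1 (-1) 3] 6 3 1 (.mk 2 2 2 0 0 1 1) 1 1 1 (-12) 0 1 12 (-12) 12
    (.x [.mk 1 1 (-1), .mk 1 0 0, .mk 0 1 0, .mk (-1) (-1) 0, .mk 1 (-1) 3] 6 3 1 (.mk 2 2 2 0 0 1 1) 1 1 1 1 12 (-12) 12 (-12) 12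
    (.x [.mk 1 1 (-1), .mk 1 0 0, .mk 0 1 0, .mk (-1) (-1) 0, .mk 1 (-1) 3] 6 3 1 (.mk 2 2 2 0 0 1 1) 0 0 256 3328 3328 (-3328) 3328 (-3328) 3328
    (.x [.mk 1 1 (-1), .mk 1 0 0, .mk 0 1 0, .mk (-1) (-1) 0, .mk 1 (-1) 3] 6 3 1 (.mk 2 2 2 0 0 1 1) 0 0 256 (-3328) (-3328) (-3328) 3328 (-3328) 3328
    (.x [.mk 1 1 (-1), .mk 1 0 0, .mk 0 1 0, .mk (-1) (-1) 0, .mk 1 (-1) 3] 6 3 1 (.mk 2 2 2 0 0 1 1) 0 0 256 (-3328) 3328 3328 3328 (-3328) 3328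
    (.x [.mk 1 1 (-1), .mk 1 0 0, .mk 0 1 0, .mk (-1) (-1) 0, .mk 1 (-1) 3] 6 3 1 (.mk 2 2 2 0 0 1 1) 0 0 256 (-3328) 3328 (-3328) (-3328) (-3328) 3328
    (.x [.mk 1 1 (-1), .mk 1 0 0, .mk 0 1 0, .mk (-1) (-1) 0, .mk 1 (-1) 3] 6 3 1 (.mk 2 2 2 0 0 1 1) 0 0 256 (-3328) 3328 (-3328) 3328 3328 3328
    (.x [.mk 1 1 (-1), .mk 1 0 0, .mk 0 1 0, .mk (-1) (-1) 0, .mk 1 (-1) 3] 6 3 1 (.mk 2 2 2 0 0 1 1) 0 0 256 (-3328) 3328 (-3328) 3328 (-3328) (-3328)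
    (.x [.mk 1 0 0, .mk 0 1 0, .mk (-1) (-1) 0, .mk 1 (-1) 3] 6 3 1 (.mk 1 1 0 0 0 (-1) 0) 1 1 1 (-2) 1 2 4 0 0
    (.x [.mk 1 0 0, .mk 0 1 0, .mk (-1) (-1) 0, .mk 1 (-1) 3] 6 3 1 (.mk 1 1 0 0 0 (-1) 0) 1 1 1 2 4 (-2) 4 0 0
    (.x [.mk 1 0 0, .mk 0 1 0, .mk (-1) (-1) 0, .mk 1 (-1) 3] 6 3 1 (.mk 1 1 0 0 0 (-1) 0) 0 0 256 1280 1280 (-1280) 1280 0 0
    (.x [.mk 1 0 0, .mk 0 1 0, .mk (-1) (-1) 0, .mk 1 (-1) 3] 6 3 1 (.mk 1 1 0 0 0 (-1) 0) 0 0 256 (-1280) (-1280) (-1280) 1280 0 0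
    (.x [.mk 1 0 0, .mk 0 1 0, .mk (-1) (-1) 0, .mk 1 (-1) 3] 6 3 1 (.mk 1 1 0 0 0 (-1) 0) 0 0 256 (-1280) 1280 1280 1280 0 0
    (.x [.mk 1 0 0, .mk 0 1 0, .mk (-1) (-1) 0, .mk 1 (-1) 3] 6 3 1 (.mk 1 1 0 0 0 (-1) 0) 0 0 256 (-1280) 1280 (-1280) (-1280) 0 0
    (.o 4 6 4 6 1 1 (.o 0 6 0 6 2 2 (.o 0 6 0 6 3 3 (.o 0 6 0 6 4 4 (.o 0 6 0 6 5 5 (.o 0 6 0 6 6 6 .nil)))))))))))))))))))))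

/-- Goals of `n_WH1_7` after part 3. -/
noncomputable def g_WH1_7_3 : G :=
  (.x [.mk 0 0 (-1), .mk 1 0 0, .mk 0 1 0, .mk (-1) (-1) 0, .mk 1 (-1) 3] 6 1 3 (.mk 1 1 1 0 0 0 19) 1 1 1 5 7 (-1) 0 7 11
    (.x [.mk 0 0 (-1), .mk 1 0 0, .mk 0 1 0, .mk (-1) (-1) 0, .mk 1 (-1) 3] 6 1 3 (.mk 1 1 1 0 0 0 19) 1 1 1 2 7 1 1 7 11
    (.x [.mk 0 0 (-1), .mk 1 0 0, .mk 0 1 0, .mk (-1) (-1) 0, .mk 1 (-1) 3] 6 1 3 (.mk 1 1 1 0 0 0 19) 1 1 1 1 7 2 3 7 11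
    (.x [.mk 0 0 (-1), .mk 1 0 0, .mk 0 1 0, .mk (-1) (-1) 0, .mk 1 (-1) 3] 6 1 3 (.mk 1 1 1 0 0 0 19) 1 1 1 1 7 4 5 1 11
    (.x [.mk 0 0 (-1), .mk 1 0 0, .mk 0 1 0, .mk (-1) (-1) 0, .mk 1 (-1) 3] 6 1 3 (.mk 1 1 1 0 0 0 19) 1 1 1 8 11 (-3) 5 1 11
    (.x [.mk 0 0 (-1), .mk 1 0 0, .mk 0 1 0, .mk (-1) (-1) 0, .mk 1 (-1) 3] 6 1 3 (.mk 1 1 1 0 0 0 19) 1 1 1 1 11 6 11 (-11) 11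
    (.x [.mk 0 0 (-1), .mk 1 0 0, .mk 0 1 0, .mk (-1) (-1) 0, .mk 1 (-1) 3] 6 1 3 (.mk 1 1 1 0 0 0 19) 0 0 256 3072 3072 (-3072) 3072 (-3072) 3072
    (.x [.mk 0 0 (-1), .mk 1 0 0, .mk 0 1 0, .mk (-1) (-1) 0, .mk 1 (-1) 3] 6 1 3 (.mk 1 1 1 0 0 0 19) 0 0 256 (-3072) (-3072) (-3072) 3072 (-3072) 3072
    (.x [.mk 0 0 (-1), .mk 1 0 0, .mk 0 1 0, .mk (-1) (-1) 0, .mk 1 (-1) 3] 6 1 3 (.mk 1 1 1 0 0 0 19) 0 0 256 (-3072) 3072 3072 3072 (-3072) 3072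
    (.x [.mk 0 0 (-1), .mk 1 0 0, .mk 0 1 0, .mk (-1) (-1) 0, .mk 1 (-1) 3] 6 1 3 (.mk 1 1 1 0 0 0 19) 0 0 256 (-3072) 3072 (-3072) (-3072) (-3072) 3072
    (.x [.mk 0 0 (-1), .mk 1 0 0, .mk 0 1 0, .mk (-1) (-1) 0, .mk 1 (-1) 3] 6 1 3 (.mk 1 1 1 0 0 0 19) 0 0 256 (-3072) 3072 (-3072) 3072 3072 3072
    (.x [.mk 0 0 (-1), .mk 1 0 0, .mk 0 1 0, .mk (-1) (-1) 0, .mk 1 (-1) 3] 6 1 3 (.mk 1 1 1 0 0 0 19) 0 0 256 (-3072) 3072 (-3072) 3072 (-3072) (-3072)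
    (.x [.mk 1 0 0, .mk 0 1 0, .mk (-1) (-1) 0, .mk 1 (-1) 3] 6 1 3 (.mk 1 1 0 0 0 (-1) 0) 1 1 1 0 0 1 1 0 0
    (.x [.mk 1 0 0, .mk 0 1 0, .mk (-1) (-1) 0, .mk 1 (-1) 3] 6 1 3 (.mk 1 1 0 0 0 (-1) 0) 1 1 1 0 0 2 2 0 0
    (.x [.mk 1 0 0, .mk 0 1 0, .mk (-1) (-1) 0, .mk 1 (-1) 3] 6 1 3 (.mk 1 1 0 0 0 (-1) 0) 1 1 1 (-4) 0 3 4 0 0
    (.x [.mk 1 0 0, .mk 0 1 0, .mk (-1) (-1) 0, .mk 1 (-1) 3] 6 1 3 (.mk 1 1 0 0 0 (-1) 0) 1 1 1 1 4 (-4) 4 0 0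
    (.x [.mk 1 0 0, .mk 0 1 0, .mk (-1) (-1) 0, .mk 1 (-1) 3] 6 1 3 (.mk 1 1 0 0 0 (-1) 0) 0 0 256 1280 1280 (-1280) 1280 0 0
    (.x [.mk 1 0 0, .mk 0 1 0, .mk (-1) (-1) 0, .mk 1 (-1) 3] 6 1 3 (.mk 1 1 0 0 0 (-1) 0) 0 0 256 (-1280) (-1280) (-1280) 1280 0 0
    (.x [.mk 1 0 0, .mk 0 1 0, .mk (-1) (-1) 0, .mk 1 (-1) 3] 6 1 3 (.mk 1 1 0 0 0 (-1) 0) 0 0 256 (-1280) 1280 1280 1280 0 0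
    (.x [.mk 1 0 0, .mk 0 1 0, .mk (-1) (-1) 0, .mk 1 (-1) 3] 6 1 3 (.mk 1 1 0 0 0 (-1) 0) 0 0 256 (-1280) 1280 (-1280) (-1280) 0 0
    (.o 6 6 2 2 3 3 (.o 4 6 3 3 3 3 (.o 4 6 4 6 3 3 (.o 0 6 0 6 4 4 (.o 0 6 0 6 5 5 (.o 0 6 0 6 6 6 .nil))))))))))))))))))))))))))

/-- Goals of `n_TU1_7` after part 1. -/
noncomputable def g_TU1_7_1 : G :=
  (.x [.mk (-1) 1 (-1), .mk 1 1 0, .mk (-1) 1 0, .mk 0 (-1) 0, .mk 0 0 1] 3 0 2 (.mk 2 2 2 1 0 0 1) 0 164 250 (-600) (-594) (-3328) (-3328) (-344) (-252)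
    (.x [.mk (-1) 1 (-1), .mk 1 1 0, .mk (-1) 1 0, .mk 0 (-1) 0, .mk 0 0 1] 3 0 2 (.mk 2 2 2 1 0 0 1) 0 250 256 (-600) (-594) (-3328) (-3328) (-344) (-252)
    (.x [.mk (-1) 1 (-1), .mk 1 1 0, .mk (-1) 1 0, .mk 0 (-1) 0, .mk 0 0 1] 3 0 2 (.mk 2 2 2 1 0 0 1) 0 164 256 (-594) (-508) (-3328) (-3328) (-344) (-252)
    (.x [.mk (-1) 1 (-1), .mk 1 1 0, .mk (-1) 1 0, .mk 0 (-1) 0, .mk 0 0 1] 3 0 2 (.mk 2 2 2 1 0 0 1) 0 0 256 (-688) (-508) (-3328) (-3328) (-252) (-120)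
    (.x [.mk (-1) 1 (-1), .mk 1 1 0, .mk (-1) 1 0, .mk 0 (-1) 0, .mk 0 0 1] 3 0 2 (.mk 2 2 2 1 0 0 1) 0 0 256 (-508) (-376) (-3328) (-3328) (-432) (-120)
    (.x [.mk (-1) 1 (-1), .mk 1 1 0, .mk (-1) 1 0, .mk 0 (-1) 0, .mk 0 0 1] 3 0 2 (.mk 2 2 2 1 0 0 1) 0 0 256 (-864) (-376) (-3328) (-3328) (-120) 144
    (.x [.mk (-1) 1 (-1), .mk 1 1 0, .mk (-1) 1 0, .mk 0 (-1) 0, .mk 0 0 1] 3 0 2 (.mk 2 2 2 1 0 0 1) 0 0 256 (-376) (-112) (-3328) (-3328) (-608) 144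
    (.x [.mk (-1) 1 (-1), .mk 1 1 0, .mk (-1) 1 0, .mk 0 (-1) 0, .mk 0 0 1] 3 0 2 (.mk 2 2 2 1 0 0 1) 0 0 256 (-1216) (-112) (-3328) (-3328) 144 672
    (.x [.mk (-1) 1 (-1), .mk 1 1 0, .mk (-1) 1 0, .mk 0 (-1) 0, .mk 0 0 1] 3 0 2 (.mk 2 2 2 1 0 0 1) 0 0 256 (-112) 416 (-3328) (-3328) (-960) 672
    (.x [.mk (-1) 1 (-1), .mk 1 1 0, .mk (-1) 1 0, .mk 0 (-1) 0, .mk 0 0 1] 3 0 2 (.mk 2 2 2 1 0 0 1) 0 0 256 (-1920) 416 (-3328) (-3328) 672 3328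
    (.x [.mk (-1) 1 (-1), .mk 1 1 0, .mk (-1) 1 0, .mk 0 (-1) 0, .mk 0 0 1] 3 0 2 (.mk 2 2 2 1 0 0 1) 0 0 256 416 1664 (-3328) (-3328) (-1664) 3328
    (.x [.mk (-1) 1 (-1), .mk 1 1 0, .mk (-1) 1 0, .mk 0 (-1) 0, .mk 0 0 1] 3 0 2 (.mk 2 2 2 1 0 0 1) 0 0 256 1664 3328 (-3328) (-3328) (-3328) 3328
    (.x [.mk (-1) 1 (-1), .mk 1 1 0, .mk (-1) 1 0, .mk 0 (-1) 0, .mk 0 0 1] 3 0 2 (.mk 2 2 2 1 0 0 1) 0 0 256 (-3328) 3328 (-3328) 3328 3328 3328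
    (.x [.mk (-1) 1 (-1), .mk 1 1 0, .mk (-1) 1 0, .mk 0 (-1) 0, .mk 0 0 1] 3 0 2 (.mk 2 2 2 1 0 0 1) 0 0 256 (-3328) 3328 (-3328) 3328 (-3328) (-3328)
    (.x [.mk 1 1 0, .mk (-1) 1 0, .mk 0 (-1) 0, .mk 0 0 1] 3 0 2 (.mk 1 1 0 0 0 (-1) 0) 1 1 1 (-1) (-1) 2 2 0 0
    (.x [.mk 1 1 0, .mk (-1) 1 0, .mk 0 (-1) 0, .mk 0 0 1] 3 0 2 (.mk 1 1 0 0 0 (-1) 0) 1 1 1 0 0 1 2 0 0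
    (.x [.mk 1 1 0, .mk (-1) 1 0, .mk 0 (-1) 0, .mk 0 0 1] 3 0 2 (.mk 1 1 0 0 0 (-1) 0) 1 1 1 (-2) 0 3 4 0 0
    (.x [.mk 1 1 0, .mk (-1) 1 0, .mk 0 (-1) 0, .mk 0 0 1] 3 0 2 (.mk 1 1 0 0 0 (-1) 0) 1 1 1 (-2) 0 5 7 0 0
    (.x [.mk 1 1 0, .mk (-1) 1 0, .mk 0 (-1) 0, .mk 0 0 1] 3 0 2 (.mk 1 1 0 0 0 (-1) 0) 1 1 1 (-6) 0 8 13 0 0
    (.x [.mk 1 1 0, .mk (-1) 1 0, .mk 0 (-1) 0, .mk 0 0 1] 3 0 2 (.mk 1 1 0 0 0 (-1) 0) 1 1 1 1 13 (-13) 13 0 0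
    (.x [.mk 1 1 0, .mk (-1) 1 0, .mk 0 (-1) 0, .mk 0 0 1] 3 0 2 (.mk 1 1 0 0 0 (-1) 0) 0 0 256 3584 3584 (-3584) 3584 0 0
    (.x [.mk 1 1 0, .mk (-1) 1 0, .mk 0 (-1) 0, .mk 0 0 1] 3 0 2 (.mk 1 1 0 0 0 (-1) 0) 0 0 256 (-3584) (-3584) (-3584) 3584 0 0
    (.x [.mk 1 1 0, .mk (-1) 1 0, .mk 0 (-1) 0, .mk 0 0 1] 3 0 2 (.mk 1 1 0 0 0 (-1) 0) 0 0 256 (-3584) 3584 3584 3584 0 0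
    (.x [.mk 1 1 0, .mk (-1) 1 0, .mk 0 (-1) 0, .mk 0 0 1] 3 0 2 (.mk 1 1 0 0 0 (-1) 0) 0 0 256 (-3584) 3584 (-3584) (-3584) 0 0
    (.o 3 3 1 1 2 2 (.o 3 3 2 3 2 2 (.o 0 3 4 6 2 2 (.o 4 6 0 6 2 2 (.o 0 6 0 6 4 4 .nil)))))))))))))))))))))))))))))

/-- Goals of `n_TU1_7` after part 2. -/
noncomputable def g_TU1_7_2 : G :=
  (.x [.mk 2 1 (-1), .mk 1 1 0, .mk (-1) 1 0, .mk 0 (-1) 0, .mk 0 0 1] 2 5 2 (.mk 2 2 2 1 0 0 1) 1 1 1 (-4) (-1) (-7) (-4) 0 7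
    (.x [.mk 2 1 (-1), .mk 1 1 0, .mk (-1) 1 0, .mk 0 (-1) 0, .mk 0 0 1] 2 5 2 (.mk 2 2 2 1 0 0 1) 1 1 1 (-4) (-1) (-3) 0 0 7
    (.x [.mk 2 1 (-1), .mk 1 1 0, .mk (-1) 1 0, .mk 0 (-1) 0, .mk 0 0 1] 2 5 2 (.mk 2 2 2 1 0 0 1) 1 1 1 (-4) (-1) (-7) 0 8 9
    (.x [.mk 2 1 (-1), .mk 1 1 0, .mk (-1) 1 0, .mk 0 (-1) 0, .mk 0 0 1] 2 5 2 (.mk 2 2 2 1 0 0 1) 1 1 1 0 0 (-9) 0 0 9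
    (.x [.mk 2 1 (-1), .mk 1 1 0, .mk (-1) 1 0, .mk 0 (-1) 0, .mk 0 0 1] 2 5 2 (.mk 2 2 2 1 0 0 1) 1 1 1 (-9) 0 1 9 (-4) 9
    (.x [.mk 2 1 (-1), .mk 1 1 0, .mk (-1) 1 0, .mk 0 (-1) 0, .mk 0 0 1] 2 5 2 (.mk 2 2 2 1 0 0 1) 1 1 1 1 9 (-9) 9 (-4) 9
    (.x [.mk 2 1 (-1), .mk 1 1 0, .mk (-1) 1 0, .mk 0 (-1) 0, .mk 0 0 1] 2 5 2 (.mk 2 2 2 1 0 0 1) 0 0 256 2560 2560 (-2560) 2560 (-2560) 2560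
    (.x [.mk 2 1 (-1), .mk 1 1 0, .mk (-1) 1 0, .mk 0 (-1) 0, .mk 0 0 1] 2 5 2 (.mk 2 2 2 1 0 0 1) 0 0 256 (-2560) (-2560) (-2560) 2560 (-2560) 2560
    (.x [.mk 2 1 (-1), .mk 1 1 0, .mk (-1) 1 0, .mk 0 (-1) 0, .mk 0 0 1] 2 5 2 (.mk 2 2 2 1 0 0 1) 0 0 256 (-2560) 2560 2560 2560 (-2560) 2560
    (.x [.mk 2 1 (-1), .mk 1 1 0, .mk (-1) 1 0, .mk 0 (-1) 0, .mk 0 0 1] 2 5 2 (.mk 2 2 2 1 0 0 1) 0 0 256 (-2560) 2560 (-2560) (-2560) (-2560) 2560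
    (.x [.mk 2 1 (-1), .mk 1 1 0, .mk (-1) 1 0, .mk 0 (-1) 0, .mk 0 0 1] 2 5 2 (.mk 2 2 2 1 0 0 1) 0 0 256 (-2560) 2560 (-2560) 2560 2560 2560
    (.x [.mk 2 1 (-1), .mk 1 1 0, .mk (-1) 1 0, .mk 0 (-1) 0, .mk 0 0 1] 2 5 2 (.mk 2 2 2 1 0 0 1) 0 0 256 (-2560) 2560 (-2560) 2560 (-2560) (-2560)
    (.x [.mk 1 1 0, .mk (-1) 1 0, .mk 0 (-1) 0, .mk 0 0 1] 2 5 2 (.mk 1 1 0 0 0 (-1) 0) 1 1 1 1 2 2 2 0 0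
    (.x [.mk 1 1 0, .mk (-1) 1 0, .mk 0 (-1) 0, .mk 0 0 1] 2 5 2 (.mk 1 1 0 0 0 (-1) 0) 1 1 1 3 3 0 2 0 0
    (.x [.mk 1 1 0, .mk (-1) 1 0, .mk 0 (-1) 0, .mk 0 0 1] 2 5 2 (.mk 1 1 0 0 0 (-1) 0) 1 1 1 4 4 0 2 0 0
    (.x [.mk 1 1 0, .mk (-1) 1 0, .mk 0 (-1) 0, .mk 0 0 1] 2 5 2 (.mk 1 1 0 0 0 (-1) 0) 1 1 1 1 4 3 3 0 0
    (.x [.mk 1 1 0, .mk (-1) 1 0, .mk 0 (-1) 0, .mk 0 0 1] 2 5 2 (.mk 1 1 0 0 0 (-1) 0) 1 1 1 5 5 0 3 0 0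
    (.x [.mk 1 1 0, .mk (-1) 1 0, .mk 0 (-1) 0, .mk 0 0 1] 2 5 2 (.mk 1 1 0 0 0 (-1) 0) 1 1 1 1 5 4 4 0 0
    (.x [.mk 1 1 0, .mk (-1) 1 0, .mk 0 (-1) 0, .mk 0 0 1] 2 5 2 (.mk 1 1 0 0 0 (-1) 0) 1 1 1 6 14 0 4 0 0
    (.x [.mk 1 1 0, .mk (-1) 1 0, .mk 0 (-1) 0, .mk 0 0 1] 2 5 2 (.mk 1 1 0 0 0 (-1) 0) 1 1 1 1 14 5 14 0 0
    (.x [.mk 1 1 0, .mk (-1) 1 0, .mk 0 (-1) 0, .mk 0 0 1] 2 5 2 (.mk 1 1 0 0 0 (-1) 0) 0 0 256 3840 3840 (-3840) 3840 0 0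
    (.x [.mk 1 1 0, .mk (-1) 1 0, .mk 0 (-1) 0, .mk 0 0 1] 2 5 2 (.mk 1 1 0 0 0 (-1) 0) 0 0 256 (-3840) (-3840) (-3840) 3840 0 0
    (.x [.mk 1 1 0, .mk (-1) 1 0, .mk 0 (-1) 0, .mk 0 0 1] 2 5 2 (.mk 1 1 0 0 0 (-1) 0) 0 0 256 (-3840) 3840 3840 3840 0 0
    (.x [.mk 1 1 0, .mk (-1) 1 0, .mk 0 (-1) 0, .mk 0 0 1] 2 5 2 (.mk 1 1 0 0 0 (-1) 0) 0 0 256 (-3840) 3840 (-3840) (-3840) 0 0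
    (.o 2 2 6 6 2 2 (.o 3 3 5 6 2 2 (.o 4 6 0 6 2 2 (.o 0 6 0 6 4 4 .nil))))))))))))))))))))))))))))

/-- Goals of `n_TU1_7` after part 3. -/
noncomputable def g_TU1_7_3 : G :=
  (.x [.mk (-1) (-5) (-1), .mk (-2) 1 (-1), .mk 1 0 0, .mk (-2) 2 (-1), .mk 1 1 0, .mk (-1) 1 0, .mk 0 (-1) 0, .mk 0 0 1] 3 5 2 (.mk 2 2 2 1 0 1 1) 0 0 256 (-736) (-544) (-2304) (-2304) (-608) (-512)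
    (.x [.mk (-1) (-5) (-1), .mk (-2) 1 (-1), .mk 1 0 0, .mk (-2) 2 (-1), .mk 1 1 0, .mk (-1) 1 0, .mk 0 (-1) 0, .mk 0 0 1] 3 5 2 (.mk 2 2 2 1 0 1 1) 0 0 256 (-736) (-544) (-2304) (-2304) (-512) (-416)
    (.x [.mk (-1) (-5) (-1), .mk (-2) 1 (-1), .mk 1 0 0, .mk (-2) 2 (-1), .mk 1 1 0, .mk (-1) 1 0, .mk 0 (-1) 0, .mk 0 0 1] 3 5 2 (.mk 2 2 2 1 0 1 1) 0 0 256 (-736) (-544) (-2304) (-2304) (-416) (-192)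
    (.x [.mk (-1) (-5) (-1), .mk (-2) 1 (-1), .mk 1 0 0, .mk (-2) 2 (-1), .mk 1 1 0, .mk (-1) 1 0, .mk 0 (-1) 0, .mk 0 0 1] 3 5 2 (.mk 2 2 2 1 0 1 1) 0 0 256 (-544) (-320) (-2304) (-2304) (-608) (-192)
    (.x [.mk (-1) (-5) (-1), .mk (-2) 1 (-1), .mk 1 0 0, .mk (-2) 2 (-1), .mk 1 1 0, .mk (-1) 1 0, .mk 0 (-1) 0, .mk 0 0 1] 3 5 2 (.mk 2 2 2 1 0 1 1) 0 0 256 (-960) (-320) (-2304) (-2304) (-192) 256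
    (.x [.mk (-1) (-5) (-1), .mk (-2) 1 (-1), .mk 1 0 0, .mk (-2) 2 (-1), .mk 1 1 0, .mk (-1) 1 0, .mk 0 (-1) 0, .mk 0 0 1] 3 5 2 (.mk 2 2 2 1 0 1 1) 0 0 256 (-320) 128 (-2304) (-2304) (-832) 256
    (.x [.mk (-1) (-5) (-1), .mk (-2) 1 (-1), .mk 1 0 0, .mk (-2) 2 (-1), .mk 1 1 0, .mk (-1) 1 0, .mk 0 (-1) 0, .mk 0 0 1] 3 5 2 (.mk 2 2 2 1 0 1 1) 0 0 256 (-1408) 128 (-2304) (-2304) 256 1152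
    (.x [.mk (-1) (-5) (-1), .mk (-2) 1 (-1), .mk 1 0 0, .mk (-2) 2 (-1), .mk 1 1 0, .mk (-1) 1 0, .mk 0 (-1) 0, .mk 0 0 1] 3 5 2 (.mk 2 2 2 1 0 1 1) 0 0 256 128 1152 (-2304) (-2304) (-1280) 1152
    (.x [.mk (-1) (-5) (-1), .mk (-2) 1 (-1), .mk 1 0 0, .mk (-2) 2 (-1), .mk 1 1 0, .mk (-1) 1 0, .mk 0 (-1) 0, .mk 0 0 1] 3 5 2 (.mk 2 2 2 1 0 1 1) 0 0 256 (-2304) 1152 (-2304) (-2304) 1152 2304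
    (.x [.mk (-1) (-5) (-1), .mk (-2) 1 (-1), .mk 1 0 0, .mk (-2) 2 (-1), .mk 1 1 0, .mk (-1) 1 0, .mk 0 (-1) 0, .mk 0 0 1] 3 5 2 (.mk 2 2 2 1 0 1 1) 0 0 256 1152 2304 (-2304) (-2304) (-2304) 2304
    (.x [.mk (-1) (-5) (-1), .mk (-2) 1 (-1), .mk 1 0 0, .mk (-2) 2 (-1), .mk 1 1 0, .mk (-1) 1 0, .mk 0 (-1) 0, .mk 0 0 1] 3 5 2 (.mk 2 2 2 1 0 1 1) 0 0 256 (-2304) 2304 (-2304) 2304 2304 2304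
    (.x [.mk (-1) (-5) (-1), .mk (-2) 1 (-1), .mk 1 0 0, .mk (-2) 2 (-1), .mk 1 1 0, .mk (-1) 1 0, .mk 0 (-1) 0, .mk 0 0 1] 3 5 2 (.mk 2 2 2 1 0 1 1) 0 0 256 (-2304) 2304 (-2304) 2304 (-2304) (-2304)
    (.x [.mk (-2) 1 (-1), .mk 1 0 0, .mk (-2) 2 (-1), .mk 1 1 0, .mk (-1) 1 0, .mk 0 (-1) 0, .mk 0 0 1] 3 5 2 (.mk 2 2 2 1 1 1 1) 1 1 1 (-1) (-1) (-2) (-2) (-1) (-1)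
    (.x [.mk (-2) 1 (-1), .mk 1 0 0, .mk (-2) 2 (-1), .mk 1 1 0, .mk (-1) 1 0, .mk 0 (-1) 0, .mk 0 0 1] 3 5 2 (.mk 2 2 2 1 1 1 1) 1 1 1 0 0 (-3) (-2) (-1) (-1)
    (.x [.mk (-2) 1 (-1), .mk 1 0 0, .mk (-2) 2 (-1), .mk 1 1 0, .mk (-1) 1 0, .mk 0 (-1) 0, .mk 0 0 1] 3 5 2 (.mk 2 2 2 1 1 1 1) 1 1 1 (-1) 0 (-3) (-2) 0 2
    (.x [.mk (-2) 1 (-1), .mk 1 0 0, .mk (-2) 2 (-1), .mk 1 1 0, .mk (-1) 1 0, .mk 0 (-1) 0, .mk 0 0 1] 3 5 2 (.mk 2 2 2 1 1 1 1) 1 1 1 (-1) 0 (-1) 0 (-1) 2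
    (.x [.mk (-2) 1 (-1), .mk 1 0 0, .mk (-2) 2 (-1), .mk 1 1 0, .mk (-1) 1 0, .mk 0 (-1) 0, .mk 0 0 1] 3 5 2 (.mk 2 2 2 1 1 1 1) 1 1 1 (-1) 0 (-3) 0 3 4
    (.x [.mk (-2) 1 (-1), .mk 1 0 0, .mk (-2) 2 (-1), .mk 1 1 0, .mk (-1) 1 0, .mk 0 (-1) 0, .mk 0 0 1] 3 5 2 (.mk 2 2 2 1 1 1 1) 1 1 1 (-2) 0 (-8) 0 5 8
    (.x [.mk (-2) 1 (-1), .mk 1 0 0, .mk (-2) 2 (-1), .mk 1 1 0, .mk (-1) 1 0, .mk 0 (-1) 0, .mk 0 0 1] 3 5 2 (.mk 2 2 2 1 1 1 1) 1 1 1 (-8) 0 1 8 (-8) 8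
    (.x [.mk (-2) 1 (-1), .mk 1 0 0, .mk (-2) 2 (-1), .mk 1 1 0, .mk (-1) 1 0, .mk 0 (-1) 0, .mk 0 0 1] 3 5 2 (.mk 2 2 2 1 1 1 1) 1 1 1 1 8 (-8) 8 (-8) 8
    (.x [.mk (-2) 1 (-1), .mk 1 0 0, .mk (-2) 2 (-1), .mk 1 1 0, .mk (-1) 1 0, .mk 0 (-1) 0, .mk 0 0 1] 3 5 2 (.mk 2 2 2 1 1 1 1) 0 0 256 2304 2304 (-2304) 2304 (-2304) 2304
    (.x [.mk (-2) 1 (-1), .mk 1 0 0, .mk (-2) 2 (-1), .mk 1 1 0, .mk (-1) 1 0, .mk 0 (-1) 0, .mk 0 0 1] 3 5 2 (.mk 2 2 2 1 1 1 1) 0 0 256 (-2304) (-2304) (-2304) 2304 (-2304) 2304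
    (.x [.mk (-2) 1 (-1), .mk 1 0 0, .mk (-2) 2 (-1), .mk 1 1 0, .mk (-1) 1 0, .mk 0 (-1) 0, .mk 0 0 1] 3 5 2 (.mk 2 2 2 1 1 1 1) 0 0 256 (-2304) 2304 2304 2304 (-2304) 2304
    (.x [.mk (-2) 1 (-1), .mk 1 0 0, .mk (-2) 2 (-1), .mk 1 1 0, .mk (-1) 1 0, .mk 0 (-1) 0, .mk 0 0 1] 3 5 2 (.mk 2 2 2 1 1 1 1) 0 0 256 (-2304) 2304 (-2304) (-2304) (-2304) 2304
    (.x [.mk (-2) 1 (-1), .mk 1 0 0, .mk (-2) 2 (-1), .mk 1 1 0, .mk (-1) 1 0, .mk 0 (-1) 0, .mk 0 0 1] 3 5 2 (.mk 2 2 2 1 1 1 1) 0 0 256 (-2304) 2304 (-2304) 2304 2304 2304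
    (.x [.mk (-2) 1 (-1), .mk 1 0 0, .mk (-2) 2 (-1), .mk 1 1 0, .mk (-1) 1 0, .mk 0 (-1) 0, .mk 0 0 1] 3 5 2 (.mk 2 2 2 1 1 1 1) 0 0 256 (-2304) 2304 (-2304) 2304 (-2304) (-2304)
    (.x [.mk 1 0 0, .mk (-2) 2 (-1), .mk 1 1 0, .mk (-1) 1 0, .mk 0 (-1) 0, .mk 0 0 1] 3 5 2 (.mk 2 2 2 0 1 1 1) 1 1 1 (-2) (-1) 0 0 0 0
    (.x [.mk 1 0 0, .mk (-2) 2 (-1), .mk 1 1 0, .mk (-1) 1 0, .mk 0 (-1) 0, .mk 0 0 1] 3 5 2 (.mk 2 2 2 0 1 1 1) 1 1 1 0 0 (-1) 0 (-1) 0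
    (.x [.mk 1 0 0, .mk (-2) 2 (-1), .mk 1 1 0, .mk (-1) 1 0, .mk 0 (-1) 0, .mk 0 0 1] 3 5 2 (.mk 2 2 2 0 1 1 1) 1 1 1 (-8) 0 (-8) 0 1 8
    (.x [.mk 1 0 0, .mk (-2) 2 (-1), .mk 1 1 0, .mk (-1) 1 0, .mk 0 (-1) 0, .mk 0 0 1] 3 5 2 (.mk 2 2 2 0 1 1 1) 1 1 1 (-8) 0 1 8 (-8) 8
    (.x [.mk 1 0 0, .mk (-2) 2 (-1), .mk 1 1 0, .mk (-1) 1 0, .mk 0 (-1) 0, .mk 0 0 1] 3 5 2 (.mk 2 2 2 0 1 1 1) 1 1 1 1 8 (-8) 8 (-8) 8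
    (.x [.mk 1 0 0, .mk (-2) 2 (-1), .mk 1 1 0, .mk (-1) 1 0, .mk 0 (-1) 0, .mk 0 0 1] 3 5 2 (.mk 2 2 2 0 1 1 1) 0 0 256 2304 2304 (-2304) 2304 (-2304) 2304
    (.x [.mk 1 0 0, .mk (-2) 2 (-1), .mk 1 1 0, .mk (-1) 1 0, .mk 0 (-1) 0, .mk 0 0 1] 3 5 2 (.mk 2 2 2 0 1 1 1) 0 0 256 (-2304) (-2304) (-2304) 2304 (-2304) 2304
    (.x [.mk 1 0 0, .mk (-2) 2 (-1), .mk 1 1 0, .mk (-1) 1 0, .mk 0 (-1) 0, .mk 0 0 1] 3 5 2 (.mk 2 2 2 0 1 1 1) 0 0 256 (-2304) 2304 2304 2304 (-2304) 2304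
    (.x [.mk 1 0 0, .mk (-2) 2 (-1), .mk 1 1 0, .mk (-1) 1 0, .mk 0 (-1) 0, .mk 0 0 1] 3 5 2 (.mk 2 2 2 0 1 1 1) 0 0 256 (-2304) 2304 (-2304) (-2304) (-2304) 2304
    (.x [.mk 1 0 0, .mk (-2) 2 (-1), .mk 1 1 0, .mk (-1) 1 0, .mk 0 (-1) 0, .mk 0 0 1] 3 5 2 (.mk 2 2 2 0 1 1 1) 0 0 256 (-2304) 2304 (-2304) 2304 2304 2304
    (.x [.mk 1 0 0, .mk (-2) 2 (-1), .mk 1 1 0, .mk (-1) 1 0, .mk 0 (-1) 0, .mk 0 0 1] 3 5 2 (.mk 2 2 2 0 1 1 1) 0 0 256 (-2304) 2304 (-2304) 2304 (-2304) (-2304)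
    (.x [.mk (-2) 2 (-1), .mk 1 1 0, .mk (-1) 1 0, .mk 0 (-1) 0, .mk 0 0 1] 3 5 2 (.mk 2 2 2 1 0 0 1) 1 1 1 (-19) 0 (-19) 0 1 19
    (.x [.mk (-2) 2 (-1), .mk 1 1 0, .mk (-1) 1 0, .mk 0 (-1) 0, .mk 0 0 1] 3 5 2 (.mk 2 2 2 1 0 0 1) 1 1 1 (-19) 0 1 19 (-19) 19
    (.x [.mk (-2) 2 (-1), .mk 1 1 0, .mk (-1) 1 0, .mk 0 (-1) 0, .mk 0 0 1] 3 5 2 (.mk 2 2 2 1 0 0 1) 1 1 1 1 19 (-19) 19 (-19) 19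
    (.x [.mk (-2) 2 (-1), .mk 1 1 0, .mk (-1) 1 0, .mk 0 (-1) 0, .mk 0 0 1] 3 5 2 (.mk 2 2 2 1 0 0 1) 0 0 256 5120 5120 (-5120) 5120 (-5120) 5120
    (.x [.mk (-2) 2 (-1), .mk 1 1 0, .mk (-1) 1 0, .mk 0 (-1) 0, .mk 0 0 1] 3 5 2 (.mk 2 2 2 1 0 0 1) 0 0 256 (-5120) (-5120) (-5120) 5120 (-5120) 5120
    (.x [.mk (-2) 2 (-1), .mk 1 1 0, .mk (-1) 1 0, .mk 0 (-1) 0, .mk 0 0 1] 3 5 2 (.mk 2 2 2 1 0 0 1) 0 0 256 (-5120) 5120 5120 5120 (-5120) 5120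
    (.x [.mk (-2) 2 (-1), .mk 1 1 0, .mk (-1) 1 0, .mk 0 (-1) 0, .mk 0 0 1] 3 5 2 (.mk 2 2 2 1 0 0 1) 0 0 256 (-5120) 5120 (-5120) (-5120) (-5120) 5120
    (.x [.mk (-2) 2 (-1), .mk 1 1 0, .mk (-1) 1 0, .mk 0 (-1) 0, .mk 0 0 1] 3 5 2 (.mk 2 2 2 1 0 0 1) 0 0 256 (-5120) 5120 (-5120) 5120 5120 5120
    (.x [.mk (-2) 2 (-1), .mk 1 1 0, .mk (-1) 1 0, .mk 0 (-1) 0, .mk 0 0 1] 3 5 2 (.mk 2 2 2 1 0 0 1) 0 0 256 (-5120) 5120 (-5120) 5120 (-5120) (-5120)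
    (.x [.mk 1 1 0, .mk (-1) 1 0, .mk 0 (-1) 0, .mk 0 0 1] 3 5 2 (.mk 1 1 0 0 0 (-1) 0) 1 1 1 (-4) (-2) 3 4 0 0
    (.x [.mk 1 1 0, .mk (-1) 1 0, .mk 0 (-1) 0, .mk 0 0 1] 3 5 2 (.mk 1 1 0 0 0 (-1) 0) 1 1 1 (-1) 0 1 4 0 0
    (.x [.mk 1 1 0, .mk (-1) 1 0, .mk 0 (-1) 0, .mk 0 0 1] 3 5 2 (.mk 1 1 0 0 0 (-1) 0) 1 1 1 (-4) 0 5 7 0 0
    (.x [.mk 1 1 0, .mk (-1) 1 0, .mk 0 (-1) 0, .mk 0 0 1] 3 5 2 (.mk 1 1 0 0 0 (-1) 0) 1 1 1 (-10) 0 8 13 0 0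
    (.x [.mk 1 1 0, .mk (-1) 1 0, .mk 0 (-1) 0, .mk 0 0 1] 3 5 2 (.mk 1 1 0 0 0 (-1) 0) 1 1 1 (-10) 0 14 21 0 0
    (.x [.mk 1 1 0, .mk (-1) 1 0, .mk 0 (-1) 0, .mk 0 0 1] 3 5 2 (.mk 1 1 0 0 0 (-1) 0) 1 1 1 1 21 (-21) 21 0 0
    (.x [.mk 1 1 0, .mk (-1) 1 0, .mk 0 (-1) 0, .mk 0 0 1] 3 5 2 (.mk 1 1 0 0 0 (-1) 0) 0 0 256 5632 5632 (-5632) 5632 0 0
    (.x [.mk 1 1 0, .mk (-1) 1 0, .mk 0 (-1) 0, .mk 0 0 1] 3 5 2 (.mk 1 1 0 0 0 (-1) 0) 0 0 256 (-5632) (-5632) (-5632) 5632 0 0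
    (.x [.mk 1 1 0, .mk (-1) 1 0, .mk 0 (-1) 0, .mk 0 0 1] 3 5 2 (.mk 1 1 0 0 0 (-1) 0) 0 0 256 (-5632) 5632 5632 5632 0 0
    (.x [.mk 1 1 0, .mk (-1) 1 0, .mk 0 (-1) 0, .mk 0 0 1] 3 5 2 (.mk 1 1 0 0 0 (-1) 0) 0 0 256 (-5632) 5632 (-5632) (-5632) 0 0
    (.o 3 3 6 6 2 2 (.o 4 6 0 6 2 2 (.o 0 6 0 6 4 4 .nil)))))))))))))))))))))))))))))))))))))))))))))))))))))))))))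

/-- Goals of `n_TU1_7` after part 4. -/
noncomputable def g_TU1_7_4 : G :=
  (.x [.mk (-1) 2 (-1), .mk 1 1 0, .mk (-1) 1 0, .mk 0 (-1) 0, .mk 0 0 1] 3 6 2 (.mk 2 2 2 0 1 1 1) 1 1 1 (-2) 0 (-1) 0 1 1
    (.x [.mk (-1) 2 (-1), .mk 1 1 0, .mk (-1) 1 0, .mk 0 (-1) 0, .mk 0 0 1] 3 6 2 (.mk 2 2 2 0 1 1 1) 1 1 1 (-2) 0 (-1) 0 2 3
    (.x [.mk (-1) 2 (-1), .mk 1 1 0, .mk (-1) 1 0, .mk 0 (-1) 0, .mk 0 0 1] 3 6 2 (.mk 2 2 2 0 1 1 1) 1 1 1 (-11) 0 (-14) 0 4 14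
    (.x [.mk (-1) 2 (-1), .mk 1 1 0, .mk (-1) 1 0, .mk 0 (-1) 0, .mk 0 0 1] 3 6 2 (.mk 2 2 2 0 1 1 1) 1 1 1 (-14) 0 1 14 (-14) 14
    (.x [.mk (-1) 2 (-1), .mk 1 1 0, .mk (-1) 1 0, .mk 0 (-1) 0, .mk 0 0 1] 3 6 2 (.mk 2 2 2 0 1 1 1) 1 1 1 1 14 (-14) 14 (-14) 14
    (.x [.mk (-1) 2 (-1), .mk 1 1 0, .mk (-1) 1 0, .mk 0 (-1) 0, .mk 0 0 1] 3 6 2 (.mk 2 2 2 0 1 1 1) 0 0 256 3840 3840 (-3840) 3840 (-3840) 3840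
    (.x [.mk (-1) 2 (-1), .mk 1 1 0, .mk (-1) 1 0, .mk 0 (-1) 0, .mk 0 0 1] 3 6 2 (.mk 2 2 2 0 1 1 1) 0 0 256 (-3840) (-3840) (-3840) 3840 (-3840) 3840
    (.x [.mk (-1) 2 (-1), .mk 1 1 0, .mk (-1) 1 0, .mk 0 (-1) 0, .mk 0 0 1] 3 6 2 (.mk 2 2 2 0 1 1 1) 0 0 256 (-3840) 3840 3840 3840 (-3840) 3840
    (.x [.mk (-1) 2 (-1), .mk 1 1 0, .mk (-1) 1 0, .mk 0 (-1) 0, .mk 0 0 1] 3 6 2 (.mk 2 2 2 0 1 1 1) 0 0 256 (-3840) 3840 (-3840) (-3840) (-3840) 3840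
    (.x [.mk (-1) 2 (-1), .mk 1 1 0, .mk (-1) 1 0, .mk 0 (-1) 0, .mk 0 0 1] 3 6 2 (.mk 2 2 2 0 1 1 1) 0 0 256 (-3840) 3840 (-3840) 3840 3840 3840
    (.x [.mk (-1) 2 (-1), .mk 1 1 0, .mk (-1) 1 0, .mk 0 (-1) 0, .mk 0 0 1] 3 6 2 (.mk 2 2 2 0 1 1 1) 0 0 256 (-3840) 3840 (-3840) 3840 (-3840) (-3840)
    (.x [.mk 1 1 0, .mk (-1) 1 0, .mk 0 (-1) 0, .mk 0 0 1] 3 6 2 (.mk 1 1 0 0 0 (-1) 0) 1 1 1 (-2) (-1) 3 3 0 0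
    (.x [.mk 1 1 0, .mk (-1) 1 0, .mk 0 (-1) 0, .mk 0 0 1] 3 6 2 (.mk 1 1 0 0 0 (-1) 0) 1 1 1 0 0 1 3 0 0
    (.x [.mk 1 1 0, .mk (-1) 1 0, .mk 0 (-1) 0, .mk 0 0 1] 3 6 2 (.mk 1 1 0 0 0 (-1) 0) 1 1 1 (-3) 0 4 5 0 0
    (.x [.mk 1 1 0, .mk (-1) 1 0, .mk 0 (-1) 0, .mk 0 0 1] 3 6 2 (.mk 1 1 0 0 0 (-1) 0) 1 1 1 (-3) 0 6 9 0 0
    (.x [.mk 1 1 0, .mk (-1) 1 0, .mk 0 (-1) 0, .mk 0 0 1] 3 6 2 (.mk 1 1 0 0 0 (-1) 0) 1 1 1 (-8) 0 10 17 0 0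
    (.x [.mk 1 1 0, .mk (-1) 1 0, .mk 0 (-1) 0, .mk 0 0 1] 3 6 2 (.mk 1 1 0 0 0 (-1) 0) 1 1 1 1 17 (-17) 17 0 0
    (.x [.mk 1 1 0, .mk (-1) 1 0, .mk 0 (-1) 0, .mk 0 0 1] 3 6 2 (.mk 1 1 0 0 0 (-1) 0) 0 0 256 4608 4608 (-4608) 4608 0 0
    (.x [.mk 1 1 0, .mk (-1) 1 0, .mk 0 (-1) 0, .mk 0 0 1] 3 6 2 (.mk 1 1 0 0 0 (-1) 0) 0 0 256 (-4608) (-4608) (-4608) 4608 0 0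
    (.x [.mk 1 1 0, .mk (-1) 1 0, .mk 0 (-1) 0, .mk 0 0 1] 3 6 2 (.mk 1 1 0 0 0 (-1) 0) 0 0 256 (-4608) 4608 4608 4608 0 0
    (.x [.mk 1 1 0, .mk (-1) 1 0, .mk 0 (-1) 0, .mk 0 0 1] 3 6 2 (.mk 1 1 0 0 0 (-1) 0) 0 0 256 (-4608) 4608 (-4608) (-4608) 0 0
    (.o 4 6 0 6 2 2 (.o 0 6 0 6 4 4 .nil)))))))))))))))))))))))

/-- Goals of `n_TU1_7` after part 5. -/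
noncomputable def g_TU1_7_5 : G :=
  (.x [.mk (-3) 3 (-1), .mk 1 1 0, .mk (-1) 1 0, .mk 0 (-1) 0, .mk 0 0 1] 2 3 4 (.mk 2 2 2 1 0 1 1) 0 0 256 1280 1280 (-1280) 1280 (-1280) 1280
    (.x [.mk (-3) 3 (-1), .mk 1 1 0, .mk (-1) 1 0, .mk 0 (-1) 0, .mk 0 0 1] 2 3 4 (.mk 2 2 2 1 0 1 1) 0 0 256 (-1280) (-1280) (-1280) 1280 (-1280) 1280
    (.x [.mk (-3) 3 (-1), .mk 1 1 0, .mk (-1) 1 0, .mk 0 (-1) 0, .mk 0 0 1] 2 3 4 (.mk 2 2 2 1 0 1 1) 0 0 256 (-1280) 1280 1280 1280 (-1280) 1280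
    (.x [.mk (-3) 3 (-1), .mk 1 1 0, .mk (-1) 1 0, .mk 0 (-1) 0, .mk 0 0 1] 2 3 4 (.mk 2 2 2 1 0 1 1) 0 0 256 (-1280) 1280 (-1280) (-1280) (-1280) 1280
    (.x [.mk (-3) 3 (-1), .mk 1 1 0, .mk (-1) 1 0, .mk 0 (-1) 0, .mk 0 0 1] 2 3 4 (.mk 2 2 2 1 0 1 1) 0 0 256 (-1280) 1280 (-1280) 1280 1280 1280
    (.x [.mk (-3) 3 (-1), .mk 1 1 0, .mk (-1) 1 0, .mk 0 (-1) 0, .mk 0 0 1] 2 3 4 (.mk 2 2 2 1 0 1 1) 0 0 256 (-1280) 1280 (-1280) 1280 (-1280) (-1280)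
    (.x [.mk 1 1 0, .mk (-1) 1 0, .mk 0 (-1) 0, .mk 0 0 1] 2 3 4 (.mk 1 1 0 0 0 (-1) 0) 1 1 1 (-5) (-3) 4 4 0 0
    (.x [.mk 1 1 0, .mk (-1) 1 0, .mk 0 (-1) 0, .mk 0 0 1] 2 3 4 (.mk 1 1 0 0 0 (-1) 0) 1 1 1 (-6) (-3) 5 5 0 0
    (.x [.mk 1 1 0, .mk (-1) 1 0, .mk 0 (-1) 0, .mk 0 0 1] 2 3 4 (.mk 1 1 0 0 0 (-1) 0) 1 1 1 (-2) 0 1 5 0 0
    (.x [.mk 1 1 0, .mk (-1) 1 0, .mk 0 (-1) 0, .mk 0 0 1] 2 3 4 (.mk 1 1 0 0 0 (-1) 0) 1 1 1 (-9) 0 6 8 0 0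
    (.x [.mk 1 1 0, .mk (-1) 1 0, .mk 0 (-1) 0, .mk 0 0 1] 2 3 4 (.mk 1 1 0 0 0 (-1) 0) 1 1 1 (-21) 0 9 21 0 0
    (.x [.mk 1 1 0, .mk (-1) 1 0, .mk 0 (-1) 0, .mk 0 0 1] 2 3 4 (.mk 1 1 0 0 0 (-1) 0) 1 1 1 1 21 (-21) 21 0 0
    (.x [.mk 1 1 0, .mk (-1) 1 0, .mk 0 (-1) 0, .mk 0 0 1] 2 3 4 (.mk 1 1 0 0 0 (-1) 0) 0 0 256 5632 5632 (-5632) 5632 0 0
    (.x [.mk 1 1 0, .mk (-1) 1 0, .mk 0 (-1) 0, .mk 0 0 1] 2 3 4 (.mk 1 1 0 0 0 (-1) 0) 0 0 256 (-5632) (-5632) (-5632) 5632 0 0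
    (.x [.mk 1 1 0, .mk (-1) 1 0, .mk 0 (-1) 0, .mk 0 0 1] 2 3 4 (.mk 1 1 0 0 0 (-1) 0) 0 0 256 (-5632) 5632 5632 5632 0 0
    (.x [.mk 1 1 0, .mk (-1) 1 0, .mk 0 (-1) 0, .mk 0 0 1] 2 3 4 (.mk 1 1 0 0 0 (-1) 0) 0 0 256 (-5632) 5632 (-5632) (-5632) 0 0
    (.o 3 3 3 3 4 4 (.o 0 3 4 6 4 4 (.o 4 6 0 6 4 4 .nil)))))))))))))))))))

/-- Goals of `n_DU1_7` after part 1. -/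
noncomputable def g_DU1_7_1 : G :=
  (.x [.mk (-1) (-9) (-1), .mk 1 0 0, .mk (-1) 0 0, .mk 0 1 0, .mk 0 (-1) 0, .mk 0 0 1] 3 3 2 (.mk 2 2 2 1 1 0 1) 0 0 256 (-3840) 992 (-3840) (-3840) (-1920) 1248
    (.x [.mk (-1) (-9) (-1), .mk 1 0 0, .mk (-1) 0 0, .mk 0 1 0, .mk 0 (-1) 0, .mk 0 0 1] 3 3 2 (.mk 2 2 2 1 1 0 1) 0 0 256 (-3840) 992 (-3840) (-3840) 1248 3840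
    (.x [.mk (-1) (-9) (-1), .mk 1 0 0, .mk (-1) 0 0, .mk 0 1 0, .mk 0 (-1) 0, .mk 0 0 1] 3 3 2 (.mk 2 2 2 1 1 0 1) 0 0 256 992 3840 (-3840) (-3840) (-1920) 3840
    (.x [.mk (-1) (-9) (-1), .mk 1 0 0, .mk (-1) 0 0, .mk 0 1 0, .mk 0 (-1) 0, .mk 0 0 1] 3 3 2 (.mk 2 2 2 1 1 0 1) 0 0 256 (-3840) 3840 (-3840) 3840 3840 3840
    (.x [.mk (-1) (-9) (-1), .mk 1 0 0, .mk (-1) 0 0, .mk 0 1 0, .mk 0 (-1) 0, .mk 0 0 1] 3 3 2 (.mk 2 2 2 1 1 0 1) 0 0 256 (-3840) 3840 (-3840) 3840 (-3840) (-3840)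
    (.x [.mk 1 0 0, .mk (-1) 0 0, .mk 0 1 0, .mk 0 (-1) 0, .mk 0 0 1] 3 3 2 (.mk 1 1 0 0 0 (-1) 0) 1 1 1 (-1) (-1) (-8) (-8) 0 0
    (.x [.mk 1 0 0, .mk (-1) 0 0, .mk 0 1 0, .mk 0 (-1) 0, .mk 0 0 1] 3 3 2 (.mk 1 1 0 0 0 (-1) 0) 1 1 1 0 0 (-15) (-8) 0 0
    (.x [.mk 1 0 0, .mk (-1) 0 0, .mk 0 1 0, .mk 0 (-1) 0, .mk 0 0 1] 3 3 2 (.mk 1 1 0 0 0 (-1) 0) 1 1 1 (-7) 0 (-7) 0 0 0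
    (.x [.mk 1 0 0, .mk (-1) 0 0, .mk 0 1 0, .mk 0 (-1) 0, .mk 0 0 1] 3 3 2 (.mk 1 1 0 0 0 (-1) 0) 1 1 1 (-15) 0 1 15 0 0
    (.x [.mk 1 0 0, .mk (-1) 0 0, .mk 0 1 0, .mk 0 (-1) 0, .mk 0 0 1] 3 3 2 (.mk 1 1 0 0 0 (-1) 0) 1 1 1 1 15 (-15) 15 0 0
    (.x [.mk 1 0 0, .mk (-1) 0 0, .mk 0 1 0, .mk 0 (-1) 0, .mk 0 0 1] 3 3 2 (.mk 1 1 0 0 0 (-1) 0) 0 0 256 4096 4096 (-4096) 4096 0 0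
    (.x [.mk 1 0 0, .mk (-1) 0 0, .mk 0 1 0, .mk 0 (-1) 0, .mk 0 0 1] 3 3 2 (.mk 1 1 0 0 0 (-1) 0) 0 0 256 (-4096) (-4096) (-4096) 4096 0 0
    (.x [.mk 1 0 0, .mk (-1) 0 0, .mk 0 1 0, .mk 0 (-1) 0, .mk 0 0 1] 3 3 2 (.mk 1 1 0 0 0 (-1) 0) 0 0 256 (-4096) 4096 4096 4096 0 0
    (.x [.mk 1 0 0, .mk (-1) 0 0, .mk 0 1 0, .mk 0 (-1) 0, .mk 0 0 1] 3 3 2 (.mk 1 1 0 0 0 (-1) 0) 0 0 256 (-4096) 4096 (-4096) (-4096) 0 0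
    (.o 2 3 4 5 2 2 (.o 0 3 6 6 2 2 (.o 4 6 0 6 2 2 (.o 0 6 0 6 4 4 .nil))))))))))))))))))

/-- Goals of `n_DU1_7` after part 2. -/
noncomputable def g_DU1_7_2 : G :=
  (.x [.mk 5 (-1) (-1), .mk 1 0 0, .mk (-1) 0 0, .mk 0 1 0, .mk 0 (-1) 0, .mk 0 0 1] 3 3 2 (.mk 2 2 2 1 1 0 1) 1 1 1 8 13 (-3) (-1) 0 2
    (.x [.mk 5 (-1) (-1), .mk 1 0 0, .mk (-1) 0 0, .mk 0 1 0, .mk 0 (-1) 0, .mk 0 0 1] 3 3 2 (.mk 2 2 2 1 1 0 1) 1 1 1 8 13 0 1 (-2) 2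
    (.x [.mk 5 (-1) (-1), .mk 1 0 0, .mk (-1) 0 0, .mk 0 1 0, .mk 0 (-1) 0, .mk 0 0 1] 3 3 2 (.mk 2 2 2 1 1 0 1) 1 1 1 1 13 (-6) 1 3 7
    (.x [.mk 5 (-1) (-1), .mk 1 0 0, .mk (-1) 0 0, .mk 0 1 0, .mk 0 (-1) 0, .mk 0 0 1] 3 3 2 (.mk 2 2 2 1 1 0 1) 1 1 1 1 13 2 5 (-2) 7
    (.x [.mk 5 (-1) (-1), .mk 1 0 0, .mk (-1) 0 0, .mk 0 1 0, .mk 0 (-1) 0, .mk 0 0 1] 3 3 2 (.mk 2 2 2 1 1 0 1) 1 1 1 1 13 (-11) 5 8 13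
    (.x [.mk 5 (-1) (-1), .mk 1 0 0, .mk (-1) 0 0, .mk 0 1 0, .mk 0 (-1) 0, .mk 0 0 1] 3 3 2 (.mk 2 2 2 1 1 0 1) 1 1 1 1 13 6 13 (-5) 13
    (.x [.mk 5 (-1) (-1), .mk 1 0 0, .mk (-1) 0 0, .mk 0 1 0, .mk 0 (-1) 0, .mk 0 0 1] 3 3 2 (.mk 2 2 2 1 1 0 1) 0 0 256 3584 3584 (-3584) 3584 (-3584) 3584
    (.x [.mk 5 (-1) (-1), .mk 1 0 0, .mk (-1) 0 0, .mk 0 1 0, .mk 0 (-1) 0, .mk 0 0 1] 3 3 2 (.mk 2 2 2 1 1 0 1) 0 0 256 (-3584) (-3584) (-3584) 3584 (-3584) 3584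
    (.x [.mk 5 (-1) (-1), .mk 1 0 0, .mk (-1) 0 0, .mk 0 1 0, .mk 0 (-1) 0, .mk 0 0 1] 3 3 2 (.mk 2 2 2 1 1 0 1) 0 0 256 (-3584) 3584 3584 3584 (-3584) 3584
    (.x [.mk 5 (-1) (-1), .mk 1 0 0, .mk (-1) 0 0, .mk 0 1 0, .mk 0 (-1) 0, .mk 0 0 1] 3 3 2 (.mk 2 2 2 1 1 0 1) 0 0 256 (-3584) 3584 (-3584) (-3584) (-3584) 3584
    (.x [.mk 5 (-1) (-1), .mk 1 0 0, .mk (-1) 0 0, .mk 0 1 0, .mk 0 (-1) 0, .mk 0 0 1] 3 3 2 (.mk 2 2 2 1 1 0 1) 0 0 256 (-3584) 3584 (-3584) 3584 3584 3584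
    (.x [.mk 5 (-1) (-1), .mk 1 0 0, .mk (-1) 0 0, .mk 0 1 0, .mk 0 (-1) 0, .mk 0 0 1] 3 3 2 (.mk 2 2 2 1 1 0 1) 0 0 256 (-3584) 3584 (-3584) 3584 (-3584) (-3584)
    (.x [.mk 1 0 0, .mk (-1) 0 0, .mk 0 1 0, .mk 0 (-1) 0, .mk 0 0 1] 3 3 2 (.mk 1 1 0 0 0 (-1) 0) 1 1 1 5 5 0 0 0 0
    (.x [.mk 1 0 0, .mk (-1) 0 0, .mk 0 1 0, .mk 0 (-1) 0, .mk 0 0 1] 3 3 2 (.mk 1 1 0 0 0 (-1) 0) 1 1 1 6 6 (-1) 0 0 0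
    (.x [.mk 1 0 0, .mk (-1) 0 0, .mk 0 1 0, .mk 0 (-1) 0, .mk 0 0 1] 3 3 2 (.mk 1 1 0 0 0 (-1) 0) 1 1 1 7 8 (-1) 0 0 0
    (.x [.mk 1 0 0, .mk (-1) 0 0, .mk 0 1 0, .mk 0 (-1) 0, .mk 0 0 1] 3 3 2 (.mk 1 1 0 0 0 (-1) 0) 1 1 1 5 8 1 2 0 0
    (.x [.mk 1 0 0, .mk (-1) 0 0, .mk 0 1 0, .mk 0 (-1) 0, .mk 0 0 1] 3 3 2 (.mk 1 1 0 0 0 (-1) 0) 1 1 1 9 15 (-3) 2 0 0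
    (.x [.mk 1 0 0, .mk (-1) 0 0, .mk 0 1 0, .mk 0 (-1) 0, .mk 0 0 1] 3 3 2 (.mk 1 1 0 0 0 (-1) 0) 1 1 1 1 15 3 15 0 0
    (.x [.mk 1 0 0, .mk (-1) 0 0, .mk 0 1 0, .mk 0 (-1) 0, .mk 0 0 1] 3 3 2 (.mk 1 1 0 0 0 (-1) 0) 0 0 256 4096 4096 (-4096) 4096 0 0
    (.x [.mk 1 0 0, .mk (-1) 0 0, .mk 0 1 0, .mk 0 (-1) 0, .mk 0 0 1] 3 3 2 (.mk 1 1 0 0 0 (-1) 0) 0 0 256 (-4096) (-4096) (-4096) 4096 0 0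
    (.x [.mk 1 0 0, .mk (-1) 0 0, .mk 0 1 0, .mk 0 (-1) 0, .mk 0 0 1] 3 3 2 (.mk 1 1 0 0 0 (-1) 0) 0 0 256 (-4096) 4096 4096 4096 0 0
    (.x [.mk 1 0 0, .mk (-1) 0 0, .mk 0 1 0, .mk 0 (-1) 0, .mk 0 0 1] 3 3 2 (.mk 1 1 0 0 0 (-1) 0) 0 0 256 (-4096) 4096 (-4096) (-4096) 0 0
    (.o 2 3 4 5 2 2 (.o 0 3 6 6 2 2 (.o 4 6 0 6 2 2 (.o 0 6 0 6 4 4 .nil))))))))))))))))))))))))))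

/-- Goals of `n_WU1_11` after part 1. -/
noncomputable def g_WU1_11_1 : G :=
  (.x [.mk (-1) 5 (-1), .mk 1 0 0, .mk 0 1 0, .mk (-1) (-1) 0, .mk 0 0 1] 1 4 7 (.mk 2 2 2 0 1 1 1) 0 0 256 (-1536) 1536 (-1536) 1536 1536 1536
    (.x [.mk (-1) 5 (-1), .mk 1 0 0, .mk 0 1 0, .mk (-1) (-1) 0, .mk 0 0 1] 1 4 7 (.mk 2 2 2 0 1 1 1) 0 0 256 (-1536) 1536 (-1536) 1536 (-1536) (-1536)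
    (.x [.mk 1 0 0, .mk 0 1 0, .mk (-1) (-1) 0, .mk 0 0 1] 1 4 7 (.mk 1 1 0 0 0 (-1) 0) 1 1 1 0 0 5 5 0 0
    (.x [.mk 1 0 0, .mk 0 1 0, .mk (-1) (-1) 0, .mk 0 0 1] 1 4 7 (.mk 1 1 0 0 0 (-1) 0) 1 1 1 (-1) 0 6 7 0 0
    (.x [.mk 1 0 0, .mk 0 1 0, .mk (-1) (-1) 0, .mk 0 0 1] 1 4 7 (.mk 1 1 0 0 0 (-1) 0) 1 1 1 (-6) 0 8 14 0 0
    (.x [.mk 1 0 0, .mk 0 1 0, .mk (-1) (-1) 0, .mk 0 0 1] 1 4 7 (.mk 1 1 0 0 0 (-1) 0) 1 1 1 1 14 (-14) 14 0 0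
    (.x [.mk 1 0 0, .mk 0 1 0, .mk (-1) (-1) 0, .mk 0 0 1] 1 4 7 (.mk 1 1 0 0 0 (-1) 0) 0 0 256 3840 3840 (-3840) 3840 0 0
    (.x [.mk 1 0 0, .mk 0 1 0, .mk (-1) (-1) 0, .mk 0 0 1] 1 4 7 (.mk 1 1 0 0 0 (-1) 0) 0 0 256 (-3840) (-3840) (-3840) 3840 0 0
    (.x [.mk 1 0 0, .mk 0 1 0, .mk (-1) (-1) 0, .mk 0 0 1] 1 4 7 (.mk 1 1 0 0 0 (-1) 0) 0 0 256 (-3840) 3840 3840 3840 0 0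
    (.x [.mk 1 0 0, .mk 0 1 0, .mk (-1) (-1) 0, .mk 0 0 1] 1 4 7 (.mk 1 1 0 0 0 (-1) 0) 0 0 256 (-3840) 3840 (-3840) (-3840) 0 0
    (.o 2 2 2 4 7 7 (.o 0 2 5 5 7 7 (.o 3 5 0 5 7 7 (.o 0 5 6 10 7 7 (.o 6 10 0 10 7 7 (.o 0 10 0 10 8 8 .nil))))))))))))))))

end Pool.Agent.Lib.MP_0bc52e_nt.N7
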