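import Pool.Agent.Lib.MP_0bc52e_nt.N7.Defs
import Pool.Agent.Lib.MP_0bc52e_nt.K.Stm

/-!
Soundness of the checker of `N7/Chk.lean` (MP_0bc52e_nt): statements, with their proofs in the docstrings.
-/

namespace Pool.Agent.Lib.MP_0bc52e_nt.N7

open Pool.Agent.Lib.MP_0bc52e_nt.LC Pool.Agent.Lib.MP_0bc52e_nt.T Pool.Agent.Lib.MP_0bc52e_nt.R Pool.Agent.Lib.MP_0bc52e_nt.K

/-- [rgn] Proof. `rgn regs 0 = rgn regs 1 = [F4.mk 0 0 0 (-1)]`, `rgn regs (k + 2) = nth _ regs k`. The form `F4.mk 0 0 0 (-1)` is negative at every `x`; for the last part [nth] (an element of the list, or the default; a polytope of the class contains the origin, `Cls`). -/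
def S_rgn : Prop := ∀ (PP : Set (ℝ × ℝ × ℝ) → Prop) (regs : List (List F4)), Cls PP → RegOK PP regs →
  (∀ (f : Fam) (x : P3), fdim f < 2 → ¬ InR regs f x) ∧
  ∀ f Q, PP Q → ∃ x : ℤ × ℤ × ℤ, ip x ∈ Q ∧ ¬ InR regs f (toP x)

/-- [pushF7] As [pushF] of `K/Stm.lean`, with the disjunction. -/
def S_pushF7 : Prop := ∀ (PP : Set (ℝ × ℝ × ℝ) → Prop) (p : ℤ) (D : ℤ × ℤ × ℤ → Prop) (regs : List (List F4)) (V0 V : List P3) (u1 u2 u3 L M h : ℤ) (l : G) (f : Fam),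
  0 ≤ L → 0 < h → M = h * (L + 1) → All7 PP p D regs V0 (pushF V u1 u2 u3 L M h l f) →
  (∀ m1 m2 m3 : ℤ, f.ok m3 → InR regs f (f.pt m1 m2 m3) ∨ Dd PP p (f.pt m1 m2 m3 :: V) (u1, u2, u3)) ∧ All7 PP p D regs V0 l

/-- [pushL7] As [pushL]: uses [pushF7]. -/
def S_pushL7 : Prop := ∀ (PP : Set (ℝ × ℝ × ℝ) → Prop) (p : ℤ) (D : ℤ × ℤ × ℤ → Prop) (regs : List (List F4)) (V0 V : List P3) (u1 u2 u3 L M h : ℤ) (l : G) (fs : List Fam),
  0 ≤ L → 0 < h → M = h * (L + 1) → All7 PP p D regs V0 (pushL V u1 u2 u3 L M h l fs) →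
  fs ≠ [] ∧ (∀ f ∈ fs, ∀ m1 m2 m3 : ℤ, f.ok m3 → InR regs f (f.pt m1 m2 m3) ∨ Dd PP p (f.pt m1 m2 m3 :: V) (u1, u2, u3)) ∧ All7 PP p D regs V0 l

/-- [stP7] One step for a box of residues, as [stP] (with [spO], [klP], [alO], [syO], now with `All7`); the families of `ofams` have `fdim < 2`, so [rgn] excludes the first alternative. -/
def S_stP7 : Prop := ∀ (PP : Set (ℝ × ℝ × ℝ) → Prop) (q : ℤ) (D : ℤ × ℤ × ℤ → Prop) (regs : List (List F4)) (V0 : List P3) (cells : List (List F4)) (ofams : List (List Fam)) (syms : List M3)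
  (a1 b1 a2 b2 a3 b3 : ℤ) (l : G) (d : ℕ), 0 < q → Cls PP → RegOK PP regs → CellOK PP V0 cells → FamOK PP ofams → (∀ fs ∈ ofams, ∀ f ∈ fs, fdim f < 2) → SymOK PP q D V0 (I3 :: syms) →
  All7 PP q D regs V0 (stO 1 1 q q 1 cells V0 ofams syms a1 b1 a2 b2 a3 b3 l d) → GO PP q 1 1 D V0 a1 b1 a2 b2 a3 b3 ∧ All7 PP q D regs V0 l

/-- [inX] Proof. `okT` says that all forms `F4.mk c1 c2 c3 d` of the region have `0 ≤ mn (t1 c1) a1 b1 + mn (t2 c2) a2 b2 + mn (t3 c3) a3 b3 + (c1 e1 + c2 e2 + c3 e3) + d`; with [mnle] (`κ = M = 1`) this is at most the value of the form at the point of the family. -/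
def S_inX : Prop := ∀ (PP : Set (ℝ × ℝ × ℝ) → Prop) (p : ℤ) (D : ℤ × ℤ × ℤ → Prop) (regs : List (List F4)) (V0 V : List P3) (u1 u2 u3 : ℤ) (f : Fam) (a0 b0 a1 b1 a2 b2 a3 b3 : ℤ) (l : G),
  All7 PP p D regs V0 (inX regs f a1 b1 a2 b2 a3 b3 l) → GX7 PP p regs V (u1, u2, u3) f 1 a0 b0 a1 b1 a2 b2 a3 b3 ∧ All7 PP p D regs V0 l

/-- [clX] Proof. The box is one point `x`. By [pushF7] for `x :: V` and the family `f' = Fam.mk 1 1 1 0 0 0 (k + 2)` of all integer points: every integer point `y` is in the region of `f'`, or `y :: x :: V` is dead at `u`. Let `Q` be in the class, containing `x :: V`, alive at `u`. By [rgn] there is an integer point `y` of `Q` that is not in the region: contradiction. -/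
def S_clX : Prop := ∀ (PP : Set (ℝ × ℝ × ℝ) → Prop) (p : ℤ) (D : ℤ × ℤ × ℤ → Prop) (regs : List (List F4)) (V0 V : List P3) (u1 u2 u3 : ℤ) (f : Fam) (a0 b0 a1 b1 a2 b2 a3 b3 : ℤ) (l : G) (L k : ℕ),
  Cls PP → RegOK PP regs → All7 PP p D regs V0 (clX V u1 u2 u3 f a1 b1 a2 b2 a3 b3 l L k) →
  GX7 PP p regs V (u1, u2, u3) f 1 a0 b0 a1 b1 a2 b2 a3 b3 ∧ All7 PP p D regs V0 l

/-- [stX7] One step for a box of points: the split as [spX], the kill [klX] (`K/P/klX.lean`), `alX` as [alX] (the family `clf c` has `fdim = 1`), and the new digits [inX], [clX]; for `dl = 0` the last two give `G.bad`, for `dl ≥ 2` the goal is trivial. -/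
def S_stX7 : Prop := ∀ (PP : Set (ℝ × ℝ × ℝ) → Prop) (q : ℤ) (D : ℤ × ℤ × ℤ → Prop) (regs : List (List F4)) (V0 V : List P3) (u1 u2 u3 : ℤ) (f : Fam) (dl : ℕ)
  (a0 b0 a1 b1 a2 b2 a3 b3 : ℤ) (l : G) (d : ℕ), Cls PP → RegOK PP regs → All7 PP q D regs V0 (stX7 q regs V u1 u2 u3 f dl a0 b0 a1 b1 a2 b2 a3 b3 l d) →
  GX7 PP q regs V (u1, u2, u3) f dl a0 b0 a1 b1 a2 b2 a3 b3 ∧ All7 PP q D regs V0 l

/-- [core7] Uses [stP7], [stX7]; the loop as [loop]. -/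
def S_core7 : Prop := ∀ (PP : Set (ℝ × ℝ × ℝ) → Prop) (q : ℤ) (D : ℤ × ℤ × ℤ → Prop) (V0 : List P3) (cells : List (List F4)) (ofams : List (List Fam)) (syms : List M3) (regs : List (List F4)),
  0 < q → Cls PP → RegOK PP regs → CellOK PP V0 cells → FamOK PP ofams → (∀ fs ∈ ofams, ∀ f ∈ fs, fdim f < 2) → SymOK PP q D V0 (I3 :: syms) →
  ∀ (fuel c : ℕ) (cs : List ℕ) (g : G), loop7 q cells V0 ofams syms regs fuel c cs g = true → All7 PP q D regs V0 g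

end Pool.Agent.Lib.MP_0bc52e_nt.N7
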